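import Pool.Agent.CPL.BAS

set_option autoImplicit false

/-!
# Angles

`ang z v a b` is the angle at `v` of the triangle `v, a, b`. Use `Complex.arg`, `Complex.cos_arg`, `Complex.arg_mul_coe_angle` or
`Complex.arg_eq...`. `ang_sum`: the product of the three quotients is `-1` and the three arguments are in `(0, π)`, so the sum is in `(0, 3π)` and
congruent to `π` modulo `2π`. `cos_ang`: law of cosines with sides `r_v + r_a`, `r_v + r_b`, `r_a + r_b`.
-/

namespace Pool.Agent.CPL



/-- the angle at `v` -/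
noncomputable def ang (z : ℕ → ℂ) (v a b : ℕ) : ℝ := Complex.arg ((z b - z v) / (z a - z v))

/-- positive orientation -/
def Pos (z : ℕ → ℂ) (v a b : ℕ) : Prop := 0 < ((starRingEnd ℂ) (z a - z v) * (z b - z v)).im

theorem Pos.rot {z : ℕ → ℂ} {v a b : ℕ} (h : Pos z v a b) : Pos z a b v := by
  unfold Pos at h ⊢
  simp only [Complex.mul_im, Complex.conj_re, Complex.conj_im, Complex.sub_re, Complex.sub_im] at h ⊢
  nlinarith

private theorem ang_im {p q : ℂ} (h : 0 < ((starRingEnd ℂ) p * q).im) : 0 < (q / p).im := by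
  have hp : p ≠ 0 := by
    rintro rfl
    simp at h
  have hn : 0 < Complex.normSq p := Complex.normSq_pos.2 hp
  rw [Complex.div_im]
  simp only [Complex.mul_im, Complex.conj_re, Complex.conj_im] at h
  rw [← sub_div]
  apply div_pos _ hn
  linarith

theorem Pos.ang_pos {z : ℕ → ℂ} {v a b : ℕ} (h : Pos z v a b) : 0 < ang z v a b := by
  have h1 := ang_im h
  unfold ang
  have h2 : 0 ≤ Complex.arg ((z b - z v) / (z a - z v)) := Complex.arg_nonneg_iff.2 h1.le
  refine lt_of_le_of_ne h2 fun h3 => ?_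
  have h4 := Complex.sin_arg ((z b - z v) / (z a - z v))
  rw [← h3, Real.sin_zero] at h4
  have h5 : ((z b - z v) / (z a - z v)) ≠ 0 := by
    intro h6
    rw [h6] at h1
    simp at h1
  have h6 : 0 < ‖(z b - z v) / (z a - z v)‖ := norm_pos_iff.2 h5
  have h7 : 0 < ((z b - z v) / (z a - z v)).im / ‖(z b - z v) / (z a - z v)‖ := div_pos h1 h6
  linarith

theorem Pos.ang_lt {z : ℕ → ℂ} {v a b : ℕ} (h : Pos z v a b) : ang z v a b < Real.pi := by
  have h1 := ang_im h
  unfold ang
  exact Complex.arg_lt_pi_iff.2 (Or.inr h1.ne')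

theorem Pos.ang_sum {z : ℕ → ℂ} {v a b : ℕ} (h : Pos z v a b) :
    ang z v a b + ang z a b v + ang z b v a = Real.pi := by
  have hpi := Real.pi_pos
  have h2 := h.rot
  have h3 := h2.rot
  have a1 := h.ang_pos
  have a2 := h2.ang_pos
  have a3 := h3.ang_pos
  have b1 := h.ang_lt
  have b2 := h2.ang_lt
  have b3 := h3.ang_lt
  have x1 : (z b - z v) / (z a - z v) ≠ 0 := fun he => by
    have := ang_im h; rw [he] at this; simp at this
  have x2 : (z v - z a) / (z b - z a) ≠ 0 := fun he => by
    have := ang_im h2; rw [he] at this; simp at this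
  have x3 : (z a - z b) / (z v - z b) ≠ 0 := fun he => by
    have := ang_im h3; rw [he] at this; simp at this
  have y1 : z a - z v ≠ 0 := fun he => x1 (by rw [he, div_zero])
  have y2 : z b - z a ≠ 0 := fun he => x2 (by rw [he, div_zero])
  have y3 : z v - z b ≠ 0 := fun he => x3 (by rw [he, div_zero])
  have hprod : (z b - z v) / (z a - z v) * ((z v - z a) / (z b - z a))
      * ((z a - z b) / (z v - z b)) = -1 := by
    field_simp
    ring
  have hang : ((ang z v a b + ang z a b v + ang z b v a : ℝ) : Real.Angle) = (Real.pi : ℝ) := by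
    unfold ang
    rw [Real.Angle.coe_add, Real.Angle.coe_add, ← Complex.arg_mul_coe_angle x1 x2,
      ← Complex.arg_mul_coe_angle (mul_ne_zero x1 x2) x3, hprod, Complex.arg_neg_one]
  rw [Real.Angle.angle_eq_iff_two_pi_dvd_sub] at hang
  obtain ⟨k, hk⟩ := hang
  have hk1 : k < 1 := by
    by_contra hge
    push Not at hge
    have : (1 : ℝ) ≤ k := by exact_mod_cast hge
    nlinarith
  have hk2 : -1 < k := by
    by_contra hge
    push Not at hge
    have : (k : ℝ) ≤ -1 := by exact_mod_cast hge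
    nlinarith
  have hk0 : k = 0 := by omega
  rw [hk0] at hk
  push_cast at hk
  linarith

theorem cos_ang {z : ℕ → ℂ} {r : ℕ → ℝ} {v a b : ℕ} (hv : 0 < r v) (ha : 0 < r a) (hb : 0 < r b)
    (h1 : dist (z v) (z a) = r v + r a) (h2 : dist (z a) (z b) = r a + r b)
    (h3 : dist (z b) (z v) = r b + r v) :
    Real.cos (ang z v a b) = 1 - 2 * (r a / (r v + r a)) * (r b / (r v + r b)) := by
  have n1 : ‖z a - z v‖ = r v + r a := by rw [← dist_eq_norm, dist_comm]; exact h1
  have n3 : ‖z b - z v‖ = r v + r b := by rw [← dist_eq_norm, h3, add_comm]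
  have n2 : ‖z b - z a‖ = r a + r b := by rw [← dist_eq_norm, dist_comm]; exact h2
  have p1 : 0 < r v + r a := by linarith
  have p3 : 0 < r v + r b := by linarith
  have y1 : z a - z v ≠ 0 := by rw [← norm_pos_iff, n1]; exact p1
  have y3 : z b - z v ≠ 0 := by rw [← norm_pos_iff, n3]; exact p3
  unfold ang
  rw [Complex.cos_arg (div_ne_zero y3 y1), norm_div, n1, n3]
  have s1 : Complex.normSq (z a - z v) = (r v + r a) ^ 2 := by rw [Complex.normSq_eq_norm_sq, n1]
  have s3 : Complex.normSq (z b - z v) = (r v + r b) ^ 2 := by rw [Complex.normSq_eq_norm_sq, n3]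
  have s2 : Complex.normSq (z b - z a) = (r a + r b) ^ 2 := by rw [Complex.normSq_eq_norm_sq, n2]
  rw [Complex.div_re, s1]
  rw [Complex.normSq_apply] at s1 s2 s3
  simp only [Complex.sub_re, Complex.sub_im] at s1 s2 s3 ⊢
  rw [← add_div, div_div]
  have hre : ((z b).re - (z v).re) * ((z a).re - (z v).re)
      + ((z b).im - (z v).im) * ((z a).im - (z v).im)
      = ((r v + r a) ^ 2 + (r v + r b) ^ 2 - (r a + r b) ^ 2) / 2 := by nlinarith
  rw [hre]
  field_simp
  ring

theorem exp_ang {z : ℕ → ℂ} {v a b : ℕ} (ha : z a ≠ z v) (hb : z b ≠ z v) :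
    Complex.exp (ang z v a b * Complex.I) =
      ((z b - z v) / (‖z b - z v‖ : ℂ)) / ((z a - z v) / (‖z a - z v‖ : ℂ)) := by
  have y1 : z a - z v ≠ 0 := sub_ne_zero.2 ha
  have y2 : z b - z v ≠ 0 := sub_ne_zero.2 hb
  have h1 := Complex.norm_mul_exp_arg_mul_I ((z b - z v) / (z a - z v))
  rw [norm_div] at h1
  have n1 : (‖z a - z v‖ : ℂ) ≠ 0 := by exact_mod_cast norm_ne_zero_iff.2 y1
  have n2 : (‖z b - z v‖ : ℂ) ≠ 0 := by exact_mod_cast norm_ne_zero_iff.2 y2
  unfold ang
  push_cast at h1
  rw [div_div_div_eq, eq_div_iff (mul_ne_zero n2 y1)]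
  rw [eq_div_iff y1] at h1
  have h2 : (‖z a - z v‖ : ℂ) * ((‖z b - z v‖ : ℂ) / (‖z a - z v‖ : ℂ)) = (‖z b - z v‖ : ℂ) := by
    field_simp
  calc Complex.exp (Complex.arg ((z b - z v) / (z a - z v)) * Complex.I)
        * ((‖z b - z v‖ : ℂ) * (z a - z v))
      = (‖z a - z v‖ : ℂ) * ((‖z b - z v‖ : ℂ) / (‖z a - z v‖ : ℂ)
        * Complex.exp (Complex.arg ((z b - z v) / (z a - z v)) * Complex.I) * (z a - z v)) := by
        rw [← h2]; field_simp
    _ = (‖z a - z v‖ : ℂ) * (z b - z v) := by rw [h1]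
    _ = (z b - z v) * (‖z a - z v‖ : ℂ) := by ring

/-- two positively oriented triangles on the same side with the same side lengths have the same third vertex -/
theorem third_unique {p q s t : ℂ} (hs : 0 < ((starRingEnd ℂ) (q - p) * (s - p)).im)
    (ht : 0 < ((starRingEnd ℂ) (q - p) * (t - p)).im) (h1 : dist p s = dist p t)
    (h2 : dist q s = dist q t) : s = t := by
  have hd : (starRingEnd ℂ) (q - p) ≠ 0 := by
    intro he
    rw [he] at hs
    simp at hs
  have e1 : Complex.normSq (s - p) = Complex.normSq (t - p) := by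
    rw [Complex.normSq_eq_norm_sq, Complex.normSq_eq_norm_sq, ← dist_eq_norm, ← dist_eq_norm,
      dist_comm s p, dist_comm t p, h1]
  have e2 : Complex.normSq (s - q) = Complex.normSq (t - q) := by
    rw [Complex.normSq_eq_norm_sq, Complex.normSq_eq_norm_sq, ← dist_eq_norm, ← dist_eq_norm,
      dist_comm s q, dist_comm t q, h2]
  rw [Complex.normSq_apply, Complex.normSq_apply] at e1 e2
  have hre : ((starRingEnd ℂ) (q - p) * (s - p)).re = ((starRingEnd ℂ) (q - p) * (t - p)).re := by
    simp only [Complex.mul_re, Complex.conj_re, Complex.conj_im, Complex.sub_re, Complex.sub_im]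
      at e1 e2 ⊢
    nlinarith
  have hnorm : Complex.normSq ((starRingEnd ℂ) (q - p) * (s - p))
      = Complex.normSq ((starRingEnd ℂ) (q - p) * (t - p)) := by
    rw [Complex.normSq_mul, Complex.normSq_mul, Complex.normSq_apply (s - p),
      Complex.normSq_apply (t - p), e1]
  rw [Complex.normSq_apply, Complex.normSq_apply, hre] at hnorm
  have him : ((starRingEnd ℂ) (q - p) * (s - p)).im = ((starRingEnd ℂ) (q - p) * (t - p)).im := by
    have h5 : ((starRingEnd ℂ) (q - p) * (s - p)).im * ((starRingEnd ℂ) (q - p) * (s - p)).im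
        = ((starRingEnd ℂ) (q - p) * (t - p)).im * ((starRingEnd ℂ) (q - p) * (t - p)).im := by
      linarith
    exact (mul_self_inj hs.le ht.le).1 h5
  have h6 : (starRingEnd ℂ) (q - p) * (s - p) = (starRingEnd ℂ) (q - p) * (t - p) :=
    Complex.ext hre him
  have h7 := mul_left_cancel₀ hd h6
  exact sub_left_injective h7

end Pool.Agent.CPL
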