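import Pool.Agent.CPL.Defs

set_option autoImplicit false

/-!
# Basic lemmas on triangulations

Everything follows from `rot`, `ne`, `uniq`, `opp` of `IsTri`. `deg_three_le`: if `v` has a neighbour `a`,
the faces `(v, a, b)`, `(v, b, c)`, ... Degree `0`: `conn` and `4 ≤ |V|` give a neighbour. Degree `1`: `(v, a, a)`
contradicts `ne`. Degree `2`: `(v, a, b), (v, b, a) ∈ F`, hence `(a, b, v), (a, v, b) ∈ F` is the whole link of `a` (by `link`)
and `(b, v, a), (b, a, v) ∈ F` the whole link of `b`, so `{v, a, b}` is closed under adjacency, contradiction to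
`conn` and `4 ≤ |V|`.
-/

namespace Pool.Agent.CPL

open Finset

variable {V : Finset ℕ} {F : Finset Tr} {a b c d v w : ℕ}

/-- the degree of a vertex -/
def deg (F : Finset Tr) (v : ℕ) : ℕ := (F.filter fun t => t.1 = v).card

theorem mem_rots {t : Tr} : t ∈ rots a b c ↔ t = (a, b, c) ∨ t = (b, c, a) ∨ t = (c, a, b) := by
  simp [rots]

theorem rots_rot (a b c : ℕ) : rots b c a = rots a b c := by
  ext t
  simp only [mem_rots]
  tauto

theorem card_rots (hab : a ≠ b) (hbc : b ≠ c) (hca : c ≠ a) : (rots a b c).card = 3 := by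
  unfold rots
  rw [card_insert_of_notMem, card_insert_of_notMem, card_singleton]
  · simp only [mem_singleton, Prod.mk.injEq, not_and]
    intro h
    exact absurd h hbc
  · simp only [mem_insert, mem_singleton, Prod.mk.injEq, not_or, not_and]
    exact ⟨fun h => absurd h hab, fun h => absurd h.symm hca⟩

theorem mem_TriOn : F ∈ TriOn V ↔ IsTri V F ∧ (0, 1, 2) ∈ F := by
  classical
  unfold TriOn
  rw [mem_filter]
  refine ⟨fun h => h.2, fun h => ⟨?_, h⟩⟩
  rw [mem_powerset]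
  rintro ⟨a, b, c⟩ ht
  have h1 := h.1.rot _ _ _ ht
  exact mem_product.mpr ⟨h.1.mem _ _ _ ht, mem_product.mpr ⟨h.1.mem _ _ _ h1,
    h.1.mem _ _ _ (h.1.rot _ _ _ h1)⟩⟩

theorem mem_Tri {n : ℕ} : F ∈ Tri n ↔ IsTri (range n) F ∧ (0, 1, 2) ∈ F := mem_TriOn

theorem IsTri.rot2 (h : IsTri V F) (ht : (a, b, c) ∈ F) : (c, a, b) ∈ F :=
  h.rot _ _ _ (h.rot _ _ _ ht)

theorem IsTri.mem2 (h : IsTri V F) (ht : (a, b, c) ∈ F) : b ∈ V := h.mem _ _ _ (h.rot _ _ _ ht)

theorem IsTri.mem3 (h : IsTri V F) (ht : (a, b, c) ∈ F) : c ∈ V := h.mem _ _ _ (h.rot2 ht)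

theorem IsTri.ne12 (h : IsTri V F) (ht : (a, b, c) ∈ F) : a ≠ b := h.ne _ _ _ ht

theorem IsTri.ne23 (h : IsTri V F) (ht : (a, b, c) ∈ F) : b ≠ c := h.ne _ _ _ (h.rot _ _ _ ht)

theorem IsTri.ne31 (h : IsTri V F) (ht : (a, b, c) ∈ F) : c ≠ a := h.ne _ _ _ (h.rot2 ht)

theorem IsTri.uniq3 (h : IsTri V F) (h1 : (a, b, c) ∈ F) (h2 : (a, b, d) ∈ F) : c = d :=
  h.uniq _ _ _ _ h1 h2

theorem IsTri.uniq2 (h : IsTri V F) (h1 : (a, b, c) ∈ F) (h2 : (a, d, c) ∈ F) : b = d :=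
  h.uniq _ _ _ _ (h.rot2 h1) (h.rot2 h2)

theorem IsTri.uniq1 (h : IsTri V F) (h1 : (a, b, c) ∈ F) (h2 : (d, b, c) ∈ F) : a = d :=
  h.uniq _ _ _ _ (h.rot _ _ _ h1) (h.rot _ _ _ h2)

theorem IsTri.rots_subset (h : IsTri V F) (ht : (a, b, c) ∈ F) : rots a b c ⊆ F := by
  intro t ht'
  rcases mem_rots.mp ht' with rfl | rfl | rfl
  · exact ht
  · exact h.rot _ _ _ ht
  · exact h.rot2 ht

/-- every vertex `b` of the link of `v` has a predecessor and a successor -/
theorem IsTri.next (h : IsTri V F) (ht : (v, a, b) ∈ F) : ∃ c, (v, b, c) ∈ F :=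
  h.opp _ _ _ (h.rot2 ht)

theorem IsTri.prev (h : IsTri V F) (ht : (v, a, b) ∈ F) : ∃ c, (v, c, a) ∈ F := by
  obtain ⟨d, hd⟩ := h.opp _ _ _ ht
  exact ⟨d, h.rot _ _ _ hd⟩

/-- adjacency is symmetric -/
theorem IsTri.adj_symm (h : IsTri V F) : (∃ c, (a, b, c) ∈ F) ↔ ∃ c, (b, a, c) ∈ F :=
  ⟨fun ⟨_, hc⟩ => h.opp _ _ _ hc, fun ⟨_, hc⟩ => h.opp _ _ _ hc⟩

theorem IsTri.card_darts (h : IsTri V F) : (darts F).card = F.card := by
  unfold darts
  apply card_image_of_injOn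
  rintro ⟨a, b, c⟩ h1 ⟨a', b', c'⟩ h2 he
  simp only [Prod.mk.injEq] at he
  obtain ⟨rfl, rfl⟩ := he
  rw [h.uniq _ _ _ _ (mem_coe.mp h1) (mem_coe.mp h2)]

theorem mem_darts : (a, b) ∈ darts F ↔ ∃ c, (a, b, c) ∈ F := by
  unfold darts
  rw [mem_image]
  constructor
  · rintro ⟨⟨x, y, c⟩, ht, he⟩
    simp only [Prod.mk.injEq] at he
    obtain ⟨rfl, rfl⟩ := he
    exact ⟨c, ht⟩
  · rintro ⟨c, hc⟩
    exact ⟨(a, b, c), hc, rfl⟩

theorem IsTri.sum_deg (h : IsTri V F) : ∑ v ∈ V, deg F v = F.card := by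
  unfold deg
  rw [← card_eq_sum_card_fiberwise (f := fun t : Tr => t.1) (s := F) (t := V)]
  rintro ⟨a, b, c⟩ ht
  exact h.mem _ _ _ (mem_coe.mp ht)

open Classical in
theorem IsTri.deg_eq (h : IsTri V F) (v : ℕ) : deg F v = (V.filter fun a => ∃ b, (v, a, b) ∈ F).card := by
  unfold deg
  apply card_bij (fun t _ => t.2.1)
  · rintro ⟨a, b, c⟩ ht
    rw [mem_filter] at ht
    obtain ⟨ht, rfl⟩ := ht
    rw [mem_filter]
    exact ⟨h.mem2 ht, c, ht⟩
  · rintro ⟨a, b, c⟩ ht ⟨a', b', c'⟩ ht' he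
    rw [mem_filter] at ht ht'
    obtain ⟨ht, rfl⟩ := ht
    obtain ⟨ht', hv⟩ := ht'
    simp only at hv he
    subst hv he
    rw [h.uniq _ _ _ _ ht ht']
  · intro a ha
    rw [mem_filter] at ha
    obtain ⟨-, b, hb⟩ := ha
    exact ⟨(v, a, b), mem_filter.mpr ⟨hb, rfl⟩, rfl⟩

/-- if the link of `v` is contained in a finite set then its degree is at most the cardinality -/
theorem IsTri.deg_le_of (h : IsTri V F) (S : Finset ℕ) (hS : ∀ a b, (v, a, b) ∈ F → a ∈ S) :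
    deg F v ≤ S.card := by
  classical
  rw [h.deg_eq]
  apply card_le_card
  intro a ha
  rw [mem_filter] at ha
  obtain ⟨-, b, hb⟩ := ha
  exact hS a b hb

/-- a closed subset of the link of `v` is the whole link -/
theorem IsTri.link_closed (h : IsTri V F) (S : Set ℕ) (ha : a ∈ S) (hab : (v, a, b) ∈ F)
    (hS : ∀ x y, x ∈ S → (v, x, y) ∈ F → y ∈ S) (hcd : (v, c, d) ∈ F) : c ∈ S := by
  have hp := h.link _ _ _ _ _ hab hcd
  clear hcd
  induction hp with
  | refl => exact ha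
  | tail _ h2 ih => exact hS _ _ ih h2

/-- a set of vertices closed under adjacency is everything -/
theorem IsTri.conn_closed (h : IsTri V F) (S : Set ℕ) (ha : a ∈ S) (haV : a ∈ V)
    (hS : ∀ x y c, x ∈ S → (x, y, c) ∈ F → y ∈ S) (hb : b ∈ V) : b ∈ S := by
  have hp := h.conn _ haV _ hb
  clear hb
  induction hp with
  | refl => exact ha
  | tail _ h2 ih =>
    obtain ⟨e, he⟩ := h2
    exact hS _ _ _ ih he

/-- there is no face on both sides: `(v, a, b)` and `(v, b, a)` are not both faces -/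
theorem IsTri.not_both (h : IsTri V F) (hV : 4 ≤ V.card) (h1 : (v, a, b) ∈ F) : (v, b, a) ∉ F := by
  intro h2
  have key : ∀ p q r : ℕ, (p, q, r) ∈ F → (p, r, q) ∈ F → ∀ x y, (p, x, y) ∈ F →
      x = q ∨ x = r := by
    intro p q r hq hr x y hxy
    refine h.link_closed ({q, r} : Set ℕ) (a := q) (b := r) (c := x) (by simp) hq ?_ hxy
    rintro x y (rfl | hx) hxy
    · right
      exact h.uniq _ _ _ _ hxy hq
    · rw [Set.mem_singleton_iff] at hx
      subst hx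
      left
      exact h.uniq _ _ _ _ hxy hr
  have hall : ∀ x ∈ V, x ∈ ({v, a, b} : Set ℕ) := by
    intro x hx
    refine h.conn_closed ({v, a, b} : Set ℕ) (a := v) (by simp) (h.mem _ _ _ h1) ?_ hx
    rintro x y c hx hxy
    simp only [Set.mem_insert_iff, Set.mem_singleton_iff] at hx ⊢
    rcases hx with rfl | rfl | rfl
    · rcases key _ _ _ h1 h2 _ _ hxy with h3 | h3 <;> simp [h3]
    · rcases key _ _ _ (h.rot _ _ _ h1) (h.rot2 h2) _ _ hxy with h3 | h3 <;> simp [h3]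
    · rcases key _ _ _ (h.rot _ _ _ h2) (h.rot2 h1) _ _ hxy with h3 | h3 <;> simp [h3]
  have hsub : V ⊆ ({v, a, b} : Finset ℕ) := by
    intro x hx
    have := hall x hx
    simpa using this
  have h3 := card_le_card hsub
  have h4 : ({v, a, b} : Finset ℕ).card ≤ 3 := card_le_three
  omega

theorem IsTri.three_le_deg (h : IsTri V F) (hV : 4 ≤ V.card) (hv : v ∈ V) : 3 ≤ deg F v := by
  classical
  obtain ⟨w, hw, hwv⟩ : ∃ w ∈ V, w ≠ v := by
    by_contra hcon
    push Not at hcon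
    have hsub : V ⊆ ({v} : Finset ℕ) := fun x hx => by simp [hcon x hx]
    have := card_le_card hsub
    simp at this
    omega
  obtain ⟨a, b, hab⟩ : ∃ a b, (v, a, b) ∈ F := by
    by_contra hcon
    push Not at hcon
    have : w ∈ ({v} : Set ℕ) := by
      refine h.conn_closed ({v} : Set ℕ) (a := v) (by simp) hv ?_ hw
      rintro x y c hx hxy
      rw [Set.mem_singleton_iff] at hx
      subst hx
      exact absurd hxy (hcon _ _)
    exact hwv this
  obtain ⟨c, hc⟩ := h.next hab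
  obtain ⟨d, hd⟩ := h.next hc
  have hac : a ≠ c := by
    rintro rfl
    exact h.not_both hV hab hc
  rw [h.deg_eq]
  have hsub : ({a, b, c} : Finset ℕ) ⊆ V.filter fun a => ∃ b, (v, a, b) ∈ F := by
    intro x hx
    simp only [mem_insert, mem_singleton] at hx
    rw [mem_filter]
    rcases hx with rfl | rfl | rfl
    · exact ⟨h.mem2 hab, _, hab⟩
    · exact ⟨h.mem2 hc, _, hc⟩
    · exact ⟨h.mem2 hd, _, hd⟩
  have h1 := card_le_card hsub
  have h2 : ({a, b, c} : Finset ℕ).card = 3 :=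
    card_eq_three.mpr ⟨a, b, c, h.ne23 hab, hac, h.ne23 hc, rfl⟩
  omega

end Pool.Agent.CPL
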