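import Pool.Agent.CPL.BAS

set_option autoImplicit false

/-!
# Relabelling of the vertices

`relab e F` is the image of `F` under the vertex map `e`, injective on `V`. All fields of `IsTri` are transported: for
`link`, `conn` use `Relation.ReflTransGen.lift e`. `card_TriOn`: choose a bijection `e` of `V` onto `range |V|`, fixing
`0`, `1`, `2` (extend the order isomorphisms, or: both sets minus `{0,1,2}` have the same cardinality), and its inverse; the maps
`relab e`, `relab e'` are inverse bijections `TriOn V ≃ Tri |V|`. `sum_perm`: `relab σ` is a bijection of `Tri n`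
(inverse `relab σ⁻¹`).
-/

namespace Pool.Agent.CPL

open Finset

variable {V : Finset ℕ} {F : Finset Tr}

/-- the number of rooted triangulations with `n` labelled vertices -/
noncomputable def cc (n : ℕ) : ℕ := (Tri n).card

/-- image of a set of triples under a vertex map -/
def relab (e : ℕ → ℕ) (F : Finset Tr) : Finset Tr := F.image fun t => (e t.1, e t.2.1, e t.2.2)

theorem mem_relab {e : ℕ → ℕ} {t : Tr} :
    t ∈ relab e F ↔ ∃ a b c, (a, b, c) ∈ F ∧ t = (e a, e b, e c) := by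
  unfold relab
  rw [mem_image]
  constructor
  · rintro ⟨⟨a, b, c⟩, h, rfl⟩
    exact ⟨a, b, c, h, rfl⟩
  · rintro ⟨a, b, c, h, rfl⟩
    exact ⟨(a, b, c), h, rfl⟩

theorem relab_relab (e e' : ℕ → ℕ) : relab e (relab e' F) = relab (e ∘ e') F := by
  unfold relab
  rw [image_image]
  rfl

private theorem rel_mk_mem {e : ℕ → ℕ} {a b c : ℕ} (h : (a, b, c) ∈ F) :
    (e a, e b, e c) ∈ relab e F := mem_relab.mpr ⟨a, b, c, h, rfl⟩

theorem IsTri.relab_eq_self (h : IsTri V F) {e : ℕ → ℕ} (he : ∀ v ∈ V, e v = v) : relab e F = F := by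
  ext t
  rw [mem_relab]
  constructor
  · rintro ⟨a, b, c, ht, rfl⟩
    rw [he a (h.mem _ _ _ ht), he b (h.mem2 ht), he c (h.mem3 ht)]
    exact ht
  · intro ht
    obtain ⟨a, b, c⟩ := t
    exact ⟨a, b, c, ht, by rw [he a (h.mem _ _ _ ht), he b (h.mem2 ht), he c (h.mem3 ht)]⟩

private theorem rel_mem_inj (h : IsTri V F) {e : ℕ → ℕ} (he : Set.InjOn e V) {a b c : ℕ}
    (ha : a ∈ V) (hb : b ∈ V) (hc : c ∈ V) : (e a, e b, e c) ∈ relab e F ↔ (a, b, c) ∈ F := by
  constructor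
  · intro ht
    obtain ⟨a', b', c', h', heq⟩ := mem_relab.mp ht
    simp only [Prod.mk.injEq] at heq
    obtain ⟨h1, h2, h3⟩ := heq
    rw [he ha (h.mem _ _ _ h') h1, he hb (h.mem2 h') h2, he hc (h.mem3 h') h3]
    exact h'
  · intro ht
    exact rel_mk_mem ht

theorem IsTri.relab (h : IsTri V F) {e : ℕ → ℕ} (he : Set.InjOn e V) :
    IsTri (V.image e) (relab e F) := by
  refine ⟨?_, ?_, ?_, ?_, ?_, ?_, ?_, ?_⟩
  · intro a b c ht
    obtain ⟨a', b', c', h', heq⟩ := mem_relab.mp ht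
    simp only [Prod.mk.injEq] at heq
    obtain ⟨rfl, rfl, rfl⟩ := heq
    exact mem_image_of_mem _ (h.mem _ _ _ h')
  · intro a b c ht
    obtain ⟨a', b', c', h', heq⟩ := mem_relab.mp ht
    simp only [Prod.mk.injEq] at heq
    obtain ⟨rfl, rfl, rfl⟩ := heq
    exact rel_mk_mem (h.rot _ _ _ h')
  · intro a b c ht
    obtain ⟨a', b', c', h', heq⟩ := mem_relab.mp ht
    simp only [Prod.mk.injEq] at heq
    obtain ⟨rfl, rfl, rfl⟩ := heq
    intro hab
    exact h.ne12 h' (he (h.mem _ _ _ h') (h.mem2 h') hab)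
  · intro a b c d ht1 ht2
    obtain ⟨a', b', c', h1, heq⟩ := mem_relab.mp ht1
    obtain ⟨a'', b'', d', h2, heq2⟩ := mem_relab.mp ht2
    simp only [Prod.mk.injEq] at heq heq2
    obtain ⟨rfl, rfl, rfl⟩ := heq
    obtain ⟨e1, e2, rfl⟩ := heq2
    have e1' := he (h.mem _ _ _ h1) (h.mem _ _ _ h2) e1
    have e2' := he (h.mem2 h1) (h.mem2 h2) e2
    subst e1' e2'
    rw [h.uniq3 h1 h2]
  · intro a b c ht
    obtain ⟨a', b', c', h', heq⟩ := mem_relab.mp ht
    simp only [Prod.mk.injEq] at heq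
    obtain ⟨rfl, rfl, rfl⟩ := heq
    obtain ⟨d, hd⟩ := h.opp _ _ _ h'
    exact ⟨e d, rel_mk_mem hd⟩
  · intro v a a' b b' ht1 ht2
    obtain ⟨v', x, x', h1, heq⟩ := mem_relab.mp ht1
    obtain ⟨v'', y, y', h2, heq2⟩ := mem_relab.mp ht2
    simp only [Prod.mk.injEq] at heq heq2
    obtain ⟨rfl, rfl, rfl⟩ := heq
    obtain ⟨e1, rfl, rfl⟩ := heq2
    have e1' := he (h.mem _ _ _ h1) (h.mem _ _ _ h2) e1
    subst e1'
    have h3 := h.link _ _ _ _ _ h1 h2
    clear ht1 ht2 h1 h2 e1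
    induction h3 with
    | refl => exact Relation.ReflTransGen.refl
    | tail _ h5 ih => exact ih.tail (rel_mk_mem h5)
  · intro a ha b hb
    obtain ⟨a', ha', rfl⟩ := mem_image.mp ha
    obtain ⟨b', hb', rfl⟩ := mem_image.mp hb
    have h3 := h.conn _ ha' _ hb'
    clear hb hb'
    induction h3 with
    | refl => exact Relation.ReflTransGen.refl
    | tail _ h5 ih =>
      obtain ⟨c, hc⟩ := h5
      exact ih.tail ⟨e c, rel_mk_mem hc⟩
  · have h1 : (Pool.Agent.CPL.relab e F).card = F.card := by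
      unfold Pool.Agent.CPL.relab
      refine card_image_of_injOn ?_
      rintro ⟨a, b, c⟩ h1 ⟨a', b', c'⟩ h2 heq
      have h1' : (a, b, c) ∈ F := by exact_mod_cast h1
      have h2' : (a', b', c') ∈ F := by exact_mod_cast h2
      simp only [Prod.mk.injEq] at heq ⊢
      exact ⟨he (h.mem _ _ _ h1') (h.mem _ _ _ h2') heq.1, he (h.mem2 h1') (h.mem2 h2') heq.2.1,
        he (h.mem3 h1') (h.mem3 h2') heq.2.2⟩
    rw [h1, card_image_of_injOn he]
    exact h.euler

theorem IsTri.deg_relab (h : IsTri V F) {e : ℕ → ℕ} (he : Set.InjOn e V) {v : ℕ} (hv : v ∈ V) :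
    deg (Pool.Agent.CPL.relab e F) (e v) = deg F v := by
  have hset : (Pool.Agent.CPL.relab e F).filter (fun t => t.1 = e v) =
      (F.filter fun t => t.1 = v).image fun t => (e t.1, e t.2.1, e t.2.2) := by
    ext t
    rw [mem_filter, mem_image, mem_relab]
    constructor
    · rintro ⟨⟨a, b, c, ht, rfl⟩, h1⟩
      refine ⟨(a, b, c), ?_, rfl⟩
      rw [mem_filter]
      exact ⟨ht, he (h.mem _ _ _ ht) hv h1⟩
    · rintro ⟨⟨a, b, c⟩, ht, rfl⟩
      rw [mem_filter] at ht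
      obtain ⟨h1, h2⟩ := ht
      refine ⟨⟨a, b, c, h1, rfl⟩, ?_⟩
      simp only at h2 ⊢
      rw [h2]
  unfold deg
  rw [hset]
  refine card_image_of_injOn ?_
  rintro ⟨a, b, c⟩ h1 ⟨a', b', c'⟩ h2 heq
  have h1' : (a, b, c) ∈ F := (mem_filter.mp (by exact_mod_cast h1)).1
  have h2' : (a', b', c') ∈ F := (mem_filter.mp (by exact_mod_cast h2)).1
  simp only [Prod.mk.injEq] at heq ⊢
  exact ⟨he (h.mem _ _ _ h1') (h.mem _ _ _ h2') heq.1, he (h.mem2 h1') (h.mem2 h2') heq.2.1,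
    he (h.mem3 h1') (h.mem3 h2') heq.2.2⟩

/-- a bijection between two finite sets which contain `0`, `1`, `2`, fixing these -/
private theorem rel_exists_bij {V W : Finset ℕ} (hV : {0, 1, 2} ⊆ V) (hW : {0, 1, 2} ⊆ W)
    (hc : V.card = W.card) : ∃ e e' : ℕ → ℕ, (∀ v ∈ V, e v ∈ W ∧ e' (e v) = v) ∧
      (∀ w ∈ W, e' w ∈ V ∧ e (e' w) = w) ∧ e 0 = 0 ∧ e 1 = 1 ∧ e 2 = 2 := by
  classical
  set S : Finset ℕ := {0, 1, 2} with hS
  have h1 : (V \ S).card = (W \ S).card := by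
    rw [card_sdiff_of_subset hV, card_sdiff_of_subset hW, hc]
  let φ : (V \ S : Finset ℕ) ≃ (W \ S : Finset ℕ) := Finset.equivOfCardEq h1
  refine ⟨fun v => if h : v ∈ V \ S then (φ ⟨v, h⟩ : ℕ) else v,
    fun w => if h : w ∈ W \ S then (φ.symm ⟨w, h⟩ : ℕ) else w, ?_, ?_, ?_, ?_, ?_⟩
  · intro v hv
    by_cases h : v ∈ V \ S
    · have h2 : (φ ⟨v, h⟩ : ℕ) ∈ W \ S := (φ ⟨v, h⟩).2
      simp only [dif_pos h, dif_pos h2]
      exact ⟨(mem_sdiff.mp h2).1, by simp⟩
    · have hvS : v ∈ S := by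
        by_contra hvS
        exact h (mem_sdiff.mpr ⟨hv, hvS⟩)
      have h3 : v ∉ W \ S := fun h3 => (mem_sdiff.mp h3).2 hvS
      simp only [dif_neg h, dif_neg h3]
      exact ⟨hW hvS, trivial⟩
  · intro w hw
    by_cases h : w ∈ W \ S
    · have h2 : (φ.symm ⟨w, h⟩ : ℕ) ∈ V \ S := (φ.symm ⟨w, h⟩).2
      simp only [dif_pos h, dif_pos h2]
      exact ⟨(mem_sdiff.mp h2).1, by simp⟩
    · have hvS : w ∈ S := by
        by_contra hvS
        exact h (mem_sdiff.mpr ⟨hw, hvS⟩)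
      have h3 : w ∉ V \ S := fun h3 => (mem_sdiff.mp h3).2 hvS
      simp only [dif_neg h, dif_neg h3]
      exact ⟨hV hvS, trivial⟩
  · have : (0 : ℕ) ∉ V \ S := fun h => (mem_sdiff.mp h).2 (by simp [hS])
    simp only [dif_neg this]
  · have : (1 : ℕ) ∉ V \ S := fun h => (mem_sdiff.mp h).2 (by simp [hS])
    simp only [dif_neg this]
  · have : (2 : ℕ) ∉ V \ S := fun h => (mem_sdiff.mp h).2 (by simp [hS])
    simp only [dif_neg this]

/-- relabelling sends `TriOn V` to `TriOn (V.image e)` -/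
private theorem rel_mem_TriOn {e : ℕ → ℕ} {V W : Finset ℕ} (he : Set.InjOn e V)
    (hVW : V.image e = W) (h0 : e 0 = 0) (h1 : e 1 = 1) (h2 : e 2 = 2) (hF : F ∈ TriOn V) :
    relab e F ∈ TriOn W := by
  rw [mem_TriOn] at hF ⊢
  subst hVW
  refine ⟨hF.1.relab he, ?_⟩
  have := rel_mk_mem (e := e) hF.2
  rwa [h0, h1, h2] at this

theorem card_TriOn (hV : {0, 1, 2} ⊆ V) : (TriOn V).card = cc V.card := by
  have h3 : 3 ≤ V.card := by
    have := card_le_card hV
    have h4 : ({0, 1, 2} : Finset ℕ).card = 3 := by decide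
    omega
  have hW : ({0, 1, 2} : Finset ℕ) ⊆ range V.card := by
    intro x hx
    simp only [mem_insert, mem_singleton] at hx
    rw [mem_range]
    omega
  obtain ⟨e, e', h1, h2, e0, e1, e2⟩ := rel_exists_bij hV hW (by simp)
  have hV0 : (0 : ℕ) ∈ V := hV (by simp)
  have hV1 : (1 : ℕ) ∈ V := hV (by simp)
  have hV2 : (2 : ℕ) ∈ V := hV (by simp)
  have e0' : e' 0 = 0 := by have := (h1 0 hV0).2; rwa [e0] at this
  have e1' : e' 1 = 1 := by have := (h1 1 hV1).2; rwa [e1] at this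
  have e2' : e' 2 = 2 := by have := (h1 2 hV2).2; rwa [e2] at this
  have hinj : Set.InjOn e V := by
    intro x hx y hy hxy
    rw [← (h1 x hx).2, ← (h1 y hy).2, hxy]
  have hinj' : Set.InjOn e' (range V.card) := by
    intro x hx y hy hxy
    rw [← (h2 x hx).2, ← (h2 y hy).2, hxy]
  have him : V.image e = range V.card := by
    ext w
    rw [mem_image]
    constructor
    · rintro ⟨v, hv, rfl⟩
      exact (h1 v hv).1
    · intro hw
      exact ⟨e' w, (h2 w hw).1, (h2 w hw).2⟩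
  have him' : (range V.card).image e' = V := by
    ext v
    rw [mem_image]
    constructor
    · rintro ⟨w, hw, rfl⟩
      exact (h2 w hw).1
    · intro hv
      exact ⟨e v, (h1 v hv).1, (h1 v hv).2⟩
  unfold cc Tri
  refine card_bij' (fun F _ => relab e F) (fun F _ => relab e' F) ?_ ?_ ?_ ?_
  · intro F hF
    exact rel_mem_TriOn hinj him e0 e1 e2 hF
  · intro F hF
    exact rel_mem_TriOn hinj' him' e0' e1' e2' hF
  · intro F hF
    rw [relab_relab]
    exact (mem_TriOn.mp hF).1.relab_eq_self fun v hv => (h1 v hv).2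
  · intro F hF
    rw [relab_relab]
    exact (mem_TriOn.mp hF).1.relab_eq_self fun v hv => (h2 v hv).2

/-- permutations of the inner labels preserve `Tri n` -/
theorem relab_mem_Tri {n : ℕ} (σ : Equiv.Perm ℕ) (h0 : σ 0 = 0) (h1 : σ 1 = 1) (h2 : σ 2 = 2)
    (hn : ∀ i, i < n ↔ σ i < n) (hF : F ∈ Tri n) : relab σ F ∈ Tri n := by
  refine rel_mem_TriOn σ.injective.injOn ?_ h0 h1 h2 hF
  ext w
  rw [mem_image]
  constructor
  · rintro ⟨v, hv, rfl⟩
    rw [mem_range] at hv ⊢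
    exact (hn v).mp hv
  · intro hw
    refine ⟨σ.symm w, ?_, by simp⟩
    rw [mem_range] at hw ⊢
    rw [hn]
    simpa using hw

theorem sum_perm {n : ℕ} (σ : Equiv.Perm ℕ) (h0 : σ 0 = 0) (h1 : σ 1 = 1) (h2 : σ 2 = 2)
    (hn : ∀ i, i < n ↔ σ i < n) (Φ : Finset Tr → ℝ) :
    ∑ F ∈ Tri n, Φ (relab σ F) = ∑ F ∈ Tri n, Φ F := by
  have g0 : σ.symm 0 = 0 := by rw [Equiv.symm_apply_eq, h0]
  have g1 : σ.symm 1 = 1 := by rw [Equiv.symm_apply_eq, h1]
  have g2 : σ.symm 2 = 2 := by rw [Equiv.symm_apply_eq, h2]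
  have gn : ∀ i, i < n ↔ σ.symm i < n := by
    intro i
    rw [hn (σ.symm i)]
    simp
  refine sum_bij' (fun F _ => relab σ F) (fun F _ => relab σ.symm F) ?_ ?_ ?_ ?_ ?_
  · intro F hF
    exact relab_mem_Tri σ h0 h1 h2 hn hF
  · intro F hF
    exact relab_mem_Tri σ.symm g0 g1 g2 gn hF
  · intro F hF
    rw [relab_relab]
    exact (mem_TriOn.mp hF).1.relab_eq_self fun v _ => by simp
  · intro F hF
    rw [relab_relab]
    exact (mem_TriOn.mp hF).1.relab_eq_self fun v _ => by simp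
  · intro F hF
    rfl

end Pool.Agent.CPL
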