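import Pool.Agent.CPL.DEL
import Pool.Agent.CPL.REL

set_option autoImplicit false

/-!
# Triangulations whose last vertex has degree 3

`cf F`: one representative `(a, b, c)`, `a < b`, `a < c`, of every face other than the root face; `3 (|cf F| + 1) = |F| = 6 n - 12`.
`sum_ins`: the map `(F, t) ↦ ins F n t` from the pairs `F ∈ Tri n`, `t ∈ cf F` to `{F' ∈ Tri (n+1) | deg F' n = 3}` is a bijection.
-/

namespace Pool.Agent.CPL

open Finset

variable {V : Finset ℕ} {F : Finset Tr} {n : ℕ}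

/-- one representative of every face other than the root face -/
def cf (F : Finset Tr) : Finset Tr := (F.filter fun t => t.1 < t.2.1 ∧ t.1 < t.2.2).erase (0, 1, 2)

private lemma bij_three {t : Tr} (h : IsTri V F) (ht : t ∈ F) :
    t.1 ≠ t.2.1 ∧ t.2.1 ≠ t.2.2 ∧ t.2.2 ≠ t.1 := by
  obtain ⟨a, b, c⟩ := t
  exact ⟨h.ne12 ht, h.ne23 ht, h.ne31 ht⟩

private lemma bij_card3 (h : IsTri V F) :
    F.card = 3 * (F.filter fun t => t.1 < t.2.1 ∧ t.1 < t.2.2).card := by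
  have h2 : (F.filter fun t => t.2.1 < t.1 ∧ t.2.1 < t.2.2).card =
      (F.filter fun t => t.1 < t.2.1 ∧ t.1 < t.2.2).card := by
    refine card_bij' (fun t _ => (t.2.1, t.2.2, t.1)) (fun t _ => (t.2.2, t.1, t.2.1)) ?_ ?_ ?_ ?_
    · rintro ⟨a, b, c⟩ ht
      rw [mem_filter] at ht ⊢
      exact ⟨h.rot _ _ _ ht.1, ht.2.2, ht.2.1⟩
    · rintro ⟨a, b, c⟩ ht
      rw [mem_filter] at ht ⊢
      exact ⟨h.rot2 ht.1, ht.2.2, ht.2.1⟩
    · rintro ⟨a, b, c⟩ ht
      rfl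
    · rintro ⟨a, b, c⟩ ht
      rfl
  have h3 : (F.filter fun t => t.2.2 < t.1 ∧ t.2.2 < t.2.1).card =
      (F.filter fun t => t.1 < t.2.1 ∧ t.1 < t.2.2).card := by
    refine card_bij' (fun t _ => (t.2.2, t.1, t.2.1)) (fun t _ => (t.2.1, t.2.2, t.1)) ?_ ?_ ?_ ?_
    · rintro ⟨a, b, c⟩ ht
      rw [mem_filter] at ht ⊢
      exact ⟨h.rot2 ht.1, ht.2⟩
    · rintro ⟨a, b, c⟩ ht
      rw [mem_filter] at ht ⊢
      exact ⟨h.rot _ _ _ ht.1, ht.2⟩
    · rintro ⟨a, b, c⟩ ht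
      rfl
    · rintro ⟨a, b, c⟩ ht
      rfl
  have hun : F = (F.filter fun t => t.1 < t.2.1 ∧ t.1 < t.2.2) ∪
      ((F.filter fun t => t.2.1 < t.1 ∧ t.2.1 < t.2.2) ∪
        (F.filter fun t => t.2.2 < t.1 ∧ t.2.2 < t.2.1)) := by
    ext t
    simp only [mem_union, mem_filter]
    constructor
    · intro ht
      obtain ⟨h4, h5, h6⟩ := bij_three h ht
      have : (t.1 < t.2.1 ∧ t.1 < t.2.2) ∨ (t.2.1 < t.1 ∧ t.2.1 < t.2.2) ∨
        (t.2.2 < t.1 ∧ t.2.2 < t.2.1) := by omega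
      tauto
    · tauto
  have hd1 : Disjoint (F.filter fun t => t.2.1 < t.1 ∧ t.2.1 < t.2.2)
      (F.filter fun t => t.2.2 < t.1 ∧ t.2.2 < t.2.1) := by
    rw [disjoint_filter]
    intro t _ h4
    omega
  have hd2 : Disjoint (F.filter fun t => t.1 < t.2.1 ∧ t.1 < t.2.2)
      ((F.filter fun t => t.2.1 < t.1 ∧ t.2.1 < t.2.2) ∪
        (F.filter fun t => t.2.2 < t.1 ∧ t.2.2 < t.2.1)) := by
    rw [disjoint_union_right, disjoint_filter, disjoint_filter]
    constructor <;>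
    · intro t _ h4
      omega
  conv_lhs => rw [hun]
  rw [card_union_of_disjoint hd2, card_union_of_disjoint hd1, h2, h3]
  ring

theorem card_cf (hF : F ∈ Tri n) : (cf F).card + 5 = 2 * n := by
  obtain ⟨h, h0⟩ := mem_Tri.mp hF
  have h1 := bij_card3 h
  have h2 := h.euler
  rw [card_range] at h2
  have h3 : (0, 1, 2) ∈ F.filter fun t => t.1 < t.2.1 ∧ t.1 < t.2.2 := by
    rw [mem_filter]
    exact ⟨h0, by norm_num, by norm_num⟩
  have h4 := card_erase_add_one h3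
  unfold cf
  omega

theorem mem_cf {a b c : ℕ} : (a, b, c) ∈ cf F ↔
    (a, b, c) ∈ F ∧ a < b ∧ a < c ∧ (a, b, c) ≠ (0, 1, 2) := by
  unfold cf
  rw [mem_erase, mem_filter]
  tauto

private lemma bij_insert_range (n : ℕ) : insert n (range n) = range (n + 1) :=
  range_add_one.symm

theorem ins_mem_Tri {t : Tr} (hF : F ∈ Tri n) (ht : t ∈ cf F) : ins F n t.1 t.2.1 t.2.2 ∈ Tri (n + 1) := by
  obtain ⟨h, h0⟩ := mem_Tri.mp hF
  obtain ⟨a, b, c⟩ := t
  obtain ⟨h1, h2, h3, h4⟩ := mem_cf.mp ht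
  have h5 := h.ins (v := n) (by simp) h1
  rw [bij_insert_range] at h5
  refine mem_Tri.mpr ⟨h5, root_mem_ins h0 ?_⟩
  intro h6
  rcases mem_rots.mp h6 with h7 | h7 | h7
  · exact h4 h7.symm
  · simp only [Prod.mk.injEq] at h7
    omega
  · simp only [Prod.mk.injEq] at h7
    omega

/-- the link of the new vertex -/
private lemma bij_link {v a b c x y : ℕ} (h : IsTri V F) (hv : v ∉ V) (ht : (a, b, c) ∈ F)
    (hx : (v, x, y) ∈ ins F v a b c) : (x = a ∧ y = b) ∨ (x = b ∧ y = c) ∨ (x = c ∧ y = a) := by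
  have ha : v ≠ a := fun h1 => hv (h1 ▸ h.mem _ _ _ ht)
  have hb : v ≠ b := fun h1 => hv (h1 ▸ h.mem2 ht)
  have hc : v ≠ c := fun h1 => hv (h1 ▸ h.mem3 ht)
  unfold ins at hx
  simp only [mem_union, mem_sdiff, mem_rots, Prod.mk.injEq] at hx
  rcases hx with h1 | h1
  · exact absurd (h.mem _ _ _ h1.1) hv
  · tauto

private lemma bij_mem_ins {v a b c : ℕ} : (v, a, b) ∈ ins F v a b c ∧ (v, b, c) ∈ ins F v a b c ∧
    (v, c, a) ∈ ins F v a b c := by
  unfold ins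
  simp [mem_rots]

private lemma bij_rotate {v a b c : ℕ} (h : IsTri V F) (h1 : (v, a, b) ∈ F) (h2 : (v, b, c) ∈ F)
    (h3 : (v, c, a) ∈ F) : ∃ a b c, a < b ∧ a < c ∧ (v, a, b) ∈ F ∧ (v, b, c) ∈ F ∧ (v, c, a) ∈ F := by
  have h4 := h.ne23 h1
  have h5 := h.ne23 h2
  have h6 := h.ne23 h3
  have : (a < b ∧ a < c) ∨ (b < c ∧ b < a) ∨ (c < a ∧ c < b) := by omega
  rcases this with h7 | h7 | h7
  · exact ⟨a, b, c, h7.1, h7.2, h1, h2, h3⟩
  · exact ⟨b, c, a, h7.1, h7.2, h2, h3, h1⟩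
  · exact ⟨c, a, b, h7.1, h7.2, h3, h1, h2⟩

theorem sum_ins (hn : 3 ≤ n) (Φ : Finset Tr → ℝ) :
    ∑ F ∈ (Tri (n + 1)).filter (fun F => deg F n = 3), Φ F =
      ∑ F ∈ Tri n, ∑ t ∈ cf F, Φ (ins F n t.1 t.2.1 t.2.2) := by
  rw [sum_sigma']
  symm
  apply sum_bij (fun x _ => ins x.1 n x.2.1 x.2.2.1 x.2.2.2)
  · rintro ⟨F, a, b, c⟩ hx
    rw [mem_sigma] at hx
    obtain ⟨h, h0⟩ := mem_Tri.mp hx.1
    rw [mem_filter]
    exact ⟨ins_mem_Tri hx.1 hx.2, h.deg_ins_self (by simp) (mem_cf.mp hx.2).1⟩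
  · rintro ⟨F, a, b, c⟩ hx ⟨F', a', b', c'⟩ hx' he
    rw [mem_sigma] at hx hx'
    simp only at hx hx' he
    obtain ⟨h, h0⟩ := mem_Tri.mp hx.1
    obtain ⟨h', h0'⟩ := mem_Tri.mp hx'.1
    obtain ⟨h1, h2, h3, h4⟩ := mem_cf.mp hx.2
    obtain ⟨h1', h2', h3', h4'⟩ := mem_cf.mp hx'.2
    obtain ⟨e1, e2, e3⟩ := bij_mem_ins (F := F') (v := n) (a := a') (b := b') (c := c')
    rw [← he] at e1 e2 e3
    have hn' : n ∉ range n := by simp
    have f1 := bij_link h hn' h1 e1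
    have f2 := bij_link h hn' h1 e2
    have f3 := bij_link h hn' h1 e3
    have hab : a' = a ∧ b' = b ∧ c' = c := by
      have g1 := h.ne12 h1
      have g2 := h.ne23 h1
      have g3 := h.ne31 h1
      omega
    obtain ⟨rfl, rfl, rfl⟩ := hab
    have g := h.del_ins hn' h1
    rw [he, h'.del_ins hn' h1'] at g
    subst g
    rfl
  · intro F' hF'
    rw [mem_filter] at hF'
    obtain ⟨h, h0⟩ := mem_Tri.mp hF'.1
    have hcard : 4 ≤ (range (n + 1)).card := by
      rw [card_range]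
      omega
    obtain ⟨a, b, c, h1, h2, h3⟩ := h.deg_eq_three hF'.2
    obtain ⟨a, b, c, hab, hac, h1, h2, h3⟩ := bij_rotate h h1 h2 h3
    have hd := h.del hcard h1 h2 h3
    have he : (range (n + 1)).erase n = range n := by
      rw [range_add_one, erase_insert (by simp)]
    rw [he] at hd
    refine ⟨⟨del F' n a b c, (a, b, c)⟩, ?_, ?_⟩
    · rw [mem_sigma]
      refine ⟨mem_Tri.mpr ⟨hd, root_mem_del hn h0⟩, mem_cf.mpr ⟨?_, hab, hac, ?_⟩⟩
      · simp [del, mem_rots]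
      · intro h4
        simp only [Prod.mk.injEq] at h4
        obtain ⟨rfl, rfl, rfl⟩ := h4
        have := h.uniq _ _ _ _ h0 (h.rot _ _ _ h1)
        omega
    · exact h.ins_del hcard h1 h2 h3
  · intro x _
    rfl

theorem card_N3 (hn : 3 ≤ n) :
    (((Tri (n + 1)).filter fun F => deg F n = 3).card : ℝ) = (2 * n - 5) * cc n := by
  have h := sum_ins hn (fun _ => 1)
  simp only [sum_const, nsmul_eq_mul, mul_one] at h
  rw [h]
  have h2 : ∀ F ∈ Tri n, ((cf F).card : ℝ) = 2 * n - 5 := by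
    intro F hF
    have := card_cf hF
    have h3 : ((cf F).card : ℝ) + 5 = 2 * n := by exact_mod_cast this
    linarith
  rw [sum_congr rfl h2, sum_const, nsmul_eq_mul, mul_comm]
  rfl

/-- the number of faces in `cf F` at the last vertex -/
private lemma bij_card_last (hn : 3 ≤ n) (hF : F ∈ Tri (n + 1)) :
    ((cf F).filter fun t => n = t.1 ∨ n = t.2.1 ∨ n = t.2.2).card = deg F n := by
  obtain ⟨h, h0⟩ := mem_Tri.mp hF
  unfold deg
  apply card_bij' (fun t _ => if n = t.2.1 then (t.2.1, t.2.2, t.1) else (t.2.2, t.1, t.2.1))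
    (fun t _ => if t.2.1 < t.2.2 then (t.2.1, t.2.2, t.1) else (t.2.2, t.1, t.2.1))
  · rintro ⟨a, b, c⟩ ht
    rw [mem_filter, mem_cf] at ht
    obtain ⟨⟨h1, h2, h3, h4⟩, h5⟩ := ht
    have hb := mem_range.mp (h.mem2 h1)
    have hc := mem_range.mp (h.mem3 h1)
    simp only at h5 ⊢
    rw [mem_filter]
    split_ifs with h6
    · exact ⟨h.rot _ _ _ h1, h6.symm⟩
    · refine ⟨h.rot2 h1, ?_⟩
      simp only
      omega
  · rintro ⟨a, b, c⟩ ht
    rw [mem_filter] at ht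
    obtain ⟨h1, h2⟩ := ht
    simp only at h2
    subst h2
    have hb := mem_range.mp (h.mem2 h1)
    have hc := mem_range.mp (h.mem3 h1)
    have h12 := h.ne12 h1
    have h23 := h.ne23 h1
    have h31 := h.ne31 h1
    rw [mem_filter]
    simp only
    split_ifs with h6
    · refine ⟨mem_cf.mpr ⟨h.rot _ _ _ h1, h6, by omega, ?_⟩, by simp⟩
      simp only [ne_eq, Prod.mk.injEq]
      omega
    · refine ⟨mem_cf.mpr ⟨h.rot2 h1, by omega, by omega, ?_⟩, by simp⟩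
      simp only [ne_eq, Prod.mk.injEq]
      omega
  · rintro ⟨a, b, c⟩ ht
    rw [mem_filter, mem_cf] at ht
    obtain ⟨⟨h1, h2, h3, h4⟩, h5⟩ := ht
    simp only at h5 ⊢
    have hb := mem_range.mp (h.mem2 h1)
    have hc := mem_range.mp (h.mem3 h1)
    by_cases h6 : n = b
    · simp only [h6, if_true]
      rw [if_neg (by omega)]
    · simp only [h6, if_false]
      rw [if_pos (by omega)]
  · rintro ⟨a, b, c⟩ ht
    rw [mem_filter] at ht
    obtain ⟨h1, h2⟩ := ht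
    simp only at h2
    subst h2
    have hb := mem_range.mp (h.mem2 h1)
    have hc := mem_range.mp (h.mem3 h1)
    have h12 := h.ne12 h1
    have h23 := h.ne23 h1
    have h31 := h.ne31 h1
    simp only
    by_cases h6 : b < c
    · simp only [h6, if_true]
      rw [if_neg (by omega)]
    · simp only [h6, if_false, if_true]

theorem card_N33 (hn : 3 ≤ n) :
    (((Tri (n + 2)).filter fun F => deg F (n + 1) = 3 ∧ deg F n = 3).card : ℝ) =
      (2 * n - 6) * (2 * n - 5) * cc n := by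
  have h := sum_ins (n := n + 1) (by omega) (fun F => if deg F n = 3 then 1 else 0)
  rw [← filter_filter, card_filter]
  push_cast
  rw [h]
  have key : ∀ F ∈ Tri (n + 1), (∑ t ∈ cf F,
      if deg (ins F (n + 1) t.1 t.2.1 t.2.2) n = 3 then (1 : ℝ) else 0) =
      if deg F n = 3 then (2 * n - 6 : ℝ) else 0 := by
    intro F hF
    obtain ⟨hT, h0⟩ := mem_Tri.mp hF
    have h3 : 3 ≤ deg F n := hT.three_le_deg (by rw [card_range]; omega) (by simp)
    have hdeg : ∀ t ∈ cf F, deg (ins F (n + 1) t.1 t.2.1 t.2.2) n =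
        deg F n + if n = t.1 ∨ n = t.2.1 ∨ n = t.2.2 then 1 else 0 := by
      rintro ⟨a, b, c⟩ ht
      exact hT.deg_ins (by simp) (mem_cf.mp ht).1 (by simp)
    split_ifs with h4
    · have h5 : ∀ t ∈ cf F, (if deg (ins F (n + 1) t.1 t.2.1 t.2.2) n = 3 then (1 : ℝ) else 0) =
          1 - if n = t.1 ∨ n = t.2.1 ∨ n = t.2.2 then 1 else 0 := by
        intro t ht
        rw [hdeg t ht, h4]
        by_cases h6 : n = t.1 ∨ n = t.2.1 ∨ n = t.2.2
        · simp [h6]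
        · simp [h6]
      rw [sum_congr rfl h5, sum_sub_distrib, sum_const, nsmul_eq_mul, mul_one, sum_boole,
        bij_card_last hn hF, h4]
      have h7 := card_cf hF
      have h8 : ((cf F).card : ℝ) + 5 = 2 * ((n : ℝ) + 1) := by exact_mod_cast h7
      push_cast
      linarith
    · apply sum_eq_zero
      intro t ht
      rw [hdeg t ht, if_neg]
      omega
  rw [sum_congr rfl key, ← sum_filter, sum_const, nsmul_eq_mul, card_N3 hn]
  ring

end Pool.Agent.CPL
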