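import Pool.Agent.CPL.BAS

set_option autoImplicit false

/-!
# A triangulation minus the vertices of a face is connected

Relation `R p q`: `p` and `q` are adjacent and `q ∉ {a, b, c}`. The link of `a` is a cycle containing `b → c` (face `(a, b, c)`), the other
neighbours of `a` form a path `c → x_1 → ... → x_k → b` of consecutively adjacent vertices outside `{a, b, c}`, so all inner neighbours
of `a` are connected (from the successor `x_1` of `c` one reaches all of them: a `ReflTransGen` path in the link from `x_1` which does not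
reach `b`; use `head_induction`/`link_closed` with `S = {b, c} ∪ {reached}`). The same for `b` and `c`. The opposite face `(b, a, y)` has `y` adjacent to both
`a` and `b`, `y ≠ c` (`not_both`), so the inner neighbours of `a` and of `b` are connected with each other; the same for the other pairs. Every
component of the complement contains a neighbour of `a`, `b` or `c` (`conn`): take a path from `x` to `a`, the last vertex before it enters
`{a, b, c}`.
-/

namespace Pool.Agent.CPL

open Finset

variable {V : Finset ℕ} {F : Finset Tr} {a b c x y : ℕ}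

/-- adjacency outside of `{a, b, c}` -/
private def cmpR (F : Finset Tr) (a b c p q : ℕ) : Prop :=
  (∃ s, (p, q, s) ∈ F) ∧ q ∉ ({a, b, c} : Finset ℕ)

private theorem cmp_symm (h : IsTri V F) (hx : x ∉ ({a, b, c} : Finset ℕ))
    (hxy : Relation.ReflTransGen (cmpR F a b c) x y) :
    Relation.ReflTransGen (cmpR F a b c) y x := by
  have key : ∀ y, Relation.ReflTransGen (cmpR F a b c) x y →
      y ∉ ({a, b, c} : Finset ℕ) ∧ Relation.ReflTransGen (cmpR F a b c) y x := by
    intro y hy
    induction hy with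
    | refl => exact ⟨hx, Relation.ReflTransGen.refl⟩
    | tail _ h2 ih =>
      refine ⟨h2.2, ?_⟩
      obtain ⟨s, hs⟩ := h2.1
      exact Relation.ReflTransGen.head ⟨h.opp _ _ _ hs, ih.1⟩ ih.2
  exact (key y hxy).2

/-- all neighbours of `a` outside of the face are joined to the successor of `c` -/
private theorem cmp_nbr (h : IsTri V F) (_hV : 4 ≤ V.card) (ht : (a, b, c) ∈ F) {x1 : ℕ}
    (hx1 : (a, c, x1) ∈ F) {p p' : ℕ} (hp : (a, p, p') ∈ F)
    (hpT : p ∉ ({a, b, c} : Finset ℕ)) : Relation.ReflTransGen (cmpR F a b c) x1 p := by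
  have h1 : p ∈ {q : ℕ | q = b ∨ q = c ∨
      (q ∉ ({a, b, c} : Finset ℕ) ∧ Relation.ReflTransGen (cmpR F a b c) x1 q)} := by
    refine h.link_closed _ (a := b) (by simp) ht ?_ hp
    rintro u w (rfl | rfl | ⟨hu1, hu2⟩) huw
    · right; left
      exact h.uniq _ _ _ _ huw ht
    · obtain rfl := h.uniq _ _ _ _ huw hx1
      by_cases hwb : w = b
      · left; exact hwb
      · right; right
        refine ⟨?_, Relation.ReflTransGen.refl⟩
        simp only [mem_insert, mem_singleton, not_or]
        exact ⟨h.ne31 huw, hwb, (h.ne23 huw).symm⟩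
    · by_cases hwb : w = b
      · left; exact hwb
      · right; right
        have hwT : w ∉ ({a, b, c} : Finset ℕ) := by
          simp only [mem_insert, mem_singleton, not_or]
          refine ⟨h.ne31 huw, hwb, ?_⟩
          rintro rfl
          have := h.uniq2 huw ht
          subst this
          simp at hu1
        exact ⟨hwT, hu2.tail ⟨⟨a, h.rot _ _ _ huw⟩, hwT⟩⟩
  rcases h1 with rfl | rfl | ⟨-, h2⟩
  · simp at hpT
  · simp at hpT
  · exact h2

private theorem cmp_rot (hxy : Relation.ReflTransGen (cmpR F b c a) x y) :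
    Relation.ReflTransGen (cmpR F a b c) x y := by
  have e : ({b, c, a} : Finset ℕ) = {a, b, c} := by
    ext u
    simp only [mem_insert, mem_singleton]
    tauto
  have : cmpR F b c a = cmpR F a b c := by
    funext p q
    unfold cmpR
    rw [e]
  rwa [this] at hxy

theorem IsTri.conn_compl (h : IsTri V F) (hV : 4 ≤ V.card) (ht : (a, b, c) ∈ F)
    (hx : x ∈ V) (hy : y ∈ V) (hx' : x ∉ ({a, b, c} : Finset ℕ)) (hy' : y ∉ ({a, b, c} : Finset ℕ)) :
    Relation.ReflTransGen (fun p q => (∃ s, (p, q, s) ∈ F) ∧ q ∉ ({a, b, c} : Finset ℕ)) x y := by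
  change Relation.ReflTransGen (cmpR F a b c) x y
  have ht2 := h.rot _ _ _ ht
  have ht3 := h.rot2 ht
  -- successors
  obtain ⟨xa, hxa⟩ := h.next ht
  obtain ⟨xb, hxb⟩ := h.next ht2
  obtain ⟨xc, hxc⟩ := h.next ht3
  have e1 : ({b, c, a} : Finset ℕ) = {a, b, c} := by
    ext u
    simp only [mem_insert, mem_singleton]
    tauto
  have e2 : ({c, a, b} : Finset ℕ) = {a, b, c} := by
    ext u
    simp only [mem_insert, mem_singleton]
    tauto
  have hxaT : xa ∉ ({a, b, c} : Finset ℕ) := by
    simp only [mem_insert, mem_singleton, not_or]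
    refine ⟨h.ne31 hxa, ?_, (h.ne23 hxa).symm⟩
    rintro rfl
    exact h.not_both hV ht hxa
  have hxbT : xb ∉ ({a, b, c} : Finset ℕ) := by
    simp only [mem_insert, mem_singleton, not_or]
    refine ⟨(h.ne23 hxb).symm, h.ne31 hxb, ?_⟩
    rintro rfl
    exact h.not_both hV ht2 hxb
  have ha : ∀ p p', (a, p, p') ∈ F → p ∉ ({a, b, c} : Finset ℕ) →
      Relation.ReflTransGen (cmpR F a b c) xa p := fun p p' hp hpT => cmp_nbr h hV ht hxa hp hpT
  have hb : ∀ p p', (b, p, p') ∈ F → p ∉ ({a, b, c} : Finset ℕ) →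
      Relation.ReflTransGen (cmpR F a b c) xb p := fun p p' hp hpT =>
    cmp_rot (cmp_nbr h hV ht2 hxb hp (by rwa [e1]))
  have hc : ∀ p p', (c, p, p') ∈ F → p ∉ ({a, b, c} : Finset ℕ) →
      Relation.ReflTransGen (cmpR F a b c) xc p := fun p p' hp hpT =>
    cmp_rot (cmp_rot (cmp_nbr h hV ht3 hxc hp (by rwa [e2])))
  -- `xb` is a neighbour of `a`
  have hab : Relation.ReflTransGen (cmpR F a b c) xa xb := ha _ _ (h.rot _ _ _ hxb) hxbT
  -- `xa` is a neighbour of `c`
  have hca : Relation.ReflTransGen (cmpR F a b c) xc xa := hc _ _ (h.rot _ _ _ hxa) hxaT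
  have hxcT : xc ∉ ({a, b, c} : Finset ℕ) := by
    simp only [mem_insert, mem_singleton, not_or]
    refine ⟨?_, (h.ne23 hxc).symm, h.ne31 hxc⟩
    rintro rfl
    exact h.not_both hV ht3 hxc
  have hac : Relation.ReflTransGen (cmpR F a b c) xa xc := cmp_symm h hxcT hca
  have hall : ∀ v ∈ V, v ∈ {q : ℕ | q ∈ ({a, b, c} : Finset ℕ) ∨
      (q ∉ ({a, b, c} : Finset ℕ) ∧ Relation.ReflTransGen (cmpR F a b c) xa q)} := by
    intro v hv
    refine h.conn_closed _ (a := a) (by simp) (h.mem _ _ _ ht) ?_ hv
    intro p q s hp hpq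
    by_cases hqT : q ∈ ({a, b, c} : Finset ℕ)
    · exact Or.inl hqT
    · right
      refine ⟨hqT, ?_⟩
      rcases hp with hp | ⟨-, hp⟩
      · simp only [mem_insert, mem_singleton] at hp
        rcases hp with rfl | rfl | rfl
        · exact ha _ _ hpq hqT
        · exact hab.trans (hb _ _ hpq hqT)
        · exact hac.trans (hc _ _ hpq hqT)
      · exact hp.tail ⟨⟨s, hpq⟩, hqT⟩
  have h1 : Relation.ReflTransGen (cmpR F a b c) xa x := by
    rcases hall x hx with h2 | ⟨-, h2⟩
    · exact absurd h2 hx'
    · exact h2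
  have h3 : Relation.ReflTransGen (cmpR F a b c) xa y := by
    rcases hall y hy with h2 | ⟨-, h2⟩
    · exact absurd h2 hy'
    · exact h2
  exact (cmp_symm h hxaT h1).trans h3

end Pool.Agent.CPL
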