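import Pool.Agent.CPL.BIJ

set_option autoImplicit false

/-!
# The number of vertices of degree 3

Exchangeability: for an inner vertex `v` (`3 ≤ v ≤ n`) apply `sum_perm` with `Equiv.swap v n` (and `deg_relab`, `Equiv.swap` is injective):
`∑_{F ∈ Tri (n+1), deg F v = 3} Φ F = ∑_{F ∈ Tri (n+1), deg F n = 3} Φ F` for `Φ` invariant under relabelling. Sum over `v` and use `sum_ins`.
For `sum_DD`: `D (D - 1)` counts ordered pairs `(v, w)`, `v ≠ w`, of inner vertices of degree 3; move `(v, w)` to `(n+1, n)` by a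
permutation (product of two swaps); there are `(n - 1)(n - 2)` pairs; `card_N33`.
-/

namespace Pool.Agent.CPL

open Finset

variable {n : ℕ}

/-- number of inner vertices of degree 3 -/
def D3 (n : ℕ) (F : Finset Tr) : ℕ := ((Ico 3 n).filter fun v => deg F v = 3).card

/-- invariance under permutations of the inner labels -/
def RelInv (n : ℕ) (Φ : Finset Tr → ℝ) : Prop :=
  ∀ σ : Equiv.Perm ℕ, σ 0 = 0 → σ 1 = 1 → σ 2 = 2 → (∀ i, i < n ↔ σ i < n) →
    ∀ F ∈ Tri n, Φ (relab σ F) = Φ F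

private theorem swap_lt_iff {a b m : ℕ} (ha : a < m) (hb : b < m) (i : ℕ) :
    i < m ↔ Equiv.swap a b i < m := by
  rcases Equiv.swap_apply_def a b i with h
  rw [h]
  split_ifs with h1 h2
  · subst h1; exact ⟨fun _ => hb, fun _ => ha⟩
  · subst h2; exact ⟨fun _ => ha, fun _ => hb⟩
  · exact Iff.rfl

private theorem swap_small {a b i : ℕ} (ha : 3 ≤ a) (hb : 3 ≤ b) (hi : i < 3) :
    Equiv.swap a b i = i :=
  Equiv.swap_apply_of_ne_of_ne (by omega) (by omega)

private theorem sum_move (hn : 3 ≤ n) (Φ : Finset Tr → ℝ) (hΦ : RelInv (n + 1) Φ) (P : ℕ → Prop)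
    [DecidablePred P] {v : ℕ} (hv : v ∈ Ico 3 (n + 1)) :
    ∑ F ∈ Tri (n + 1), (if P (deg F v) then Φ F else 0) =
      ∑ F ∈ Tri (n + 1), (if P (deg F n) then Φ F else 0) := by
  obtain ⟨h3, hvn⟩ := mem_Ico.mp hv
  have e0 : Equiv.swap v n 0 = 0 := swap_small h3 hn (by omega)
  have e1 : Equiv.swap v n 1 = 1 := swap_small h3 hn (by omega)
  have e2 : Equiv.swap v n 2 = 2 := swap_small h3 hn (by omega)
  have el := swap_lt_iff hvn (Nat.lt_succ_self n)
  rw [← sum_perm (Equiv.swap v n) e0 e1 e2 el (fun F => if P (deg F n) then Φ F else 0)]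
  apply sum_congr rfl
  intro F hF
  have h1 : Φ (relab (Equiv.swap v n) F) = Φ F := hΦ _ e0 e1 e2 el F hF
  have h2 : deg (relab (Equiv.swap v n) F) n = deg F v := by
    have := (mem_Tri.mp hF).1.deg_relab (e := Equiv.swap v n)
      ((Equiv.swap v n).injective.injOn) (v := v) (mem_range.mpr hvn)
    rwa [Equiv.swap_apply_left] at this
  simp only [h1, h2]

/-- exchangeability, general form: `Q F v` a property of a vertex of the triangulation -/
theorem sum_exch (hn : 3 ≤ n) (Φ : Finset Tr → ℝ) (hΦ : RelInv (n + 1) Φ) (P : ℕ → Prop)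
    [DecidablePred P] :
    ∑ F ∈ Tri (n + 1), (((Ico 3 (n + 1)).filter fun v => P (deg F v)).card : ℝ) * Φ F =
      (n - 2 : ℝ) * ∑ F ∈ (Tri (n + 1)).filter (fun F => P (deg F n)), Φ F := by
  have h1 : ∀ F : Finset Tr, (((Ico 3 (n + 1)).filter fun v => P (deg F v)).card : ℝ) * Φ F =
      ∑ v ∈ Ico 3 (n + 1), (if P (deg F v) then Φ F else 0) := by
    intro F
    rw [← sum_filter, sum_const, nsmul_eq_mul]
  simp_rw [h1]
  rw [sum_comm, sum_congr rfl (fun v hv => sum_move hn Φ hΦ P hv), sum_const, nsmul_eq_mul,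
    Nat.card_Ico, sum_filter]
  congr 1
  rw [show n + 1 - 3 = n - 2 by omega, Nat.cast_sub (by omega)]
  norm_num

theorem sum_D_mul (hn : 3 ≤ n) (Φ : Finset Tr → ℝ) (hΦ : RelInv (n + 1) Φ) :
    ∑ F ∈ Tri (n + 1), (D3 (n + 1) F : ℝ) * Φ F =
      (n - 2 : ℝ) * ∑ F ∈ Tri n, ∑ t ∈ cf F, Φ (ins F n t.1 t.2.1 t.2.2) := by
  have h := sum_exch hn Φ hΦ (fun d => d = 3)
  rw [sum_ins hn] at h
  exact h

theorem sum_D (hn : 3 ≤ n) :
    ∑ F ∈ Tri (n + 1), (D3 (n + 1) F : ℝ) = (n - 2) * ((2 * n - 5) * cc n) := by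
  have h := sum_exch hn (fun _ => 1) (fun _ _ _ _ _ _ _ => rfl) (fun d => d = 3)
  simp only [mul_one, sum_const, nsmul_eq_mul] at h
  rw [card_N3 hn] at h
  exact h

private theorem sum_move2 (hn : 3 ≤ n) {v w : ℕ} (hv : v ∈ Ico 3 (n + 2)) (hw : w ∈ Ico 3 (n + 2))
    (hvw : v ≠ w) :
    ∑ F ∈ Tri (n + 2), (if deg F v = 3 ∧ deg F w = 3 then (1 : ℝ) else 0) =
      (2 * n - 6) * (2 * n - 5) * cc n := by
  obtain ⟨h3, hvn⟩ := mem_Ico.mp hv
  obtain ⟨h3', hwn⟩ := mem_Ico.mp hw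
  obtain ⟨w', hw'⟩ : ∃ w', w' = Equiv.swap v (n + 1) w := ⟨_, rfl⟩
  have hw3 : 3 ≤ w' := by
    rw [hw', Equiv.swap_apply_def]
    split_ifs <;> omega
  have hwlt : w' < n + 2 := by
    rw [hw']
    exact (swap_lt_iff hvn (by omega) w).mp hwn
  have hwne : w' ≠ n + 1 := by
    intro h
    rw [hw'] at h
    have : Equiv.swap v (n + 1) w = Equiv.swap v (n + 1) v := by
      rw [h, Equiv.swap_apply_left]
    exact hvw ((Equiv.swap v (n + 1)).injective this).symm
  obtain ⟨σ, hσ⟩ : ∃ σ : Equiv.Perm ℕ, σ = Equiv.swap w' n * Equiv.swap v (n + 1) := ⟨_, rfl⟩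
  have happ : ∀ i, σ i = Equiv.swap w' n (Equiv.swap v (n + 1) i) := by
    intro i; rw [hσ]; rfl
  have hs : ∀ i, i < 3 → σ i = i := by
    intro i hi
    rw [happ, swap_small h3 (by omega) hi, swap_small hw3 hn hi]
  have e0 := hs 0 (by omega)
  have e1 := hs 1 (by omega)
  have e2 := hs 2 (by omega)
  have el : ∀ i, i < n + 2 ↔ σ i < n + 2 := by
    intro i
    rw [happ, ← swap_lt_iff hwlt (by omega), ← swap_lt_iff hvn (by omega)]
  have ev : σ v = n + 1 := by
    rw [happ, Equiv.swap_apply_left]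
    exact Equiv.swap_apply_of_ne_of_ne (Ne.symm hwne) (by omega)
  have ew : σ w = n := by
    rw [happ, ← hw', Equiv.swap_apply_left]
  rw [← card_N33 hn, card_filter]
  push_cast
  rw [← sum_perm σ e0 e1 e2 el (fun F => if deg F (n + 1) = 3 ∧ deg F n = 3 then (1 : ℝ) else 0)]
  apply sum_congr rfl
  intro F hF
  have hT := (mem_Tri.mp hF).1
  have a1 : deg (relab σ F) (n + 1) = deg F v := by
    have := hT.deg_relab (e := σ) (σ.injective.injOn) (v := v) (mem_range.mpr hvn)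
    rwa [ev] at this
  have a2 : deg (relab σ F) n = deg F w := by
    have := hT.deg_relab (e := σ) (σ.injective.injOn) (v := w) (mem_range.mpr hwn)
    rwa [ew] at this
  simp only [a1, a2]

theorem sum_DD (hn : 3 ≤ n) :
    ∑ F ∈ Tri (n + 2), (D3 (n + 2) F : ℝ) * ((D3 (n + 2) F : ℝ) - 1) =
      (n - 1) * (n - 2) * ((2 * n - 6) * (2 * n - 5) * cc n) := by
  have h1 : ∀ F : Finset Tr, (D3 (n + 2) F : ℝ) * ((D3 (n + 2) F : ℝ) - 1) =
      ∑ v ∈ Ico 3 (n + 2), ∑ w ∈ (Ico 3 (n + 2)).erase v,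
        (if deg F v = 3 ∧ deg F w = 3 then (1 : ℝ) else 0) := by
    intro F
    have h2 : ∀ v ∈ Ico 3 (n + 2), ∑ w ∈ (Ico 3 (n + 2)).erase v,
        (if deg F v = 3 ∧ deg F w = 3 then (1 : ℝ) else 0) =
        (if deg F v = 3 then ((D3 (n + 2) F : ℝ) - 1) else 0) := by
      intro v hv
      by_cases hd : deg F v = 3
      · simp only [hd, true_and, if_true]
        have h4 : ∑ w ∈ Ico 3 (n + 2), (if deg F w = 3 then (1 : ℝ) else 0) =
            (D3 (n + 2) F : ℝ) := by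
          rw [D3, card_filter]
          push_cast
          rfl
        rw [← h4, ← sum_erase_add _ _ hv, if_pos hd]
        ring
      · simp [hd]
    rw [sum_congr rfl h2, ← sum_filter, sum_const, nsmul_eq_mul]
    rfl
  simp_rw [h1]
  rw [sum_comm]
  have h5 : ∀ v ∈ Ico 3 (n + 2), ∑ F ∈ Tri (n + 2), ∑ w ∈ (Ico 3 (n + 2)).erase v,
      (if deg F v = 3 ∧ deg F w = 3 then (1 : ℝ) else 0) =
      (n - 2 : ℝ) * ((2 * n - 6) * (2 * n - 5) * cc n) := by
    intro v hv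
    rw [sum_comm]
    rw [sum_congr rfl (fun w hw => sum_move2 hn hv (mem_of_mem_erase hw)
      (Ne.symm (ne_of_mem_erase hw))), sum_const, nsmul_eq_mul, card_erase_of_mem hv, Nat.card_Ico,
      show n + 2 - 3 - 1 = n - 2 by omega, Nat.cast_sub (by omega)]
    norm_num
  rw [sum_congr rfl h5, sum_const, nsmul_eq_mul, Nat.card_Ico, show n + 2 - 3 = n - 1 by omega,
    Nat.cast_sub (by omega)]
  push_cast
  ring

end Pool.Agent.CPL
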