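import Pool.Agent.CPL.Defs

set_option autoImplicit false

/-!
# Continuous functions on the compact space of probability measures on the sphere

`emp` of a nonempty finset is the uniform measure, `integral_emp`. `exists_close`: suppose not: there are `ε > 0` and for every `N` a counterexample `(s_N, t_N, x_N, y_N)`. Take an ultrafilter
`𝒰 ≤ atTop` (`Filter.hyperfilter` or `Ultrafilter.of atTop`); by compactness of `ProbabilityMeasure S2` (`instCompactSpaceProbabilityMeasure`, `isCompact_univ.ultrafilter_le_nhds`)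
`emp t_N x_N → μ` and `emp s_N y_N → ν` along `𝒰`. For every bounded continuous `g`: `|∫ g d(emp t_N x_N) - ∫ g d(emp s_N y_N)| → 0`: `|t \ s| ≤ 6` changes the mean by at most
`12 ‖g‖ / |s|`, and `g` is uniformly continuous: for `η > 0` with modulus `θ`, the number of `i ∈ s` with `dist ≥ θ` is at most `12 / θ²`. So `∫ g dμ = ∫ g dν`, `μ = ν`
(`ProbabilityMeasure.tendsto_iff_forall_integral_tendsto`, `MeasureTheory.ext_of_forall_integral_eq_of_IsFiniteMeasure`), and `|G (emp t_N x_N) - G (emp s_N y_N)| → |G μ - G ν| = 0`.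
-/

namespace Pool.Agent.CPL

open Finset Filter Topology MeasureTheory
open scoped ENNReal

theorem emp_toMeasure {ι X : Type*} [MeasurableSpace X] [Nonempty X] {s : Finset ι}
    (hs : s.Nonempty) (x : ι → X) :
    (emp s x : Measure X) = (s.card : ℝ≥0∞)⁻¹ • ∑ i ∈ s, Measure.dirac (x i) := by
  have h : IsProbabilityMeasure ((s.card : ℝ≥0∞)⁻¹ • ∑ i ∈ s, Measure.dirac (x i)) := by
    refine ⟨?_⟩
    have hc : (s.card : ℝ≥0∞) ≠ 0 := by
      simpa using hs.card_pos.ne'
    simp only [Measure.smul_apply, Measure.coe_finsetSum, Finset.sum_apply, measure_univ,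
      Finset.sum_const, nsmul_eq_mul, mul_one, smul_eq_mul]
    exact ENNReal.inv_mul_cancel hc (ENNReal.natCast_ne_top _)
  unfold emp
  rw [dif_pos h]
  rfl

theorem integral_emp {ι X : Type*} [TopologicalSpace X] [MeasurableSpace X] [BorelSpace X]
    [Nonempty X] {s : Finset ι} (hs : s.Nonempty) (x : ι → X) {g : X → ℝ} (hg : Continuous g) :
    ∫ p, g p ∂(emp s x : Measure X) = (∑ i ∈ s, g (x i)) / s.card := by
  rw [emp_toMeasure hs, integral_smul_measure, integral_finsetSum_measure]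
  · rw [ENNReal.toReal_inv, ENNReal.toReal_natCast, smul_eq_mul, div_eq_inv_mul]
    congr 1
    refine Finset.sum_congr rfl fun i _ => ?_
    exact integral_dirac' _ _ hg.stronglyMeasurable
  · intro i _
    exact integrable_dirac' hg.stronglyMeasurable (by simp)

/-- the means over `t` and `s` are close -/
theorem cpt_mean {ι : Type*} [DecidableEq ι] {s t : Finset ι} (hst : s ⊆ t)
    (hc : (t \ s).card ≤ 6) (hs : s.Nonempty) {f g : ι → ℝ} {M D η K : ℝ} (hM : 0 ≤ M)
    (hf : ∀ i, |f i| ≤ M) {d : ι → ℝ} (hfg : ∀ i ∈ s, |f i - g i| ≤ η + K * d i)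
    (hd : K * ∑ i ∈ s, d i ≤ D) :
    |(∑ i ∈ t, f i) / t.card - (∑ i ∈ s, g i) / s.card| ≤ η + (D + 12 * M) / s.card := by
  set n : ℝ := (s.card : ℝ) with hn
  set k : ℝ := ((t \ s).card : ℝ) with hk
  have hn0 : 0 < n := by simpa [hn] using hs.card_pos
  have hk0 : 0 ≤ k := by simp [hk]
  have hk6 : k ≤ 6 := by rw [hk]; exact_mod_cast hc
  have ht : (t.card : ℝ) = n + k := by
    rw [hn, hk, ← Finset.card_sdiff_add_card_eq_card hst]
    push_cast
    ring
  set A := ∑ i ∈ s, f i with hA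
  set B := ∑ i ∈ t \ s, f i with hB
  set C := ∑ i ∈ s, g i with hC
  have hsum : ∑ i ∈ t, f i = A + B := by
    rw [hA, hB, add_comm, Finset.sum_sdiff hst]
  have hA' : |A| ≤ n * M := by
    calc |A| ≤ ∑ i ∈ s, |f i| := Finset.abs_sum_le_sum_abs _ _
      _ ≤ ∑ _i ∈ s, M := Finset.sum_le_sum fun i _ => hf i
      _ = n * M := by simp [hn]
  have hB' : |B| ≤ k * M := by
    calc |B| ≤ ∑ i ∈ t \ s, |f i| := Finset.abs_sum_le_sum_abs _ _
      _ ≤ ∑ _i ∈ t \ s, M := Finset.sum_le_sum fun i _ => hf i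
      _ = k * M := by simp [hk]
  have hAC : |A - C| ≤ n * η + D := by
    rw [hA, hC, ← Finset.sum_sub_distrib]
    calc |∑ i ∈ s, (f i - g i)| ≤ ∑ i ∈ s, |f i - g i| := Finset.abs_sum_le_sum_abs _ _
      _ ≤ ∑ i ∈ s, (η + K * d i) := Finset.sum_le_sum hfg
      _ = n * η + K * ∑ i ∈ s, d i := by
        rw [Finset.sum_add_distrib, ← Finset.mul_sum]; simp [hn]
      _ ≤ n * η + D := by linarith
  rw [hsum, ht]
  have hnk : 0 < n + k := by linarith
  have key : (A + B) / (n + k) - C / n =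
      (A - C) / n + B / (n + k) - A * k / (n * (n + k)) := by
    field_simp
    ring
  rw [key]
  have e1 : |(A - C) / n| ≤ η + D / n := by
    rw [abs_div, abs_of_pos hn0, div_le_iff₀ hn0]
    have : (η + D / n) * n = n * η + D := by field_simp
    linarith
  have e2 : |B / (n + k)| ≤ 6 * M / n := by
    rw [abs_div, abs_of_pos hnk]
    calc |B| / (n + k) ≤ (k * M) / (n + k) := by gcongr
      _ ≤ (6 * M) / n := by
        apply div_le_div₀ (by positivity) _ hn0 (by linarith)
        exact mul_le_mul_of_nonneg_right hk6 hM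
  have e3 : |A * k / (n * (n + k))| ≤ 6 * M / n := by
    rw [abs_div, abs_mul, abs_of_nonneg hk0, abs_of_pos (mul_pos hn0 hnk)]
    calc |A| * k / (n * (n + k)) ≤ (n * M) * 6 / (n * n) := by
          apply div_le_div₀ (by positivity) _ (by positivity) _
          · exact mul_le_mul hA' hk6 hk0 (by positivity)
          · exact mul_le_mul_of_nonneg_left (by linarith) hn0.le
      _ = 6 * M / n := by field_simp
  have e4 : (D + 12 * M) / n = D / n + 6 * M / n + 6 * M / n := by ring
  calc |(A - C) / n + B / (n + k) - A * k / (n * (n + k))|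
      ≤ |(A - C) / n + B / (n + k)| + |A * k / (n * (n + k))| := abs_sub _ _
    _ ≤ |(A - C) / n| + |B / (n + k)| + |A * k / (n * (n + k))| := by
        gcongr; exact abs_add_le _ _
    _ ≤ η + (D + 12 * M) / n := by rw [e4]; linarith

theorem exists_close {G : ProbabilityMeasure S2 → ℝ} (hG : Continuous G) {ε : ℝ} (hε : 0 < ε) :
    ∃ N : ℕ, ∀ (s t : Finset (ℕ × ℕ)) (x y : ℕ × ℕ → S2), s ⊆ t → (t \ s).card ≤ 6 →
      N ≤ s.card → ∑ i ∈ s, dist (x i) (y i) ^ 2 ≤ 12 →
      |G (emp t x) - G (emp s y)| ≤ ε := by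
  by_contra! hcon
  choose s t x y h1 h2 h3 h4 h5 using hcon
  obtain ⟨μ, -, hμ⟩ := (isCompact_univ : IsCompact (Set.univ : Set (ProbabilityMeasure S2))).ultrafilter_le_nhds
    ((hyperfilter ℕ).map (fun N => emp (t N) (x N))) (by simp)
  obtain ⟨ν, -, hν⟩ := (isCompact_univ : IsCompact (Set.univ : Set (ProbabilityMeasure S2))).ultrafilter_le_nhds
    ((hyperfilter ℕ).map (fun N => emp (s N) (y N))) (by simp)
  have hμ' : Tendsto (fun N => emp (t N) (x N)) (hyperfilter ℕ : Filter ℕ) (𝓝 μ) := hμ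
  have hν' : Tendsto (fun N => emp (s N) (y N)) (hyperfilter ℕ : Filter ℕ) (𝓝 ν) := hν
  have hle : (hyperfilter ℕ : Filter ℕ) ≤ atTop := by
    rw [← Nat.cofinite_eq_atTop]
    exact hyperfilter_le_cofinite
  have key : ∀ g : BoundedContinuousFunction S2 ℝ,
      Tendsto (fun N => ∫ p, g p ∂(emp (t N) (x N) : Measure S2) -
        ∫ p, g p ∂(emp (s N) (y N) : Measure S2)) atTop (𝓝 0) := by
    intro g
    rw [Metric.tendsto_atTop]
    intro η hη
    set M : ℝ := ‖g‖ with hM
    have hM0 : 0 ≤ M := norm_nonneg _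
    have hgM : ∀ p, |g p| ≤ M := fun p => g.norm_coe_le_norm p
    have huc : UniformContinuous g :=
      CompactSpace.uniformContinuous_of_continuous g.continuous
    obtain ⟨θ, hθ, hθ'⟩ := Metric.uniformContinuous_iff.1 huc (η / 2) (by linarith)
    have hpt : ∀ p q : S2, |g p - g q| ≤ η / 2 + (2 * M / θ ^ 2) * dist p q ^ 2 := by
      intro p q
      by_cases hd : dist p q < θ
      · have := hθ' hd
        rw [Real.dist_eq] at this
        have h0 : 0 ≤ (2 * M / θ ^ 2) * dist p q ^ 2 := by positivity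
        linarith
      · have hd' : θ ≤ dist p q := not_lt.1 hd
        have h2' : |g p - g q| ≤ 2 * M := by
          calc |g p - g q| ≤ |g p| + |g q| := abs_sub _ _
            _ ≤ 2 * M := by linarith [hgM p, hgM q]
        have h3' : 2 * M ≤ (2 * M / θ ^ 2) * dist p q ^ 2 := by
          rw [div_mul_eq_mul_div, le_div_iff₀ (by positivity)]
          exact mul_le_mul_of_nonneg_left (pow_le_pow_left₀ hθ.le hd' 2) (by linarith)
        linarith
    obtain ⟨N0, hN0⟩ := exists_nat_gt ((2 * M / θ ^ 2 * 12 + 12 * M) / (η / 2))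
    refine ⟨N0 + 1, fun N hN => ?_⟩
    have hNpos : 0 < N := by omega
    have hsN : (s N).Nonempty := Finset.card_pos.1 (lt_of_lt_of_le hNpos (h3 N))
    have htN : (t N).Nonempty := hsN.mono (h1 N)
    rw [Real.dist_eq, sub_zero, integral_emp htN (x N) g.continuous,
      integral_emp hsN (y N) g.continuous]
    have hK : 0 ≤ 2 * M / θ ^ 2 := by positivity
    have hb := cpt_mean (h1 N) (h2 N) hsN (f := fun i => g (x N i)) (g := fun i => g (y N i))
      (M := M) (D := 2 * M / θ ^ 2 * 12) (η := η / 2) (K := 2 * M / θ ^ 2) hM0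
      (fun i => hgM _) (d := fun i => dist (x N i) (y N i) ^ 2) (fun i _ => hpt _ _)
      (mul_le_mul_of_nonneg_left (h4 N) hK)
    refine lt_of_le_of_lt hb ?_
    have hcard : (N0 : ℝ) < ((s N).card : ℝ) := by
      exact_mod_cast lt_of_lt_of_le (Nat.lt_of_succ_le hN) (h3 N)
    have hcpos : (0 : ℝ) < ((s N).card : ℝ) := lt_of_le_of_lt (Nat.cast_nonneg _) hcard
    have : (2 * M / θ ^ 2 * 12 + 12 * M) / ((s N).card : ℝ) < η / 2 := by
      rw [div_lt_iff₀ hcpos]
      have h6 : (2 * M / θ ^ 2 * 12 + 12 * M) / (η / 2) < ((s N).card : ℝ) := hN0.trans hcard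
      rw [div_lt_iff₀ (by linarith)] at h6
      linarith
    linarith
  have hμν : (μ : Measure S2) = ν := by
    apply ext_of_forall_integral_eq_of_IsFiniteMeasure
    intro g
    have e1 := (ProbabilityMeasure.tendsto_iff_forall_integral_tendsto.1 hμ') g
    have e2 := (ProbabilityMeasure.tendsto_iff_forall_integral_tendsto.1 hν') g
    have e3 := (key g).mono_left hle
    have e4 := e1.sub e2
    have e5 := tendsto_nhds_unique e4 e3
    linarith
  have hμν' : μ = ν := Subtype.ext hμν
  have e1 : Tendsto (fun N => G (emp (t N) (x N))) (hyperfilter ℕ : Filter ℕ) (𝓝 (G μ)) :=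
    (hG.tendsto μ).comp hμ'
  have e2 : Tendsto (fun N => G (emp (s N) (y N))) (hyperfilter ℕ : Filter ℕ) (𝓝 (G ν)) :=
    (hG.tendsto ν).comp hν'
  have e3 := (e1.sub e2).abs
  rw [hμν', sub_self, abs_zero] at e3
  have e4 : ε ≤ 0 := ge_of_tendsto e3 (Filter.Eventually.of_forall fun N => (h5 N).le)
  linarith

end Pool.Agent.CPL
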