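import Pool.Agent.CPL.INS

set_option autoImplicit false

/-!
# Removal of a vertex of degree 3

`deg F v = 3`: the three faces at `v` are `(v, a, b)`, `(v, b, c)`, `(v, c, a)` (successor map without fixed point on a set with
three elements, `not_both` not needed: if the successor of `b` were `a` then the link of `v` would be `{a, b}` by `link_closed`).
`del F v a b c`: keep the faces without `v`, add `(a, b, c)`. `IsTri`: the darts `(a,b), (b,c), (c,a)` were in the faces with `v`.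
`link`: lift with `f v = c` at `a` (old path `b → v → c`), `f v = a` at `b`, `f v = b` at `c`, `f = id` elsewhere.
`conn`: lift with `f v = a`. `euler`: nine triples contain `v`.
-/

namespace Pool.Agent.CPL

open Finset

variable {V : Finset ℕ} {F : Finset Tr} {a b c v w : ℕ}

/-- remove the vertex `v` with neighbours `a`, `b`, `c` -/
def del (F : Finset Tr) (v a b c : ℕ) : Finset Tr :=
  (F.filter fun t => t.1 ≠ v ∧ t.2.1 ≠ v ∧ t.2.2 ≠ v) ∪ rots a b c

theorem del_mem {x y z : ℕ} : (x, y, z) ∈ del F v a b c ↔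
    ((x, y, z) ∈ F ∧ x ≠ v ∧ y ≠ v ∧ z ≠ v) ∨
      (x = a ∧ y = b ∧ z = c) ∨ (x = b ∧ y = c ∧ z = a) ∨ (x = c ∧ y = a ∧ z = b) := by
  unfold del
  simp only [mem_union, mem_filter, mem_rots, Prod.mk.injEq]

theorem IsTri.deg_eq_three (h : IsTri V F) (hd : deg F v = 3) :
    ∃ a b c, (v, a, b) ∈ F ∧ (v, b, c) ∈ F ∧ (v, c, a) ∈ F := by
  classical
  have hd' := hd
  rw [h.deg_eq] at hd'
  obtain ⟨a, ha⟩ : (V.filter fun a => ∃ b, (v, a, b) ∈ F).Nonempty := by
    rw [← card_pos, hd']; norm_num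
  rw [mem_filter] at ha
  obtain ⟨-, b, hab⟩ := ha
  obtain ⟨c, hbc⟩ := h.next hab
  obtain ⟨d, hcd⟩ := h.next hbc
  have hle : ∀ S : Finset ℕ, (∀ a b, (v, a, b) ∈ F → a ∈ S) → 3 ≤ S.card := by
    intro S hS
    rw [← hd]
    exact h.deg_le_of S hS
  have hca : c ≠ a := by
    rintro rfl
    have h2 : ∀ x y, (v, x, y) ∈ F → x ∈ ({c, b} : Finset ℕ) := by
      intro x y hxy
      have := h.link_closed ({c, b} : Set ℕ) (a := c) (by simp) hab (by
        rintro x y (rfl | hx) hxy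
        · right; exact h.uniq _ _ _ _ hxy hab
        · rw [Set.mem_singleton_iff] at hx
          subst hx
          left; exact h.uniq _ _ _ _ hxy hbc) hxy
      simpa using this
    have h3 := hle _ h2
    have h4 : ({c, b} : Finset ℕ).card ≤ 2 := card_le_two
    omega
  have hda : d = a := by
    by_contra hda
    have hdb : d ≠ b := by
      rintro rfl
      have e := h.uniq2 hab (by exact hcd : (v, c, d) ∈ F)
      exact hca e.symm
    have h5 : ({a, b, c, d} : Finset ℕ) ⊆ V.filter fun a => ∃ b, (v, a, b) ∈ F := by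
      obtain ⟨e, hde⟩ := h.next hcd
      intro x hx
      simp only [mem_insert, mem_singleton] at hx
      rw [mem_filter]
      rcases hx with rfl | rfl | rfl | rfl
      · exact ⟨h.mem2 hab, _, hab⟩
      · exact ⟨h.mem2 hbc, _, hbc⟩
      · exact ⟨h.mem2 hcd, _, hcd⟩
      · exact ⟨h.mem2 hde, _, hde⟩
    have h6 := card_le_card h5
    have h7 : ({a, b, c, d} : Finset ℕ).card = 4 := by
      have h1 := h.ne23 hab
      have h2 := h.ne23 hbc
      have h3 := h.ne23 hcd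
      rw [card_insert_of_notMem, card_insert_of_notMem, card_insert_of_notMem, card_singleton]
      · simpa using h3
      · simp only [mem_insert, mem_singleton, not_or]
        exact ⟨h2, fun e => hdb e.symm⟩
      · simp only [mem_insert, mem_singleton, not_or]
        exact ⟨h1, fun e => hca e.symm, fun e => hda e.symm⟩
    omega
  subst hda
  exact ⟨d, b, c, hab, hbc, hcd⟩

private theorem del_link_aux {R R' : ℕ → ℕ → Prop} (f : ℕ → ℕ)
    (hlink : ∀ x x' y y', R x x' → R y y' → Relation.ReflTransGen R x y)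
    (hR : ∀ p q, R p q → Relation.ReflTransGen R' (f p) (f q))
    (hin : ∀ x x', R' x x' → ∃ x0 x0', R x0 x0' ∧ f x0 = x)
    {x x' y y' : ℕ} (hx : R' x x') (hy : R' y y') : Relation.ReflTransGen R' x y := by
  obtain ⟨x0, x0', h1, rfl⟩ := hin x x' hx
  obtain ⟨y0, y0', h3, rfl⟩ := hin y y' hy
  have h5 := hlink _ _ _ _ h1 h3
  clear h3 h1 hx hy
  induction h5 with
  | refl => exact Relation.ReflTransGen.refl
  | tail _ hbc ih => exact ih.trans (hR _ _ hbc)

theorem IsTri.del (h : IsTri V F) (hV : 4 ≤ V.card) (h1 : (v, a, b) ∈ F) (h2 : (v, b, c) ∈ F)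
    (h3 : (v, c, a) ∈ F) : IsTri (V.erase v) (del F v a b c) := by
  have hva := h.ne12 h1
  have hab := h.ne23 h1
  have hbv := h.ne31 h1
  have hvb := hbv.symm
  have hbc := h.ne23 h2
  have hcv := h.ne31 h2
  have hca := h.ne23 h3
  have hVa := h.mem2 h1
  have hVb := h.mem2 h2
  have hVc := h.mem2 h3
  -- the link of v
  have hlv : ∀ x y, (v, x, y) ∈ F → (x = a ∧ y = b) ∨ (x = b ∧ y = c) ∨ (x = c ∧ y = a) := by
    intro x y hxy
    have hx : x ∈ ({a, b, c} : Set ℕ) := by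
      refine h.link_closed ({a, b, c} : Set ℕ) (a := a) (by simp) h1 ?_ hxy
      rintro x y hx hxy
      simp only [Set.mem_insert_iff, Set.mem_singleton_iff] at hx ⊢
      rcases hx with rfl | rfl | rfl
      · right; left; exact h.uniq _ _ _ _ hxy h1
      · right; right; exact h.uniq _ _ _ _ hxy h2
      · left; exact h.uniq _ _ _ _ hxy h3
    simp only [Set.mem_insert_iff, Set.mem_singleton_iff] at hx
    rcases hx with rfl | rfl | rfl
    · left; exact ⟨rfl, h.uniq _ _ _ _ hxy h1⟩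
    · right; left; exact ⟨rfl, h.uniq _ _ _ _ hxy h2⟩
    · right; right; exact ⟨rfl, h.uniq _ _ _ _ hxy h3⟩
  have dab : ∀ z, (a, b, z) ∈ F → z = v := fun z hz => h.uniq _ _ _ _ hz (h.rot _ _ _ h1)
  have dbc : ∀ z, (b, c, z) ∈ F → z = v := fun z hz => h.uniq _ _ _ _ hz (h.rot _ _ _ h2)
  have dca : ∀ z, (c, a, z) ∈ F → z = v := fun z hz => h.uniq _ _ _ _ hz (h.rot _ _ _ h3)
  have hopp : ∀ x y, x ≠ v → y ≠ v → (∃ z, (x, y, z) ∈ F) →
      ∃ z, (x, y, z) ∈ Pool.Agent.CPL.del F v a b c := by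
    rintro x y hx hy ⟨z, hz⟩
    by_cases hzv : z = v
    · subst hzv
      rcases hlv _ _ (h.rot2 hz) with ⟨rfl, rfl⟩ | ⟨rfl, rfl⟩ | ⟨rfl, rfl⟩
      · exact ⟨c, del_mem.mpr (by simp)⟩
      · exact ⟨a, del_mem.mpr (by simp)⟩
      · exact ⟨b, del_mem.mpr (by simp)⟩
    · exact ⟨z, del_mem.mpr (Or.inl ⟨hz, hx, hy, hzv⟩)⟩
  refine ⟨?_, ?_, ?_, ?_, ?_, ?_, ?_, ?_⟩
  · intro x y z hz
    rw [del_mem] at hz
    rw [mem_erase]
    rcases hz with ⟨h4, h5, -, -⟩ | ⟨rfl, -, -⟩ | ⟨rfl, -, -⟩ | ⟨rfl, -, -⟩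
    · exact ⟨h5, h.mem _ _ _ h4⟩
    · exact ⟨hva.symm, hVa⟩
    · exact ⟨hbv, hVb⟩
    · exact ⟨hcv, hVc⟩
  · intro x y z hz
    rw [del_mem] at hz ⊢
    rcases hz with ⟨h4, h5, h6, h7⟩ | hz
    · exact Or.inl ⟨h.rot _ _ _ h4, h6, h7, h5⟩
    · right
      rcases hz with ⟨rfl, rfl, rfl⟩ | ⟨rfl, rfl, rfl⟩ | ⟨rfl, rfl, rfl⟩ <;> simp
  · intro x y z hz
    rw [del_mem] at hz
    rcases hz with ⟨h4, h5, h6, h7⟩ | ⟨rfl, rfl, rfl⟩ | ⟨rfl, rfl, rfl⟩ | ⟨rfl, rfl, rfl⟩
    · exact h.ne _ _ _ h4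
    · exact hab
    · exact hbc
    · exact hca
  · intro x y z z' hz hz'
    rw [del_mem] at hz hz'
    rcases hz with ⟨h4, h5, h6, h7⟩ | hz <;> rcases hz' with ⟨h8, h9, h10, h11⟩ | hz'
    · exact h.uniq _ _ _ _ h4 h8
    · exfalso
      rcases hz' with ⟨rfl, rfl, rfl⟩ | ⟨rfl, rfl, rfl⟩ | ⟨rfl, rfl, rfl⟩
      · exact h7 (dab _ h4)
      · exact h7 (dbc _ h4)
      · exact h7 (dca _ h4)
    · exfalso
      rcases hz with ⟨rfl, rfl, rfl⟩ | ⟨rfl, rfl, rfl⟩ | ⟨rfl, rfl, rfl⟩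
      · exact h11 (dab _ h8)
      · exact h11 (dbc _ h8)
      · exact h11 (dca _ h8)
    · rcases hz with ⟨rfl, rfl, rfl⟩ | ⟨rfl, rfl, rfl⟩ | ⟨rfl, rfl, rfl⟩ <;>
        rcases hz' with ⟨e1, e2, rfl⟩ | ⟨e1, e2, rfl⟩ | ⟨e1, e2, rfl⟩ <;>
        first
          | rfl
          | exact absurd e1 hab
          | exact absurd e1 hab.symm
          | exact absurd e1 hbc
          | exact absurd e1 hbc.symm
          | exact absurd e1 hca
          | exact absurd e1 hca.symm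
  · intro x y z hz
    rw [del_mem] at hz
    rcases hz with ⟨h4, h5, h6, -⟩ | ⟨rfl, rfl, -⟩ | ⟨rfl, rfl, -⟩ | ⟨rfl, rfl, -⟩
    · exact hopp _ _ h6 h5 (h.opp _ _ _ h4)
    · exact hopp _ _ hbv hva.symm (h.opp _ _ _ (h.rot _ _ _ h1))
    · exact hopp _ _ hcv hbv (h.opp _ _ _ (h.rot _ _ _ h2))
    · exact hopp _ _ hva.symm hcv (h.opp _ _ _ (h.rot _ _ _ h3))
  · intro w x x' y y' hx hy
    have hwv : w ≠ v := by
      rintro rfl
      rw [del_mem] at hx
      rcases hx with ⟨-, h4, -⟩ | ⟨e, -⟩ | ⟨e, -⟩ | ⟨e, -⟩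
      · exact h4 rfl
      · exact hva e
      · exact hvb e
      · exact hcv e.symm
    have hnv : ∀ x x', (w, x, x') ∈ Pool.Agent.CPL.del F v a b c → x ≠ v := by
      rintro x x' hx rfl
      rw [del_mem] at hx
      rcases hx with ⟨-, -, h4, -⟩ | ⟨-, e, -⟩ | ⟨-, e, -⟩ | ⟨-, e, -⟩
      · exact h4 rfl
      · exact hvb e
      · exact hcv e.symm
      · exact hva e
    refine del_link_aux (R := fun p q => (w, p, q) ∈ F)
      (fun p => if p = v then (if w = a then c else if w = b then a else b) else p)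
      (h.link w) ?_ ?_ hx hy
    · intro p q hpq
      by_cases hp : p = v
      · subst hp
        rcases hlv _ _ (h.rot _ _ _ hpq) with ⟨rfl, rfl⟩ | ⟨rfl, rfl⟩ | ⟨rfl, rfl⟩
        · -- (v, q, w) = (v, a, b)
          simp only [if_true, if_neg hab.symm, if_neg hva.symm]
          exact Relation.ReflTransGen.refl
        · simp only [if_true, if_neg hca, if_neg hbc.symm, if_neg hbv]
          exact Relation.ReflTransGen.refl
        · simp only [if_true, if_neg hcv]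
          exact Relation.ReflTransGen.refl
      · by_cases hq : q = v
        · subst hq
          rcases hlv _ _ (h.rot2 hpq) with ⟨rfl, rfl⟩ | ⟨rfl, rfl⟩ | ⟨rfl, rfl⟩
          · -- (v, w, p) = (v, a, b)
            simp only [if_true, if_neg hbv]
            exact Relation.ReflTransGen.single (del_mem.mpr (by simp))
          · simp only [if_true, if_neg hab.symm, if_neg hcv]
            exact Relation.ReflTransGen.single (del_mem.mpr (by simp))
          · simp only [if_true, if_neg hca, if_neg hbc.symm, if_neg hva.symm]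
            exact Relation.ReflTransGen.single (del_mem.mpr (by simp))
        · simp only [if_neg hp, if_neg hq]
          exact Relation.ReflTransGen.single (del_mem.mpr (Or.inl ⟨hpq, hwv, hp, hq⟩))
    · intro x x' hx
      have hxv := hnv _ _ hx
      rw [del_mem] at hx
      rcases hx with ⟨h4, -, -, -⟩ | ⟨rfl, rfl, rfl⟩ | ⟨rfl, rfl, rfl⟩ | ⟨rfl, rfl, rfl⟩
      · exact ⟨x, x', h4, by simp only [if_neg hxv]⟩
      · exact ⟨x, v, h.rot _ _ _ h1, by simp only [if_neg hxv]⟩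
      · exact ⟨x, v, h.rot _ _ _ h2, by simp only [if_neg hxv]⟩
      · exact ⟨x, v, h.rot _ _ _ h3, by simp only [if_neg hxv]⟩
  · intro x hx y hy
    rw [mem_erase] at hx hy
    have key : ∀ p q, (∃ z, (p, q, z) ∈ F) → Relation.ReflTransGen
        (fun x y => ∃ c_1, (x, y, c_1) ∈ Pool.Agent.CPL.del F v a b c)
        (if p = v then a else p) (if q = v then a else q) := by
      rintro p q ⟨z, hz⟩
      by_cases hp : p = v
      · subst hp
        have hq : q ≠ p := (h.ne12 hz).symm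
        rw [if_pos rfl, if_neg hq]
        rcases hlv _ _ hz with ⟨rfl, -⟩ | ⟨rfl, -⟩ | ⟨rfl, -⟩
        · exact Relation.ReflTransGen.refl
        · exact Relation.ReflTransGen.single ⟨c, del_mem.mpr (by simp)⟩
        · obtain ⟨d, hd⟩ := hopp a q hva.symm hq (h.opp _ _ _ (h.rot _ _ _ h3))
          exact Relation.ReflTransGen.single ⟨d, hd⟩
      · by_cases hq : q = v
        · subst hq
          rw [if_pos rfl, if_neg hp]
          obtain ⟨w, hw⟩ := h.opp _ _ _ hz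
          rcases hlv _ _ hw with ⟨rfl, -⟩ | ⟨rfl, -⟩ | ⟨rfl, -⟩
          · exact Relation.ReflTransGen.refl
          · obtain ⟨d, hd⟩ := hopp p a hp hva.symm (h.opp _ _ _ (h.rot _ _ _ h1))
            exact Relation.ReflTransGen.single ⟨d, hd⟩
          · exact Relation.ReflTransGen.single ⟨b, del_mem.mpr (by simp)⟩
        · rw [if_neg hp, if_neg hq]
          obtain ⟨d, hd⟩ := hopp p q hp hq ⟨z, hz⟩
          exact Relation.ReflTransGen.single ⟨d, hd⟩
    have hp := h.conn x hx.2 y hy.2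
    have h4 : Relation.ReflTransGen
        (fun x y => ∃ c_1, (x, y, c_1) ∈ Pool.Agent.CPL.del F v a b c)
        (if x = v then a else x) (if y = v then a else y) := by
      clear hy
      induction hp with
      | refl => exact Relation.ReflTransGen.refl
      | tail _ hbc ih => exact ih.trans (key _ _ hbc)
    rwa [if_neg hx.1, if_neg hy.1] at h4
  · have hvV : v ∈ V := h.mem _ _ _ h1
    have c1 : F.filter (fun t => ¬ (t.1 ≠ v ∧ t.2.1 ≠ v ∧ t.2.2 ≠ v)) =
        rots v a b ∪ rots v b c ∪ rots v c a := by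
      ext ⟨x, y, z⟩
      simp only [mem_filter, mem_union, mem_rots, Prod.mk.injEq, not_and_or, not_not, ne_eq]
      constructor
      · rintro ⟨h4, rfl | rfl | rfl⟩
        · rcases hlv _ _ h4 with ⟨rfl, rfl⟩ | ⟨rfl, rfl⟩ | ⟨rfl, rfl⟩ <;> simp
        · rcases hlv _ _ (h.rot _ _ _ h4) with ⟨rfl, rfl⟩ | ⟨rfl, rfl⟩ | ⟨rfl, rfl⟩ <;> simp
        · rcases hlv _ _ (h.rot2 h4) with ⟨rfl, rfl⟩ | ⟨rfl, rfl⟩ | ⟨rfl, rfl⟩ <;> simp
      · rintro (((⟨rfl, rfl, rfl⟩ | ⟨rfl, rfl, rfl⟩ | ⟨rfl, rfl, rfl⟩) |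
          (⟨rfl, rfl, rfl⟩ | ⟨rfl, rfl, rfl⟩ | ⟨rfl, rfl, rfl⟩)) |
          (⟨rfl, rfl, rfl⟩ | ⟨rfl, rfl, rfl⟩ | ⟨rfl, rfl, rfl⟩))
        · exact ⟨h1, by simp⟩
        · exact ⟨h.rot _ _ _ h1, by simp⟩
        · exact ⟨h.rot2 h1, by simp⟩
        · exact ⟨h2, by simp⟩
        · exact ⟨h.rot _ _ _ h2, by simp⟩
        · exact ⟨h.rot2 h2, by simp⟩
        · exact ⟨h3, by simp⟩
        · exact ⟨h.rot _ _ _ h3, by simp⟩
        · exact ⟨h.rot2 h3, by simp⟩
    have c2 : (rots v a b ∪ rots v b c ∪ rots v c a).card = 9 := by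
      rw [card_union_of_disjoint, card_union_of_disjoint, card_rots hva hab hbv,
        card_rots hvb hbc hcv, card_rots hcv.symm hca hva.symm]
      · rw [Finset.disjoint_left]
        intro t ht ht'
        rw [mem_rots] at ht ht'
        rcases ht with rfl | rfl | rfl <;> simp only [Prod.mk.injEq] at ht' <;> grind
      · rw [Finset.disjoint_left]
        intro t ht ht'
        rw [mem_union, mem_rots, mem_rots] at ht
        rw [mem_rots] at ht'
        rcases ht with (rfl | rfl | rfl) | (rfl | rfl | rfl) <;>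
          simp only [Prod.mk.injEq] at ht' <;> grind
    have c3 := card_filter_add_card_filter_not (s := F)
      (p := fun t => t.1 ≠ v ∧ t.2.1 ≠ v ∧ t.2.2 ≠ v)
    rw [c1, c2] at c3
    have c4 : Disjoint (F.filter fun t => t.1 ≠ v ∧ t.2.1 ≠ v ∧ t.2.2 ≠ v) (rots a b c) := by
      rw [Finset.disjoint_left]
      intro t ht ht'
      rw [mem_filter] at ht
      rw [mem_rots] at ht'
      rcases ht' with rfl | rfl | rfl
      · exact ht.2.2.2 (dab _ ht.1)
      · exact ht.2.2.2 (dbc _ ht.1)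
      · exact ht.2.2.2 (dca _ ht.1)
    unfold Pool.Agent.CPL.del
    rw [card_union_of_disjoint c4, card_rots hab hbc hca, card_erase_of_mem hvV]
    have := h.euler
    omega

theorem IsTri.ins_del (h : IsTri V F) (hV : 4 ≤ V.card) (h1 : (v, a, b) ∈ F) (h2 : (v, b, c) ∈ F)
    (h3 : (v, c, a) ∈ F) : Pool.Agent.CPL.ins (Pool.Agent.CPL.del F v a b c) v a b c = F := by
  have hlv : ∀ x y, (v, x, y) ∈ F → (x = a ∧ y = b) ∨ (x = b ∧ y = c) ∨ (x = c ∧ y = a) := by
    intro x y hxy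
    have hx : x ∈ ({a, b, c} : Set ℕ) := by
      refine h.link_closed ({a, b, c} : Set ℕ) (a := a) (by simp) h1 ?_ hxy
      rintro x y hx hxy
      simp only [Set.mem_insert_iff, Set.mem_singleton_iff] at hx ⊢
      rcases hx with rfl | rfl | rfl
      · right; left; exact h.uniq _ _ _ _ hxy h1
      · right; right; exact h.uniq _ _ _ _ hxy h2
      · left; exact h.uniq _ _ _ _ hxy h3
    simp only [Set.mem_insert_iff, Set.mem_singleton_iff] at hx
    rcases hx with rfl | rfl | rfl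
    · left; exact ⟨rfl, h.uniq _ _ _ _ hxy h1⟩
    · right; left; exact ⟨rfl, h.uniq _ _ _ _ hxy h2⟩
    · right; right; exact ⟨rfl, h.uniq _ _ _ _ hxy h3⟩
  have hva := h.ne12 h1
  have hvb := h.ne12 h2
  have hvc := h.ne12 h3
  have dab : ∀ z, (a, b, z) ∈ F → z = v := fun z hz => h.uniq _ _ _ _ hz (h.rot _ _ _ h1)
  have dbc : ∀ z, (b, c, z) ∈ F → z = v := fun z hz => h.uniq _ _ _ _ hz (h.rot _ _ _ h2)
  have dca : ∀ z, (c, a, z) ∈ F → z = v := fun z hz => h.uniq _ _ _ _ hz (h.rot _ _ _ h3)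
  ext ⟨x, y, z⟩
  unfold Pool.Agent.CPL.ins
  rw [mem_union, mem_sdiff, del_mem]
  simp only [mem_union, mem_rots, Prod.mk.injEq]
  constructor
  · rintro (⟨⟨h4, -⟩ | h4, h5⟩ | (((⟨rfl, rfl, rfl⟩ | ⟨rfl, rfl, rfl⟩ | ⟨rfl, rfl, rfl⟩) |
          (⟨rfl, rfl, rfl⟩ | ⟨rfl, rfl, rfl⟩ | ⟨rfl, rfl, rfl⟩)) |
          (⟨rfl, rfl, rfl⟩ | ⟨rfl, rfl, rfl⟩ | ⟨rfl, rfl, rfl⟩)))
    · exact h4
    · exact absurd h4 h5
    · exact h1
    · exact h.rot _ _ _ h1
    · exact h.rot2 h1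
    · exact h2
    · exact h.rot _ _ _ h2
    · exact h.rot2 h2
    · exact h3
    · exact h.rot _ _ _ h3
    · exact h.rot2 h3
  · intro h4
    by_cases hx : x = v
    · subst hx
      right
      rcases hlv _ _ h4 with ⟨rfl, rfl⟩ | ⟨rfl, rfl⟩ | ⟨rfl, rfl⟩ <;> simp
    by_cases hy : y = v
    · subst hy
      right
      rcases hlv _ _ (h.rot _ _ _ h4) with ⟨rfl, rfl⟩ | ⟨rfl, rfl⟩ | ⟨rfl, rfl⟩ <;> simp
    by_cases hz : z = v
    · subst hz
      right
      rcases hlv _ _ (h.rot2 h4) with ⟨rfl, rfl⟩ | ⟨rfl, rfl⟩ | ⟨rfl, rfl⟩ <;> simp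
    left
    refine ⟨Or.inl ⟨h4, hx, hy, hz⟩, ?_⟩
    rintro (⟨rfl, rfl, rfl⟩ | ⟨rfl, rfl, rfl⟩ | ⟨rfl, rfl, rfl⟩)
    · exact hz (dab _ h4)
    · exact hz (dbc _ h4)
    · exact hz (dca _ h4)

theorem IsTri.del_ins (h : IsTri V F) (hv : v ∉ V) (ht : (a, b, c) ∈ F) :
    Pool.Agent.CPL.del (Pool.Agent.CPL.ins F v a b c) v a b c = F := by
  have hnv : ∀ x y z, (x, y, z) ∈ F → x ≠ v ∧ y ≠ v ∧ z ≠ v := by
    intro x y z hz
    refine ⟨?_, ?_, ?_⟩
    · rintro rfl; exact hv (h.mem _ _ _ hz)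
    · rintro rfl; exact hv (h.mem2 hz)
    · rintro rfl; exact hv (h.mem3 hz)
  ext ⟨x, y, z⟩
  rw [del_mem]
  unfold Pool.Agent.CPL.ins
  rw [mem_union, mem_sdiff]
  simp only [mem_union, mem_rots, Prod.mk.injEq]
  constructor
  · rintro (⟨⟨h4, -⟩ | h4, hx, hy, hz⟩ | ⟨rfl, rfl, rfl⟩ | ⟨rfl, rfl, rfl⟩ | ⟨rfl, rfl, rfl⟩)
    · exact h4
    · exfalso
      rcases h4 with (((⟨rfl, rfl, rfl⟩ | ⟨rfl, rfl, rfl⟩ | ⟨rfl, rfl, rfl⟩) |
          (⟨rfl, rfl, rfl⟩ | ⟨rfl, rfl, rfl⟩ | ⟨rfl, rfl, rfl⟩)) |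
          (⟨rfl, rfl, rfl⟩ | ⟨rfl, rfl, rfl⟩ | ⟨rfl, rfl, rfl⟩)) <;>
        first | exact hx rfl | exact hy rfl | exact hz rfl
    · exact ht
    · exact h.rot _ _ _ ht
    · exact h.rot2 ht
  · intro h4
    obtain ⟨hx, hy, hz⟩ := hnv _ _ _ h4
    by_cases h5 : (x = a ∧ y = b ∧ z = c) ∨ (x = b ∧ y = c ∧ z = a) ∨ (x = c ∧ y = a ∧ z = b)
    · exact Or.inr h5
    · exact Or.inl ⟨Or.inl ⟨h4, h5⟩, hx, hy, hz⟩

/-- the root face survives the removal of an inner vertex -/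
theorem root_mem_del (hv : 3 ≤ v) (h0 : (0, 1, 2) ∈ F) : (0, 1, 2) ∈ Pool.Agent.CPL.del F v a b c := by
  rw [del_mem]
  left
  refine ⟨h0, ?_, ?_, ?_⟩ <;> omega

end Pool.Agent.CPL
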