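import Pool.Agent.CPL.Defs

set_option autoImplicit false

/-!
# Discs and the Descartes relation

`BB z r i j = (|z_i - z_j|² - r_i² - r_j²) / (2 r_i r_j)` is the inversive product of two discs: `1` iff they are tangent from
outside, `-1` for `i = j`, `> 1` if disjoint. It is the bilinear form `(α_i γ_j + γ_i α_j) / 2 - β_i · β_j` of the vectors
`(α, β, γ) = (1 / r, z / r, (|z|² - r²) / r)` in `ℝ⁴`. If `v, a, b, c` are pairwise tangent their Gram matrix `J - 2 I` is regular, so
the vectors form a basis of `ℝ⁴`; for the vector of `d` tangent to `v, a, b`, with `t = BB c d`: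
`X_d = (1+t)/4 (X_v + X_a + X_b) + (3-t)/4 X_c` and `BB d d = -1` gives `t² - 6 t - 7 = 0`, so `t = 7` or `t = -1`, and `t = 7` gives
`X_d = 2 X_v + 2 X_a + 2 X_b - X_c`. (Linear algebra: five vectors of `ℝ⁴`; or polynomial identities.)
-/

namespace Pool.Agent.CPL



/-- the inversive product of two discs -/
noncomputable def BB (z : ℕ → ℂ) (r : ℕ → ℝ) (i j : ℕ) : ℝ :=
  (dist (z i) (z j) ^ 2 - r i ^ 2 - r j ^ 2) / (2 * r i * r j)

theorem BB_comm (z : ℕ → ℂ) (r : ℕ → ℝ) (i j : ℕ) : BB z r i j = BB z r j i := by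
  unfold BB
  rw [dist_comm]
  congr 1 <;> ring

theorem BB_self {z : ℕ → ℂ} {r : ℕ → ℝ} {i : ℕ} (hi : 0 < r i) : BB z r i i = -1 := by
  unfold BB
  rw [dist_self]
  field_simp
  ring

theorem BB_tangent {z : ℕ → ℂ} {r : ℕ → ℝ} {i j : ℕ} (hi : 0 < r i) (hj : 0 < r j)
    (h : dist (z i) (z j) = r i + r j) : BB z r i j = 1 := by
  unfold BB
  rw [h]
  field_simp
  ring

theorem one_le_BB {z : ℕ → ℂ} {r : ℕ → ℝ} {i j : ℕ} (hi : 0 < r i) (hj : 0 < r j)
    (h : r i + r j ≤ dist (z i) (z j)) : 1 ≤ BB z r i j := by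
  unfold BB
  rw [le_div_iff₀ (by positivity)]
  nlinarith

/-- the vector of a disc -/
noncomputable def dvec (z : ℕ → ℂ) (r : ℕ → ℝ) (i : ℕ) : Fin 4 → ℝ :=
  ![1 / r i, (z i).re / r i, (z i).im / r i, ((z i).re ^ 2 + (z i).im ^ 2 - r i ^ 2) / r i]

/-- the bilinear form -/
noncomputable def dB (u w : Fin 4 → ℝ) : ℝ := (u 0 * w 3 + u 3 * w 0) / 2 - u 1 * w 1 - u 2 * w 2

theorem BB_eq {z : ℕ → ℂ} {r : ℕ → ℝ} {i j : ℕ} (hi : 0 < r i) (hj : 0 < r j) :
    BB z r i j = dB (dvec z r i) (dvec z r j) := by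
  have h1 : dist (z i) (z j) ^ 2 = ((z i).re - (z j).re) ^ 2 + ((z i).im - (z j).im) ^ 2 := by
    rw [Complex.dist_eq, Complex.sq_norm, Complex.normSq_apply, Complex.sub_re, Complex.sub_im]
    ring
  unfold BB dB dvec
  rw [h1]
  simp only [Matrix.cons_val]
  field_simp
  ring

/-- the matrix of the form -/
noncomputable def dJ : Matrix (Fin 4) (Fin 4) ℝ :=
  !![0, 0, 0, 1 / 2; 0, -1, 0, 0; 0, 0, -1, 0; 1 / 2, 0, 0, 0]

theorem dB_eq (X : Matrix (Fin 4) (Fin 4) ℝ) (w : Fin 4 → ℝ) (i : Fin 4) :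
    ((X * dJ).mulVec w) i = dB (X i) w := by
  unfold dB dJ
  simp [Matrix.mulVec, dotProduct, Fin.sum_univ_four, Matrix.mul_apply]
  ring

theorem gram_det : (!![(-1 : ℝ), 1, 1, 1; 1, -1, 1, 1; 1, 1, -1, 1; 1, 1, 1, -1]).det = -16 := by
  simp [Matrix.det_succ_row_zero, Fin.sum_univ_succ, Fin.succAbove]
  norm_num

/-- a vector orthogonal to four pairwise tangent discs is zero -/
theorem eq_zero_of_orth (X : Matrix (Fin 4) (Fin 4) ℝ)
    (hX : ∀ i j, dB (X i) (X j) = if i = j then -1 else 1) (w : Fin 4 → ℝ)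
    (hw : ∀ i, dB (X i) w = 0) : w = 0 := by
  have h1 : (X * dJ) * X.transpose =
      !![(-1 : ℝ), 1, 1, 1; 1, -1, 1, 1; 1, 1, -1, 1; 1, 1, 1, -1] := by
    ext i j
    have h2 : ((X * dJ) * X.transpose) i j = dB (X i) (X j) := by
      rw [← dB_eq X (X j) i]
      rfl
    rw [h2, hX]
    fin_cases i <;> fin_cases j <;> simp
  have h2 : (X * dJ).det ≠ 0 := by
    intro h0
    have h3 := congrArg Matrix.det h1
    rw [Matrix.det_mul, h0, zero_mul, gram_det] at h3
    norm_num at h3
  apply Matrix.eq_zero_of_mulVec_eq_zero h2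
  funext i
  rw [dB_eq, hw]
  rfl

theorem dB_add (u w w' : Fin 4 → ℝ) (s t : ℝ) :
    dB u (fun i => s * w i + t * w' i) = s * dB u w + t * dB u w' := by
  unfold dB
  ring

theorem dB_comm (u w : Fin 4 → ℝ) : dB u w = dB w u := by
  unfold dB
  ring

theorem descartes {z : ℕ → ℂ} {r : ℕ → ℝ} {v a b c d e : ℕ} (hv : 0 < r v) (ha : 0 < r a)
    (hb : 0 < r b) (hc : 0 < r c) (hd : 0 < r d) (he : 0 < r e)
    (hva : BB z r v a = 1) (hvb : BB z r v b = 1) (hab : BB z r a b = 1)
    (hvc : BB z r v c = 1) (hac : BB z r a c = 1) (hbc : BB z r b c = 1)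
    (hvd : BB z r v d = 1) (had : BB z r a d = 1) (hbd : BB z r b d = 1)
    (hcd : 1 ≤ BB z r c d) :
    BB z r d e = 2 * BB z r v e + 2 * BB z r a e + 2 * BB z r b e - BB z r c e := by
  have svv := BB_self (z := z) hv
  have saa := BB_self (z := z) ha
  have sbb := BB_self (z := z) hb
  have scc := BB_self (z := z) hc
  have sdd := BB_self (z := z) hd
  rw [BB_eq hv hv] at svv
  rw [BB_eq ha ha] at saa
  rw [BB_eq hb hb] at sbb
  rw [BB_eq hc hc] at scc
  rw [BB_eq hd hd] at sdd
  rw [BB_eq hv ha] at hva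
  rw [BB_eq hv hb] at hvb
  rw [BB_eq ha hb] at hab
  rw [BB_eq hv hc] at hvc
  rw [BB_eq ha hc] at hac
  rw [BB_eq hb hc] at hbc
  rw [BB_eq hv hd] at hvd
  rw [BB_eq ha hd] at had
  rw [BB_eq hb hd] at hbd
  rw [BB_eq hc hd] at hcd
  rw [BB_eq hd he, BB_eq hv he, BB_eq ha he, BB_eq hb he, BB_eq hc he]
  generalize dvec z r v = V at *
  generalize dvec z r a = A at *
  generalize dvec z r b = B at *
  generalize dvec z r c = C at *
  generalize dvec z r d = D at *
  generalize dvec z r e = E at *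
  obtain ⟨t, ht⟩ : ∃ t, t = dB C D := ⟨_, rfl⟩
  rw [← ht] at hcd
  have h0 : (fun i => D i - ((1 + t) / 4 * (V i + A i + B i) + (3 - t) / 4 * C i)) =
      (0 : Fin 4 → ℝ) := by
    apply eq_zero_of_orth (Matrix.of ![V, A, B, C])
    · intro i j
      have hav := hva
      have hbv := hvb
      have hba := hab
      have hcv := hvc
      have hca := hac
      have hcb := hbc
      rw [dB_comm] at hav hbv hba hcv hca hcb
      fin_cases i <;> fin_cases j <;> simp <;> assumption
    · intro i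
      have hcd' := ht.symm
      have hcv := hvc
      have hca := hac
      have hcb := hbc
      have hav := hva
      have hbv := hvb
      have hba := hab
      rw [dB_comm] at hcv hca hcb hav hbv hba
      have key : ∀ u : Fin 4 → ℝ,
          dB u (fun i => D i - ((1 + t) / 4 * (V i + A i + B i) + (3 - t) / 4 * C i)) =
          dB u D - ((1 + t) / 4 * (dB u V + dB u A + dB u B) + (3 - t) / 4 * dB u C) := by
        intro u
        unfold dB
        ring
      fin_cases i
      · refine (key V).trans ?_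
        rw [hvd, svv, hva, hvb, hvc]
        ring
      · refine (key A).trans ?_
        rw [had, hav, saa, hab, hac]
        ring
      · refine (key B).trans ?_
        rw [hbd, hbv, hba, sbb, hbc]
        ring
      · refine (key C).trans ?_
        rw [hcd', hcv, hca, hcb, scc]
        ring
  have hD : ∀ i, D i = (1 + t) / 4 * (V i + A i + B i) + (3 - t) / 4 * C i := by
    intro i
    have := congrFun h0 i
    simp only [Pi.zero_apply] at this
    linarith
  have key : ∀ u : Fin 4 → ℝ,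
      dB D u = (1 + t) / 4 * (dB V u + dB A u + dB B u) + (3 - t) / 4 * dB C u := by
    intro u
    unfold dB
    rw [hD 0, hD 1, hD 2, hD 3]
    ring
  have h1 := key D
  rw [sdd, hvd, had, hbd, ← ht] at h1
  have h2 : (t - 7) * (t + 1) = 0 := by linear_combination 4 * h1
  have h3 : t = 7 := by
    rcases mul_eq_zero.1 h2 with h | h
    · linarith
    · exfalso; linarith
  rw [key E, h3]
  ring

end Pool.Agent.CPL
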