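import Mathlib

set_option autoImplicit false

/-!
# MP_dc77a2_pr: the set of limit laws of the circle packing measure. Definitions.

Rooted simple triangulations of the sphere with `n` vertices are coded by their oriented faces: a
finite set `F` of triples of natural numbers `< n`, closed under rotation, with root face `(0, 1, 2)`.
(A rooted triangulation has no automorphism, so it has exactly `(n - 3)!` such codes: the uniform
measure on the codes is the uniform measure on rooted simple triangulations.)
-/

namespace Pool.Agent.CPL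

open Finset Filter Topology MeasureTheory
open scoped ENNReal

/-- An oriented triangle. -/
abbrev Tr := ℕ × ℕ × ℕ

/-- The three rotations of an oriented triangle. -/
def rots (a b c : ℕ) : Finset Tr := {(a, b, c), (b, c, a), (c, a, b)}

/-- `F` is the set of oriented faces of a simple triangulation of the sphere with vertex set `V`. -/
structure IsTri (V : Finset ℕ) (F : Finset Tr) : Prop where
  /-- the vertices of the faces are in `V` -/
  mem : ∀ a b c, (a, b, c) ∈ F → a ∈ V
  /-- closed under rotation -/
  rot : ∀ a b c, (a, b, c) ∈ F → (b, c, a) ∈ F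
  /-- no loops -/
  ne : ∀ a b c, (a, b, c) ∈ F → a ≠ b
  /-- no multiple edges: an oriented edge is in at most one face -/
  uniq : ∀ a b c d, (a, b, c) ∈ F → (a, b, d) ∈ F → c = d
  /-- every edge is in a face on both sides -/
  opp : ∀ a b c, (a, b, c) ∈ F → ∃ d, (b, a, d) ∈ F
  /-- the faces around a vertex form one cycle -/
  link : ∀ v a a' b b', (v, a, a') ∈ F → (v, b, b') ∈ F →
    Relation.ReflTransGen (fun x y => (v, x, y) ∈ F) a b
  /-- connected -/
  conn : ∀ a ∈ V, ∀ b ∈ V, Relation.ReflTransGen (fun x y => ∃ c, (x, y, c) ∈ F) a b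
  /-- the Euler characteristic is `2`: there are `2 |V| - 4` faces -/
  euler : F.card + 12 = 6 * V.card

open Classical in
/-- The triangulations with vertex set `V` and root face `(0, 1, 2)`. -/
noncomputable def TriOn (V : Finset ℕ) : Finset (Finset Tr) :=
  (V ×ˢ V ×ˢ V).powerset.filter fun F => IsTri V F ∧ (0, 1, 2) ∈ F

/-- The rooted triangulations with `n` labelled vertices. -/
noncomputable def Tri (n : ℕ) : Finset (Finset Tr) := TriOn (range n)

/-- `z`, `r` are the centres and the radii of a circle packing of the rooted triangulation `F`,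
normalised such that the discs of the root face are the unit discs with centres `-1`, `1`,
`-√3 i`, the interstice of the root face being the unbounded one. (The faces other than the root
face are positively oriented; the root face is negatively oriented.) -/
structure IsPacking (V : Finset ℕ) (F : Finset Tr) (z : ℕ → ℂ) (r : ℕ → ℝ) : Prop where
  /-- positive radii -/
  pos : ∀ a ∈ V, 0 < r a
  /-- neighbours are tangent -/
  tan : ∀ a b c, (a, b, c) ∈ F → dist (z a) (z b) = r a + r b
  /-- the discs of vertices that are not neighbours are disjoint -/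
  sep : ∀ a ∈ V, ∀ b ∈ V, a ≠ b → (∀ c, (a, b, c) ∉ F) → r a + r b < dist (z a) (z b)
  /-- orientation -/
  orient : ∀ a b c, (a, b, c) ∈ F → (a, b, c) ∉ rots 0 1 2 →
    0 < ((starRingEnd ℂ) (z b - z a) * (z c - z a)).im
  /-- normalisation -/
  root : z 0 = -1 ∧ z 1 = 1 ∧ z 2 = -((Real.sqrt 3 : ℝ) : ℂ) * Complex.I ∧
    r 0 = 1 ∧ r 1 = 1 ∧ r 2 = 1

/-- The tangency point of the discs of the vertices `d.1`, `d.2`. -/
noncomputable def tang (z : ℕ → ℂ) (r : ℕ → ℝ) (d : ℕ × ℕ) : ℂ :=
  ((r d.2 : ℂ) * z d.1 + (r d.1 : ℂ) * z d.2) / ((r d.1 + r d.2 : ℝ) : ℂ)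

/-- The oriented edges of a triangulation. -/
def darts (F : Finset Tr) : Finset (ℕ × ℕ) := F.image fun t => (t.1, t.2.1)

/-- Three dimensional euclidean space. -/
abbrev E3 := EuclideanSpace ℝ (Fin 3)

/-- The sphere. -/
abbrev S2 := Metric.sphere (0 : E3) 1

instance : Nonempty S2 := ⟨⟨EuclideanSpace.single 2 1, by simp⟩⟩

/-- The point of the sphere with homogeneous coordinates `p`, `q`: the image of `p / q` under the
inverse of the stereographic projection. -/
noncomputable def hopf (p q : ℂ) : E3 :=
  !₂[2 * (p * (starRingEnd ℂ) q).re / (Complex.normSq p + Complex.normSq q),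
    2 * (p * (starRingEnd ℂ) q).im / (Complex.normSq p + Complex.normSq q),
    (Complex.normSq p - Complex.normSq q) / (Complex.normSq p + Complex.normSq q)]

open Classical in
/-- The image of `x` under the Möbius transformation `A`, on the sphere. -/
noncomputable def sph (A : Matrix (Fin 2) (Fin 2) ℂ) (x : ℂ) : S2 :=
  if h : hopf (A 0 0 * x + A 0 1) (A 1 0 * x + A 1 1) ∈ Metric.sphere (0 : E3) 1 then ⟨_, h⟩
  else ⟨EuclideanSpace.single 2 1, by simp⟩

open Classical in
/-- The uniform probability measure on the points `x i`, `i ∈ s` (with multiplicities). -/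
noncomputable def emp {ι X : Type*} [MeasurableSpace X] [Nonempty X] (s : Finset ι) (x : ι → X) :
    ProbabilityMeasure X :=
  if h : IsProbabilityMeasure ((s.card : ℝ≥0∞)⁻¹ • ∑ i ∈ s, Measure.dirac (x i)) then ⟨_, h⟩
  else ⟨Measure.dirac (Classical.arbitrary X), inferInstance⟩

/-- A choice, for every rooted triangulation, of a circle packing `z`, `r` and of a Möbius
transformation `A` which sends the conformal barycentre of the uniform measure on the tangency
points to `0`. -/
structure Family where
  /-- centres -/
  z : Finset Tr → ℕ → ℂ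
  /-- radii -/
  r : Finset Tr → ℕ → ℝ
  /-- Möbius transformations -/
  A : Finset Tr → Matrix (Fin 2) (Fin 2) ℂ
  packing : ∀ n, 4 ≤ n → ∀ F ∈ Tri n, IsPacking (range n) F (z F) (r F)
  det_ne : ∀ n, 4 ≤ n → ∀ F ∈ Tri n, (A F).det ≠ 0
  bary : ∀ n, 4 ≤ n → ∀ F ∈ Tri n,
    ∑ d ∈ darts F, (sph (A F) (tang (z F) (r F) d) : E3) = 0

/-- The measure `μ_P` of the normalised packing `P` of the triangulation `F`: every edge `{a, b}` is
counted twice, as `(a, b)` and as `(b, a)`. -/
noncomputable def mu (D : Family) (F : Finset Tr) : ProbabilityMeasure S2 :=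
  emp (darts F) fun d => sph (D.A F) (tang (D.z F) (D.r F) d)

/-- The rotation group. -/
abbrev SO3 := Matrix.specialOrthogonalGroup (Fin 3) ℝ

/-- The action of a matrix on vectors. -/
noncomputable def mv (R : Matrix (Fin 3) (Fin 3) ℝ) (x : E3) : E3 :=
  WithLp.toLp 2 (R.mulVec x.ofLp)

theorem mv_mem (R : SO3) (x : S2) : mv R.1 x.1 ∈ Metric.sphere (0 : E3) 1 := by
  have h1 : R.1.transpose * R.1 = 1 := by
    have := (Matrix.mem_specialOrthogonalGroup_iff.mp R.2).1
    rw [Matrix.mem_orthogonalGroup_iff'] at this
    simpa [Matrix.star_eq_conjTranspose] using this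
  have hx : ‖x.1‖ = 1 := by simp
  rw [mem_sphere_zero_iff_norm]
  have h2 : ‖mv R.1 x.1‖ ^ 2 = ‖x.1‖ ^ 2 := by
    rw [EuclideanSpace.norm_sq_eq, EuclideanSpace.norm_sq_eq]
    have h3 : (R.1.mulVec x.1.ofLp) ⬝ᵥ (R.1.mulVec x.1.ofLp) = x.1.ofLp ⬝ᵥ x.1.ofLp := by
      rw [Matrix.dotProduct_mulVec, Matrix.vecMul_mulVec, h1, Matrix.vecMul_one]
    simp only [dotProduct] at h3
    simp only [Real.norm_eq_abs, sq_abs]
    calc ∑ i, (mv R.1 x.1) i ^ 2 = ∑ i, (R.1.mulVec x.1.ofLp) i * (R.1.mulVec x.1.ofLp) i :=
          Finset.sum_congr rfl fun i _ => by rw [sq]; rfl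
      _ = ∑ i, x.1.ofLp i * x.1.ofLp i := h3
      _ = ∑ i, x.1 i ^ 2 := Finset.sum_congr rfl fun i _ => by rw [sq]
  rw [hx] at h2
  nlinarith [norm_nonneg (mv R.1 x.1)]

/-- The action of a rotation on the sphere. -/
noncomputable def rotS (R : SO3) (x : S2) : S2 := ⟨mv R.1 x.1, mv_mem R x⟩

theorem continuous_rotS (R : SO3) : Continuous (rotS R) := by
  unfold rotS mv
  refine Continuous.subtype_mk ?_ _
  fun_prop

theorem rotS_one (x : S2) : rotS 1 x = x := by
  apply Subtype.ext
  simp [rotS, mv]

theorem rotS_mul (R R' : SO3) (x : S2) : rotS (R * R') x = rotS R (rotS R' x) := by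
  apply Subtype.ext
  simp [rotS, mv, Matrix.mulVec_mulVec]

/-- The action of the rotation group on probability measures. -/
noncomputable instance : MulAction SO3 (ProbabilityMeasure S2) where
  smul R μ := μ.map (continuous_rotS R).measurable.aemeasurable
  one_smul μ := by
    apply Subtype.ext
    change Measure.map (rotS 1) (μ : Measure S2) = μ
    have : rotS 1 = id := funext rotS_one
    rw [this, Measure.map_id]
  mul_smul R R' μ := by
    apply Subtype.ext
    change Measure.map (rotS (R * R')) (μ : Measure S2) =
      Measure.map (rotS R) (Measure.map (rotS R') (μ : Measure S2))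
    rw [Measure.map_map (continuous_rotS R).measurable (continuous_rotS R').measurable]
    congr 1
    exact funext (rotS_mul R R')

/-- The space of probability measures on the sphere modulo rotations. -/
abbrev ModSO3 := Quotient (MulAction.orbitRel SO3 (ProbabilityMeasure S2))

/-- The class of a probability measure modulo rotations. -/
noncomputable def cls (μ : ProbabilityMeasure S2) : ModSO3 := Quotient.mk _ μ

noncomputable instance : MeasurableSpace ModSO3 := borel _

instance : BorelSpace ModSO3 := ⟨rfl⟩

instance : Nonempty ModSO3 := ⟨cls ⟨Measure.dirac (Classical.arbitrary S2), inferInstance⟩⟩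

/-- The law of the random measure `μ_n` modulo rotations. -/
noncomputable def law (D : Family) (n : ℕ) : ProbabilityMeasure ModSO3 :=
  emp (Tri n) fun F => cls (mu D F)

/-- The set of all limits in distribution of `μ_n` along subsequences. -/
def limitLaws (D : Family) : Set (ProbabilityMeasure ModSO3) :=
  {Λ | ∃ φ : ℕ → ℕ, StrictMono φ ∧ Tendsto (fun k => law D (φ k)) atTop (𝓝 Λ)}

/-- The theorem to be proved: the laws of `μ_n` and of `μ_{n+1}` become equal in the limit, the set of
limit laws is compact and connected, and if it is countable then `μ_n` converges in law. -/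
def MainStatement : Prop :=
  ∀ D : Family,
    (∀ G : ModSO3 → ℝ, Continuous G →
      Tendsto (fun n => ∫ x, G x ∂(law D (n + 1) : Measure ModSO3) -
        ∫ x, G x ∂(law D n : Measure ModSO3)) atTop (𝓝 0)) ∧
    IsCompact (limitLaws D) ∧ IsConnected (limitLaws D) ∧
    ((limitLaws D).Countable → ∃ Λ, Tendsto (law D) atTop (𝓝 Λ))

end Pool.Agent.CPL
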