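import Pool.Agent.CPL.Defs

set_option autoImplicit false

/-!
# Limit sets of sequences with small steps (general topology)

`step_all`: if the continuous functions `Φ i` separate points of the compact Hausdorff space `X` and `Φ i (x (n+1)) - Φ i (x n) → 0` for all `i`, then `f (x (n+1)) - f (x n) → 0` for every continuous
`f`: for an ultrafilter `𝒰 ≤ atTop`, `x n → p`, `x (n+1) → q` along `𝒰`, `Φ i p = Φ i q`, so `p = q` and `f (x (n+1)) - f (x n) → 0` along `𝒰`; `tendsto_iff_ultrafilter`.
`limits_connected`: let `L` be the set of subsequential limits = cluster points (`X` metrizable: `MapClusterPt`, first countable), closed. If `L ⊆ u ∪ v` with disjoint relatively open nonempty parts, then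
`L = A ⊔ B`, `A, B` closed nonempty disjoint; Urysohn: `f = 0` on `A`, `f = 1` on `B`; eventually `f (x n) ∈ [0,1/3) ∪ (2/3,1]` (otherwise a cluster point outside `A ∪ B`), infinitely often in each,
contradiction to small steps. `countable_limits`: a connected countable compact metrizable set is a point (Urysohn function on it has an interval as image; or Mathlib), and then the sequence
converges (compactness).
-/

namespace Pool.Agent.CPL

open Filter Topology

variable {X : Type*} [TopologicalSpace X] [CompactSpace X]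

/-- the limits of subsequences -/
def Lims {X : Type*} [TopologicalSpace X] (x : ℕ → X) : Set X :=
  {p | ∃ φ : ℕ → ℕ, StrictMono φ ∧ Tendsto (fun k => x (φ k)) atTop (𝓝 p)}

theorem step_all [T2Space X] {I : Type*} (Φ : I → X → ℝ) (hΦ : ∀ i, Continuous (Φ i))
    (hsep : ∀ p q, (∀ i, Φ i p = Φ i q) → p = q) (x : ℕ → X)
    (hx : ∀ i, Tendsto (fun n => Φ i (x (n + 1)) - Φ i (x n)) atTop (𝓝 0))
    (f : X → ℝ) (hf : Continuous f) :
    Tendsto (fun n => f (x (n + 1)) - f (x n)) atTop (𝓝 0) := by
  rw [tendsto_iff_ultrafilter]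
  intro g hg
  have hp : Tendsto x g (𝓝 (g.map x).lim) := (g.map x).le_nhds_lim
  have hq : Tendsto (fun n => x (n + 1)) g (𝓝 (g.map fun n => x (n + 1)).lim) :=
    (g.map fun n => x (n + 1)).le_nhds_lim
  set p := (g.map x).lim
  set q := (g.map fun n => x (n + 1)).lim
  have hpq : p = q := by
    apply hsep
    intro i
    have h1 := ((hΦ i).tendsto q).comp hq
    have h2 := ((hΦ i).tendsto p).comp hp
    have h3 : Tendsto (fun n => Φ i (x (n + 1)) - Φ i (x n)) g (𝓝 (Φ i q - Φ i p)) := h1.sub h2
    have h4 := tendsto_nhds_unique h3 ((hx i).mono_left hg)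
    linarith
  have h1 := (hf.tendsto q).comp hq
  have h2 := (hf.tendsto p).comp hp
  have h3 : Tendsto (fun n => f (x (n + 1)) - f (x n)) g (𝓝 (f q - f p)) := h1.sub h2
  rwa [hpq, sub_self] at h3

theorem top_lims_eq [TopologicalSpace.MetrizableSpace X] (x : ℕ → X) :
    Lims x = {p | MapClusterPt p atTop x} := by
  ext p
  constructor
  · rintro ⟨φ, hφ, h⟩
    exact MapClusterPt.of_comp hφ.tendsto_atTop h.mapClusterPt
  · intro h
    exact h.tendsto_subseq

theorem lims_isCompact [TopologicalSpace.MetrizableSpace X] (x : ℕ → X) : IsCompact (Lims x) := by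
  rw [top_lims_eq]
  exact isClosed_setOfPred_clusterPt.isCompact

theorem lims_isConnected [TopologicalSpace.MetrizableSpace X] (x : ℕ → X)
    (hx : ∀ f : X → ℝ, Continuous f → Tendsto (fun n => f (x (n + 1)) - f (x n)) atTop (𝓝 0)) :
    IsConnected (Lims x) := by
  constructor
  · obtain ⟨p, φ, hφ, h⟩ := CompactSpace.tendsto_subseq x
    exact ⟨p, φ, hφ, h⟩
  · rw [isPreconnected_closed_iff]
    intro t t' ht ht' hsub h1 h2
    by_contra hcon
    have hclosed : IsClosed (Lims x) := (lims_isCompact x).isClosed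
    set A := Lims x ∩ t with hA
    set B := Lims x ∩ t' with hB
    have hdis : Disjoint A B := by
      rw [Set.disjoint_left]
      intro y hy hy'
      exact hcon ⟨y, hy.1, hy.2, hy'.2⟩
    obtain ⟨f, hf0, hf1, hf01⟩ := exists_continuous_zero_one_of_isClosed (hclosed.inter ht)
      (hclosed.inter ht') hdis
    -- eventually outside of the middle
    have hK : IsCompact (f ⁻¹' (Set.Icc (1 / 3 : ℝ) (2 / 3))) :=
      (isClosed_Icc.preimage f.continuous).isCompact
    have hev : ∀ᶠ n in atTop, x n ∉ f ⁻¹' (Set.Icc (1 / 3 : ℝ) (2 / 3)) := by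
      by_contra hne
      have hfr : ∃ᶠ n in atTop, x n ∈ f ⁻¹' (Set.Icc (1 / 3 : ℝ) (2 / 3)) := by
        intro h
        exact hne h
      obtain ⟨p, hpK, hp⟩ := hK.exists_mapClusterPt_of_frequently hfr
      have hpL : p ∈ Lims x := by
        rw [top_lims_eq]
        exact hp
      have hfp : f p ∈ Set.Icc (1 / 3 : ℝ) (2 / 3) := hpK
      rcases hsub hpL with h | h
      · have h3 : f p = 0 := hf0 ⟨hpL, h⟩
        rw [h3] at hfp
        have := hfp.1
        norm_num at this
      · have h3 : f p = 1 := hf1 ⟨hpL, h⟩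
        rw [h3] at hfp
        have := hfp.2
        norm_num at this
    have hst : ∀ᶠ n in atTop, |f (x (n + 1)) - f (x n)| < 1 / 3 := by
      have h3 := hx f f.continuous
      have h4 := (Metric.tendsto_nhds.mp h3) (1 / 3) (by norm_num)
      filter_upwards [h4] with n hn
      rwa [Real.dist_eq, sub_zero] at hn
    obtain ⟨N, hN⟩ := (hev.and hst).exists_forall_of_atTop
    obtain ⟨a, haL, hat⟩ := h1
    obtain ⟨b, hbL, hbt⟩ := h2
    obtain ⟨φ, hφ, hφa⟩ := haL
    obtain ⟨ψ, hψ, hψb⟩ := hbL
    have hfa : f a = 0 := hf0 ⟨⟨φ, hφ, hφa⟩, hat⟩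
    have hfb : f b = 1 := hf1 ⟨⟨ψ, hψ, hψb⟩, hbt⟩
    have ha1 : ∀ᶠ k in atTop, f (x (φ k)) < 1 / 3 := by
      have h3 : Tendsto (fun k => f (x (φ k))) atTop (𝓝 (f a)) := (f.continuous.tendsto a).comp hφa
      rw [hfa] at h3
      exact h3.eventually_lt_const (by norm_num)
    have hb1 : ∀ᶠ k in atTop, 2 / 3 < f (x (ψ k)) := by
      have h3 : Tendsto (fun k => f (x (ψ k))) atTop (𝓝 (f b)) := (f.continuous.tendsto b).comp hψb
      rw [hfb] at h3
      exact h3.eventually_const_lt (by norm_num)
    obtain ⟨k, hk1, hk2⟩ := (ha1.and (eventually_ge_atTop N)).exists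
    have hkN : N ≤ φ k := hk2.trans (hφ.id_le k)
    have hall : ∀ m, φ k ≤ m → f (x m) < 1 / 3 := by
      intro m hm
      induction m, hm using Nat.le_induction with
      | base => exact hk1
      | succ m hm ih =>
        have h3 := (hN m (hkN.trans hm)).2
        have h4 := (hN (m + 1) ((hkN.trans hm).trans (Nat.le_succ m))).1
        rw [abs_lt] at h3
        by_contra h5
        push Not at h5
        apply h4
        show f (x (m + 1)) ∈ Set.Icc (1 / 3 : ℝ) (2 / 3)
        exact ⟨h5, by linarith [h3.2]⟩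
    obtain ⟨l, hl1, hl2⟩ := (hb1.and (eventually_ge_atTop (φ k))).exists
    have := hall (ψ l) (hl2.trans (hψ.id_le l))
    linarith

theorem tendsto_of_countable [TopologicalSpace.MetrizableSpace X] (x : ℕ → X)
    (h1 : IsConnected (Lims x)) (h2 : (Lims x).Countable) : ∃ p, Tendsto x atTop (𝓝 p) := by
  obtain ⟨p, hp⟩ := h1.nonempty
  have huniq : ∀ q ∈ Lims x, q = p := by
    intro q hq
    by_contra hne
    have hdis : Disjoint ({p} : Set X) {q} := by
      rw [Set.disjoint_singleton]
      exact fun h => hne h.symm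
    obtain ⟨f, hf0, hf1, hf01⟩ := exists_continuous_zero_one_of_isClosed (isClosed_singleton (x := p))
      (isClosed_singleton (x := q)) hdis
    have h3 : IsPreconnected (f '' Lims x) := h1.isPreconnected.image f f.continuous.continuousOn
    have h4 : (0 : ℝ) ∈ f '' Lims x := ⟨p, hp, hf0 rfl⟩
    have h5 : (1 : ℝ) ∈ f '' Lims x := ⟨q, hq, hf1 rfl⟩
    have h6 : Set.Icc (0 : ℝ) 1 ⊆ f '' Lims x := h3.Icc_subset h4 h5
    have h7 : (Set.Icc (0 : ℝ) 1).Countable := (h2.image f).mono h6
    have h8 := Cardinal.mk_Icc_real (show (0 : ℝ) < 1 by norm_num)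
    rw [← Cardinal.le_aleph0_iff_set_countable, h8] at h7
    exact absurd h7 (not_le.mpr Cardinal.aleph0_lt_continuum)
  refine ⟨p, ?_⟩
  refine isCompact_univ.tendsto_nhds_of_unique_mapClusterPt (Eventually.of_forall fun _ => trivial) ?_
  intro q _ hq
  apply huniq
  rw [top_lims_eq]
  exact hq

end Pool.Agent.CPL
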