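import Pool.Agent.CPL.LIM
import Pool.Agent.CPL.TOP

set_option autoImplicit false

/-!
# Assembly

`X = ProbabilityMeasure ModSO3` is compact and metrizable (instances); the functionals `Λ ↦ ∫ G dΛ`, `G` continuous, are continuous and separate points; `step_mean`, `step_all`,
`lims_isCompact`, `lims_isConnected`, `tendsto_of_countable`.
-/

namespace Pool.Agent.CPL

open Finset Filter Topology MeasureTheory

/-- the integral of a continuous function is a continuous function of the law -/
private theorem fin_continuous (G : {G : ModSO3 → ℝ // Continuous G}) :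
    Continuous fun Λ : ProbabilityMeasure ModSO3 => ∫ x, G.1 x ∂(Λ : Measure ModSO3) :=
  ProbabilityMeasure.continuous_integral_boundedContinuousFunction
    (BoundedContinuousFunction.mkOfCompact ⟨G.1, G.2⟩)

/-- the integrals of the continuous functions determine the law -/
private theorem fin_sep (p q : ProbabilityMeasure ModSO3)
    (h : ∀ G : {G : ModSO3 → ℝ // Continuous G},
      ∫ x, G.1 x ∂(p : Measure ModSO3) = ∫ x, G.1 x ∂(q : Measure ModSO3)) : p = q := by
  apply Subtype.ext
  have hp : IsFiniteMeasure (p : Measure ModSO3) := inferInstance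
  have hq : IsFiniteMeasure (q : Measure ModSO3) := inferInstance
  have h1 : (p : Measure ModSO3) = (q : Measure ModSO3) :=
    ext_of_forall_integral_eq_of_IsFiniteMeasure fun f => h ⟨f, f.continuous⟩
  exact h1

theorem main : MainStatement := by
  intro D
  have h1 : ∀ f : ProbabilityMeasure ModSO3 → ℝ, Continuous f →
      Tendsto (fun n => f (law D (n + 1)) - f (law D n)) atTop (𝓝 0) := fun f hf =>
    step_all (fun (G : {G : ModSO3 → ℝ // Continuous G}) (Λ : ProbabilityMeasure ModSO3) =>
      ∫ x, G.1 x ∂(Λ : Measure ModSO3)) fin_continuous fin_sep (law D)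
      (fun G => step_mean D G.2) f hf
  have h2 : IsConnected (limitLaws D) := lims_isConnected (law D) h1
  exact ⟨fun G hG => step_mean D hG, lims_isCompact (law D), h2,
    fun h3 => tendsto_of_countable (law D) h2 h3⟩

end Pool.Agent.CPL
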