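import Pool.Agent.CPL.BAS

set_option autoImplicit false

/-!
# Flips

`(v, a, u)`, `(v, u, b)` faces, `a`, `b` not adjacent: replace the edge `{v, u}` by the edge `{a, b}`.
`IsTri.flp`: the darts `(v,u), (u,v)` disappear, `(a,b), (b,a)` are new; `link`: at `v`: `a → u → b` becomes `a → b` (`lift'` with `f u = b`);
at `u`: `b → v → a` becomes `b → a` (`f v = a`); at `a`: `u → v` becomes `u → b → v`; at `b`: `v → u` becomes `v → a → u`.
`conn`: the step `v → u` is replaced by `v → a → u`.
-/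

namespace Pool.Agent.CPL

open Finset

variable {V : Finset ℕ} {F : Finset Tr} {a b u v w : ℕ}

/-- flip the edge `{v, u}` of the quadrilateral `v, a, u, b` -/
def flp (F : Finset Tr) (v u a b : ℕ) : Finset Tr :=
  (F \ (rots v a u ∪ rots v u b)) ∪ (rots v a b ∪ rots a u b)

theorem flp_mem {t : Tr} : t ∈ flp F v u a b ↔
    (t ∈ F ∧ t ∉ rots v a u ∧ t ∉ rots v u b) ∨ t ∈ rots v a b ∨ t ∈ rots a u b := by
  unfold flp
  simp only [mem_union, mem_sdiff, not_or]

theorem flp_link_aux {R R' : ℕ → ℕ → Prop} (f : ℕ → ℕ)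
    (hlink : ∀ x x' y y', R x x' → R y y' → Relation.ReflTransGen R x y)
    (hR : ∀ p q, R p q → Relation.ReflTransGen R' (f p) (f q))
    (hin : ∀ x x', R' x x' → ∃ x0 x0', R x0 x0' ∧ Relation.ReflTransGen R' x (f x0))
    (hout : ∀ y y', R' y y' → ∃ y0 y0', R y0 y0' ∧ Relation.ReflTransGen R' (f y0) y)
    {x x' y y' : ℕ} (hx : R' x x') (hy : R' y y') : Relation.ReflTransGen R' x y := by
  obtain ⟨x0, x0', h1, h2⟩ := hin x x' hx
  obtain ⟨y0, y0', h3, h4⟩ := hout y y' hy
  have h5 := hlink _ _ _ _ h1 h3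
  have h6 : Relation.ReflTransGen R' (f x0) (f y0) := by
    clear h2 h4 h3 h1
    induction h5 with
    | refl => exact Relation.ReflTransGen.refl
    | tail _ hbc ih => exact ih.trans (hR _ _ hbc)
  exact (h2.trans h6).trans h4

theorem IsTri.flp (h : IsTri V F) (h1 : (v, a, u) ∈ F) (h2 : (v, u, b) ∈ F) (hab : a ≠ b)
    (hn : ∀ c, (a, b, c) ∉ F) : IsTri V (flp F v u a b) := by
  have hva := h.ne12 h1
  have hau := h.ne23 h1
  have huv := h.ne31 h1
  have hub := h.ne23 h2
  have hbv := h.ne31 h2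
  have hVv := h.mem _ _ _ h1
  have hVa := h.mem2 h1
  have hVu := h.mem3 h1
  have hVb := h.mem3 h2
  have hn' : ∀ c, (b, a, c) ∉ F := by
    intro c hc
    obtain ⟨d, hd⟩ := h.opp _ _ _ hc
    exact hn d hd
  -- the six darts of the quadrilateral
  have d1 : ∀ c, (v, a, c) ∈ F → c = u := fun c hc => h.uniq _ _ _ _ hc h1
  have d2 : ∀ c, (a, u, c) ∈ F → c = v := fun c hc => h.uniq _ _ _ _ hc (h.rot _ _ _ h1)
  have d3 : ∀ c, (u, v, c) ∈ F → c = a := fun c hc => h.uniq _ _ _ _ hc (h.rot2 h1)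
  have d4 : ∀ c, (v, u, c) ∈ F → c = b := fun c hc => h.uniq _ _ _ _ hc h2
  have d5 : ∀ c, (u, b, c) ∈ F → c = v := fun c hc => h.uniq _ _ _ _ hc (h.rot _ _ _ h2)
  have d6 : ∀ c, (b, v, c) ∈ F → c = u := fun c hc => h.uniq _ _ _ _ hc (h.rot2 h2)
  have m : ∀ x y c, (x, y, c) ∈ Pool.Agent.CPL.flp F v u a b ↔
    (((x, y, c) ∈ F ∧ (¬ (x = v ∧ y = a ∧ c = u) ∧ ¬ (x = a ∧ y = u ∧ c = v) ∧
      ¬ (x = u ∧ y = v ∧ c = a)) ∧ (¬ (x = v ∧ y = u ∧ c = b) ∧ ¬ (x = u ∧ y = b ∧ c = v) ∧
      ¬ (x = b ∧ y = v ∧ c = u))) ∨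
      ((x = v ∧ y = a ∧ c = b) ∨ (x = a ∧ y = b ∧ c = v) ∨ (x = b ∧ y = v ∧ c = a)) ∨
      ((x = a ∧ y = u ∧ c = b) ∨ (x = u ∧ y = b ∧ c = a) ∨ (x = b ∧ y = a ∧ c = u))) := by
    intro x y c
    rw [flp_mem]
    simp only [mem_rots, Prod.mk.injEq, not_or]
  have hsix : ∀ x y d, (x, y, d) ∈ F → ((¬ (x = v ∧ y = a ∧ d = u) ∧ ¬ (x = a ∧ y = u ∧ d = v) ∧
      ¬ (x = u ∧ y = v ∧ d = a)) ∧ (¬ (x = v ∧ y = u ∧ d = b) ∧ ¬ (x = u ∧ y = b ∧ d = v) ∧
      ¬ (x = b ∧ y = v ∧ d = u))) → ¬ (x = v ∧ y = a) ∧ ¬ (x = a ∧ y = b) ∧ ¬ (x = b ∧ y = v) ∧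
      ¬ (x = a ∧ y = u) ∧ ¬ (x = u ∧ y = b) ∧ ¬ (x = b ∧ y = a) := by
    intro x y d hd ⟨⟨g1, g2, g3⟩, g4, g5, g6⟩
    refine ⟨?_, ?_, ?_, ?_, ?_, ?_⟩
    · rintro ⟨rfl, rfl⟩; exact g1 ⟨rfl, rfl, d1 _ hd⟩
    · rintro ⟨rfl, rfl⟩; exact hn _ hd
    · rintro ⟨rfl, rfl⟩; exact g6 ⟨rfl, rfl, d6 _ hd⟩
    · rintro ⟨rfl, rfl⟩; exact g2 ⟨rfl, rfl, d2 _ hd⟩
    · rintro ⟨rfl, rfl⟩; exact g5 ⟨rfl, rfl, d5 _ hd⟩
    · rintro ⟨rfl, rfl⟩; exact hn' _ hd
  have hrot : ∀ x y c, (x, y, c) ∈ Pool.Agent.CPL.flp F v u a b → (y, c, x) ∈ Pool.Agent.CPL.flp F v u a b := by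
    intro x y c hc
    rw [m] at hc ⊢
    rcases hc with ⟨h3, h4⟩ | hc
    · left
      exact ⟨h.rot _ _ _ h3, by grind⟩
    · right
      grind
  have huniq : ∀ x y c d, (x, y, c) ∈ Pool.Agent.CPL.flp F v u a b → (x, y, d) ∈ Pool.Agent.CPL.flp F v u a b → c = d := by
    intro x y c d hc hd
    rw [m] at hc hd
    rcases hc with ⟨h3, h4⟩ | hc <;> rcases hd with ⟨h5, h6⟩ | hd
    · exact h.uniq _ _ _ _ h3 h5
    · exfalso
      obtain ⟨g1, g2, g3, g4, g5, g6⟩ := hsix _ _ _ h3 h4
      rcases hd with (⟨e1, e2, -⟩ | ⟨e1, e2, -⟩ | ⟨e1, e2, -⟩) | (⟨e1, e2, -⟩ | ⟨e1, e2, -⟩ | ⟨e1, e2, -⟩)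
      exacts [g1 ⟨e1, e2⟩, g2 ⟨e1, e2⟩, g3 ⟨e1, e2⟩, g4 ⟨e1, e2⟩, g5 ⟨e1, e2⟩, g6 ⟨e1, e2⟩]
    · exfalso
      obtain ⟨g1, g2, g3, g4, g5, g6⟩ := hsix _ _ _ h5 h6
      rcases hc with (⟨e1, e2, -⟩ | ⟨e1, e2, -⟩ | ⟨e1, e2, -⟩) | (⟨e1, e2, -⟩ | ⟨e1, e2, -⟩ | ⟨e1, e2, -⟩)
      exacts [g1 ⟨e1, e2⟩, g2 ⟨e1, e2⟩, g3 ⟨e1, e2⟩, g4 ⟨e1, e2⟩, g5 ⟨e1, e2⟩, g6 ⟨e1, e2⟩]
    · clear m hrot hsix
      grind
  have hopp : ∀ x y c, (x, y, c) ∈ Pool.Agent.CPL.flp F v u a b → ∃ d, (y, x, d) ∈ Pool.Agent.CPL.flp F v u a b := by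
    intro x y c hc
    have hold : ∀ d, (y, x, d) ∈ F → (x, y) ≠ (u, v) → (x, y) ≠ (v, u) →
        ∃ d, (y, x, d) ∈ Pool.Agent.CPL.flp F v u a b := by
      intro d hd hn1 hn2
      by_cases e1 : (y = v ∧ x = a)
      · exact ⟨b, by rw [m]; grind⟩
      by_cases e2 : (y = a ∧ x = u)
      · exact ⟨b, by rw [m]; grind⟩
      by_cases e3 : (y = u ∧ x = b)
      · exact ⟨a, by rw [m]; grind⟩
      by_cases e4 : (y = b ∧ x = v)
      · exact ⟨a, by rw [m]; grind⟩
      · refine ⟨d, ?_⟩
        rw [m]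
        left
        refine ⟨hd, ?_⟩
        simp only [ne_eq, Prod.mk.injEq, not_and] at hn1 hn2
        grind
    have hxy1 : (x, y) ≠ (u, v) := by
      intro he
      simp only [Prod.mk.injEq] at he
      obtain ⟨rfl, rfl⟩ := he
      rw [m] at hc
      grind
    have hxy2 : (x, y) ≠ (v, u) := by
      intro he
      simp only [Prod.mk.injEq] at he
      obtain ⟨rfl, rfl⟩ := he
      rw [m] at hc
      grind
    rw [m] at hc
    rcases hc with ⟨h3, h4⟩ | hc
    · obtain ⟨d, hd⟩ := h.opp _ _ _ h3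
      exact hold d hd hxy1 hxy2
    · rcases hc with (⟨rfl, rfl, rfl⟩ | ⟨rfl, rfl, rfl⟩ | ⟨rfl, rfl, rfl⟩) | (⟨rfl, rfl, rfl⟩ |
        ⟨rfl, rfl, rfl⟩ | ⟨rfl, rfl, rfl⟩)
      · obtain ⟨d, hd⟩ := h.opp _ _ _ h1
        exact hold d hd hxy1 hxy2
      · exact ⟨u, by rw [m]; grind⟩
      · obtain ⟨d, hd⟩ := h.opp _ _ _ (h.rot2 h2)
        exact hold d hd hxy1 hxy2
      · obtain ⟨d, hd⟩ := h.opp _ _ _ (h.rot _ _ _ h1)
        exact hold d hd hxy1 hxy2
      · obtain ⟨d, hd⟩ := h.opp _ _ _ (h.rot _ _ _ h2)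
        exact hold d hd hxy1 hxy2
      · exact ⟨v, by rw [m]; grind⟩
  refine ⟨?_, hrot, ?_, huniq, hopp, ?_, ?_, ?_⟩
  · intro x y c hc
    rw [m] at hc
    rcases hc with ⟨h3, h4⟩ | hc
    · exact h.mem _ _ _ h3
    · grind
  · intro x y c hc
    rw [m] at hc
    rcases hc with ⟨h3, h4⟩ | hc
    · exact h.ne _ _ _ h3
    · grind
  · intro w x x' y y' hx hy
    have hl : ∀ x x' y y', (w, x, x') ∈ F → (w, y, y') ∈ F →
        Relation.ReflTransGen (fun p q => (w, p, q) ∈ F) x y := h.link w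
    have hkeep : ∀ p q, (w, p, q) ∈ F → (w, p, q) ∉ rots v a u → (w, p, q) ∉ rots v u b →
        (w, p, q) ∈ Pool.Agent.CPL.flp F v u a b := by
      intro p q h3 h4 h5
      rw [flp_mem]
      exact Or.inl ⟨h3, h4, h5⟩
    by_cases hwv : w = v
    · subst hwv
      refine flp_link_aux (R := fun p q => (w, p, q) ∈ F) (fun p => if p = u then b else p) hl
        ?_ ?_ ?_ hx hy
      · intro p q hpq
        try dsimp only at hpq ⊢
        by_cases hp : p = u
        · subst hp
          obtain rfl := d4 _ hpq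
          simp only [if_true, if_neg hub.symm]
          exact Relation.ReflTransGen.refl
        · by_cases hq : q = u
          · subst hq
            obtain rfl : p = a := h.uniq2 hpq h1
            simp only [if_true, if_neg hau]
            exact Relation.ReflTransGen.single (by rw [m]; grind)
          · simp only [if_neg hp, if_neg hq]
            exact Relation.ReflTransGen.single (by rw [m]; grind)
      · intro x x' hx
        have hxu : x ≠ u := by
          rintro rfl
          rw [m] at hx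
          grind
        rw [m] at hx
        rcases hx with ⟨h3, h4⟩ | hx
        · exact ⟨x, x', h3, by simp only [if_neg hxu]; exact Relation.ReflTransGen.refl⟩
        · have hxa : x = a := by grind
          subst hxa
          exact ⟨x, u, h1, by simp only [if_neg hxu]; exact Relation.ReflTransGen.refl⟩
      · intro x x' hx
        have hxu : x ≠ u := by
          rintro rfl
          rw [m] at hx
          grind
        rw [m] at hx
        rcases hx with ⟨h3, h4⟩ | hx
        · exact ⟨x, x', h3, by simp only [if_neg hxu]; exact Relation.ReflTransGen.refl⟩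
        · have hxa : x = a := by grind
          subst hxa
          exact ⟨x, u, h1, by simp only [if_neg hxu]; exact Relation.ReflTransGen.refl⟩
    by_cases hwu : w = u
    · subst hwu
      refine flp_link_aux (R := fun p q => (w, p, q) ∈ F) (fun p => if p = v then a else p) hl
        ?_ ?_ ?_ hx hy
      · intro p q hpq
        try dsimp only at hpq ⊢
        by_cases hp : p = v
        · subst hp
          obtain rfl := d3 _ hpq
          simp only [if_true, if_neg hva.symm]
          exact Relation.ReflTransGen.refl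
        · by_cases hq : q = v
          · subst hq
            obtain rfl : p = b := h.uniq2 hpq (h.rot _ _ _ h2)
            simp only [if_true, if_neg hbv]
            exact Relation.ReflTransGen.single (by rw [m]; grind)
          · simp only [if_neg hp, if_neg hq]
            exact Relation.ReflTransGen.single (by rw [m]; grind)
      · intro x x' hx
        have hxu : x ≠ v := by
          rintro rfl
          rw [m] at hx
          grind
        rw [m] at hx
        rcases hx with ⟨h3, h4⟩ | hx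
        · exact ⟨x, x', h3, by simp only [if_neg hxu]; exact Relation.ReflTransGen.refl⟩
        · have hxa : x = b := by grind
          subst hxa
          exact ⟨x, v, h.rot _ _ _ h2,
            by simp only [if_neg hxu]; exact Relation.ReflTransGen.refl⟩
      · intro x x' hx
        have hxu : x ≠ v := by
          rintro rfl
          rw [m] at hx
          grind
        rw [m] at hx
        rcases hx with ⟨h3, h4⟩ | hx
        · exact ⟨x, x', h3, by simp only [if_neg hxu]; exact Relation.ReflTransGen.refl⟩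
        · have hxa : x = b := by grind
          subst hxa
          exact ⟨x, v, h.rot _ _ _ h2,
            by simp only [if_neg hxu]; exact Relation.ReflTransGen.refl⟩
    by_cases hwa : w = a
    · subst hwa
      have s1 : (w, u, b) ∈ Pool.Agent.CPL.flp F v u w b := by rw [m]; grind
      have s2 : (w, b, v) ∈ Pool.Agent.CPL.flp F v u w b := by rw [m]; grind
      refine flp_link_aux (R := fun p q => (w, p, q) ∈ F) (fun p => p) hl ?_ ?_ ?_ hx hy
      · intro p q hpq
        try dsimp only at hpq ⊢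
        by_cases hp : p = u
        · subst hp
          obtain rfl := d2 _ hpq
          exact (Relation.ReflTransGen.single s1).tail s2
        · exact Relation.ReflTransGen.single (by rw [m]; grind)
      · intro x x' hx
        rw [m] at hx
        rcases hx with ⟨h3, h4⟩ | hx
        · exact ⟨x, x', h3, Relation.ReflTransGen.refl⟩
        · by_cases hxu : x = u
          · subst hxu
            exact ⟨x, v, h.rot _ _ _ h1, Relation.ReflTransGen.refl⟩
          · have hxb : x = b := by grind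
            subst hxb
            obtain ⟨c, hc⟩ := h.next (h.rot _ _ _ h1)
            exact ⟨v, c, hc, Relation.ReflTransGen.single s2⟩
      · intro x x' hx
        rw [m] at hx
        rcases hx with ⟨h3, h4⟩ | hx
        · exact ⟨x, x', h3, Relation.ReflTransGen.refl⟩
        · by_cases hxu : x = u
          · subst hxu
            exact ⟨x, v, h.rot _ _ _ h1, Relation.ReflTransGen.refl⟩
          · have hxb : x = b := by grind
            subst hxb
            exact ⟨u, v, h.rot _ _ _ h1, Relation.ReflTransGen.single s1⟩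
    by_cases hwb : w = b
    · subst hwb
      have s1 : (w, v, a) ∈ Pool.Agent.CPL.flp F v u a w := by rw [m]; grind
      have s2 : (w, a, u) ∈ Pool.Agent.CPL.flp F v u a w := by rw [m]; grind
      refine flp_link_aux (R := fun p q => (w, p, q) ∈ F) (fun p => p) hl ?_ ?_ ?_ hx hy
      · intro p q hpq
        try dsimp only at hpq ⊢
        by_cases hp : p = v
        · subst hp
          obtain rfl := d6 _ hpq
          exact (Relation.ReflTransGen.single s1).tail s2
        · exact Relation.ReflTransGen.single (by rw [m]; grind)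
      · intro x x' hx
        rw [m] at hx
        rcases hx with ⟨h3, h4⟩ | hx
        · exact ⟨x, x', h3, Relation.ReflTransGen.refl⟩
        · by_cases hxu : x = v
          · subst hxu
            exact ⟨x, u, h.rot2 h2, Relation.ReflTransGen.refl⟩
          · have hxb : x = a := by grind
            subst hxb
            obtain ⟨c, hc⟩ := h.next (h.rot2 h2)
            exact ⟨u, c, hc, Relation.ReflTransGen.single s2⟩
      · intro x x' hx
        rw [m] at hx
        rcases hx with ⟨h3, h4⟩ | hx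
        · exact ⟨x, x', h3, Relation.ReflTransGen.refl⟩
        · by_cases hxu : x = v
          · subst hxu
            exact ⟨x, u, h.rot2 h2, Relation.ReflTransGen.refl⟩
          · have hxb : x = a := by grind
            subst hxb
            exact ⟨v, u, h.rot2 h2, Relation.ReflTransGen.single s1⟩
    · refine flp_link_aux (R := fun p q => (w, p, q) ∈ F) (fun p => p) hl ?_ ?_ ?_ hx hy
      · intro p q hpq
        try dsimp only at hpq ⊢
        exact Relation.ReflTransGen.single (by rw [m]; grind)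
      · intro x x' hx
        rw [m] at hx
        rcases hx with ⟨h3, h4⟩ | hx
        · exact ⟨x, x', h3, Relation.ReflTransGen.refl⟩
        · grind
      · intro x x' hx
        rw [m] at hx
        rcases hx with ⟨h3, h4⟩ | hx
        · exact ⟨x, x', h3, Relation.ReflTransGen.refl⟩
        · grind
  · intro x hx y hy
    have hp := h.conn x hx y hy
    clear hy
    induction hp with
    | refl => exact Relation.ReflTransGen.refl
    | tail _ hbc ih =>
      rename_i p q _
      refine ih.trans ?_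
      obtain ⟨c, hc⟩ := hbc
      by_cases e1 : p = v ∧ q = u
      · obtain ⟨rfl, rfl⟩ := e1
        exact (Relation.ReflTransGen.single ⟨b, by rw [m]; grind⟩ :
          Relation.ReflTransGen _ p a).tail ⟨b, by rw [m]; grind⟩
      · by_cases e2 : p = u ∧ q = v
        · obtain ⟨rfl, rfl⟩ := e2
          exact (Relation.ReflTransGen.single ⟨a, by rw [m]; grind⟩ :
            Relation.ReflTransGen _ p b).tail ⟨a, by rw [m]; grind⟩
        · by_cases e3 : (p, q, c) ∈ Pool.Agent.CPL.flp F v u a b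
          · exact Relation.ReflTransGen.single ⟨c, e3⟩
          · have e4 : (p = v ∧ q = a) ∨ (p = a ∧ q = u) ∨ (p = u ∧ q = b) ∨ (p = b ∧ q = v) := by
              rw [m] at e3
              grind
            rcases e4 with ⟨rfl, rfl⟩ | ⟨rfl, rfl⟩ | ⟨rfl, rfl⟩ | ⟨rfl, rfl⟩
            · exact Relation.ReflTransGen.single ⟨b, by rw [m]; grind⟩
            · exact Relation.ReflTransGen.single ⟨b, by rw [m]; grind⟩
            · exact Relation.ReflTransGen.single ⟨a, by rw [m]; grind⟩
            · exact Relation.ReflTransGen.single ⟨a, by rw [m]; grind⟩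
  · have c1 : (rots v a u ∪ rots v u b).card = 6 := by
      rw [card_union_of_disjoint, card_rots hva hau huv, card_rots huv.symm hub hbv]
      rw [Finset.disjoint_left]
      intro t ht ht'
      rw [mem_rots] at ht ht'
      rcases ht with rfl | rfl | rfl <;> simp only [Prod.mk.injEq] at ht' <;> grind
    have c2 : (rots v a b ∪ rots a u b).card = 6 := by
      rw [card_union_of_disjoint, card_rots hva hab hbv, card_rots hau hub hab.symm]
      rw [Finset.disjoint_left]
      intro t ht ht'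
      rw [mem_rots] at ht ht'
      rcases ht with rfl | rfl | rfl <;> simp only [Prod.mk.injEq] at ht' <;> grind
    have c3 : rots v a u ∪ rots v u b ⊆ F := union_subset (h.rots_subset h1) (h.rots_subset h2)
    have c4 : Disjoint (F \ (rots v a u ∪ rots v u b)) (rots v a b ∪ rots a u b) := by
      rw [Finset.disjoint_left]
      intro t ht ht'
      rw [mem_sdiff] at ht
      rw [mem_union, mem_rots, mem_rots] at ht'
      have ht1 := ht.2
      rw [mem_union, not_or, mem_rots, mem_rots] at ht1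
      rcases ht' with (rfl | rfl | rfl) | (rfl | rfl | rfl)
      · have := d1 _ ht.1; grind
      · exact hn _ ht.1
      · have := d6 _ ht.1; grind
      · have := d2 _ ht.1; grind
      · have := d5 _ ht.1; grind
      · exact hn' _ ht.1
    have c5 : (Pool.Agent.CPL.flp F v u a b).card = F.card := by
      unfold Pool.Agent.CPL.flp
      rw [card_union_of_disjoint c4, card_sdiff_of_subset c3, c1, c2]
      have := card_le_card c3
      omega
    rw [c5]
    exact h.euler

theorem IsTri.deg_flp (h : IsTri V F) (h1 : (v, a, u) ∈ F) (h2 : (v, u, b) ∈ F) (hab : a ≠ b)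
    (hn : ∀ c, (a, b, c) ∉ F) : deg (Pool.Agent.CPL.flp F v u a b) v + 1 = deg F v := by
  have hva := h.ne12 h1
  have hau := h.ne23 h1
  have huv := h.ne31 h1
  have hub := h.ne23 h2
  have hbv := h.ne31 h2
  have key : (Pool.Agent.CPL.flp F v u a b).filter (fun t => t.1 = v) =
      insert (v, a, b) (((F.filter fun t => t.1 = v).erase (v, a, u)).erase (v, u, b)) := by
    ext ⟨x, y, c⟩
    rw [mem_filter, flp_mem, mem_insert, mem_erase, mem_erase, mem_filter]
    simp only [mem_rots, Prod.mk.injEq, not_or, ne_eq]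
    constructor
    · rintro ⟨h3, rfl⟩
      grind
    · rintro (⟨rfl, rfl, rfl⟩ | ⟨h3, h4, h5, rfl⟩)
      · tauto
      · refine ⟨Or.inl ⟨h5, ?_, ?_⟩, rfl⟩ <;> grind
  unfold deg
  rw [key, card_insert_of_notMem, card_erase_of_mem, card_erase_of_mem]
  · have h3 : (v, a, u) ∈ F.filter fun t => t.1 = v := mem_filter.mpr ⟨h1, rfl⟩
    have h4 : (v, u, b) ∈ (F.filter fun t => t.1 = v).erase (v, a, u) := by
      rw [mem_erase]
      exact ⟨by simp [hau.symm], mem_filter.mpr ⟨h2, rfl⟩⟩
    have h5 := card_pos.mpr ⟨_, h3⟩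
    have h6 := card_pos.mpr ⟨_, h4⟩
    rw [card_erase_of_mem h3] at h6
    omega
  · exact mem_filter.mpr ⟨h1, rfl⟩
  · rw [mem_erase]
    exact ⟨by simp [hau.symm], mem_filter.mpr ⟨h2, rfl⟩⟩
  · rw [mem_erase, mem_erase, mem_filter]
    rintro ⟨-, -, h3, -⟩
    exact hub (h.uniq _ _ _ _ h1 h3)

/-- the flipped triangulation, `v` and the new edge determine the triangulation -/
theorem IsTri.flp_inv (h : IsTri V F) (h1 : (v, a, u) ∈ F) (h2 : (v, u, b) ∈ F) (hab : a ≠ b)
    (hn : ∀ c, (a, b, c) ∉ F) :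
    F = (Pool.Agent.CPL.flp F v u a b \ (rots v a b ∪ rots a u b)) ∪ (rots v a u ∪ rots v u b) ∧
      (b, a, u) ∈ Pool.Agent.CPL.flp F v u a b ∧ (v, a, b) ∈ Pool.Agent.CPL.flp F v u a b := by
  have hva := h.ne12 h1
  have hau := h.ne23 h1
  have huv := h.ne31 h1
  have hub := h.ne23 h2
  have hbv := h.ne31 h2
  have hn' : ∀ c, (b, a, c) ∉ F := by
    intro c hc
    obtain ⟨d, hd⟩ := h.opp _ _ _ hc
    exact hn d hd
  refine ⟨?_, by rw [flp_mem, mem_rots (a := v) (b := a) (c := b), mem_rots (a := a) (b := u)]; tauto,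
    by rw [flp_mem, mem_rots (a := v) (b := a) (c := b), mem_rots (a := a) (b := u)]; tauto⟩
  have c4 : Disjoint F (rots v a b ∪ rots a u b) := by
    rw [Finset.disjoint_left]
    intro t ht ht'
    rw [mem_union, mem_rots, mem_rots] at ht'
    rcases ht' with (rfl | rfl | rfl) | (rfl | rfl | rfl)
    · exact hub (h.uniq _ _ _ _ h1 ht)
    · exact hn _ ht
    · exact absurd (h.uniq _ _ _ _ (h.rot2 h2) ht) hau.symm
    · exact absurd (h.uniq _ _ _ _ (h.rot _ _ _ h1) ht) hbv.symm
    · exact absurd (h.uniq _ _ _ _ (h.rot _ _ _ h2) ht) hva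
    · exact hn' _ ht
  have c3 : rots v a u ∪ rots v u b ⊆ F := union_subset (h.rots_subset h1) (h.rots_subset h2)
  unfold Pool.Agent.CPL.flp
  ext t
  simp only [mem_union, mem_sdiff]
  constructor
  · intro ht
    have := Finset.disjoint_left.mp c4 ht
    simp only [mem_union] at this
    tauto
  · rintro (h3 | h3)
    · tauto
    · exact c3 (by simpa only [mem_union] using h3)

theorem root_mem_flp (hv : 3 ≤ v) (h0 : (0, 1, 2) ∈ F) : (0, 1, 2) ∈ Pool.Agent.CPL.flp F v u a b := by
  rw [flp_mem]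
  left
  refine ⟨h0, ?_, ?_⟩ <;>
  · rw [mem_rots]
    simp only [Prod.mk.injEq]
    omega

end Pool.Agent.CPL
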