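import Pool.Agent.CPL.BAS
import Pool.Agent.CPL.DSC

set_option autoImplicit false

/-!
# Every vertex of degree at least 4 has a flippable edge

Suppose not: for all faces `(v, a, u)`, `(v, u, b)` the vertices `a`, `b` are equal or adjacent. `a = b` is excluded by `link_closed` (the
link would be `{a, u}`, degree 2). Let `w_0` be a neighbour of `v` and `w_{j+1}` the successor of `w_j` in the link of `v`. All discs `w_j` are
tangent to `v`, `w_j` is tangent to `w_{j+1}` and to `w_{j+2}`, and `w_{j+3} ≠ w_j` (otherwise `{w_j, w_{j+1}, w_{j+2}}` is the link and the degree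
is at most 3). With `b_j = BB w_0 w_j`, the Descartes relation for `v, w_{j+1}, w_{j+2}` and `w_j`, `w_{j+3}` gives
`b_{j+3} = 2 + 2 b_{j+1} + 2 b_{j+2} - b_j` as long as `BB v w_0 = 1`. `b_0 = -1`, `b_1 = b_2 = 1`, so `b_j ≤ b_{j+1}` and `1 ≤ b_j` for `j ≥ 1` by
induction. But by `link`, `w_j = w_0` for some `j ≥ 1` (a `ReflTransGen` path from `w_1` to `w_0` is a sequence `w_1, w_2, ...` by `uniq`),
so `b_j = -1`, contradiction.
-/

namespace Pool.Agent.CPL

open Finset

variable {V : Finset ℕ} {F : Finset Tr} {z : ℕ → ℂ} {r : ℕ → ℝ} {v : ℕ}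

/-- the link of `v`, run through in the positive sense -/
private theorem fxe_seq (h : IsTri V F) (hd : 0 < deg F v) :
    ∃ w : ℕ → ℕ, ∀ j, (v, w j, w (j + 1)) ∈ F := by
  classical
  have h1 : (F.filter fun t => t.1 = v).Nonempty := card_pos.mp hd
  obtain ⟨⟨v', a, b⟩, ht⟩ := h1
  rw [mem_filter] at ht
  obtain ⟨ht, hv'⟩ := ht
  simp only at hv'
  subst hv'
  let s : ℕ → ℕ := fun x => if hx : ∃ y, (v', x, y) ∈ F then hx.choose else 0
  have hs : ∀ x, (∃ y, (v', x, y) ∈ F) → (v', x, s x) ∈ F := by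
    intro x hx
    simp only [s, dif_pos hx]
    exact hx.choose_spec
  refine ⟨fun j => s^[j] a, fun j => ?_⟩
  induction j with
  | zero => exact hs a ⟨b, ht⟩
  | succ j ih =>
    have h2 := hs _ (h.next ih)
    simp only [Function.iterate_succ_apply'] at h2 ⊢
    exact h2

private theorem fxe_link (h : IsTri V F) {w : ℕ → ℕ} (hw : ∀ j, (v, w j, w (j + 1)) ∈ F) :
    ∃ j, w (j + 1) = w 0 := by
  have h1 := h.link v (w 1) (w 2) (w 0) (w 1) (hw 1) (hw 0)
  have h2 : ∀ x, Relation.ReflTransGen (fun x y => (v, x, y) ∈ F) (w 1) x → ∃ j, w (j + 1) = x := by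
    intro x hx
    induction hx with
    | refl => exact ⟨0, rfl⟩
    | tail _ h5 ih =>
      obtain ⟨j, rfl⟩ := ih
      exact ⟨j + 1, h.uniq3 (hw (j + 1)) h5⟩
  exact h2 _ h1

theorem exists_flip (h : IsTri V F) (hP : IsPacking V F z r) (hV : 4 ≤ V.card) (hv : v ∈ V)
    (hd : 4 ≤ deg F v) :
    ∃ a u b, (v, a, u) ∈ F ∧ (v, u, b) ∈ F ∧ a ≠ b ∧ ∀ c, (a, b, c) ∉ F := by
  classical
  by_contra hcon
  push Not at hcon
  obtain ⟨w, hw⟩ := fxe_seq (v := v) h (by omega)
  have hmem : ∀ j, w j ∈ V := fun j => h.mem2 (hw j)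
  have hpos : ∀ j, 0 < r (w j) := fun j => hP.pos _ (hmem j)
  have hposv : 0 < r v := hP.pos _ hv
  have hvw : ∀ j, BB z r v (w j) = 1 := fun j => BB_tangent hposv (hpos j) (hP.tan _ _ _ (hw j))
  have h1 : ∀ j, BB z r (w j) (w (j + 1)) = 1 := fun j =>
    BB_tangent (hpos _) (hpos _) (hP.tan _ _ _ (h.rot _ _ _ (hw j)))
  have hne2 : ∀ j, w j ≠ w (j + 2) := by
    intro j hj
    have h3 := hw (j + 1)
    rw [show j + 1 + 1 = j + 2 from rfl, ← hj] at h3
    exact h.not_both hV (hw j) h3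
  have h2 : ∀ j, BB z r (w j) (w (j + 2)) = 1 := by
    intro j
    obtain ⟨c, hc⟩ := hcon _ _ _ (hw j) (hw (j + 1)) (hne2 j)
    exact BB_tangent (hpos _) (hpos _) (hP.tan _ _ _ hc)
  have hne3 : ∀ j, w j ≠ w (j + 3) := by
    intro j hj
    have h3 : deg F v ≤ ({w j, w (j + 1), w (j + 2)} : Finset ℕ).card := by
      refine h.deg_le_of _ ?_
      intro a b hab
      have h4 := h.link_closed (v := v) (S := ({w j, w (j + 1), w (j + 2)} : Set ℕ)) (a := w j)
        (b := w (j + 1)) (c := a) (d := b) (by simp) (hw j) ?_ hab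
      · simpa using h4
      · intro x y hx hxy
        simp only [Set.mem_insert_iff, Set.mem_singleton_iff] at hx ⊢
        rcases hx with rfl | rfl | rfl
        · right; left
          exact (h.uniq3 (hw j) hxy).symm
        · right; right
          exact (h.uniq3 (hw (j + 1)) hxy).symm
        · left
          rw [hj]
          exact (h.uniq3 (hw (j + 2)) hxy).symm
    have h5 : ({w j, w (j + 1), w (j + 2)} : Finset ℕ).card ≤ 3 := card_le_three
    omega
  have h3 : ∀ j, 1 ≤ BB z r (w j) (w (j + 3)) := by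
    intro j
    refine one_le_BB (hpos _) (hpos _) ?_
    by_cases hc : ∀ c, (w j, w (j + 3), c) ∉ F
    · exact (hP.sep _ (hmem _) _ (hmem _) (hne3 j) hc).le
    · push Not at hc
      obtain ⟨c, hc⟩ := hc
      exact (hP.tan _ _ _ hc).symm.le
  have hrec : ∀ j, BB z r (w (j + 3)) (w 0) =
      2 + 2 * BB z r (w (j + 1)) (w 0) + 2 * BB z r (w (j + 2)) (w 0) - BB z r (w j) (w 0) := by
    intro j
    have h4 := descartes (z := z) (r := r) (v := v) (a := w (j + 1)) (b := w (j + 2)) (c := w j)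
      (d := w (j + 3)) (e := w 0) hposv (hpos _) (hpos _) (hpos _) (hpos _) (hpos _)
      (hvw _) (hvw _) (h1 (j + 1)) (hvw _) (by rw [BB_comm]; exact h1 j)
      (by rw [BB_comm]; exact h2 j) (hvw _) (h2 (j + 1)) (h1 (j + 2)) (h3 j)
    rw [h4, hvw 0]
    ring
  have hmono : ∀ j, BB z r (w j) (w 0) ≤ BB z r (w (j + 1)) (w 0) ∧ 1 ≤ BB z r (w (j + 1)) (w 0) ∧
      BB z r (w (j + 1)) (w 0) ≤ BB z r (w (j + 2)) (w 0) ∧ 1 ≤ BB z r (w (j + 2)) (w 0) := by
    intro j
    induction j with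
    | zero =>
      have e0 : BB z r (w 0) (w 0) = -1 := BB_self (hpos 0)
      have e1 : BB z r (w (0 + 1)) (w 0) = 1 := by rw [BB_comm]; exact h1 0
      have e2 : BB z r (w (0 + 2)) (w 0) = 1 := by rw [BB_comm]; exact h2 0
      rw [e0, e1, e2]
      norm_num
    | succ j ih =>
      obtain ⟨i1, i2, i3, i4⟩ := ih
      have h4 := hrec j
      refine ⟨i3, i4, ?_, ?_⟩
      · rw [show j + 1 + 1 = j + 2 from rfl, show j + 1 + 2 = j + 3 from rfl]
        linarith
      · rw [show j + 1 + 2 = j + 3 from rfl]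
        linarith
  obtain ⟨j, hj⟩ := fxe_link h hw
  have h5 := (hmono j).2.1
  rw [hj, BB_self (hpos 0)] at h5
  linarith

end Pool.Agent.CPL
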