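import Pool.Agent.CPL.BAS

set_option autoImplicit false

/-!
# Insertion of a vertex of degree 3 in a face

`ins F v a b c`: remove the face `(a, b, c)`, add the faces `(v, a, b)`, `(v, b, c)`, `(v, c, a)`.
Proof of `IsTri`: every dart is in one face: the darts `(a,b), (b,c), (c,a)` get the third vertex `v`, the new darts are `(v,a), (a,v), ...`.
`link`: for an old vertex `w`, `Relation.ReflTransGen` for the old relation is lifted (`Relation.ReflTransGen.lift'` with
`f = id`, or `trans_induction_on`): a step of the old link which used the face `(a,b,c)`, e.g. `b → c` at `w = a`, is replaced by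
`b → v → c`. The new element `v` of the link of `a` lies between `b` and `c`. At `v`: `a → b → c → a`.
`conn`: old steps are steps. `euler`: `card = F.card - 3 + 9`.
-/

namespace Pool.Agent.CPL

open Finset

variable {V : Finset ℕ} {F : Finset Tr} {a b c v w : ℕ}

/-- insert the vertex `v` in the face `(a, b, c)` -/
def ins (F : Finset Tr) (v a b c : ℕ) : Finset Tr :=
  (F \ rots a b c) ∪ (rots v a b ∪ rots v b c ∪ rots v c a)

theorem ins_mem_iff {x y z : ℕ} : (x, y, z) ∈ ins F v a b c ↔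
    ((x, y, z) ∈ F ∧ (x, y, z) ∉ rots a b c) ∨
      (x, y, z) ∈ rots v a b ∨ (x, y, z) ∈ rots v b c ∨ (x, y, z) ∈ rots v c a := by
  unfold ins
  rw [mem_union, mem_sdiff, mem_union, mem_union, or_assoc]

theorem ins_rot : ins F v b c a = ins F v a b c := by
  unfold ins
  rw [rots_rot a b c]
  congr 1
  ext t
  simp only [mem_union]
  tauto

theorem ins_rots_cyc {x y z : ℕ} (h : (x, y, z) ∈ rots a b c) : (y, z, x) ∈ rots a b c := by
  rw [mem_rots] at h ⊢
  rcases h with h | h | h <;> (simp only [Prod.mk.injEq] at h; obtain ⟨rfl, rfl, rfl⟩ := h; simp)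

theorem ins_cyc (h : IsTri V F) {x y z : ℕ} (hx : (x, y, z) ∈ ins F v a b c) :
    (y, z, x) ∈ ins F v a b c := by
  rw [ins_mem_iff] at hx ⊢
  rcases hx with ⟨h1, h2⟩ | h1 | h1 | h1
  · left
    refine ⟨h.rot _ _ _ h1, fun h3 => h2 ?_⟩
    exact ins_rots_cyc (ins_rots_cyc h3)
  · right; left; exact ins_rots_cyc h1
  · right; right; left; exact ins_rots_cyc h1
  · right; right; right; exact ins_rots_cyc h1

/-- faces of `F` that survive -/
theorem ins_old {x y z : ℕ} (h1 : (x, y, z) ∈ F) (h2 : (x, y, z) ∉ rots a b c) :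
    (x, y, z) ∈ ins F v a b c := ins_mem_iff.2 (Or.inl ⟨h1, h2⟩)

theorem ins_new1 : (v, a, b) ∈ ins F v a b c := by rw [ins_mem_iff]; simp [mem_rots]
theorem ins_new2 : (a, b, v) ∈ ins F v a b c := by rw [ins_mem_iff]; simp [mem_rots]
theorem ins_new3 : (b, v, a) ∈ ins F v a b c := by rw [ins_mem_iff]; simp [mem_rots]
theorem ins_new4 : (v, b, c) ∈ ins F v a b c := by rw [ins_mem_iff]; simp [mem_rots]
theorem ins_new5 : (b, c, v) ∈ ins F v a b c := by rw [ins_mem_iff]; simp [mem_rots]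
theorem ins_new6 : (c, v, b) ∈ ins F v a b c := by rw [ins_mem_iff]; simp [mem_rots]
theorem ins_new7 : (v, c, a) ∈ ins F v a b c := by rw [ins_mem_iff]; simp [mem_rots]
theorem ins_new8 : (c, a, v) ∈ ins F v a b c := by rw [ins_mem_iff]; simp [mem_rots]
theorem ins_new9 : (a, v, c) ∈ ins F v a b c := by rw [ins_mem_iff]; simp [mem_rots]

/-- the ten kinds of faces -/
theorem ins_cases {x y z : ℕ} (h : (x, y, z) ∈ ins F v a b c) :
    ((x, y, z) ∈ F ∧ (x, y, z) ∉ rots a b c) ∨ (x = v ∧ y = a ∧ z = b) ∨ (x = a ∧ y = b ∧ z = v) ∨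
      (x = b ∧ y = v ∧ z = a) ∨ (x = v ∧ y = b ∧ z = c) ∨ (x = b ∧ y = c ∧ z = v) ∨
      (x = c ∧ y = v ∧ z = b) ∨ (x = v ∧ y = c ∧ z = a) ∨ (x = c ∧ y = a ∧ z = v) ∨
      (x = a ∧ y = v ∧ z = c) := by
  rw [ins_mem_iff, mem_rots (a := v) (b := a), mem_rots (a := v) (b := b), mem_rots (a := v) (b := c)] at h
  simpa only [Prod.mk.injEq, or_assoc] using h

theorem ins_card_filter_rots (hab : a ≠ b) (hbc : b ≠ c) (hca : c ≠ a) (w : ℕ) :
    ((rots a b c).filter fun t => t.1 = w).card = if w = a ∨ w = b ∨ w = c then 1 else 0 := by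
  split_ifs with hw
  · rw [card_eq_one]
    rcases hw with rfl | rfl | rfl
    · refine ⟨(w, b, c), ?_⟩
      ext ⟨x, y, z⟩
      simp only [mem_filter, mem_rots, mem_singleton, Prod.mk.injEq]
      constructor
      · rintro ⟨⟨rfl, rfl, rfl⟩ | ⟨rfl, rfl, rfl⟩ | ⟨rfl, rfl, rfl⟩, h⟩
        · simp
        · exact absurd h.symm hab
        · exact absurd h hca
      · rintro ⟨rfl, rfl, rfl⟩
        simp
    · refine ⟨(w, c, a), ?_⟩
      ext ⟨x, y, z⟩
      simp only [mem_filter, mem_rots, mem_singleton, Prod.mk.injEq]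
      constructor
      · rintro ⟨⟨rfl, rfl, rfl⟩ | ⟨rfl, rfl, rfl⟩ | ⟨rfl, rfl, rfl⟩, h⟩
        · exact absurd h hab
        · simp
        · exact absurd h.symm hbc
      · rintro ⟨rfl, rfl, rfl⟩
        simp
    · refine ⟨(w, a, b), ?_⟩
      ext ⟨x, y, z⟩
      simp only [mem_filter, mem_rots, mem_singleton, Prod.mk.injEq]
      constructor
      · rintro ⟨⟨rfl, rfl, rfl⟩ | ⟨rfl, rfl, rfl⟩ | ⟨rfl, rfl, rfl⟩, h⟩
        · exact absurd h.symm hca
        · exact absurd h hbc
        · simp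
      · rintro ⟨rfl, rfl, rfl⟩
        simp
  · rw [card_eq_zero, filter_eq_empty_iff]
    rintro ⟨x, y, z⟩ ht h
    simp only [mem_rots, Prod.mk.injEq] at ht h
    apply hw
    subst h
    rcases ht with ⟨rfl, -, -⟩ | ⟨rfl, -, -⟩ | ⟨rfl, -, -⟩
    · left; rfl
    · right; left; rfl
    · right; right; rfl

theorem ins_not_v (h : IsTri V F) (hv : v ∉ V) {x y z : ℕ} (hx : (x, y, z) ∈ F) :
    x ≠ v ∧ y ≠ v ∧ z ≠ v :=
  ⟨fun e => hv (e ▸ h.mem _ _ _ hx), fun e => hv (e ▸ h.mem2 hx), fun e => hv (e ▸ h.mem3 hx)⟩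

theorem ins_disj_rots (hav : a ≠ v) (hbv : b ≠ v) (hcv : c ≠ v) (hab : a ≠ b) (hbc : b ≠ c) (hca : c ≠ a) :
    Disjoint (rots v a b) (rots v b c) := by
  rw [disjoint_left]
  rintro ⟨x, y, z⟩ h1 h2
  simp only [mem_rots, Prod.mk.injEq] at h1 h2
  rcases h1 with ⟨rfl, rfl, rfl⟩ | ⟨rfl, rfl, rfl⟩ | ⟨rfl, rfl, rfl⟩ <;>
    rcases h2 with ⟨e1, e2, e3⟩ | ⟨e1, e2, e3⟩ | ⟨e1, e2, e3⟩ <;> omega

/-- the part of the new faces -/
theorem ins_filter (h : IsTri V F) (hv : v ∉ V) (ht : (a, b, c) ∈ F) (p : Tr → Prop) [DecidablePred p] :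
    ((Pool.Agent.CPL.ins F v a b c).filter p).card + ((rots a b c).filter p).card = (F.filter p).card +
      (((rots v a b).filter p).card + ((rots v b c).filter p).card + ((rots v c a).filter p).card) := by
  have hav := (ins_not_v h hv ht).1
  have hbv := (ins_not_v h hv ht).2.1
  have hcv := (ins_not_v h hv ht).2.2
  have hab := h.ne12 ht
  have hbc := h.ne23 ht
  have hca := h.ne31 ht
  have d1 : Disjoint (rots v a b) (rots v b c) := ins_disj_rots hav hbv hcv hab hbc hca
  have d2 : Disjoint (rots v b c) (rots v c a) := ins_disj_rots hbv hcv hav hbc hca hab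
  have d3 : Disjoint (rots v c a) (rots v a b) := ins_disj_rots hcv hav hbv hca hab hbc
  have d4 : Disjoint (rots v a b ∪ rots v b c) (rots v c a) := by
    rw [disjoint_union_left]
    exact ⟨d3.symm, d2⟩
  have d5 : Disjoint (F \ rots a b c) (rots v a b ∪ rots v b c ∪ rots v c a) := by
    rw [disjoint_left]
    rintro ⟨x, y, z⟩ h1 h2
    have h3 := ins_not_v h hv (mem_sdiff.1 h1).1
    simp only [mem_union, mem_rots, Prod.mk.injEq] at h2
    omega
  unfold Pool.Agent.CPL.ins
  rw [filter_union, card_union_of_disjoint (disjoint_filter_filter d5), filter_union,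
    card_union_of_disjoint (disjoint_filter_filter d4), filter_union,
    card_union_of_disjoint (disjoint_filter_filter d1)]
  have h6 : ((F \ rots a b c).filter p).card + ((rots a b c).filter p).card = (F.filter p).card := by
    rw [← card_union_of_disjoint (disjoint_filter_filter sdiff_disjoint), ← filter_union,
      sdiff_union_of_subset (h.rots_subset ht)]
  omega

theorem IsTri.ins (h : IsTri V F) (hv : v ∉ V) (ht : (a, b, c) ∈ F) :
    IsTri (insert v V) (ins F v a b c) := by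
  have hav := (ins_not_v h hv ht).1
  have hbv := (ins_not_v h hv ht).2.1
  have hcv := (ins_not_v h hv ht).2.2
  have hab := h.ne12 ht
  have hbc := h.ne23 ht
  have hca := h.ne31 ht
  have haV := h.mem _ _ _ ht
  have hbV := h.mem2 ht
  have hcV := h.mem3 ht
  have ht2 : (b, c, a) ∈ F := h.rot _ _ _ ht
  have ht3 : (c, a, b) ∈ F := h.rot2 ht
  -- an old dart is a dart
  have hdart : ∀ x y z, (x, y, z) ∈ F → ∃ d, (x, y, d) ∈ Pool.Agent.CPL.ins F v a b c := by
    intro x y z hx
    by_cases h1 : (x, y, z) ∈ rots a b c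
    · simp only [mem_rots, Prod.mk.injEq] at h1
      rcases h1 with ⟨rfl, rfl, rfl⟩ | ⟨rfl, rfl, rfl⟩ | ⟨rfl, rfl, rfl⟩
      · exact ⟨v, ins_new2⟩
      · exact ⟨v, ins_new5⟩
      · exact ⟨v, ins_new8⟩
    · exact ⟨z, ins_old hx h1⟩
  constructor
  · -- mem
    intro x y z hx
    rw [mem_insert]
    rcases ins_cases hx with ⟨h1, -⟩ | ⟨rfl, -⟩ | ⟨rfl, -⟩ | ⟨rfl, -⟩ | ⟨rfl, -⟩ | ⟨rfl, -⟩ | ⟨rfl, -⟩ |
      ⟨rfl, -⟩ | ⟨rfl, -⟩ | ⟨rfl, -⟩
    · exact Or.inr (h.mem _ _ _ h1)
    · exact Or.inl rfl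
    · exact Or.inr haV
    · exact Or.inr hbV
    · exact Or.inl rfl
    · exact Or.inr hbV
    · exact Or.inr hcV
    · exact Or.inl rfl
    · exact Or.inr hcV
    · exact Or.inr haV
  · -- rot
    intro x y z hx
    exact ins_cyc h hx
  · -- ne
    intro x y z hx
    rcases ins_cases hx with ⟨h1, -⟩ | h1 | h1 | h1 | h1 | h1 | h1 | h1 | h1 | h1
    · exact h.ne _ _ _ h1
    all_goals omega
  · -- uniq
    intro x y z z' h1 h2
    rcases ins_cases h1 with ⟨o1, n1⟩ | e1 <;> rcases ins_cases h2 with ⟨o2, n2⟩ | e2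
    · exact h.uniq _ _ _ _ o1 o2
    · exfalso
      have h3 := ins_not_v h hv o1
      rcases e2 with e2 | e2 | e2 | e2 | e2 | e2 | e2 | e2 | e2
      · omega
      · obtain ⟨rfl, rfl, rfl⟩ := e2
        exact n1 (by rw [h.uniq _ _ _ _ o1 ht]; simp [mem_rots])
      · omega
      · omega
      · obtain ⟨rfl, rfl, rfl⟩ := e2
        exact n1 (by rw [h.uniq _ _ _ _ o1 ht2]; simp [mem_rots])
      · omega
      · omega
      · obtain ⟨rfl, rfl, rfl⟩ := e2
        exact n1 (by rw [h.uniq _ _ _ _ o1 ht3]; simp [mem_rots])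
      · omega
    · exfalso
      have h3 := ins_not_v h hv o2
      rcases e1 with e2 | e2 | e2 | e2 | e2 | e2 | e2 | e2 | e2
      · omega
      · obtain ⟨rfl, rfl, rfl⟩ := e2
        exact n2 (by rw [h.uniq _ _ _ _ o2 ht]; simp [mem_rots])
      · omega
      · omega
      · obtain ⟨rfl, rfl, rfl⟩ := e2
        exact n2 (by rw [h.uniq _ _ _ _ o2 ht2]; simp [mem_rots])
      · omega
      · omega
      · obtain ⟨rfl, rfl, rfl⟩ := e2
        exact n2 (by rw [h.uniq _ _ _ _ o2 ht3]; simp [mem_rots])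
      · omega
    · omega
  · -- opp
    intro x y z hx
    rcases ins_cases hx with ⟨h1, -⟩ | ⟨rfl, rfl, rfl⟩ | ⟨rfl, rfl, rfl⟩ | ⟨rfl, rfl, rfl⟩ |
      ⟨rfl, rfl, rfl⟩ | ⟨rfl, rfl, rfl⟩ | ⟨rfl, rfl, rfl⟩ | ⟨rfl, rfl, rfl⟩ | ⟨rfl, rfl, rfl⟩ |
      ⟨rfl, rfl, rfl⟩
    · obtain ⟨d, hd⟩ := h.opp _ _ _ h1
      exact hdart _ _ _ hd
    · exact ⟨_, ins_new9⟩
    · obtain ⟨d, hd⟩ := h.opp _ _ _ ht
      exact hdart _ _ _ hd
    · exact ⟨_, ins_new4⟩
    · exact ⟨_, ins_new3⟩
    · obtain ⟨d, hd⟩ := h.opp _ _ _ ht2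
      exact hdart _ _ _ hd
    · exact ⟨_, ins_new7⟩
    · exact ⟨_, ins_new6⟩
    · obtain ⟨d, hd⟩ := h.opp _ _ _ ht3
      exact hdart _ _ _ hd
    · exact ⟨_, ins_new1⟩
  · -- link
    intro w x x' y y' hx hy
    by_cases hwv : w = v
    · subst hwv
      -- the link of `v` is the cycle `a b c`
      have sab : (w, a, b) ∈ Pool.Agent.CPL.ins F w a b c := ins_new1
      have sbc : (w, b, c) ∈ Pool.Agent.CPL.ins F w a b c := ins_new4
      have sca : (w, c, a) ∈ Pool.Agent.CPL.ins F w a b c := ins_new7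
      have rab : Relation.ReflTransGen (fun x y => (w, x, y) ∈ Pool.Agent.CPL.ins F w a b c) a b :=
        Relation.ReflTransGen.single sab
      have rbc : Relation.ReflTransGen (fun x y => (w, x, y) ∈ Pool.Agent.CPL.ins F w a b c) b c :=
        Relation.ReflTransGen.single sbc
      have rca : Relation.ReflTransGen (fun x y => (w, x, y) ∈ Pool.Agent.CPL.ins F w a b c) c a :=
        Relation.ReflTransGen.single sca
      have hmem : ∀ z z', (w, z, z') ∈ Pool.Agent.CPL.ins F w a b c → z = a ∨ z = b ∨ z = c := by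
        intro z z' hz
        rcases ins_cases hz with ⟨h1, -⟩ | h1 | h1 | h1 | h1 | h1 | h1 | h1 | h1 | h1
        · exact absurd rfl (ins_not_v h hv h1).1
        all_goals omega
      rcases hmem _ _ hx with rfl | rfl | rfl <;> rcases hmem _ _ hy with rfl | rfl | rfl
      · exact Relation.ReflTransGen.refl
      · exact rab
      · exact rab.trans rbc
      · exact rbc.trans rca
      · exact Relation.ReflTransGen.refl
      · exact rbc
      · exact rca
      · exact rca.trans rab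
      · exact Relation.ReflTransGen.refl
    · -- old vertex
      have hlift : ∀ p q, Relation.ReflTransGen (fun x y => (w, x, y) ∈ F) p q →
          Relation.ReflTransGen (fun x y => (w, x, y) ∈ Pool.Agent.CPL.ins F v a b c) p q := by
        intro p q hpq
        induction hpq with
        | refl => exact Relation.ReflTransGen.refl
        | @tail q r _ hqr ih =>
          refine ih.trans ?_
          by_cases h1 : (w, q, r) ∈ rots a b c
          · simp only [mem_rots, Prod.mk.injEq] at h1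
            rcases h1 with ⟨rfl, rfl, rfl⟩ | ⟨rfl, rfl, rfl⟩ | ⟨rfl, rfl, rfl⟩
            · exact (Relation.ReflTransGen.single ins_new2).trans (Relation.ReflTransGen.single ins_new9)
            · exact (Relation.ReflTransGen.single ins_new5).trans (Relation.ReflTransGen.single ins_new3)
            · exact (Relation.ReflTransGen.single ins_new8).trans (Relation.ReflTransGen.single ins_new6)
          · exact Relation.ReflTransGen.single (ins_old hqr h1)
      have hstart : ∀ z z', (w, z, z') ∈ Pool.Agent.CPL.ins F v a b c → ∃ z0 z1, (w, z0, z1) ∈ F ∧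
          Relation.ReflTransGen (fun x y => (w, x, y) ∈ Pool.Agent.CPL.ins F v a b c) z z0 := by
        intro z z' hz
        rcases ins_cases hz with ⟨h1, -⟩ | ⟨rfl, rfl, rfl⟩ | ⟨rfl, rfl, rfl⟩ | ⟨rfl, rfl, rfl⟩ |
          ⟨rfl, rfl, rfl⟩ | ⟨rfl, rfl, rfl⟩ | ⟨rfl, rfl, rfl⟩ | ⟨rfl, rfl, rfl⟩ | ⟨rfl, rfl, rfl⟩ |
          ⟨rfl, rfl, rfl⟩
        · exact ⟨z, z', h1, Relation.ReflTransGen.refl⟩
        · exact absurd rfl hwv
        · exact ⟨z, c, ht, Relation.ReflTransGen.refl⟩
        · obtain ⟨d, hd⟩ := h.next ht2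
          exact ⟨z', d, hd, Relation.ReflTransGen.single ins_new3⟩
        · exact absurd rfl hwv
        · exact ⟨z, a, ht2, Relation.ReflTransGen.refl⟩
        · obtain ⟨d, hd⟩ := h.next ht3
          exact ⟨z', d, hd, Relation.ReflTransGen.single ins_new6⟩
        · exact absurd rfl hwv
        · exact ⟨z, b, ht3, Relation.ReflTransGen.refl⟩
        · obtain ⟨d, hd⟩ := h.next ht
          exact ⟨z', d, hd, Relation.ReflTransGen.single ins_new9⟩
      have hend : ∀ z z', (w, z, z') ∈ Pool.Agent.CPL.ins F v a b c → ∃ z0 z1, (w, z0, z1) ∈ F ∧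
          Relation.ReflTransGen (fun x y => (w, x, y) ∈ Pool.Agent.CPL.ins F v a b c) z0 z := by
        intro z z' hz
        rcases ins_cases hz with ⟨h1, -⟩ | ⟨rfl, rfl, rfl⟩ | ⟨rfl, rfl, rfl⟩ | ⟨rfl, rfl, rfl⟩ |
          ⟨rfl, rfl, rfl⟩ | ⟨rfl, rfl, rfl⟩ | ⟨rfl, rfl, rfl⟩ | ⟨rfl, rfl, rfl⟩ | ⟨rfl, rfl, rfl⟩ |
          ⟨rfl, rfl, rfl⟩
        · exact ⟨z, z', h1, Relation.ReflTransGen.refl⟩
        · exact absurd rfl hwv
        · exact ⟨z, c, ht, Relation.ReflTransGen.refl⟩
        · exact ⟨c, z', ht2, Relation.ReflTransGen.single ins_new5⟩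
        · exact absurd rfl hwv
        · exact ⟨z, a, ht2, Relation.ReflTransGen.refl⟩
        · exact ⟨a, z', ht3, Relation.ReflTransGen.single ins_new8⟩
        · exact absurd rfl hwv
        · exact ⟨z, b, ht3, Relation.ReflTransGen.refl⟩
        · exact ⟨b, z', ht, Relation.ReflTransGen.single ins_new2⟩
      obtain ⟨x0, x1, hx0, rx⟩ := hstart _ _ hx
      obtain ⟨y0, y1, hy0, ry⟩ := hend _ _ hy
      exact (rx.trans (hlift _ _ (h.link _ _ _ _ _ hx0 hy0))).trans ry
  · -- conn
    have hlift : ∀ p q, Relation.ReflTransGen (fun x y => ∃ c, (x, y, c) ∈ F) p q →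
        Relation.ReflTransGen (fun x y => ∃ d, (x, y, d) ∈ Pool.Agent.CPL.ins F v a b c) p q := by
      intro p q hpq
      induction hpq with
      | refl => exact Relation.ReflTransGen.refl
      | @tail q r _ hqr ih =>
        obtain ⟨z, hz⟩ := hqr
        exact ih.trans (Relation.ReflTransGen.single (hdart _ _ _ hz))
    have hva : Relation.ReflTransGen (fun x y => ∃ d, (x, y, d) ∈ Pool.Agent.CPL.ins F v a b c) v a :=
      Relation.ReflTransGen.single ⟨b, ins_new1⟩
    have hav' : Relation.ReflTransGen (fun x y => ∃ d, (x, y, d) ∈ Pool.Agent.CPL.ins F v a b c) a v :=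
      Relation.ReflTransGen.single ⟨c, ins_new9⟩
    intro x hx y hy
    rw [mem_insert] at hx hy
    rcases hx with rfl | hx <;> rcases hy with rfl | hy
    · exact Relation.ReflTransGen.refl
    · exact hva.trans (hlift _ _ (h.conn _ haV _ hy))
    · exact (hlift _ _ (h.conn _ hx _ haV)).trans hav'
    · exact hlift _ _ (h.conn _ hx _ hy)
  · -- euler
    have h1 := ins_filter h hv ht (fun _ => True)
    simp only [filter_true] at h1
    rw [card_rots hab hbc hca, card_rots (Ne.symm hav) hab hbv, card_rots (Ne.symm hbv) hbc hcv,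
      card_rots (Ne.symm hcv) hca hav] at h1
    have h2 := h.euler
    rw [card_insert_of_notMem hv]
    omega

theorem IsTri.deg_ins_self (h : IsTri V F) (hv : v ∉ V) (ht : (a, b, c) ∈ F) :
    deg (Pool.Agent.CPL.ins F v a b c) v = 3 := by
  have hav := (ins_not_v h hv ht).1
  have hbv := (ins_not_v h hv ht).2.1
  have hcv := (ins_not_v h hv ht).2.2
  have hab := h.ne12 ht
  have hbc := h.ne23 ht
  have hca := h.ne31 ht
  have h1 := ins_filter h hv ht (fun t => t.1 = v)
  rw [ins_card_filter_rots hab hbc hca, ins_card_filter_rots (Ne.symm hav) hab hbv,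
    ins_card_filter_rots (Ne.symm hbv) hbc hcv, ins_card_filter_rots (Ne.symm hcv) hca hav] at h1
  have h2 : (F.filter fun t => t.1 = v).card = 0 := by
    rw [card_eq_zero, filter_eq_empty_iff]
    rintro ⟨x, y, z⟩ hx hxv
    exact (ins_not_v h hv hx).1 hxv
  rw [h2, if_neg (by omega), if_pos (Or.inl rfl), if_pos (Or.inl rfl), if_pos (Or.inl rfl)] at h1
  unfold deg
  omega

theorem IsTri.deg_ins (h : IsTri V F) (hv : v ∉ V) (ht : (a, b, c) ∈ F) (hw : w ∈ V) :
    deg (Pool.Agent.CPL.ins F v a b c) w = deg F w + if w = a ∨ w = b ∨ w = c then 1 else 0 := by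
  have hav := (ins_not_v h hv ht).1
  have hbv := (ins_not_v h hv ht).2.1
  have hcv := (ins_not_v h hv ht).2.2
  have hab := h.ne12 ht
  have hbc := h.ne23 ht
  have hca := h.ne31 ht
  have hwv : w ≠ v := fun e => hv (e ▸ hw)
  have h1 := ins_filter h hv ht (fun t => t.1 = w)
  rw [ins_card_filter_rots hab hbc hca, ins_card_filter_rots (Ne.symm hav) hab hbv,
    ins_card_filter_rots (Ne.symm hbv) hbc hcv, ins_card_filter_rots (Ne.symm hcv) hca hav] at h1
  unfold deg
  by_cases ha : w = a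
  · subst ha
    simp only [hwv, hab, Ne.symm hca, or_true, true_or, if_true, or_false, if_false] at h1 ⊢
    omega
  · by_cases hb : w = b
    · subst hb
      simp only [hwv, hbc, ha, or_true, true_or, if_true, or_false, if_false] at h1 ⊢
      omega
    · by_cases hc : w = c
      · subst hc
        simp only [hwv, ha, hb, or_true, true_or, if_true, or_false, if_false] at h1 ⊢
        omega
      · simp only [hwv, ha, hb, hc, or_false, if_false] at h1 ⊢
        omega

/-- the root face stays if it is not the face in which `v` is inserted -/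
theorem root_mem_ins (h0 : (0, 1, 2) ∈ F) (ht : (0, 1, 2) ∉ rots a b c) :
    (0, 1, 2) ∈ Pool.Agent.CPL.ins F v a b c := ins_old h0 ht

end Pool.Agent.CPL
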