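import Pool.Agent.CPL.GLU
import Pool.Agent.CPL.CMP
import Pool.Agent.CPL.INS

set_option autoImplicit false

/-!
# The gluing map is injective: supermultiplicativity

Let `T = glue F1 F2 x`, `S1 = V1 \ {0,1,2}`, `S2 = V2 \ {0,1,2}` disjoint, nonempty, `x ∈ S1`. Facts: (a) `S2` is connected in `T` by paths inside `S2`
(`conn_compl` for the root face of `F2`), and contains the third vertex `w` of the face `(1, 0, w)` of `T`; (b) `O = {2} ∪ S1 \ {x}` is
connected by paths inside `O` (`conn_compl` for the face `(1, 0, x)` of `F1`); (c) there is no edge between `S2` and `O`; (d) `x` is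
adjacent to a vertex of `O` and to a vertex of `S2` (the third vertices of the faces of `F1` and `F2` on the edge `{0, x}`).
If `T = glue F1' F2' x'` with `S1'`, `S2'`, `|S1'| = |S1|`, `S1' ∪ S2' = S1 ∪ S2`: if `x' ∈ S2` then `O` is connected, contains `2`, avoids `0, 1, x'`, so
`O ⊆ O'`, `O = O'` (equal cardinalities), `{x} ∪ S2 = {x'} ∪ S2'`; if `x ≠ x'` then `x ∈ S2'` is adjacent to a vertex of `O = O'`,
contradiction to (c). If `x' ∈ O`: `S2` is connected, contains `w`, avoids `0, 1, x'`, so `S2 ⊆ S2'`, `S2 = S2'`, and `x` is adjacent to a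
vertex of `S2 = S2'`, so `x ∈ S2' ∪ {0, 1, x'}`, so `x = x'`. Hence `x = x'`, `S2 = S2'` and then `F1 = {t ∈ T | no entry in S2} ∪ rots 1 0 x`,
`relab (ren x) F2 = {t ∈ T | some entry in S2} ∪ rots 0 1 x`, and `relab (ren x)` is injective.
`supermult`: sum over the subsets `S1` of `I = {3, ..., i+j+2}` with `i` elements: `|TriOn ({0,1,2} ∪ S1)| * |TriOn ({0,1,2} ∪ (I \ S1))| = cc (i+3) * cc (j+3)`
(`card_TriOn`), all images are in `Tri (i+j+3)`.
-/

namespace Pool.Agent.CPL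

open Finset

/-- The facts about a glued triangulation used in the proof of injectivity. -/
structure GinFacts (S1 S2 : Finset ℕ) (x : ℕ) (F1 F2 T : Finset Tr) : Prop where
  xmem : x ∈ S1
  connS : ∀ p ∈ S2, ∀ q ∈ S2,
    Relation.ReflTransGen (fun p q => (∃ s, (p, q, s) ∈ T) ∧ q ∈ S2) p q
  connO : ∀ p ∈ insert 2 (S1.erase x), ∀ q ∈ insert 2 (S1.erase x),
    Relation.ReflTransGen (fun p q => (∃ s, (p, q, s) ∈ T) ∧ q ∈ insert 2 (S1.erase x)) p q
  cross : ∀ p q s, (p, q, s) ∈ T → p ∈ S2 → q ∉ insert 2 (S1.erase x)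
  cross' : ∀ p q s, (p, q, s) ∈ T → q ∈ S2 → p ∉ insert 2 (S1.erase x)
  adjO : ∃ y ∈ insert 2 (S1.erase x), ∃ s, (y, x, s) ∈ T
  adjS : ∃ w ∈ S2, ∃ s, (w, x, s) ∈ T
  face : ∃ w ∈ S2, (1, 0, w) ∈ T
  eq1 : F1 = (T.filter fun t => t.1 ∉ S2 ∧ t.2.1 ∉ S2 ∧ t.2.2 ∉ S2) ∪ rots 1 0 x
  eq2 : relab (ren x) F2 =
    (T.filter fun t => ¬ (t.1 ∉ S2 ∧ t.2.1 ∉ S2 ∧ t.2.2 ∉ S2)) ∪ rots 0 1 x

theorem gin_base {S : Finset ℕ} {F : Finset Tr} (h : IsTri ({0, 1, 2} ∪ S) F)
    (hc : 4 ≤ ({0, 1, 2} ∪ S : Finset ℕ).card) (r : (0, 1, 2) ∈ F) {a b c : ℕ}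
    (ht : (a, b, c) ∈ F) (ha : a ∉ S) (hb : b ∉ S) (hc' : c ∉ S) : (a, b, c) ∈ rots 0 1 2 := by
  have hn := h.not_both hc r
  have r1 := h.rot _ _ _ r
  have r2 := h.rot2 r
  have n1 : (2, 1, 0) ∉ F := fun hh => hn (h.rot2 hh)
  have n2 : (1, 0, 2) ∉ F := fun hh => hn (h.rot _ _ _ hh)
  have ha' := h.mem _ _ _ ht
  have hb' := h.mem2 ht
  have hc'' := h.mem3 ht
  have e1 := h.ne12 ht
  have e2 := h.ne23 ht
  have e3 := h.ne31 ht
  simp only [mem_union, mem_insert, mem_singleton] at ha' hb' hc''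
  rw [mem_rots]
  rcases ha' with (rfl | rfl | rfl) | ha'
  · rcases hb' with (rfl | rfl | rfl) | hb'
    · exact absurd rfl e1
    · rcases hc'' with (rfl | rfl | rfl) | hc''
      · exact absurd rfl e3
      · exact absurd rfl e2
      · exact Or.inl rfl
      · exact absurd hc'' hc'
    · rcases hc'' with (rfl | rfl | rfl) | hc''
      · exact absurd rfl e3
      · exact absurd ht hn
      · exact absurd rfl e2
      · exact absurd hc'' hc'
    · exact absurd hb' hb
  · rcases hb' with (rfl | rfl | rfl) | hb'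
    · rcases hc'' with (rfl | rfl | rfl) | hc''
      · exact absurd rfl e2
      · exact absurd rfl e3
      · exact absurd ht n2
      · exact absurd hc'' hc'
    · exact absurd rfl e1
    · rcases hc'' with (rfl | rfl | rfl) | hc''
      · exact Or.inr (Or.inl rfl)
      · exact absurd rfl e3
      · exact absurd rfl e2
      · exact absurd hc'' hc'
    · exact absurd hb' hb
  · rcases hb' with (rfl | rfl | rfl) | hb'
    · rcases hc'' with (rfl | rfl | rfl) | hc''
      · exact absurd rfl e2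
      · exact Or.inr (Or.inr rfl)
      · exact absurd rfl e3
      · exact absurd hc'' hc'
    · rcases hc'' with (rfl | rfl | rfl) | hc''
      · exact absurd ht n1
      · exact absurd rfl e2
      · exact absurd rfl e3
      · exact absurd hc'' hc'
    · exact absurd rfl e1
    · exact absurd hb' hb
  · exact absurd ha' ha

theorem gin_xmem {S : Finset ℕ} {F : Finset Tr} (h : IsTri ({0, 1, 2} ∪ S) F)
    (hc : 4 ≤ ({0, 1, 2} ∪ S : Finset ℕ).card) (r : (0, 1, 2) ∈ F) {x : ℕ}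
    (hx : (1, 0, x) ∈ F) : x ∈ S := by
  have h1 := h.mem3 hx
  have e2 := h.ne23 hx
  have e3 := h.ne31 hx
  simp only [mem_union, mem_insert, mem_singleton] at h1
  rcases h1 with (rfl | rfl | rfl) | h1
  · exact absurd rfl e2
  · exact absurd rfl e3
  · exact absurd (h.rot _ _ _ hx) (h.not_both hc r)
  · exact h1

theorem gin_facts {S1 S2 : Finset ℕ} {x : ℕ} {F1 F2 : Finset Tr}
    (h1 : IsTri ({0, 1, 2} ∪ S1) F1) (h2 : IsTri ({0, 1, 2} ∪ S2) F2)
    (c1 : 4 ≤ ({0, 1, 2} ∪ S1 : Finset ℕ).card) (c2 : 4 ≤ ({0, 1, 2} ∪ S2 : Finset ℕ).card)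
    (r1 : (0, 1, 2) ∈ F1) (r2 : (0, 1, 2) ∈ F2) (hx : (1, 0, x) ∈ F1) (hd : Disjoint S1 S2)
    (n1 : ∀ i ∈ S1, 3 ≤ i) (n2 : ∀ i ∈ S2, 3 ≤ i) :
    GinFacts S1 S2 x F1 F2 (glue F1 F2 x) := by
  have hxS : x ∈ S1 := gin_xmem h1 c1 r1 hx
  have hx3 : 3 ≤ x := n1 x hxS
  have hxS2 : x ∉ S2 := fun h => (disjoint_left.mp hd) hxS h
  have hren : ∀ a ∈ S2, ren x a = a := by
    intro a ha
    unfold ren
    rw [if_neg]
    have := n2 a ha
    omega
  have hren' : ∀ a, a ∉ S2 → a ∈ ({0, 1, 2} ∪ S2 : Finset ℕ) → ren x a = 0 ∨ ren x a = 1 ∨ ren x a = x := by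
    intro a ha ha'
    simp only [mem_union, mem_insert, mem_singleton] at ha'
    unfold ren
    rcases ha' with (rfl | rfl | rfl) | ha'
    · left; simp
    · right; left; simp
    · right; right; simp
    · exact absurd ha' ha
  have hF1S2 : ∀ a ∈ ({0, 1, 2} ∪ S1 : Finset ℕ), a ∉ S2 := by
    intro a ha ha2
    simp only [mem_union, mem_insert, mem_singleton] at ha
    have := n2 a ha2
    rcases ha with (rfl | rfl | rfl) | ha
    · omega
    · omega
    · omega
    · exact (disjoint_left.mp hd) ha ha2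
  have m1 : ∀ p q s, (p, q, s) ∈ F1 → (p, q, s) ∉ rots 1 0 x → (p, q, s) ∈ glue F1 F2 x := by
    intro p q s h h'
    unfold glue
    exact mem_union_left _ (mem_sdiff.mpr ⟨h, h'⟩)
  have m2 : ∀ p q s, (p, q, s) ∈ F2 → (ren x p, ren x q, ren x s) ∉ rots 0 1 x →
      (ren x p, ren x q, ren x s) ∈ glue F1 F2 x := by
    intro p q s h h'
    unfold glue
    exact mem_union_right _ (mem_sdiff.mpr ⟨mem_relab.mpr ⟨p, q, s, h, rfl⟩, h'⟩)
  have mT : ∀ p q s, (p, q, s) ∈ glue F1 F2 x → ((p, q, s) ∈ F1 ∧ (p, q, s) ∉ rots 1 0 x) ∨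
      ∃ a b c, (a, b, c) ∈ F2 ∧ p = ren x a ∧ q = ren x b ∧ s = ren x c ∧
        (p, q, s) ∉ rots 0 1 x := by
    intro p q s h
    unfold glue at h
    rcases mem_union.mp h with h | h
    · exact Or.inl (mem_sdiff.mp h)
    · obtain ⟨h, h'⟩ := mem_sdiff.mp h
      obtain ⟨a, b, c, habc, he⟩ := mem_relab.mp h
      simp only [Prod.mk.injEq] at he
      exact Or.inr ⟨a, b, c, habc, he.1, he.2.1, he.2.2, h'⟩
  have hO : ∀ c, c ∈ insert 2 (S1.erase x) ↔ c ∈ ({0, 1, 2} ∪ S1 : Finset ℕ) ∧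
      c ∉ ({1, 0, x} : Finset ℕ) := by
    intro c
    simp only [mem_insert, mem_erase, mem_union, mem_singleton]
    constructor
    · rintro (rfl | ⟨h3, h4⟩)
      · exact ⟨by simp, by omega⟩
      · have := n1 c h4
        exact ⟨Or.inr h4, by omega⟩
    · rintro ⟨(h3 | h3 | h3) | h3, h4⟩
      · omega
      · omega
      · exact Or.inl h3
      · exact Or.inr ⟨by omega, h3⟩
  have hS2 : ∀ c, c ∈ S2 ↔ c ∈ ({0, 1, 2} ∪ S2 : Finset ℕ) ∧ c ∉ ({0, 1, 2} : Finset ℕ) := by
    intro c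
    simp only [mem_insert, mem_union, mem_singleton]
    constructor
    · intro h
      have := n2 c h
      exact ⟨Or.inr h, by omega⟩
    · rintro ⟨h3 | h3, h4⟩
      · exact absurd h3 h4
      · exact h3
  have nr2 : ∀ p q s, p ∈ S2 → (p, q, s) ∉ rots 0 1 x := by
    intro p q s hp h
    have := n2 p hp
    rcases mem_rots.mp h with h | h | h <;> simp only [Prod.mk.injEq] at h
    · omega
    · omega
    · exact hxS2 (h.1 ▸ hp)
  have nr1 : ∀ p q s, p ∉ ({1, 0, x} : Finset ℕ) → (p, q, s) ∉ rots 1 0 x := by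
    intro p q s hp h
    simp only [mem_insert, mem_singleton] at hp
    rcases mem_rots.mp h with h | h | h <;> simp only [Prod.mk.injEq] at h
    · exact hp (Or.inl h.1)
    · exact hp (Or.inr (Or.inl h.1))
    · exact hp (Or.inr (Or.inr h.1))
  -- an entry of `T` in `S2` comes from `F2`
  have hT2 : ∀ p q s, (p, q, s) ∈ glue F1 F2 x → (p ∈ S2 ∨ q ∈ S2) →
      ∃ a b, a ∈ ({0, 1, 2} ∪ S2 : Finset ℕ) ∧ b ∈ ({0, 1, 2} ∪ S2 : Finset ℕ) ∧
        p = ren x a ∧ q = ren x b := by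
    intro p q s h h'
    rcases mT _ _ _ h with ⟨h3, -⟩ | ⟨a, b, c, h3, hp, hq, -, -⟩
    · exfalso
      rcases h' with h' | h'
      · exact hF1S2 _ (h1.mem _ _ _ h3) h'
      · exact hF1S2 _ (h1.mem2 h3) h'
    · exact ⟨a, b, h2.mem _ _ _ h3, h2.mem2 h3, hp, hq⟩
  have hnO : ∀ a ∈ ({0, 1, 2} ∪ S2 : Finset ℕ), ren x a ∉ insert 2 (S1.erase x) := by
    intro a ha h
    rw [hO] at h
    by_cases ha2 : a ∈ S2
    · rw [hren a ha2] at h
      exact hF1S2 _ h.1 ha2
    · have := hren' a ha2 ha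
      simp only [mem_insert, mem_singleton] at h
      omega
  refine ⟨hxS, ?_, ?_, ?_, ?_, ?_, ?_, ?_, ?_, ?_⟩
  · -- connS
    intro p hp q hq
    have hpp := (hS2 p).1 hp
    have hqq := (hS2 q).1 hq
    have path := h2.conn_compl c2 r2 hpp.1 hqq.1 hpp.2 hqq.2
    have key : ∀ q, Relation.ReflTransGen
        (fun p q => (∃ s, (p, q, s) ∈ F2) ∧ q ∉ ({0, 1, 2} : Finset ℕ)) p q →
        Relation.ReflTransGen (fun p q => (∃ s, (p, q, s) ∈ glue F1 F2 x) ∧ q ∈ S2) p q ∧
          q ∈ S2 := by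
      intro q hq
      induction hq with
      | refl => exact ⟨Relation.ReflTransGen.refl, hp⟩
      | @tail b c _ h4 ih =>
        obtain ⟨⟨s, hs⟩, hc⟩ := h4
        have hcS : c ∈ S2 := (hS2 c).2 ⟨h2.mem2 hs, hc⟩
        have hT := m2 _ _ _ hs (by rw [hren b ih.2]; exact nr2 _ _ _ ih.2)
        rw [hren b ih.2, hren c hcS] at hT
        exact ⟨ih.1.tail ⟨⟨_, hT⟩, hcS⟩, hcS⟩
    exact (key q path).1
  · -- connO
    intro p hp q hq
    have hpp := (hO p).1 hp
    have hqq := (hO q).1 hq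
    have path := h1.conn_compl c1 hx hpp.1 hqq.1 hpp.2 hqq.2
    have key : ∀ q, Relation.ReflTransGen
        (fun p q => (∃ s, (p, q, s) ∈ F1) ∧ q ∉ ({1, 0, x} : Finset ℕ)) p q →
        Relation.ReflTransGen (fun p q => (∃ s, (p, q, s) ∈ glue F1 F2 x) ∧
          q ∈ insert 2 (S1.erase x)) p q ∧ q ∈ insert 2 (S1.erase x) := by
      intro q hq
      induction hq with
      | refl => exact ⟨Relation.ReflTransGen.refl, hp⟩
      | @tail b c _ h4 ih =>
        obtain ⟨⟨s, hs⟩, hc⟩ := h4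
        have hcS : c ∈ insert 2 (S1.erase x) := (hO c).2 ⟨h1.mem2 hs, hc⟩
        have hT := m1 _ _ _ hs (nr1 _ _ _ ((hO b).1 ih.2).2)
        exact ⟨ih.1.tail ⟨⟨_, hT⟩, hcS⟩, hcS⟩
    exact (key q path).1
  · -- cross
    intro p q s h hp
    obtain ⟨a, b, -, hb, -, rfl⟩ := hT2 _ _ _ h (Or.inl hp)
    exact hnO b hb
  · intro p q s h hq
    obtain ⟨a, b, ha, -, rfl, -⟩ := hT2 _ _ _ h (Or.inr hq)
    exact hnO a ha
  · -- adjO
    have t1 := h1.rot2 hx
    have t2 := h1.rot _ _ _ hx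
    obtain ⟨y, hy⟩ := h1.opp _ _ _ t2
    have hy1 : y ≠ 1 := by
      rintro rfl
      exact h1.not_both c1 t1 hy
    have hy0 := h1.ne23 hy
    have hyx := h1.ne31 hy
    have hyO : y ∈ insert 2 (S1.erase x) := (hO y).2 ⟨h1.mem3 hy, by
      simp only [mem_insert, mem_singleton]
      omega⟩
    exact ⟨y, hyO, 0, m1 _ _ _ (h1.rot2 hy) (nr1 _ _ _ ((hO y).1 hyO).2)⟩
  · -- adjS
    have t1 := h2.rot2 r2
    obtain ⟨w, hw⟩ := h2.opp _ _ _ t1
    have hw1 : w ≠ 1 := by
      rintro rfl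
      exact h2.not_both c2 r2 hw
    have hw2 := h2.ne23 hw
    have hw0 := h2.ne31 hw
    have hwS : w ∈ S2 := (hS2 w).2 ⟨h2.mem3 hw, by
      simp only [mem_insert, mem_singleton]
      omega⟩
    obtain ⟨s, hs⟩ := h2.opp _ _ _ (h2.rot _ _ _ hw)
    have hT := m2 _ _ _ hs (by rw [hren w hwS]; exact nr2 _ _ _ hwS)
    rw [hren w hwS] at hT
    have hr2 : ren x 2 = x := by simp [ren]
    rw [hr2] at hT
    exact ⟨w, hwS, _, hT⟩
  · -- face
    obtain ⟨w, hw⟩ := h2.opp _ _ _ r2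
    have hw2 : w ≠ 2 := by
      rintro rfl
      exact h2.not_both c2 r2 (h2.rot _ _ _ hw)
    have hw1 := h2.ne31 hw
    have hw0 := h2.ne23 hw
    have hwS : w ∈ S2 := (hS2 w).2 ⟨h2.mem3 hw, by
      simp only [mem_insert, mem_singleton]
      omega⟩
    have e0 : ren x 0 = 0 := by simp [ren]
    have e1 : ren x 1 = 1 := by simp [ren]
    have hT := m2 _ _ _ hw (by
      rw [hren w hwS, e0, e1]
      intro h
      rcases mem_rots.mp h with h | h | h <;> simp only [Prod.mk.injEq] at h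
      · omega
      · omega
      · omega)
    rw [hren w hwS, e0, e1] at hT
    exact ⟨w, hwS, hT⟩
  · -- eq1
    ext ⟨a, b, c⟩
    rw [mem_union, mem_filter]
    constructor
    · intro h
      by_cases hr : (a, b, c) ∈ rots 1 0 x
      · exact Or.inr hr
      · exact Or.inl ⟨m1 _ _ _ h hr, hF1S2 _ (h1.mem _ _ _ h), hF1S2 _ (h1.mem2 h),
          hF1S2 _ (h1.mem3 h)⟩
    · rintro (⟨h, ha, hb, hc⟩ | h)
      · rcases mT _ _ _ h with ⟨h3, -⟩ | ⟨a', b', c', h3, rfl, rfl, rfl, h4⟩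
        · exact h3
        · exfalso
          simp only at ha hb hc
          have ha' : a' ∉ S2 := fun hh => ha (by rw [hren _ hh]; exact hh)
          have hb' : b' ∉ S2 := fun hh => hb (by rw [hren _ hh]; exact hh)
          have hc' : c' ∉ S2 := fun hh => hc (by rw [hren _ hh]; exact hh)
          have h5 := gin_base h2 c2 r2 h3 ha' hb' hc'
          apply h4
          have e0 : ren x 0 = 0 := by simp [ren]
          have e1 : ren x 1 = 1 := by simp [ren]
          have e2 : ren x 2 = x := by simp [ren]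
          rw [mem_rots] at h5 ⊢
          rcases h5 with h5 | h5 | h5 <;> simp only [Prod.mk.injEq] at h5 <;>
            obtain ⟨rfl, rfl, rfl⟩ := h5 <;> rw [e0, e1, e2] <;> simp
      · exact h1.rots_subset hx h
  · -- eq2
    ext ⟨a, b, c⟩
    rw [mem_union, mem_filter]
    constructor
    · intro h
      by_cases hr : (a, b, c) ∈ rots 0 1 x
      · exact Or.inr hr
      · left
        obtain ⟨a', b', c', h3, he⟩ := mem_relab.mp h
        simp only [Prod.mk.injEq] at he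
        obtain ⟨rfl, rfl, rfl⟩ := he
        refine ⟨m2 _ _ _ h3 hr, ?_⟩
        rintro ⟨ha, hb, hc⟩
        simp only at ha hb hc
        have ha' : a' ∉ S2 := fun hh => ha (by rw [hren _ hh]; exact hh)
        have hb' : b' ∉ S2 := fun hh => hb (by rw [hren _ hh]; exact hh)
        have hc' : c' ∉ S2 := fun hh => hc (by rw [hren _ hh]; exact hh)
        have h5 := gin_base h2 c2 r2 h3 ha' hb' hc'
        apply hr
        have e0 : ren x 0 = 0 := by simp [ren]
        have e1 : ren x 1 = 1 := by simp [ren]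
        have e2 : ren x 2 = x := by simp [ren]
        rw [mem_rots] at h5 ⊢
        rcases h5 with h5 | h5 | h5 <;> simp only [Prod.mk.injEq] at h5 <;>
          obtain ⟨rfl, rfl, rfl⟩ := h5 <;> rw [e0, e1, e2] <;> simp
    · rintro (⟨h, hS⟩ | h)
      · rcases mT _ _ _ h with ⟨h3, -⟩ | ⟨a', b', c', h3, rfl, rfl, rfl, h4⟩
        · exact absurd ⟨hF1S2 _ (h1.mem _ _ _ h3), hF1S2 _ (h1.mem2 h3), hF1S2 _ (h1.mem3 h3)⟩ hS
        · exact mem_relab.mpr ⟨_, _, _, h3, rfl⟩
      · have e0 : ren x 0 = 0 := by simp [ren]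
        have e1 : ren x 1 = 1 := by simp [ren]
        have e2 : ren x 2 = x := by simp [ren]
        rcases mem_rots.mp h with h | h | h <;> rw [h, mem_relab]
        · exact ⟨0, 1, 2, r2, by rw [e0, e1, e2]⟩
        · exact ⟨1, 2, 0, h2.rot _ _ _ r2, by rw [e0, e1, e2]⟩
        · exact ⟨2, 0, 1, h2.rot2 r2, by rw [e0, e1, e2]⟩

theorem gin_inj {S1 S2 S1' S2' : Finset ℕ} {x x' : ℕ} {F1 F2 F1' F2' T : Finset Tr}
    (g : GinFacts S1 S2 x F1 F2 T) (g' : GinFacts S1' S2' x' F1' F2' T)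
    (hU : S1 ∪ S2 = S1' ∪ S2') (hd : Disjoint S1 S2) (hd' : Disjoint S1' S2')
    (hc : S1.card = S1'.card) (h3 : ∀ i ∈ S1 ∪ S2, 3 ≤ i)
    (huniq : ∀ w w', (1, 0, w) ∈ T → (1, 0, w') ∈ T → w = w') :
    S1 = S1' ∧ S2 = S2' ∧ x = x' := by
  have hx'U : x' ∈ S1 ∪ S2 := by rw [hU]; exact mem_union_left _ g'.xmem
  have h2S1 : (2 : ℕ) ∉ S1 := fun h => by
    have := h3 2 (mem_union_left _ h)
    omega
  have h2S1' : (2 : ℕ) ∉ S1' := fun h => by
    have := h3 2 (by rw [hU]; exact mem_union_left _ h)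
    omega
  rcases mem_union.mp hx'U with hxA | hxA
  · -- `x' ∈ S1`
    obtain ⟨w, hw, hwT⟩ := g.face
    obtain ⟨w', hw', hwT'⟩ := g'.face
    obtain rfl := huniq _ _ hwT hwT'
    have hsub : S2 ⊆ S2' := by
      intro q hq
      have hp := g.connS w hw q hq
      clear hq
      induction hp with
      | refl => exact hw'
      | @tail b c _ h4 ih =>
        obtain ⟨⟨s, hs⟩, hcS⟩ := h4
        have hcU : c ∈ S1' ∪ S2' := by rw [← hU]; exact mem_union_right _ hcS
        rcases mem_union.mp hcU with h5 | h5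
        · exfalso
          refine g'.cross _ _ _ hs ih (mem_insert_of_mem (mem_erase.mpr ⟨?_, h5⟩))
          rintro rfl
          exact (disjoint_left.mp hd) hxA hcS
        · exact h5
    have hcard : S2.card = S2'.card := by
      have h5 := card_union_of_disjoint hd
      have h6 := card_union_of_disjoint hd'
      rw [hU] at h5
      omega
    have e2 : S2 = S2' := eq_of_subset_of_card_le hsub hcard.ge
    have e1 : S1 = S1' := by
      have h5 : S1 = (S1 ∪ S2) \ S2 := by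
        rw [union_sdiff_right, sdiff_eq_self_of_disjoint hd]
      have h6 : S1' = (S1' ∪ S2') \ S2' := by
        rw [union_sdiff_right, sdiff_eq_self_of_disjoint hd']
      rw [h5, h6, hU, e2]
    refine ⟨e1, e2, ?_⟩
    obtain ⟨w, hw, s, hs⟩ := g.adjS
    have h5 := g'.cross _ _ _ hs (e2 ▸ hw)
    by_contra hne
    exact h5 (mem_insert_of_mem (mem_erase.mpr ⟨hne, e1 ▸ g.xmem⟩))
  · -- `x' ∈ S2`
    exfalso
    have hsub : insert 2 (S1.erase x) ⊆ insert 2 (S1'.erase x') := by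
      intro q hq
      have hp := g.connO 2 (mem_insert_self _ _) q hq
      clear hq
      induction hp with
      | refl => exact mem_insert_self _ _
      | @tail b c _ h4 ih =>
        obtain ⟨⟨s, hs⟩, hcO⟩ := h4
        rcases mem_insert.mp hcO with h5 | h5
        · rw [h5]
          exact mem_insert_self _ _
        · have h6 := mem_of_mem_erase h5
          have hcU : c ∈ S1' ∪ S2' := by rw [← hU]; exact mem_union_left _ h6
          rcases mem_union.mp hcU with h7 | h7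
          · refine mem_insert_of_mem (mem_erase.mpr ⟨?_, h7⟩)
            rintro rfl
            exact (disjoint_left.mp hd) h6 hxA
          · exact absurd ih (g'.cross' _ _ _ hs h7)
    have hcard : (insert 2 (S1'.erase x')).card ≤ (insert 2 (S1.erase x)).card := by
      rw [card_insert_of_notMem (fun h => h2S1' (mem_of_mem_erase h)),
        card_insert_of_notMem (fun h => h2S1 (mem_of_mem_erase h)), card_erase_of_mem g'.xmem,
        card_erase_of_mem g.xmem, hc]
    have e := eq_of_subset_of_card_le hsub hcard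
    obtain ⟨y, hy, s, hs⟩ := g.adjO
    have hxU : x ∈ S1' ∪ S2' := by rw [← hU]; exact mem_union_left _ g.xmem
    rcases mem_union.mp hxU with h7 | h7
    · have h8 : x ∉ insert 2 (S1.erase x) := by
        rw [mem_insert, mem_erase]
        rintro (h9 | h9)
        · exact h2S1 (h9 ▸ g.xmem)
        · exact h9.1 rfl
      rw [e] at h8
      have h9 : x = x' := by
        by_contra hne
        exact h8 (mem_insert_of_mem (mem_erase.mpr ⟨hne, h7⟩))
      exact (disjoint_left.mp hd) g.xmem (h9 ▸ hxA)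
    · exact g'.cross' _ _ _ hs h7 (e ▸ hy)

/-- the inverse renaming -/
private def ginInv (x i : ℕ) : ℕ := if i = x then 2 else i

theorem gin_ren_inj {S : Finset ℕ} {x : ℕ} {F F' : Finset Tr} (h : IsTri ({0, 1, 2} ∪ S) F)
    (h' : IsTri ({0, 1, 2} ∪ S) F') (hx : x ∉ S) (hx3 : 3 ≤ x)
    (he : relab (ren x) F = relab (ren x) F') : F = F' := by
  have hinv : ∀ v ∈ ({0, 1, 2} ∪ S : Finset ℕ), (ginInv x ∘ ren x) v = v := by
    intro v hv
    show ginInv x (ren x v) = v
    unfold ginInv ren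
    simp only [mem_union, mem_insert, mem_singleton] at hv
    by_cases h2 : v = 2
    · rw [if_pos h2, if_pos rfl, h2]
    · rw [if_neg h2, if_neg]
      rintro rfl
      rcases hv with hv | hv
      · omega
      · exact hx hv
  rw [← h.relab_eq_self hinv, ← h'.relab_eq_self hinv, ← relab_relab, ← relab_relab, he]

open Classical in
/-- the inner face at the edge `(1, 0)` -/
noncomputable def ginX (F : Finset Tr) : ℕ := if h : ∃ x, (1, 0, x) ∈ F then h.choose else 0

theorem ginX_spec {V : Finset ℕ} {F : Finset Tr} (h : IsTri V F) (r : (0, 1, 2) ∈ F) :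
    (1, 0, ginX F) ∈ F := by
  have h1 : ∃ x, (1, 0, x) ∈ F := h.opp _ _ _ r
  unfold ginX
  rw [dif_pos h1]
  exact h1.choose_spec

theorem gin_card {S : Finset ℕ} (h : ∀ i ∈ S, 3 ≤ i) :
    ({0, 1, 2} ∪ S : Finset ℕ).card = S.card + 3 := by
  rw [card_union_of_disjoint]
  · rw [add_comm]; rfl
  · rw [disjoint_left]
    intro a ha hS
    have := h a hS
    simp only [mem_insert, mem_singleton] at ha
    omega

theorem supermult {i j : ℕ} (hi : 1 ≤ i) (hj : 1 ≤ j) :
    (i + j).choose i * (cc (i + 3) * cc (j + 3)) ≤ cc (i + j + 3) := by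
  classical
  set I : Finset ℕ := Ico 3 (i + j + 3) with hI
  have hIc : I.card = i + j := by rw [hI, Nat.card_Ico]; omega
  have hI3 : ∀ a ∈ I, 3 ≤ a := fun a ha => (mem_Ico.mp ha).1
  -- facts on the subsets
  have hS : ∀ S ∈ powersetCard i I, S ⊆ I ∧ S.card = i ∧ (I \ S).card = j ∧
      (∀ a ∈ S, 3 ≤ a) ∧ (∀ a ∈ I \ S, 3 ≤ a) := by
    intro S hS
    obtain ⟨h1, h2⟩ := mem_powersetCard.mp hS
    refine ⟨h1, h2, ?_, fun a ha => hI3 a (h1 ha), fun a ha => hI3 a (mem_sdiff.mp ha).1⟩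
    rw [card_sdiff_of_subset h1, hIc, h2]
    omega
  let P : Finset (Σ _ : Finset ℕ, Finset Tr × Finset Tr) :=
    (powersetCard i I).sigma fun S => TriOn ({0, 1, 2} ∪ S) ×ˢ TriOn ({0, 1, 2} ∪ (I \ S))
  have hP : P.card = (i + j).choose i * (cc (i + 3) * cc (j + 3)) := by
    show ((powersetCard i I).sigma _).card = _
    rw [card_sigma, ← hIc, ← card_powersetCard, ← smul_eq_mul, ← sum_const]
    refine sum_congr rfl fun S hS' => ?_
    obtain ⟨h1, h2, h3, h4, h5⟩ := hS S hS'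
    rw [card_product, card_TriOn subset_union_left, card_TriOn subset_union_left, gin_card h4,
      gin_card h5, h2, h3]
  let Φ : (Σ _ : Finset ℕ, Finset Tr × Finset Tr) → Finset Tr :=
    fun t => glue t.2.1 t.2.2 (ginX t.2.1)
  -- the data of a triple
  have hdat : ∀ t ∈ P, t.1 ∈ powersetCard i I ∧ IsTri ({0, 1, 2} ∪ t.1) t.2.1 ∧
      (0, 1, 2) ∈ t.2.1 ∧ IsTri ({0, 1, 2} ∪ (I \ t.1)) t.2.2 ∧ (0, 1, 2) ∈ t.2.2 := by
    rintro ⟨S, F1, F2⟩ ht
    obtain ⟨h1, h2⟩ := mem_sigma.mp ht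
    obtain ⟨h3, h4⟩ := mem_product.mp h2
    obtain ⟨h5, h6⟩ := mem_TriOn.mp h3
    obtain ⟨h7, h8⟩ := mem_TriOn.mp h4
    exact ⟨h1, h5, h6, h7, h8⟩
  have hmaps : ∀ t ∈ P, Φ t ∈ Tri (i + j + 3) := by
    intro t ht
    obtain ⟨h1, h2, h3, h4, h5⟩ := hdat t ht
    obtain ⟨s1, s2, s3, s4, s5⟩ := hS _ h1
    have hx := ginX_spec h2 h3
    have c1 : 4 ≤ ({0, 1, 2} ∪ t.1 : Finset ℕ).card := by rw [gin_card s4]; omega
    have c2 : 4 ≤ ({0, 1, 2} ∪ (I \ t.1) : Finset ℕ).card := by rw [gin_card s5]; omega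
    have hV : ({0, 1, 2} ∪ t.1) ∩ ({0, 1, 2} ∪ (I \ t.1)) = ({0, 1, 2} : Finset ℕ) := by
      rw [← union_inter_distrib_left, inter_sdiff_self, union_empty]
    have hT := h2.glue h4 c1 c2 h3 h5 hx hV
    have hU : ({0, 1, 2} ∪ t.1) ∪ ({0, 1, 2} ∪ (I \ t.1)) = range (i + j + 3) := by
      rw [← union_union_distrib_left, union_sdiff_of_subset s1]
      ext a
      simp only [mem_union, mem_insert, mem_singleton, mem_range, hI, mem_Ico]
      omega
    rw [hU] at hT
    refine mem_Tri.mpr ⟨hT, ?_⟩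
    show (0, 1, 2) ∈ glue t.2.1 t.2.2 (ginX t.2.1)
    unfold glue
    refine mem_union_left _ (mem_sdiff.mpr ⟨h3, fun h => ?_⟩)
    rcases mem_rots.mp h with h | h | h <;> simp only [Prod.mk.injEq] at h <;> omega
  have hinj : Set.InjOn Φ P := by
    intro t ht t' ht' hΦ
    have ht := mem_coe.mp ht
    have ht' := mem_coe.mp ht'
    obtain ⟨h1, h2, h3, h4, h5⟩ := hdat t ht
    obtain ⟨s1, s2, s3, s4, s5⟩ := hS _ h1
    obtain ⟨h1', h2', h3', h4', h5'⟩ := hdat t' ht'
    obtain ⟨s1', s2', s3', s4', s5'⟩ := hS _ h1'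
    have hx := ginX_spec h2 h3
    have hx' := ginX_spec h2' h3'
    have c1 : 4 ≤ ({0, 1, 2} ∪ t.1 : Finset ℕ).card := by rw [gin_card s4]; omega
    have c2 : 4 ≤ ({0, 1, 2} ∪ (I \ t.1) : Finset ℕ).card := by rw [gin_card s5]; omega
    have c1' : 4 ≤ ({0, 1, 2} ∪ t'.1 : Finset ℕ).card := by rw [gin_card s4']; omega
    have c2' : 4 ≤ ({0, 1, 2} ∪ (I \ t'.1) : Finset ℕ).card := by rw [gin_card s5']; omega
    have g := gin_facts h2 h4 c1 c2 h3 h5 hx disjoint_sdiff s4 s5
    have g' := gin_facts h2' h4' c1' c2' h3' h5' hx' disjoint_sdiff s4' s5'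
    have hT : IsTri (range (i + j + 3)) (Φ t) := (mem_Tri.mp (hmaps t ht)).1
    have hgl : glue t'.2.1 t'.2.2 (ginX t'.2.1) = glue t.2.1 t.2.2 (ginX t.2.1) := hΦ.symm
    rw [hgl] at g'
    obtain ⟨e1, e2, e3⟩ := gin_inj g g'
      (by rw [union_sdiff_of_subset s1, union_sdiff_of_subset s1'])
      disjoint_sdiff disjoint_sdiff (s2.trans s2'.symm)
      (by rw [union_sdiff_of_subset s1]; exact hI3)
      (fun w w' hw hw' => hT.uniq _ _ _ _ hw hw')
    obtain ⟨S, F1, F2⟩ := t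
    obtain ⟨S', F1', F2'⟩ := t'
    simp only at e1 e2 e3 g g' h4 h4'
    subst e1
    have eF1 : F1 = F1' := by
      rw [g.eq1, g'.eq1, e3]
    have eF2 : F2 = F2' := by
      have hxm := g.xmem
      refine gin_ren_inj (x := ginX F1) h4 h4' (fun h => (mem_sdiff.mp h).2 hxm) (s4 _ hxm) ?_
      calc relab (ren (ginX F1)) F2 = _ := g.eq2
        _ = relab (ren (ginX F1')) F2' := by rw [g'.eq2, e3]
        _ = relab (ren (ginX F1)) F2' := by rw [e3]
    rw [eF1, eF2]
  rw [← hP]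
  exact card_le_card_of_injOn Φ hmaps hinj

/-- the triangulation with three vertices -/
private def ginT : Finset Tr := rots 0 1 2 ∪ rots 1 0 2

private theorem gin_mem {a b c : ℕ} : (a, b, c) ∈ ginT ↔
    a < 3 ∧ b < 3 ∧ c < 3 ∧ a ≠ b ∧ b ≠ c ∧ c ≠ a := by
  unfold ginT
  rw [mem_union, mem_rots, mem_rots]
  simp only [Prod.mk.injEq]
  omega

private theorem gin_tri : IsTri (range 3) ginT where
  mem a b c h := by
    rw [gin_mem] at h
    rw [mem_range]
    omega
  rot a b c h := by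
    rw [gin_mem] at h ⊢
    omega
  ne a b c h := by
    rw [gin_mem] at h
    omega
  uniq a b c d h h' := by
    rw [gin_mem] at h h'
    omega
  opp a b c h := by
    refine ⟨c, ?_⟩
    rw [gin_mem] at h ⊢
    omega
  link v a a' b b' h h' := by
    by_cases hab : a = b
    · rw [hab]
    · refine Relation.ReflTransGen.single ?_
      rw [gin_mem] at h h' ⊢
      exact ⟨h.1, h.2.1, h'.2.1, h.2.2.2.1, hab, h'.2.2.2.1.symm⟩
  conn a ha b hb := by
    by_cases hab : a = b
    · rw [hab]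
    · refine Relation.ReflTransGen.single ⟨3 - a - b, ?_⟩
      rw [mem_range] at ha hb
      rw [gin_mem]
      omega
  euler := by decide

theorem cc_three : cc 3 = 1 := by
  unfold cc
  rw [card_eq_one]
  refine ⟨ginT, ?_⟩
  ext F
  rw [mem_singleton, mem_Tri]
  constructor
  · rintro ⟨h, h0⟩
    have h1 := h.rot _ _ _ h0
    have h2 := h.rot2 h0
    have h3 : (1, 0, 2) ∈ F := by
      obtain ⟨d, hd⟩ := h.opp _ _ _ h0
      have e1 := h.ne23 hd
      have e2 := h.ne31 hd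
      have e3 := h.mem3 hd
      rw [mem_range] at e3
      have : d = 2 := by omega
      rwa [this] at hd
    have hsub : ginT ⊆ F := by
      unfold ginT
      exact union_subset (h.rots_subset h0) (h.rots_subset h3)
    have hc : F.card = 6 := by
      have := h.euler
      rw [card_range] at this
      omega
    have hc' : ginT.card = 6 := by decide
    exact (eq_of_subset_of_card_le hsub (by rw [hc, hc'])).symm
  · rintro rfl
    exact ⟨gin_tri, by decide⟩

theorem cc_pos {n : ℕ} (hn : 3 ≤ n) : 0 < cc n := by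
  induction n, hn using Nat.le_induction with
  | base => rw [cc_three]; exact Nat.one_pos
  | succ n hn ih =>
    unfold cc at ih ⊢
    obtain ⟨F, hF⟩ := card_pos.mp ih
    obtain ⟨h, h0⟩ := mem_Tri.mp hF
    obtain ⟨x, hx⟩ := h.opp _ _ _ h0
    rw [card_pos]
    refine ⟨ins F n 1 0 x, mem_Tri.mpr ⟨?_, root_mem_ins h0 fun hh => ?_⟩⟩
    · rw [range_add_one]
      exact h.ins notMem_range_self hx
    · rcases mem_rots.mp hh with hh | hh | hh <;> simp only [Prod.mk.injEq] at hh <;> omega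

end Pool.Agent.CPL
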