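import Pool.Agent.CPL.REL

set_option autoImplicit false

/-!
# Gluing a triangulation into the inner face at the root edge

`F1` has the faces `(0, 1, 2)` (root) and `(1, 0, x)`. In `F2` the vertex `2` is renamed `x` (root face `(0, 1, x)`). `glue` removes the face
`(1, 0, x)` of `F1` and the root face of the renamed `F2`. `uniq`, `opp`: the common vertices are `0, 1, x`; `F1` keeps the darts
`(0,1), (1,x), (x,0)`, and `F2` keeps `(1,0), (x,1), (0,x)`; a dart between two vertices of `{0,1,x}` is one of these six. `link` at `0`: in `F1` a step `x → 1` was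
removed, in `F2` a step `1 → x`. From `x` to `1` there is a path in the link of `F2` (`head_induction_on`: a path to `1` does
not use the step out of `1`), from `1` to `x` one in `F1`. So any path in the link of `F1` can be rewritten (the removed step is replaced by
a path in `F2`), and the same for `F2`; both links contain `x` and `1`. The same at `1` and `x`. Other vertices: unchanged.
`conn`: through `0`. `euler`: `|F1| - 3 + |F2| - 3`.
-/

namespace Pool.Agent.CPL

open Finset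

variable {V1 V2 : Finset ℕ} {F1 F2 : Finset Tr} {x : ℕ}

/-- the vertex `2` is renamed `x` -/
def ren (x i : ℕ) : ℕ := if i = 2 then x else i

/-- gluing -/
def glue (F1 F2 : Finset Tr) (x : ℕ) : Finset Tr :=
  (F1 \ rots 1 0 x) ∪ (relab (ren x) F2 \ rots 0 1 x)

theorem glu_mono {r s : ℕ → ℕ → Prop} (hrs : ∀ x y, r x y → s x y) {p q : ℕ}
    (h : Relation.ReflTransGen r p q) : Relation.ReflTransGen s p q := by
  induction h with
  | refl => exact Relation.ReflTransGen.refl
  | tail _ hs ih => exact ih.tail (hrs _ _ hs)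

/-- a dart of a removed face is not a dart of the rest -/
theorem glu_no_dart (h1 : IsTri V1 F1) {a b c p q r : ℕ} (h : (a, b, c) ∈ F1)
    (hp : (p, q, r) ∈ F1 \ rots a b c) :
    ¬ ((p = a ∧ q = b) ∨ (p = b ∧ q = c) ∨ (p = c ∧ q = a)) := by
  rw [mem_sdiff] at hp
  obtain ⟨hp, hn⟩ := hp
  rintro (⟨rfl, rfl⟩ | ⟨rfl, rfl⟩ | ⟨rfl, rfl⟩)
  · exact hn (mem_rots.2 (Or.inl (by rw [h1.uniq _ _ _ _ hp h])))
  · exact hn (mem_rots.2 (Or.inr (Or.inl (by rw [h1.uniq _ _ _ _ hp (h1.rot _ _ _ h)]))))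
  · exact hn (mem_rots.2 (Or.inr (Or.inr (by rw [h1.uniq _ _ _ _ hp (h1.rot2 h)]))))

theorem glu_rot (h1 : IsTri V1 F1) {a b c p q r : ℕ}
    (hp : (p, q, r) ∈ F1 \ rots a b c) : (q, r, p) ∈ F1 \ rots a b c := by
  rw [mem_sdiff] at hp ⊢
  refine ⟨h1.rot _ _ _ hp.1, fun h => hp.2 ?_⟩
  rw [mem_rots] at h ⊢
  simp only [Prod.mk.injEq] at h ⊢
  omega

/-- a face of `F` on a given dart which is opposite to a dart of the face `(a, b, c)` is not a
rotation of `(a, b, c)` -/
theorem glu_opp (h1 : IsTri V1 F1) {a b c p q : ℕ} (h : (a, b, c) ∈ F1)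
    (hpq : (p = b ∧ q = a) ∨ (p = c ∧ q = b) ∨ (p = a ∧ q = c)) :
    ∃ d, (p, q, d) ∈ F1 \ rots a b c := by
  have n1 := h1.ne12 h
  have n2 := h1.ne23 h
  have n3 := h1.ne31 h
  have hex : ∃ d, (p, q, d) ∈ F1 := by
    rcases hpq with ⟨rfl, rfl⟩ | ⟨rfl, rfl⟩ | ⟨rfl, rfl⟩
    · exact h1.opp _ _ _ h
    · exact h1.opp _ _ _ (h1.rot _ _ _ h)
    · exact h1.opp _ _ _ (h1.rot2 h)
  obtain ⟨d, hd⟩ := hex
  refine ⟨d, mem_sdiff.2 ⟨hd, fun hr => ?_⟩⟩
  rw [mem_rots] at hr
  simp only [Prod.mk.injEq] at hr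
  omega

/-- the faces of `F` are faces of the rest or have one of three darts -/
theorem glu_cases {a b c p q r : ℕ} (hp : (p, q, r) ∈ F1) :
    (p, q, r) ∈ F1 \ rots a b c ∨
      ((p = a ∧ q = b) ∨ (p = b ∧ q = c) ∨ (p = c ∧ q = a)) := by
  by_cases h : (p, q, r) ∈ rots a b c
  · right
    rw [mem_rots] at h
    simp only [Prod.mk.injEq] at h
    omega
  · left
    exact mem_sdiff.2 ⟨hp, h⟩

/-- the link at the common vertex `a` -/
theorem glu_link (h1 : IsTri V1 F1) (h2 : IsTri V2 F2) {a b c : ℕ}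
    (hf1 : (b, a, c) ∈ F1) (hf2 : (a, b, c) ∈ F2) {p p' q q' : ℕ}
    (hp : (a, p, p') ∈ (F1 \ rots b a c) ∪ (F2 \ rots a b c))
    (hq : (a, q, q') ∈ (F1 \ rots b a c) ∪ (F2 \ rots a b c)) :
    Relation.ReflTransGen (fun x y => (a, x, y) ∈ (F1 \ rots b a c) ∪ (F2 \ rots a b c)) p q := by
  have n1 := h2.ne12 hf2
  have n2 := h2.ne23 hf2
  have n3 := h2.ne31 hf2
  -- faces at a
  have k1 : (a, c, b) ∈ F1 := h1.rot _ _ _ hf1
  obtain ⟨e1, he1⟩ := h1.next k1
  obtain ⟨e2, he2⟩ := h2.next hf2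
  -- steps which are not removed
  have s1 : ∀ x y, (a, x, y) ∈ F1 → x ≠ c →
      (a, x, y) ∈ (F1 \ rots b a c) ∪ (F2 \ rots a b c) := by
    intro x y hxy hx
    refine mem_union_left _ (mem_sdiff.2 ⟨hxy, fun hr => ?_⟩)
    rw [mem_rots] at hr
    simp only [Prod.mk.injEq] at hr
    omega
  have s2 : ∀ x y, (a, x, y) ∈ F2 → x ≠ b →
      (a, x, y) ∈ (F1 \ rots b a c) ∪ (F2 \ rots a b c) := by
    intro x y hxy hx
    refine mem_union_right _ (mem_sdiff.2 ⟨hxy, fun hr => ?_⟩)
    rw [mem_rots] at hr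
    simp only [Prod.mk.injEq] at hr
    omega
  -- from c to b through F2
  have A : Relation.ReflTransGen
      (fun x y => (a, x, y) ∈ (F1 \ rots b a c) ∪ (F2 \ rots a b c)) c b := by
    have h := h2.link a c e2 b c he2 hf2
    refine Relation.ReflTransGen.head_induction_on (motive := fun y _ => Relation.ReflTransGen
      (fun x y => (a, x, y) ∈ (F1 \ rots b a c) ∪ (F2 \ rots a b c)) y b) h
      Relation.ReflTransGen.refl ?_
    intro y z hyz _ ih
    by_cases hy : y = b
    · rw [hy]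
    · exact Relation.ReflTransGen.head (s2 y z hyz hy) ih
  -- from b to c through F1
  have B : Relation.ReflTransGen
      (fun x y => (a, x, y) ∈ (F1 \ rots b a c) ∪ (F2 \ rots a b c)) b c := by
    have h := h1.link a b e1 c b he1 k1
    refine Relation.ReflTransGen.head_induction_on (motive := fun y _ => Relation.ReflTransGen
      (fun x y => (a, x, y) ∈ (F1 \ rots b a c) ∪ (F2 \ rots a b c)) y c) h
      Relation.ReflTransGen.refl ?_
    intro y z hyz _ ih
    by_cases hy : y = c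
    · rw [hy]
    · exact Relation.ReflTransGen.head (s1 y z hyz hy) ih
  -- paths of F1 and F2
  have C1 : ∀ x y, Relation.ReflTransGen (fun x y => (a, x, y) ∈ F1) x y →
      Relation.ReflTransGen
      (fun x y => (a, x, y) ∈ (F1 \ rots b a c) ∪ (F2 \ rots a b c)) x y := by
    intro x y hxy
    induction hxy with
    | refl => exact Relation.ReflTransGen.refl
    | tail _ hs ih =>
      rename_i y z _
      by_cases hy : y = c
      · subst hy
        have : z = b := h1.uniq _ _ _ _ hs k1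
        subst this
        exact ih.trans A
      · exact ih.tail (s1 _ _ hs hy)
  have C2 : ∀ x y, Relation.ReflTransGen (fun x y => (a, x, y) ∈ F2) x y →
      Relation.ReflTransGen
      (fun x y => (a, x, y) ∈ (F1 \ rots b a c) ∪ (F2 \ rots a b c)) x y := by
    intro x y hxy
    induction hxy with
    | refl => exact Relation.ReflTransGen.refl
    | tail _ hs ih =>
      rename_i y z _
      by_cases hy : y = b
      · subst hy
        have : z = c := h2.uniq _ _ _ _ hs hf2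
        subst this
        exact ih.trans B
      · exact ih.tail (s2 _ _ hs hy)
  have P : Relation.ReflTransGen
      (fun x y => (a, x, y) ∈ (F1 \ rots b a c) ∪ (F2 \ rots a b c)) p b := by
    rcases mem_union.1 hp with h | h
    · exact C1 _ _ (h1.link a p p' b e1 (mem_sdiff.1 h).1 he1)
    · exact C2 _ _ (h2.link a p p' b c (mem_sdiff.1 h).1 hf2)
  have Q : Relation.ReflTransGen
      (fun x y => (a, x, y) ∈ (F1 \ rots b a c) ∪ (F2 \ rots a b c)) b q := by
    rcases mem_union.1 hq with h | h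
    · exact C1 _ _ (h1.link a b e1 q q' he1 (mem_sdiff.1 h).1)
    · exact C2 _ _ (h2.link a b c q q' hf2 (mem_sdiff.1 h).1)
  exact P.trans Q

/-- general gluing -/
theorem glu_general (h1 : IsTri V1 F1) (h2 : IsTri V2 F2) {a b c : ℕ}
    (hf1 : (b, a, c) ∈ F1) (hf2 : (a, b, c) ∈ F2) (hV : V1 ∩ V2 = {a, b, c}) :
    IsTri (V1 ∪ V2) ((F1 \ rots b a c) ∪ (F2 \ rots a b c)) := by
  have n1 := h2.ne12 hf2
  have n2 := h2.ne23 hf2
  have n3 := h2.ne31 hf2
  have hr1 : rots b a c = rots a c b := (rots_rot b a c).symm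
  have hr1' : rots b a c = rots c b a := by rw [hr1, ← rots_rot a c b]
  have hr2 : rots a b c = rots b c a := (rots_rot a b c).symm
  have hr2' : rots a b c = rots c a b := by rw [hr2, ← rots_rot b c a]
  have hmem : ∀ v, v ∈ V1 → v ∈ V2 → v = a ∨ v = b ∨ v = c := by
    intro v hv1 hv2
    have : v ∈ V1 ∩ V2 := mem_inter.2 ⟨hv1, hv2⟩
    rw [hV] at this
    simpa using this
  -- no common dart
  have hdart : ∀ p q r s, (p, q, r) ∈ F1 \ rots b a c → (p, q, s) ∈ F2 \ rots a b c → False := by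
    intro p q r s hr hs
    have e1 := glu_no_dart h1 hf1 hr
    have e2 := glu_no_dart h2 hf2 hs
    have hr' := (mem_sdiff.1 hr).1
    have hs' := (mem_sdiff.1 hs).1
    have hp := hmem p (h1.mem _ _ _ hr') (h2.mem _ _ _ hs')
    have hq := hmem q (h1.mem2 hr') (h2.mem2 hs')
    have hpq := h1.ne12 hr'
    rcases hp with rfl | rfl | rfl <;> rcases hq with rfl | rfl | rfl <;> tauto
  have hadj1 : ∀ p q r, (p, q, r) ∈ F1 →
      ∃ d, (p, q, d) ∈ (F1 \ rots b a c) ∪ (F2 \ rots a b c) := by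
    intro p q r h
    rcases glu_cases (a := b) (b := a) (c := c) h with h | h
    · exact ⟨r, mem_union_left _ h⟩
    · obtain ⟨d, hd⟩ := glu_opp h2 hf2 (p := p) (q := q) (by tauto)
      exact ⟨d, mem_union_right _ hd⟩
  have hadj2 : ∀ p q r, (p, q, r) ∈ F2 →
      ∃ d, (p, q, d) ∈ (F1 \ rots b a c) ∪ (F2 \ rots a b c) := by
    intro p q r h
    rcases glu_cases (a := a) (b := b) (c := c) h with h | h
    · exact ⟨r, mem_union_right _ h⟩
    · obtain ⟨d, hd⟩ := glu_opp h1 hf1 (p := p) (q := q) (by tauto)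
      exact ⟨d, mem_union_left _ hd⟩
  have haV1 : a ∈ V1 := h1.mem2 hf1
  have haV2 : a ∈ V2 := h2.mem _ _ _ hf2
  refine ⟨?_, ?_, ?_, ?_, ?_, ?_, ?_, ?_⟩
  · -- mem
    intro p q r h
    rcases mem_union.1 h with h | h
    · exact mem_union_left _ (h1.mem _ _ _ (mem_sdiff.1 h).1)
    · exact mem_union_right _ (h2.mem _ _ _ (mem_sdiff.1 h).1)
  · -- rot
    intro p q r h
    rcases mem_union.1 h with h | h
    · exact mem_union_left _ (glu_rot h1 h)
    · exact mem_union_right _ (glu_rot h2 h)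
  · -- ne
    intro p q r h
    rcases mem_union.1 h with h | h
    · exact h1.ne _ _ _ (mem_sdiff.1 h).1
    · exact h2.ne _ _ _ (mem_sdiff.1 h).1
  · -- uniq
    intro p q r s hr hs
    rcases mem_union.1 hr with hr | hr <;> rcases mem_union.1 hs with hs | hs
    · exact h1.uniq _ _ _ _ (mem_sdiff.1 hr).1 (mem_sdiff.1 hs).1
    · exact (hdart _ _ _ _ hr hs).elim
    · exact (hdart _ _ _ _ hs hr).elim
    · exact h2.uniq _ _ _ _ (mem_sdiff.1 hr).1 (mem_sdiff.1 hs).1
  · -- opp
    intro p q r h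
    rcases mem_union.1 h with h | h
    · obtain ⟨d, hd⟩ := h1.opp _ _ _ (mem_sdiff.1 h).1
      exact hadj1 _ _ _ hd
    · obtain ⟨d, hd⟩ := h2.opp _ _ _ (mem_sdiff.1 h).1
      exact hadj2 _ _ _ hd
  · -- link
    intro v p p' q q' hp hq
    by_cases hv : v = a ∨ v = b ∨ v = c
    · rcases hv with rfl | rfl | rfl
      · exact glu_link h1 h2 hf1 hf2 hp hq
      · rw [hr1', hr2] at hp hq ⊢
        exact glu_link h1 h2 (h1.rot2 hf1) (h2.rot _ _ _ hf2) hp hq
      · rw [hr1, hr2'] at hp hq ⊢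
        exact glu_link h1 h2 (h1.rot _ _ _ hf1) (h2.rot2 hf2) hp hq
    · rcases mem_union.1 hp with hp | hp <;> rcases mem_union.1 hq with hq | hq
      · have h := h1.link v p p' q q' (mem_sdiff.1 hp).1 (mem_sdiff.1 hq).1
        refine glu_mono ?_ h
        intro x y hxy
        refine mem_union_left _ (mem_sdiff.2 ⟨hxy, fun hr => hv ?_⟩)
        rw [mem_rots] at hr
        simp only [Prod.mk.injEq] at hr
        omega
      · exact (hv (hmem v (h1.mem _ _ _ (mem_sdiff.1 hp).1)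
          (h2.mem _ _ _ (mem_sdiff.1 hq).1))).elim
      · exact (hv (hmem v (h1.mem _ _ _ (mem_sdiff.1 hq).1)
          (h2.mem _ _ _ (mem_sdiff.1 hp).1))).elim
      · have h := h2.link v p p' q q' (mem_sdiff.1 hp).1 (mem_sdiff.1 hq).1
        refine glu_mono ?_ h
        intro x y hxy
        refine mem_union_right _ (mem_sdiff.2 ⟨hxy, fun hr => hv ?_⟩)
        rw [mem_rots] at hr
        simp only [Prod.mk.injEq] at hr
        omega
  · -- conn
    have key1 : ∀ p ∈ V1, ∀ q ∈ V1, Relation.ReflTransGen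
        (fun x y => ∃ d, (x, y, d) ∈ (F1 \ rots b a c) ∪ (F2 \ rots a b c)) p q := by
      intro p hp q hq
      refine glu_mono ?_ (h1.conn p hp q hq)
      rintro x y ⟨d, hd⟩
      exact hadj1 _ _ _ hd
    have key2 : ∀ p ∈ V2, ∀ q ∈ V2, Relation.ReflTransGen
        (fun x y => ∃ d, (x, y, d) ∈ (F1 \ rots b a c) ∪ (F2 \ rots a b c)) p q := by
      intro p hp q hq
      refine glu_mono ?_ (h2.conn p hp q hq)
      rintro x y ⟨d, hd⟩
      exact hadj2 _ _ _ hd
    intro p hp q hq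
    have k1 : Relation.ReflTransGen
        (fun x y => ∃ d, (x, y, d) ∈ (F1 \ rots b a c) ∪ (F2 \ rots a b c)) p a := by
      rcases mem_union.1 hp with hp | hp
      · exact key1 p hp a haV1
      · exact key2 p hp a haV2
    have k2 : Relation.ReflTransGen
        (fun x y => ∃ d, (x, y, d) ∈ (F1 \ rots b a c) ∪ (F2 \ rots a b c)) a q := by
      rcases mem_union.1 hq with hq | hq
      · exact key1 a haV1 q hq
      · exact key2 a haV2 q hq
    exact k1.trans k2
  · -- euler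
    have hd : Disjoint (F1 \ rots b a c) (F2 \ rots a b c) := by
      rw [Finset.disjoint_left]
      rintro ⟨p, q, r⟩ h h'
      exact hdart _ _ _ _ h h'
    rw [Finset.card_union_of_disjoint hd]
    have c1 := Finset.card_sdiff_add_card_eq_card (h1.rots_subset hf1)
    have c2 := Finset.card_sdiff_add_card_eq_card (h2.rots_subset hf2)
    rw [card_rots n1.symm (fun h => n3 h.symm) (fun h => n2 h.symm)] at c1
    rw [card_rots n1 n2 n3] at c2
    have c3 := Finset.card_union_add_card_inter V1 V2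
    have c4 : ({a, b, c} : Finset ℕ).card = 3 := Finset.card_eq_three.2 ⟨a, b, c, n1, fun h => n3 h.symm, n2, rfl⟩
    rw [hV, c4] at c3
    have e1 := h1.euler
    have e2 := h2.euler
    omega

theorem IsTri.glue (h1 : IsTri V1 F1) (h2 : IsTri V2 F2) (hV1 : 4 ≤ V1.card) (hV2 : 4 ≤ V2.card)
    (hr1 : (0, 1, 2) ∈ F1) (hr2 : (0, 1, 2) ∈ F2) (hx : (1, 0, x) ∈ F1)
    (hV : V1 ∩ V2 = {0, 1, 2}) : IsTri (V1 ∪ V2) (glue F1 F2 x) := by
  have hx0 : x ≠ 0 := fun h => h1.ne23 hx h.symm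
  have hx1 : x ≠ 1 := h1.ne31 hx
  have hx2 : x ≠ 2 := by
    rintro rfl
    exact h1.not_both hV1 hr1 (h1.rot _ _ _ hx)
  have hxV1 : x ∈ V1 := h1.mem3 hx
  have hxV2 : x ∉ V2 := by
    intro h
    have : x ∈ V1 ∩ V2 := mem_inter.2 ⟨hxV1, h⟩
    rw [hV] at this
    simp only [mem_insert, mem_singleton] at this
    omega
  have h2V1 : 2 ∈ V1 := h1.mem3 hr1
  have hinj : Set.InjOn (ren x) V2 := by
    intro p hp q hq hpq
    unfold ren at hpq
    split_ifs at hpq with e1 e2 e2
    · rw [e1, e2]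
    · exact absurd (hpq ▸ hq) hxV2
    · exact absurd (hpq ▸ hp) hxV2
    · exact hpq
  have h2' := h2.relab hinj
  have hf2 : (0, 1, x) ∈ Pool.Agent.CPL.relab (ren x) F2 :=
    (Pool.Agent.CPL.mem_relab).2 ⟨0, 1, 2, hr2, by simp [ren]⟩
  have h0 : (0 : ℕ) ∈ V1 ∧ (0 : ℕ) ∈ V2 := by
    have : (0 : ℕ) ∈ V1 ∩ V2 := by rw [hV]; simp
    exact mem_inter.1 this
  have h1' : (1 : ℕ) ∈ V1 ∧ (1 : ℕ) ∈ V2 := by
    have : (1 : ℕ) ∈ V1 ∩ V2 := by rw [hV]; simp
    exact mem_inter.1 this
  have h22 : (2 : ℕ) ∈ V1 ∧ (2 : ℕ) ∈ V2 := by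
    have : (2 : ℕ) ∈ V1 ∩ V2 := by rw [hV]; simp
    exact mem_inter.1 this
  have himg : ∀ v, v ∈ V2.image (ren x) ↔ (v ∈ V2 ∧ v ≠ 2) ∨ v = x := by
    intro v
    rw [mem_image]
    constructor
    · rintro ⟨w, hw, rfl⟩
      unfold ren
      split_ifs with e
      · right; rfl
      · left; exact ⟨hw, e⟩
    · rintro (⟨hv, hv2⟩ | rfl)
      · exact ⟨v, hv, by simp [ren, hv2]⟩
      · exact ⟨2, h22.2, by simp [ren]⟩
  have hV' : V1 ∩ V2.image (ren x) = {0, 1, x} := by
    ext v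
    rw [mem_inter, himg]
    simp only [mem_insert, mem_singleton]
    constructor
    · rintro ⟨hv1, ⟨hv2, hv3⟩ | rfl⟩
      · have : v ∈ V1 ∩ V2 := mem_inter.2 ⟨hv1, hv2⟩
        rw [hV] at this
        simp only [mem_insert, mem_singleton] at this
        omega
      · exact Or.inr (Or.inr rfl)
    · rintro (rfl | rfl | rfl)
      · exact ⟨h0.1, Or.inl ⟨h0.2, by omega⟩⟩
      · exact ⟨h1'.1, Or.inl ⟨h1'.2, by omega⟩⟩
      · exact ⟨hxV1, Or.inr rfl⟩
  have hU : V1 ∪ V2.image (ren x) = V1 ∪ V2 := by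
    ext v
    rw [mem_union, mem_union, himg]
    constructor
    · rintro (h | ⟨h, _⟩ | rfl)
      · exact Or.inl h
      · exact Or.inr h
      · exact Or.inl hxV1
    · rintro (h | h)
      · exact Or.inl h
      · by_cases hv : v = 2
        · subst hv; exact Or.inl h2V1
        · exact Or.inr (Or.inl ⟨h, hv⟩)
  have := glu_general h1 h2' hx hf2 hV'
  rw [hU] at this
  exact this

end Pool.Agent.CPL
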