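import Pool.Agent.CPL.Defs

set_option autoImplicit false

/-!
# Unitary matrices act on the sphere by rotations

`hopf p q` is a unit vector if `(p, q) ≠ 0` and is invariant under scalars. For `U` with rows `(a, b)`, `(c, d)` and `U Uᴴ = 1`: with `w = p q̄`,
`(ap + bq) conj (cp + dq) = a c̄ |p|² + b d̄ |q|² + a d̄ w + b c̄ w̄`, `a c̄ + b d̄ = 0`, so the vector `(2 Re, 2 Im, |p|²-|q|²)` is transformed by an explicit real `3 × 3` matrix
`R` with quadratic entries. For `SU(2)`: `c = - b̄`, `d = ā`, `|a|² + |b|² = 1`; in real coordinates `R` is the Euler-Rodrigues matrix, `R Rᵀ = (|a|²+|b|²)² 1` and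
`det R = (|a|²+|b|²)³` by `ring`. It suffices to treat `SU(2)`.
-/

namespace Pool.Agent.CPL

theorem hopf_mem {p q : ℂ} (h : p ≠ 0 ∨ q ≠ 0) : hopf p q ∈ Metric.sphere (0 : E3) 1 := by
  rw [mem_sphere_zero_iff_norm]
  have hn : 0 < Complex.normSq p + Complex.normSq q := by
    rcases h with h | h
    · have := Complex.normSq_pos.mpr h
      have := Complex.normSq_nonneg q
      linarith
    · have := Complex.normSq_pos.mpr h
      have := Complex.normSq_nonneg p
      linarith
  have h1 : ‖hopf p q‖ ^ 2 = 1 := by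
    rw [EuclideanSpace.norm_sq_eq, Fin.sum_univ_three]
    simp only [Real.norm_eq_abs, sq_abs]
    have e : (hopf p q) 0 ^ 2 + (hopf p q) 1 ^ 2 + (hopf p q) 2 ^ 2 =
        ((2 * (p * (starRingEnd ℂ) q).re) ^ 2 + (2 * (p * (starRingEnd ℂ) q).im) ^ 2 +
          (Complex.normSq p - Complex.normSq q) ^ 2) /
          (Complex.normSq p + Complex.normSq q) ^ 2 := by
      change (2 * (p * (starRingEnd ℂ) q).re / (Complex.normSq p + Complex.normSq q)) ^ 2 +
        (2 * (p * (starRingEnd ℂ) q).im / (Complex.normSq p + Complex.normSq q)) ^ 2 +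
        ((Complex.normSq p - Complex.normSq q) / (Complex.normSq p + Complex.normSq q)) ^ 2 = _
      rw [div_pow, div_pow, div_pow, ← add_div, ← add_div]
    rw [e, div_eq_one_iff_eq (by positivity)]
    simp only [Complex.normSq_apply, Complex.mul_re, Complex.mul_im, Complex.conj_re,
      Complex.conj_im]
    ring
  have h2 := norm_nonneg (hopf p q)
  nlinarith

theorem hopf_smul {s p q : ℂ} (hs : s ≠ 0) : hopf (s * p) (s * q) = hopf p q := by
  have hs' : Complex.normSq s ≠ 0 := by
    rw [Ne, Complex.normSq_eq_zero]; exact hs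
  have e : s * p * (starRingEnd ℂ) (s * q) =
      ((Complex.normSq s : ℝ) : ℂ) * (p * (starRingEnd ℂ) q) := by
    rw [map_mul, ← Complex.mul_conj]; ring
  unfold hopf
  rw [e, Complex.re_ofReal_mul, Complex.im_ofReal_mul, Complex.normSq_mul, Complex.normSq_mul,
    ← mul_add, ← mul_sub, mul_div_mul_left _ _ hs', mul_left_comm, mul_div_mul_left _ _ hs',
    mul_left_comm, mul_div_mul_left _ _ hs']

/-- the Euler-Rodrigues matrix -/
private noncomputable def hop_mat (a b : ℂ) : Matrix (Fin 3) (Fin 3) ℝ :=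
  !![(a ^ 2 - b ^ 2).re, -(a ^ 2 + b ^ 2).im, -2 * (a * b).re;
     (a ^ 2 - b ^ 2).im, (a ^ 2 + b ^ 2).re, -2 * (a * b).im;
     2 * (a * (starRingEnd ℂ) b).re, -2 * (a * (starRingEnd ℂ) b).im,
      Complex.normSq a - Complex.normSq b]

private theorem hop_mat_mem {a b : ℂ} (hab : Complex.normSq a + Complex.normSq b = 1) :
    hop_mat a b ∈ Matrix.specialOrthogonalGroup (Fin 3) ℝ := by
  rw [Matrix.mem_specialOrthogonalGroup_iff, Matrix.mem_orthogonalGroup_iff]
  obtain ⟨a1, a2⟩ := a
  obtain ⟨b1, b2⟩ := b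
  rw [Complex.normSq_apply, Complex.normSq_apply] at hab
  dsimp only at hab
  set n := a1 * a1 + a2 * a2 + (b1 * b1 + b2 * b2) with hn
  have hn2 : n ^ 2 = 1 := by rw [hab]; norm_num
  have hn3 : n ^ 3 = 1 := by rw [hab]; norm_num
  constructor
  · ext i j
    fin_cases i <;> fin_cases j <;>
      simp [hop_mat, Matrix.mul_apply, Fin.sum_univ_three, Complex.normSq_apply, pow_two] <;>
      (first
        | (rw [← hn2, hn]; ring)
        | ring)
  · rw [← hn3, hn, hop_mat, Matrix.det_fin_three]
    simp [Complex.normSq_apply, pow_two]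
    ring

theorem exists_rot_of_unitary (a b : ℂ) (hab : Complex.normSq a + Complex.normSq b = 1) :
    ∃ R : SO3, ∀ p q : ℂ,
      hopf (a * p + b * q) (-(starRingEnd ℂ) b * p + (starRingEnd ℂ) a * q) = mv R.1 (hopf p q) := by
  refine ⟨⟨hop_mat a b, hop_mat_mem hab⟩, fun p q => ?_⟩
  have hn : Complex.normSq (a * p + b * q) +
      Complex.normSq (-(starRingEnd ℂ) b * p + (starRingEnd ℂ) a * q) =
      Complex.normSq p + Complex.normSq q := by
    have : Complex.normSq (a * p + b * q) +
      Complex.normSq (-(starRingEnd ℂ) b * p + (starRingEnd ℂ) a * q) =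
      (Complex.normSq a + Complex.normSq b) * (Complex.normSq p + Complex.normSq q) := by
      simp only [Complex.normSq_apply, Complex.mul_re, Complex.mul_im, Complex.add_re,
          Complex.add_im, Complex.conj_re, Complex.conj_im, Complex.neg_re, Complex.neg_im]
      ring
    rw [this, hab, one_mul]
  unfold hopf
  rw [hn]
  ext i
  fin_cases i
  · simp [mv, hop_mat, Complex.normSq_apply, pow_two]
    ring
  · simp [mv, hop_mat, Complex.normSq_apply, pow_two]
    ring
  · simp [mv, hop_mat, Complex.normSq_apply, pow_two]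
    ring

end Pool.Agent.CPL
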