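import Pool.Agent.CPL.Defs

set_option autoImplicit false

/-!
# A Kesten type ratio limit theorem (pure analysis)

`a_k = log y_k` is superadditive (`h3`) and `0 ≤ a_{k+1} - a_k ≤ log C`, so `a_k / k` converges (`Subadditive.tendsto_lim` for `-a`), to `l`.
`α_k = y_{k+1} / y_k` is in `[1, C]`, and `h4` gives `log α_{k+1} ≥ log α_k - C / (k+1)`.
The increments `d_k = a_{k+1} - a_k` satisfy `d_{k+1} ≥ d_k - C / (k+1)`, and this with `a_k / k → l` gives `d_k → l`
(`kes_taub`). Hence `y_{k+2} y_k / y_{k+1}^2 = exp (d_{k+1} - d_k) → 1`.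
-/

namespace Pool.Agent.CPL

open Filter Topology

private lemma kes_iter (d : ℕ → ℝ) (C : ℝ) (hC : 0 ≤ C) (hd : ∀ k : ℕ, d k - C / (k + 1) ≤ d (k + 1))
    (m j : ℕ) : d m - C * j / (m + 1) ≤ d (m + j) := by
  induction j with
  | zero => simp
  | succ j ih =>
    have h1 := hd (m + j)
    have h2 : C / (((m + j : ℕ) : ℝ) + 1) ≤ C / ((m : ℝ) + 1) := by
      apply div_le_div_of_nonneg_left hC (by positivity)
      push_cast
      linarith [(Nat.cast_nonneg j : (0 : ℝ) ≤ j)]
    have h3 : C * ((j + 1 : ℕ) : ℝ) / ((m : ℝ) + 1) = C * j / (m + 1) + C / (m + 1) := by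
      push_cast; ring
    rw [h3]
    have h4 : m + (j + 1) = m + j + 1 := by ring
    rw [h4]
    linarith

private lemma kes_up (a : ℕ → ℝ) (C : ℝ) (hC : 0 ≤ C)
    (hd : ∀ k : ℕ, (a (k + 1) - a k) - C / (k + 1) ≤ a (k + 1 + 1) - a (k + 1))
    (m N : ℕ) : N * (a (m + 1) - a m) - C * N ^ 2 / (m + 1) ≤ a (m + N) - a m := by
  induction N with
  | zero => simp
  | succ N ih =>
    have h1 := kes_iter (fun k => a (k + 1) - a k) C hC hd m N
    have h4 : m + (N + 1) = m + N + 1 := by ring
    rw [h4]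
    have h5 : C * ((N + 1 : ℕ) : ℝ) ^ 2 / ((m : ℝ) + 1)
        = C * N ^ 2 / (m + 1) + C * N / (m + 1) + C * (N + 1) / (m + 1) := by
      push_cast; ring
    have h6 : 0 ≤ C * ((N : ℝ) + 1) / ((m : ℝ) + 1) := by positivity
    rw [h5]
    push_cast
    linarith

private lemma kes_down (a : ℕ → ℝ) (C : ℝ) (hC : 0 ≤ C)
    (hd : ∀ k : ℕ, (a (k + 1) - a k) - C / (k + 1) ≤ a (k + 1 + 1) - a (k + 1))
    (p N : ℕ) : a (p + N) - a p ≤ N * (a (p + N + 1) - a (p + N)) + C * N ^ 2 / (p + 1) := by
  have key : ∀ j : ℕ, j ≤ N →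
      a (p + j) - a p ≤ j * (a (p + N + 1) - a (p + N)) + C * j * N / (p + 1) := by
    intro j
    induction j with
    | zero => intro _; simp
    | succ j ih =>
      intro hj
      have ih' := ih (by omega)
      have h1 := kes_iter (fun k => a (k + 1) - a k) C hC hd (p + j) (N - j)
      have e : p + j + (N - j) = p + N := by omega
      simp only [e] at h1
      have h2 : C * ((N - j : ℕ) : ℝ) / (((p + j : ℕ) : ℝ) + 1) ≤ C * N / (p + 1) := by
        have h3 : ((N - j : ℕ) : ℝ) ≤ N := by exact_mod_cast Nat.sub_le N j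
        have h4 : (p : ℝ) + 1 ≤ ((p + j : ℕ) : ℝ) + 1 := by
          push_cast
          linarith [(Nat.cast_nonneg j : (0 : ℝ) ≤ j)]
        gcongr
      have h5 : p + (j + 1) = p + j + 1 := by ring
      rw [h5]
      have h6 : C * ((j + 1 : ℕ) : ℝ) * N / ((p : ℝ) + 1)
          = C * j * N / (p + 1) + C * N / (p + 1) := by
        push_cast; ring
      rw [h6]
      push_cast
      linarith
  have := key N le_rfl
  calc a (p + N) - a p ≤ _ := this
    _ = _ := by ring

private lemma kes_taub (a : ℕ → ℝ) (l C : ℝ) (hC : 0 ≤ C)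
    (hl : Tendsto (fun n : ℕ => a n / n) atTop (𝓝 l))
    (hd : ∀ k : ℕ, (a (k + 1) - a k) - C / (k + 1) ≤ a (k + 1 + 1) - a (k + 1)) :
    Tendsto (fun k : ℕ => a (k + 1) - a k) atTop (𝓝 l) := by
  rw [Metric.tendsto_atTop] at hl ⊢
  intro ε hε
  obtain ⟨q, hq⟩ := exists_nat_gt (4 * C / ε + 2)
  have hq2 : (2 : ℝ) < q := by
    have : 0 ≤ 4 * C / ε := by positivity
    linarith
  have hq0 : (0 : ℝ) < q := by linarith
  have hqn : 2 < q := by exact_mod_cast hq2
  have hCq : 4 * C / q < ε := by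
    rw [div_lt_iff₀ hq0]
    have : 4 * C / ε < q := by linarith
    rw [div_lt_iff₀ hε] at this
    linarith
  set η : ℝ := ε / (16 * q) with hη
  have hηpos : 0 < η := by positivity
  obtain ⟨n0, hn0⟩ := hl η hηpos
  refine ⟨2 * n0 + q, ?_⟩
  intro m hm
  set N : ℕ := m / q with hN
  have hmq : q ≤ m := by omega
  have hNpos : 1 ≤ N := by
    rw [hN]; exact (Nat.one_le_div_iff (by omega)).2 hmq
  have hNm : N * q ≤ m := Nat.div_mul_le_self m q
  have hmN : m < (N + 1) * q := by
    exact (Nat.div_lt_iff_lt_mul (by omega)).1 (Nat.lt_succ_self (m / q))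
  have hNr : (1 : ℝ) ≤ N := by exact_mod_cast hNpos
  have hNmr : (N : ℝ) * q ≤ m := by exact_mod_cast hNm
  have hmNr : (m : ℝ) ≤ 2 * (N * q) := by
    have h1 : (m : ℝ) < (N + 1) * q := by exact_mod_cast hmN
    nlinarith
  have hm0 : (0 : ℝ) < m := by
    have : 0 < m := by omega
    exact_mod_cast this
  have hb : ∀ k : ℕ, n0 ≤ k → 0 < k → |a k - k * l| ≤ η * k := by
    intro k hk hk0
    have hk0' : (0 : ℝ) < k := by exact_mod_cast hk0
    have h1 := hn0 k hk
    rw [Real.dist_eq] at h1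
    have h2 : a k / k - l = (a k - k * l) / k := by field_simp
    rw [h2, abs_div, abs_of_pos hk0', div_lt_iff₀ hk0'] at h1
    exact h1.le
  have hbm := hb m (by omega) (by omega)
  rw [Real.dist_eq, abs_lt]
  constructor
  · -- lower bound
    obtain ⟨p, hp⟩ : ∃ p, m = p + N := ⟨m - N, by
      have : N ≤ m := Nat.div_le_self m q
      omega⟩
    have hNhalf : 2 * N ≤ m := by
      calc 2 * N ≤ q * N := Nat.mul_le_mul_right N (by omega)
        _ = N * q := by ring
        _ ≤ m := hNm
    have hpm : m ≤ 2 * p := by omega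
    have hpr : (m : ℝ) ≤ 2 * p := by exact_mod_cast hpm
    have hbp := hb p (by omega) (by omega)
    have h1 := kes_down a C hC hd p N
    rw [← hp] at h1
    have h2 : C * (N : ℝ) ^ 2 / ((p : ℝ) + 1) ≤ N * (ε / 2) := by
      rw [div_le_iff₀ (by positivity)]
      have h3 : C * (N : ℝ) ≤ ε / 2 * (p + 1) := by
        have h4 : 4 * C ≤ ε * q := by
          have := hCq.le
          rwa [div_le_iff₀ hq0] at this
        have h5 : 4 * C * N ≤ ε * (q * N) := by nlinarith
        have h6 : ε * (q * N) ≤ ε * (2 * (p + 1)) := by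
          apply mul_le_mul_of_nonneg_left _ hε.le
          nlinarith
        nlinarith
      nlinarith
    have hmp : (m : ℝ) = p + N := by exact_mod_cast hp
    have h7 : (N : ℝ) * l - η * (2 * m) ≤ a m - a p := by
      have h8 := (abs_le.1 hbm).1
      have h9 := (abs_le.1 hbp).2
      have h10 : (p : ℝ) ≤ m := by rw [hmp]; linarith
      have h11 : η * p ≤ η * m := by gcongr
      rw [hmp] at h8 h11 ⊢
      nlinarith
    have h12 : η * (2 * m) ≤ N * (ε / 4) := by
      have : η * (2 * m) ≤ η * (2 * (2 * (N * q))) := by gcongr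
      calc η * (2 * m) ≤ _ := this
        _ = N * (ε / 4) := by rw [hη]; field_simp; norm_num
    have h13 : (N : ℝ) * (l - 3 / 4 * ε) ≤ N * (a (m + 1) - a m) := by
      nlinarith
    have h14 := le_of_mul_le_mul_left h13 (by linarith)
    linarith
  · have hbp := hb (m + N) (by omega) (by omega)
    have h1 := kes_up a C hC hd m N
    have h2 : C * (N : ℝ) ^ 2 / ((m : ℝ) + 1) ≤ N * (ε / 4) := by
      rw [div_le_iff₀ (by positivity)]
      have h3 : C * (N : ℝ) ≤ ε / 4 * (m + 1) := by
        have h4 : 4 * C ≤ ε * q := by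
          have := hCq.le
          rwa [div_le_iff₀ hq0] at this
        have h5 : 4 * C * N ≤ ε * (q * N) := by nlinarith
        have h6 : ε * (q * N) ≤ ε * (m + 1) := by
          apply mul_le_mul_of_nonneg_left _ hε.le
          nlinarith
        nlinarith
      nlinarith
    have h7 : a (m + N) - a m ≤ (N : ℝ) * l + η * (3 * m) := by
      have h8 := (abs_le.1 hbm).1
      have h9 := (abs_le.1 hbp).2
      have h10 : (N : ℝ) ≤ m := by nlinarith
      have h11 : η * N ≤ η * m := by gcongr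
      push_cast at h9
      nlinarith
    have h12 : η * (3 * m) ≤ N * (3 / 8 * ε) := by
      have : η * (3 * m) ≤ η * (3 * (2 * (N * q))) := by gcongr
      calc η * (3 * m) ≤ _ := this
        _ = N * (3 / 8 * ε) := by rw [hη]; field_simp; norm_num
    have h13 : (N : ℝ) * (a (m + 1) - a m) ≤ N * (l + 5 / 8 * ε) := by
      nlinarith
    have h14 := le_of_mul_le_mul_left h13 (by linarith)
    linarith

theorem ratio_limit (y : ℕ → ℝ) (C : ℝ) (hy : ∀ k, 0 < y k) (h1 : ∀ k, y k ≤ y (k + 1))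
    (h2 : ∀ k, y (k + 1) ≤ C * y k) (h3 : ∀ i j, y i * y j ≤ y (i + j))
    (h4 : ∀ k : ℕ, (2 * k + 3 : ℝ) ^ 2 * y (k + 1) ^ 2 ≤
      2 * k * (2 * k + 1) * (y k * y (k + 2)) + (2 * k + 3) * (y (k + 1) * y (k + 2))) :
    Tendsto (fun k => y (k + 2) * y k / y (k + 1) ^ 2) atTop (𝓝 1) := by
  have hC1 : 1 ≤ C := by
    have h5 := (h1 0).trans (h2 0)
    have h6 := hy 0
    by_contra hc
    push Not at hc
    nlinarith
  have hC0 : 0 < C := by linarith
  set a : ℕ → ℝ := fun k => Real.log (y k) with ha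
  have hsub : Subadditive (fun k => - a k) := by
    intro i j
    have h5 : Real.log (y i * y j) ≤ Real.log (y (i + j)) :=
      Real.log_le_log (mul_pos (hy i) (hy j)) (h3 i j)
    rw [Real.log_mul (hy i).ne' (hy j).ne'] at h5
    simp only [ha]
    linarith
  have hup : ∀ n : ℕ, a n ≤ a 0 + n * Real.log C := by
    intro n
    induction n with
    | zero => simp
    | succ n ih =>
      have h5 : Real.log (y (n + 1)) ≤ Real.log (C * y n) := Real.log_le_log (hy _) (h2 n)
      rw [Real.log_mul hC0.ne' (hy n).ne'] at h5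
      simp only [ha] at ih ⊢
      push_cast
      linarith
  have hbdd : BddBelow (Set.range fun n : ℕ => (fun k => - a k) n / n) := by
    refine ⟨-(|a 0| + Real.log C), ?_⟩
    rintro _ ⟨n, rfl⟩
    have hlC : 0 ≤ Real.log C := Real.log_nonneg hC1
    rcases Nat.eq_zero_or_pos n with rfl | hn
    · simp only [CharP.cast_eq_zero, div_zero]
      have := abs_nonneg (a 0)
      linarith
    · have hn' : (1 : ℝ) ≤ n := by exact_mod_cast hn
      have hn0 : (0 : ℝ) < n := by linarith
      simp only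
      rw [le_div_iff₀ hn0]
      have h5 := hup n
      have h6 := le_abs_self (a 0)
      have h7 := abs_nonneg (a 0)
      nlinarith
  have hlim := hsub.tendsto_lim hbdd
  have hlim' : Tendsto (fun n : ℕ => a n / n) atTop (𝓝 (-hsub.lim)) := by
    have := hlim.neg
    refine this.congr ?_
    intro n
    ring
  have hd : ∀ k : ℕ, (a (k + 1) - a k) - C / (k + 1) ≤ a (k + 1 + 1) - a (k + 1) := by
    intro k
    have hk := hy k
    have hk1 := hy (k + 1)
    have hk2 := hy (k + 2)
    have e1 : (a (k + 1 + 1) - a (k + 1)) - (a (k + 1) - a k)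
        = Real.log (y (k + 2) * y k / y (k + 1) ^ 2) := by
      simp only [ha]
      rw [Real.log_div (by positivity) (by positivity), Real.log_mul hk2.ne' hk.ne', Real.log_pow]
      push_cast
      ring
    have h5 := h4 k
    have hpos : 0 < y (k + 2) * y k / y (k + 1) ^ 2 := by positivity
    have h6 := Real.one_sub_inv_le_log_of_pos hpos
    have h7 : (y (k + 2) * y k / y (k + 1) ^ 2)⁻¹ ≤ 1 + C / (k + 1) := by
      rw [inv_div, div_le_iff₀ (by positivity)]
      have h8 := h2 k
      have hk0 : (0 : ℝ) ≤ k := Nat.cast_nonneg k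
      -- multiply by (2k+3)^2
      have h9 : (2 * k + 3 : ℝ) ^ 2 * y (k + 1) ^ 2
          ≤ (2 * k + 3 : ℝ) ^ 2 * (y (k + 2) * y k) + (2 * k + 3) * C * (y (k + 2) * y k) := by
        have h10 : y (k + 1) * y (k + 2) ≤ C * (y (k + 2) * y k) := by nlinarith
        have h11 : (2 * (k : ℝ) + 3) * (y (k + 1) * y (k + 2))
            ≤ (2 * k + 3) * (C * (y (k + 2) * y k)) := by gcongr
        have h12 : 0 < y (k + 2) * y k := by positivity
        nlinarith
      have h13 : 0 < y (k + 2) * y k := by positivity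
      have h14 : (2 * k + 3 : ℝ) ^ 2 * y (k + 1) ^ 2
          ≤ (2 * k + 3 : ℝ) ^ 2 * ((1 + C / (k + 1)) * (y (k + 2) * y k)) := by
        refine h9.trans ?_
        have h15 : (2 * k + 3 : ℝ) * C ≤ (2 * k + 3) ^ 2 * (C / (k + 1)) := by
          rw [← mul_div_assoc, le_div_iff₀ (by positivity)]
          nlinarith [mul_nonneg hk0 hC0.le, mul_nonneg (mul_nonneg hk0 hk0) hC0.le]
        nlinarith
      exact le_of_mul_le_mul_left h14 (by positivity)
    linarith
  have hT := kes_taub a (-hsub.lim) C hC0.le hlim' hd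
  have hT1 : Tendsto (fun k : ℕ => a (k + 1 + 1) - a (k + 1)) atTop (𝓝 (-hsub.lim)) :=
    hT.comp (tendsto_add_atTop_nat 1)
  have hT2 : Tendsto (fun k : ℕ => (a (k + 1 + 1) - a (k + 1)) - (a (k + 1) - a k)) atTop (𝓝 0) := by
    have := hT1.sub hT
    simpa using this
  have hT3 := (Real.continuous_exp.tendsto 0).comp hT2
  rw [Real.exp_zero] at hT3
  refine hT3.congr ?_
  intro k
  have hk := hy k
  have hk1 := hy (k + 1)
  have hk2 := hy (k + 2)
  have e1 : (a (k + 1 + 1) - a (k + 1)) - (a (k + 1) - a k)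
      = Real.log (y (k + 2) * y k / y (k + 1) ^ 2) := by
    simp only [ha]
    rw [Real.log_div (by positivity) (by positivity), Real.log_mul hk2.ne' hk.ne', Real.log_pow]
    push_cast
    ring
  simp only [Function.comp]
  rw [e1, Real.exp_log (by positivity)]

end Pool.Agent.CPL
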