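import Pool.Agent.CPL.RAD

set_option autoImplicit false

/-!
# Uniqueness of the centres

Call `v ∈ V` good if `z v = z' v`, and `z a = z' a` for all neighbours `a` of `v`. If `z v = z' v` and `z a = z' a` for one neighbour `a` then `v` is good: `link_closed`, the set of
`x` with `z x = z' x` is closed under the successor: for a face `(v, x, y)` which is not a rotation of the root face use `third_unique` with equal distances
(`radii_unique`, `tan`), and for a rotation of the root face all three centres are given. `0` is good; good is closed under adjacency; `conn_closed`.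
-/

namespace Pool.Agent.CPL

open Finset

private theorem lay_link {V : Finset ℕ} {F : Finset Tr} {z z' : ℕ → ℂ} {r r' : ℕ → ℝ} (h : IsTri V F)
    (h0 : (0, 1, 2) ∈ F) (hP : IsPacking V F z r) (hP' : IsPacking V F z' r') {v a b c d : ℕ}
    (hv : z v = z' v) (hab : (v, a, b) ∈ F) (ha : z a = z' a) (hcd : (v, c, d) ∈ F) :
    z c = z' c := by
  refine h.link_closed {w | z w = z' w} (a := a) (b := b) (c := c) (d := d) ha hab ?_ hcd
  intro x y hx hxy
  have hx' : z x = z' x := hx
  show z y = z' y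
  by_cases hroot : (v, x, y) ∈ rots 0 1 2
  · rw [mem_rots] at hroot
    simp only [Prod.mk.injEq] at hroot
    have hr := hP.root
    have hr' := hP'.root
    rcases hroot with ⟨_, _, rfl⟩ | ⟨_, _, rfl⟩ | ⟨_, _, rfl⟩
    · rw [hr.2.2.1, hr'.2.2.1]
    · rw [hr.1, hr'.1]
    · rw [hr.2.1, hr'.2.1]
  · have o := hP.orient _ _ _ hxy hroot
    have o' := hP'.orient _ _ _ hxy hroot
    rw [← hx', ← hv] at o'
    refine third_unique o o' ?_ ?_
    · have d1 := hP.tan _ _ _ (h.rot2 hxy)
      have d2 := hP'.tan _ _ _ (h.rot2 hxy)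
      rw [← hv, ← radii_unique h h0 hP hP' (h.mem _ _ _ hxy),
        ← radii_unique h h0 hP hP' (h.mem3 hxy)] at d2
      rw [dist_comm, d1, dist_comm (z v), d2]
    · have d1 := hP.tan _ _ _ (h.rot _ _ _ hxy)
      have d2 := hP'.tan _ _ _ (h.rot _ _ _ hxy)
      rw [← hx', ← radii_unique h h0 hP hP' (h.mem2 hxy),
        ← radii_unique h h0 hP hP' (h.mem3 hxy)] at d2
      rw [d1, d2]

theorem centres_unique {V : Finset ℕ} {F : Finset Tr} {z z' : ℕ → ℂ} {r r' : ℕ → ℝ} (h : IsTri V F)
    (h0 : (0, 1, 2) ∈ F) (hP : IsPacking V F z r) (hP' : IsPacking V F z' r') {v : ℕ}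
    (hv : v ∈ V) : z v = z' v := by
  have hr := hP.root
  have hr' := hP'.root
  have z0 : z 0 = z' 0 := by rw [hr.1, hr'.1]
  have z1 : z 1 = z' 1 := by rw [hr.2.1, hr'.2.1]
  have hS := h.conn_closed {x | z x = z' x ∧ ∀ a c, (x, a, c) ∈ F → z a = z' a} (a := 0) (b := v)
    ⟨z0, fun a c hac => lay_link h h0 hP hP' z0 h0 z1 hac⟩ (h.mem _ _ _ h0) (by
    intro x y c hx hxy
    have hx' : z x = z' x ∧ ∀ a c, (x, a, c) ∈ F → z a = z' a := hx
    have hy : z y = z' y := hx'.2 y c hxy
    obtain ⟨d, hd⟩ := h.opp _ _ _ hxy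
    exact ⟨hy, fun a c' hac => lay_link h h0 hP hP' hy hd hx'.1 hac⟩) hv
  exact hS.1

end Pool.Agent.CPL
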