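import Pool.Agent.CPL.STA

set_option autoImplicit false

/-!
# The quotient space

`SO3` is compact (closed and bounded in the matrices: the entries of an orthogonal matrix are in `[-1, 1]`), its action on `ProbabilityMeasure S2` is jointly continuous (for
`g` bounded continuous, `∫ g (R x) dμ`: if `R_i → R` then `g ∘ R_i → g ∘ R` uniformly on the compact sphere), so `ProperSMul` (`Continuous.isProperMap` from a compact space to a Hausdorff
space), so the quotient is Hausdorff (`t2Space_quotient_mulAction_of_properSMul`); it is compact (image of a compact space) and second countable (`IsOpenQuotientMap`/`IsOpenMap`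
image of a basis: `MulAction.isOpenQuotientMap_quotientMk`; `ProbabilityMeasure S2` is compact metrizable, hence second countable), so metrizable.
-/

namespace Pool.Agent.CPL

open Finset Filter Topology MeasureTheory

/-- the entries of an orthogonal matrix are in `[-1, 1]` -/
theorem quo_entry (R : SO3) (i j : Fin 3) : R.1 i j ∈ Set.Icc (-1 : ℝ) 1 := by
  have h1 : R.1 * R.1.transpose = 1 := by
    have := (Matrix.mem_specialOrthogonalGroup_iff.mp R.2).1
    rw [Matrix.mem_orthogonalGroup_iff] at this
    simpa [Matrix.star_eq_conjTranspose] using this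
  have h2 : ∑ k, R.1 i k * R.1 i k = 1 := by
    have := congrFun (congrFun h1 i) i
    simpa [Matrix.mul_apply] using this
  have h3 : R.1 i j * R.1 i j ≤ ∑ k, R.1 i k * R.1 i k :=
    Finset.single_le_sum (f := fun k => R.1 i k * R.1 i k) (fun k _ => mul_self_nonneg _)
      (Finset.mem_univ j)
  rw [h2] at h3
  constructor <;> nlinarith

instance quo_compactSO3 : CompactSpace SO3 := by
  apply (isCompact_iff_compactSpace (s := (Matrix.specialOrthogonalGroup (Fin 3) ℝ : Set (Matrix (Fin 3) (Fin 3) ℝ)))).1
  have hK : IsCompact (Set.pi Set.univ fun _ : Fin 3 => Set.pi Set.univ fun _ : Fin 3 =>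
      Set.Icc (-1 : ℝ) 1) := isCompact_univ_pi fun _ => isCompact_univ_pi fun _ => isCompact_Icc
  refine IsCompact.of_isClosed_subset hK ?_ ?_
  · have : (Matrix.specialOrthogonalGroup (Fin 3) ℝ : Set (Matrix (Fin 3) (Fin 3) ℝ)) =
        {M | M * M.transpose = 1} ∩ {M | M.det = 1} := by
      ext M
      simp [Matrix.mem_specialOrthogonalGroup_iff, Matrix.mem_orthogonalGroup_iff]
    rw [this]
    refine IsClosed.inter (isClosed_eq ?_ continuous_const) (isClosed_eq ?_ continuous_const)
    · exact continuous_id.matrix_mul continuous_id.matrix_transpose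
    · exact continuous_id.matrix_det
  · intro M hM i _ j _
    exact quo_entry ⟨M, hM⟩ i j

/-- the action on the sphere is jointly continuous -/
theorem quo_continuous_rot : Continuous fun p : SO3 × S2 => rotS p.1 p.2 := by
  unfold rotS mv
  refine Continuous.subtype_mk ?_ _
  have h1 : Continuous fun p : SO3 × S2 => (p.1.1 : Matrix (Fin 3) (Fin 3) ℝ) :=
    continuous_subtype_val.comp continuous_fst
  have h2 : Continuous fun p : SO3 × S2 => (p.2.1 : E3).ofLp :=
    (PiLp.continuous_ofLp 2 _).comp (continuous_subtype_val.comp continuous_snd)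
  exact (PiLp.continuous_toLp 2 _).comp (h1.matrix_mulVec h2)

theorem quo_integral_smul (R : SO3) (μ : ProbabilityMeasure S2) {g : S2 → ℝ} (hg : Continuous g) :
    ∫ p, g p ∂((R • μ : ProbabilityMeasure S2) : Measure S2) = ∫ p, g (rotS R p) ∂(μ : Measure S2) := by
  have : ((R • μ : ProbabilityMeasure S2) : Measure S2) = Measure.map (rotS R) (μ : Measure S2) := rfl
  rw [this, integral_map (continuous_rotS R).measurable.aemeasurable
    hg.stronglyMeasurable.aestronglyMeasurable]

/-- the action is continuous -/
instance quo_continuousSMul : ContinuousSMul SO3 (ProbabilityMeasure S2) := by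
  refine ⟨?_⟩
  rw [continuous_iff_continuousAt]
  rintro ⟨R0, μ0⟩
  rw [ContinuousAt, ProbabilityMeasure.tendsto_iff_forall_integral_tendsto]
  intro g
  have hcurry : Continuous fun R : SO3 => (⟨fun p => g (rotS R p), g.continuous.comp (continuous_rotS R)⟩ : C(S2, ℝ)) := by
    refine ContinuousMap.continuous_of_continuous_uncurry _ ?_
    exact g.continuous.comp quo_continuous_rot
  rw [Metric.tendsto_nhds]
  intro ε hε
  have h1 : ∀ᶠ p : SO3 × ProbabilityMeasure S2 in 𝓝 (R0, μ0),
      dist (⟨fun q => g (rotS p.1 q), g.continuous.comp (continuous_rotS p.1)⟩ : C(S2, ℝ))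
        (⟨fun q => g (rotS R0 q), g.continuous.comp (continuous_rotS R0)⟩ : C(S2, ℝ)) < ε / 2 := by
    have := (hcurry.comp continuous_fst).continuousAt (x := (R0, μ0))
    exact (Metric.tendsto_nhds.1 this) (ε / 2) (by linarith)
  have h2 : ∀ᶠ p : SO3 × ProbabilityMeasure S2 in 𝓝 (R0, μ0),
      dist (∫ q, g (rotS R0 q) ∂(p.2 : Measure S2)) (∫ q, g (rotS R0 q) ∂(μ0 : Measure S2))
        < ε / 2 := by
    have h3 : Tendsto (fun p : SO3 × ProbabilityMeasure S2 => p.2) (𝓝 (R0, μ0)) (𝓝 μ0) :=
      continuous_snd.continuousAt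
    have h4 := (ProbabilityMeasure.tendsto_iff_forall_integral_tendsto.1 h3)
      (g.compContinuous ⟨rotS R0, continuous_rotS R0⟩)
    exact (Metric.tendsto_nhds.1 h4) (ε / 2) (by linarith)
  filter_upwards [h1, h2] with p hp1 hp2
  rw [quo_integral_smul _ _ g.continuous, quo_integral_smul _ _ g.continuous]
  have h5 : dist (∫ q, g (rotS p.1 q) ∂(p.2 : Measure S2)) (∫ q, g (rotS R0 q) ∂(p.2 : Measure S2))
      ≤ ε / 2 := by
    have hi : ∀ R : SO3, Integrable (fun q => g (rotS R q)) (p.2 : Measure S2) := by
      intro R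
      exact (g.compContinuous ⟨rotS R, continuous_rotS R⟩).integrable _
    rw [Real.dist_eq, ← integral_sub (hi _) (hi _)]
    have h6 : ∀ q, ‖g (rotS p.1 q) - g (rotS R0 q)‖ ≤ ε / 2 := by
      intro q
      have := (ContinuousMap.dist_apply_le_dist (f := (⟨fun q => g (rotS p.1 q), g.continuous.comp (continuous_rotS p.1)⟩ : C(S2, ℝ)))
        (g := (⟨fun q => g (rotS R0 q), g.continuous.comp (continuous_rotS R0)⟩ : C(S2, ℝ))) q)
      have h7 := this.trans hp1.le
      rwa [dist_eq_norm] at h7
    have h8 := norm_integral_le_of_norm_le_const (μ := (p.2 : Measure S2))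
      (Filter.Eventually.of_forall h6)
    simpa using h8
  calc dist (∫ q, g (rotS p.1 q) ∂(p.2 : Measure S2)) (∫ q, g (rotS R0 q) ∂(μ0 : Measure S2))
      ≤ dist (∫ q, g (rotS p.1 q) ∂(p.2 : Measure S2)) (∫ q, g (rotS R0 q) ∂(p.2 : Measure S2)) +
        dist (∫ q, g (rotS R0 q) ∂(p.2 : Measure S2)) (∫ q, g (rotS R0 q) ∂(μ0 : Measure S2)) :=
        dist_triangle _ _ _
    _ < ε := by linarith

instance quo_properSMul : ProperSMul SO3 (ProbabilityMeasure S2) := by
  refine ⟨?_⟩
  apply Continuous.isProperMap
  exact (continuous_fst.smul continuous_snd).prodMk continuous_snd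

instance : T2Space ModSO3 := t2Space_quotient_mulAction_of_properSMul

instance : CompactSpace ModSO3 := Quotient.compactSpace

instance quo_secondCountable : SecondCountableTopology (ProbabilityMeasure S2) := by
  let _ := TopologicalSpace.metrizableSpaceMetric (ProbabilityMeasure S2)
  exact inferInstance

instance : SecondCountableTopology ModSO3 :=
  ContinuousConstSMul.secondCountableTopology (Γ := SO3) (T := ProbabilityMeasure S2)

instance : TopologicalSpace.MetrizableSpace ModSO3 :=
  TopologicalSpace.metrizableSpace_of_t3_secondCountable _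

/-- every continuous function is bounded -/
theorem bounded_of_continuous {G : ModSO3 → ℝ} (hG : Continuous G) : ∃ M, ∀ x, |G x| ≤ M := by
  obtain ⟨M, hM⟩ := isCompact_univ.exists_bound_of_continuousOn hG.continuousOn
  exact ⟨M, fun x => hM x (Set.mem_univ _)⟩

end Pool.Agent.CPL
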