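import Pool.Agent.CPL.UPB
import Pool.Agent.CPL.GIN
import Pool.Agent.CPL.KES

set_option autoImplicit false

/-!
# Concentration of the number of vertices of degree 3

`y k = cc (k+3) / k!`. `sum_D` (`n = k + 3`): mean of `D` over `Tri (k+4)` is `(2k+1) y_k / y_{k+1}`, at most `k + 1` (`D ≤ k + 1`), so `y_k ≤ y_{k+1}`;
`cc_succ_le`: `y_{k+1} ≤ 608 y_k`; `supermult`, `cc_three`: `y_i y_j ≤ y_{i+j}`; `sum_DD` and Cauchy-Schwarz `(E D)² ≤ E D² = E D (D-1) + E D` over `Tri (k+5)`: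
`(2k+3)² y_{k+1}² ≤ 2k(2k+1) y_k y_{k+2} + (2k+3) y_{k+1} y_{k+2}`. `ratio_limit`. Then `Var D / (E D)² =
2k(2k+1)/(2k+3)² y_k y_{k+2} / y_{k+1}² + y_{k+2} / ((2k+3) y_{k+1}) - 1 → 0`, and `E |D / E D - 1| ≤ (Var D / (E D)²)^(1/2)`.
-/

namespace Pool.Agent.CPL

open Finset Filter Topology

/-- the normalised number of triangulations -/
private noncomputable def vy (k : ℕ) : ℝ := (cc (k + 3) : ℝ) / (k.factorial : ℝ)

private lemma vy_pos (k : ℕ) : 0 < vy k := by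
  have h := cc_pos (n := k + 3) (by omega)
  have h1 : (0 : ℝ) < cc (k + 3) := by exact_mod_cast h
  have h2 : (0 : ℝ) < (k.factorial : ℝ) := by exact_mod_cast k.factorial_pos
  exact div_pos h1 h2

private lemma cc_eq_vy (k : ℕ) : (cc (k + 3) : ℝ) = k.factorial * vy k := by
  have h2 : (k.factorial : ℝ) ≠ 0 := by exact_mod_cast k.factorial_ne_zero
  rw [vy]; field_simp

private lemma fac1 (k : ℕ) : ((k + 1).factorial : ℝ) = (k + 1) * k.factorial := by
  rw [Nat.factorial_succ]; push_cast; ring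

private lemma vy_mono (k : ℕ) : vy k ≤ vy (k + 1) := by
  have h1 := sum_D (n := k + 3) (by omega)
  have h2 : ∑ F ∈ Tri (k + 3 + 1), (D3 (k + 3 + 1) F : ℝ) ≤ (k + 1) * cc (k + 4) := by
    have h3 : ∀ F ∈ Tri (k + 3 + 1), (D3 (k + 3 + 1) F : ℝ) ≤ k + 1 := by
      intro F _
      have : D3 (k + 3 + 1) F ≤ k + 1 := by
        refine (card_filter_le _ _).trans ?_
        simp
      exact_mod_cast this
    refine (Finset.sum_le_card_nsmul _ _ _ h3).trans ?_
    rw [nsmul_eq_mul]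
    have : ((Tri (k + 3 + 1)).card : ℝ) = cc (k + 4) := rfl
    rw [this, mul_comm]
  rw [h1] at h2
  push_cast at h2
  have h4 := cc_eq_vy k
  have h5 := cc_eq_vy (k + 1)
  have e5 : k + 1 + 3 = k + 4 := by ring
  rw [e5] at h5
  rw [h4, h5, fac1] at h2
  have hf : (0 : ℝ) < (k.factorial : ℝ) := by exact_mod_cast k.factorial_pos
  have hk : (0 : ℝ) ≤ k := Nat.cast_nonneg k
  have hy := vy_pos k
  have hy1 := vy_pos (k + 1)
  have h6 : (2 * (k : ℝ) + 1) * vy k ≤ (k + 1) * vy (k + 1) := by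
    have h7 : ((k : ℝ) + 1) * (k.factorial : ℝ) * ((2 * (k : ℝ) + 1) * vy k)
        ≤ ((k : ℝ) + 1) * (k.factorial : ℝ) * ((k + 1) * vy (k + 1)) := by
      calc _ = ((k : ℝ) + 3 - 2) * ((2 * (k + 3) - 5) * (k.factorial * vy k)) := by ring
        _ ≤ _ := h2
        _ = _ := by ring
    exact le_of_mul_le_mul_left h7 (by positivity)
  have h8 : ((k : ℝ) + 1) * vy k ≤ (k + 1) * vy (k + 1) := by nlinarith
  exact le_of_mul_le_mul_left h8 (by positivity)

private lemma vy_up (hP : ∀ n, 4 ≤ n → ∀ F ∈ Tri n, ∃ z r, IsPacking (range n) F z r) (k : ℕ) :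
    vy (k + 1) ≤ 608 * vy k := by
  have h1 := cc_succ_le (n := k + 3) (by omega) (hP (k + 3 + 1) (by omega))
  have h4 := cc_eq_vy k
  have h5 := cc_eq_vy (k + 1)
  have e5 : k + 1 + 3 = k + 3 + 1 := by ring
  rw [e5] at h5
  rw [h4, h5, fac1] at h1
  push_cast at h1
  have hf : (0 : ℝ) < (k.factorial : ℝ) := by exact_mod_cast k.factorial_pos
  have hk : (0 : ℝ) ≤ k := Nat.cast_nonneg k
  have h7 : ((k : ℝ) + 1) * (k.factorial : ℝ) * vy (k + 1)
      ≤ ((k : ℝ) + 1) * (k.factorial : ℝ) * (608 * vy k) := by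
    calc _ ≤ _ := h1
      _ = _ := by ring
  exact le_of_mul_le_mul_left h7 (by positivity)

private lemma vy_zero : vy 0 = 1 := by
  simp [vy, cc_three]

private lemma vy_super (i j : ℕ) : vy i * vy j ≤ vy (i + j) := by
  rcases Nat.eq_zero_or_pos i with rfl | hi
  · rw [vy_zero]; simp
  rcases Nat.eq_zero_or_pos j with rfl | hj
  · rw [vy_zero]; simp
  have h1 := supermult (i := i) (j := j) hi hj
  have h2 : (((i + j).choose i : ℕ) : ℝ) * (cc (i + 3) * cc (j + 3)) ≤ cc (i + j + 3) := by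
    exact_mod_cast h1
  have h3 : (((i + j).choose i : ℕ) : ℝ) * i.factorial * j.factorial = (i + j).factorial := by
    have := Nat.choose_mul_factorial_mul_factorial (n := i + j) (k := i) (by omega)
    rw [Nat.add_sub_cancel_left] at this
    exact_mod_cast this
  rw [cc_eq_vy, cc_eq_vy j, cc_eq_vy (i + j), ← h3] at h2
  have hfi : (0 : ℝ) < (i.factorial : ℝ) := by exact_mod_cast i.factorial_pos
  have hfj : (0 : ℝ) < (j.factorial : ℝ) := by exact_mod_cast j.factorial_pos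
  have hc : (0 : ℝ) < (((i + j).choose i : ℕ) : ℝ) := by
    have := Nat.choose_pos (n := i + j) (k := i) (by omega)
    exact_mod_cast this
  have h4 : (((i + j).choose i : ℕ) : ℝ) * i.factorial * j.factorial * (vy i * vy j)
      ≤ (((i + j).choose i : ℕ) : ℝ) * i.factorial * j.factorial * vy (i + j) := by
    calc _ = _ := by ring
      _ ≤ _ := h2
  exact le_of_mul_le_mul_left h4 (by positivity)

/-- first moment over `Tri (k+5)` -/
private lemma mom1 (k : ℕ) : ∑ F ∈ Tri (k + 5), (D3 (k + 5) F : ℝ)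
    = (k + 2).factorial * ((2 * k + 3) * vy (k + 1)) := by
  have h1 := sum_D (n := k + 4) (by omega)
  have h5 := cc_eq_vy (k + 1)
  have e5 : k + 1 + 3 = k + 4 := by ring
  rw [e5] at h5
  have e6 : k + 4 + 1 = k + 5 := by ring
  rw [e6, h5] at h1
  rw [h1, fac1 (k + 1)]
  push_cast
  ring

private lemma mom2 (k : ℕ) : ∑ F ∈ Tri (k + 5), (D3 (k + 5) F : ℝ) ^ 2
    = (k + 2).factorial * (2 * k * (2 * k + 1) * vy k + (2 * k + 3) * vy (k + 1)) := by
  have h1 := sum_DD (n := k + 3) (by omega)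
  have h5 := cc_eq_vy k
  have e6 : k + 3 + 2 = k + 5 := by ring
  rw [e6, h5] at h1
  have h2 : ∑ F ∈ Tri (k + 5), (D3 (k + 5) F : ℝ) ^ 2
      = ∑ F ∈ Tri (k + 5), (D3 (k + 5) F : ℝ) * ((D3 (k + 5) F : ℝ) - 1)
        + ∑ F ∈ Tri (k + 5), (D3 (k + 5) F : ℝ) := by
    rw [← Finset.sum_add_distrib]
    refine Finset.sum_congr rfl fun F _ => by ring
  rw [h2, h1, mom1, fac1 (k + 1), fac1 k]
  push_cast
  ring

private lemma cc5 (k : ℕ) : ((Tri (k + 5)).card : ℝ) = (k + 2).factorial * vy (k + 2) := by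
  have h5 := cc_eq_vy (k + 2)
  have e5 : k + 2 + 3 = k + 5 := by ring
  rw [e5] at h5
  exact h5

private lemma vy_h4 (k : ℕ) : (2 * k + 3 : ℝ) ^ 2 * vy (k + 1) ^ 2 ≤
      2 * k * (2 * k + 1) * (vy k * vy (k + 2)) + (2 * k + 3) * (vy (k + 1) * vy (k + 2)) := by
  have h1 := sq_sum_le_card_mul_sum_sq (s := Tri (k + 5)) (f := fun F => (D3 (k + 5) F : ℝ))
  rw [mom1, mom2, cc5] at h1
  have hf : (0 : ℝ) < ((k + 2).factorial : ℝ) := by exact_mod_cast (k + 2).factorial_pos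
  have h4 : ((k + 2).factorial : ℝ) ^ 2 * ((2 * k + 3 : ℝ) ^ 2 * vy (k + 1) ^ 2)
      ≤ ((k + 2).factorial : ℝ) ^ 2 * (2 * k * (2 * k + 1) * (vy k * vy (k + 2))
        + (2 * k + 3) * (vy (k + 1) * vy (k + 2))) := by
    calc _ = _ := by ring
      _ ≤ _ := h1
      _ = _ := by ring
  exact le_of_mul_le_mul_left h4 (by positivity)

/-- the relative variance -/
private noncomputable def vv (k : ℕ) : ℝ :=
  (2 * k * (2 * k + 1) / (2 * k + 3) ^ 2) * (vy (k + 2) * vy k / vy (k + 1) ^ 2)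
    + vy (k + 2) / vy (k + 1) / (2 * k + 3) - 1

private lemma vv_tendsto (hP : ∀ n, 4 ≤ n → ∀ F ∈ Tri n, ∃ z r, IsPacking (range n) F z r) :
    Tendsto vv atTop (𝓝 0) := by
  have h1 := ratio_limit vy 608 vy_pos vy_mono (vy_up hP) vy_super vy_h4
  have hinv : Tendsto (fun k : ℕ => (1 : ℝ) / (2 * k + 3)) atTop (𝓝 0) := by
    have h2 : Tendsto (fun k : ℕ => (2 * (k : ℝ) + 3)) atTop atTop := by
      apply tendsto_atTop_add_const_right
      exact (tendsto_natCast_atTop_atTop (R := ℝ)).const_mul_atTop (by norm_num)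
    have h3 := h2.inv_tendsto_atTop
    refine h3.congr ?_
    intro k
    simp
  have h3 : Tendsto (fun k : ℕ => (2 * (k : ℝ) * (2 * k + 1) / (2 * k + 3) ^ 2)) atTop (𝓝 1) := by
    have h4 : ∀ k : ℕ, (2 * (k : ℝ) * (2 * k + 1) / (2 * k + 3) ^ 2)
        = (1 - 3 * (1 / (2 * (k : ℝ) + 3))) * (1 - 2 * (1 / (2 * (k : ℝ) + 3))) := by
      intro k
      have hk : (0 : ℝ) ≤ k := Nat.cast_nonneg k
      have : (2 * (k : ℝ) + 3) ≠ 0 := by positivity
      field_simp
      ring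
    simp only [h4]
    have h5 : Tendsto (fun k : ℕ => (1 - 3 * (1 / (2 * (k : ℝ) + 3))) * (1 - 2 * (1 / (2 * (k : ℝ) + 3))))
        atTop (𝓝 ((1 - 3 * 0) * (1 - 2 * 0))) :=
      ((hinv.const_mul 3).const_sub 1).mul ((hinv.const_mul 2).const_sub 1)
    simpa using h5
  have h6 : Tendsto (fun k : ℕ => vy (k + 2) / vy (k + 1) / (2 * k + 3)) atTop (𝓝 0) := by
    have h7 : Tendsto (fun k : ℕ => 608 * ((1 : ℝ) / (2 * k + 3))) atTop (𝓝 0) := by
      simpa using hinv.const_mul 608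
    refine squeeze_zero ?_ ?_ h7
    · intro k
      have := vy_pos (k + 2)
      have := vy_pos (k + 1)
      positivity
    · intro k
      have hy1 := vy_pos (k + 1)
      have h8 := vy_up hP (k + 1)
      have h9 : vy (k + 2) / vy (k + 1) ≤ 608 := by
        rw [div_le_iff₀ hy1]; exact h8
      have hk : (0 : ℝ) ≤ k := Nat.cast_nonneg k
      calc _ ≤ 608 / (2 * (k : ℝ) + 3) := by gcongr
        _ = _ := by ring
  have h10 := ((h3.mul h1).add h6).sub (tendsto_const_nhds (x := (1 : ℝ)))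
  have e : (1 : ℝ) * 1 + 0 - 1 = 0 := by norm_num
  rw [e] at h10
  exact h10

private lemma dev_le (k : ℕ) : (∑ F ∈ Tri (k + 4 + 1),
      |(D3 (k + 4 + 1) F : ℝ) * cc (k + 4 + 1)
        / ((((k + 4 : ℕ) : ℝ) - 2) * ((2 * ((k + 4 : ℕ) : ℝ) - 5) * cc (k + 4))) - 1|)
        / cc (k + 4 + 1) ≤ Real.sqrt (vv k) := by
  have e0 : k + 4 + 1 = k + 5 := by ring
  rw [e0]
  have h5 := cc_eq_vy (k + 1)
  have e5 : k + 1 + 3 = k + 4 := by ring
  rw [e5] at h5
  have h6 := cc5 k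
  have h6' : (cc (k + 5) : ℝ) = (k + 2).factorial * vy (k + 2) := h6
  have hk : (0 : ℝ) ≤ k := Nat.cast_nonneg k
  have hy := vy_pos k
  have hy1 := vy_pos (k + 1)
  have hy2 := vy_pos (k + 2)
  have hf : (0 : ℝ) < ((k + 2).factorial : ℝ) := by exact_mod_cast (k + 2).factorial_pos
  have hf1 : (0 : ℝ) < ((k + 1).factorial : ℝ) := by exact_mod_cast (k + 1).factorial_pos
  set N : ℝ := (cc (k + 5) : ℝ) with hN
  have hNpos : 0 < N := by rw [h6']; positivity
  -- the mean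
  set m : ℝ := (2 * k + 3) * vy (k + 1) / vy (k + 2) with hm
  have hmpos : 0 < m := by positivity
  have hterm : ∀ F : Finset Tr, (D3 (k + 5) F : ℝ) * N
        / ((((k + 4 : ℕ) : ℝ) - 2) * ((2 * ((k + 4 : ℕ) : ℝ) - 5) * cc (k + 4))) - 1
      = (D3 (k + 5) F : ℝ) / m - 1 := by
    intro F
    congr 1
    have e2 : (((k + 4 : ℕ) : ℝ) - 2) * ((2 * ((k + 4 : ℕ) : ℝ) - 5) * cc (k + 4))
        = N * m := by
      rw [h5, h6', hm, fac1 (k + 1)]
      push_cast
      field_simp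
      ring
    rw [e2]
    field_simp
  simp only [hterm]
  apply Real.le_sqrt_of_sq_le
  have hcs := sq_sum_le_card_mul_sum_sq (s := Tri (k + 5))
    (f := fun F => |(D3 (k + 5) F : ℝ) / m - 1|)
  have hcard : ((Tri (k + 5)).card : ℝ) = N := rfl
  rw [hcard] at hcs
  have hsum : ∑ F ∈ Tri (k + 5), |(D3 (k + 5) F : ℝ) / m - 1| ^ 2 = N * vv k := by
    have h7 : ∀ F : Finset Tr, |(D3 (k + 5) F : ℝ) / m - 1| ^ 2
        = (1 / m ^ 2) * (D3 (k + 5) F : ℝ) ^ 2 - (2 / m) * (D3 (k + 5) F : ℝ) + 1 := by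
      intro F
      rw [sq_abs]
      field_simp
      ring
    simp only [h7]
    rw [Finset.sum_add_distrib, Finset.sum_sub_distrib, ← Finset.mul_sum, ← Finset.mul_sum,
      mom1, mom2, Finset.sum_const, nsmul_eq_mul, hcard, h6', hm, vv]
    field_simp
    ring
  rw [hsum] at hcs
  rw [div_pow, div_le_iff₀ (by positivity)]
  calc _ ≤ _ := hcs
    _ = _ := by ring

theorem D3_conc (hP : ∀ n, 4 ≤ n → ∀ F ∈ Tri n, ∃ z r, IsPacking (range n) F z r) :
    Tendsto (fun n : ℕ => (∑ F ∈ Tri (n + 1),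
      |(D3 (n + 1) F : ℝ) * cc (n + 1) / ((n - 2) * ((2 * n - 5) * cc n)) - 1|) / cc (n + 1))
      atTop (𝓝 0) := by
  rw [← tendsto_add_atTop_iff_nat 4]
  have h1 : Tendsto (fun k => Real.sqrt (vv k)) atTop (𝓝 0) := by
    have := (Real.continuous_sqrt.tendsto 0).comp (vv_tendsto hP)
    rw [Real.sqrt_zero] at this
    exact this
  refine squeeze_zero ?_ dev_le h1
  intro k
  apply div_nonneg
  · exact Finset.sum_nonneg fun F _ => abs_nonneg _
  · exact Nat.cast_nonneg _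

end Pool.Agent.CPL
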