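import Pool.Agent.CPL.STA
import Pool.Agent.CPL.VAR
import Pool.Agent.CPL.QUO

set_option autoImplicit false

/-!
# The mean of a continuous function of `μ_n` changes by `o(1)`

`f = obs D G`, `|f| ≤ M`, `E_n f = (∑_{F ∈ Tri n} f F) / cc n` (`integral_emp`). With `S = (n-2)(2n-5) cc n`: `sum_D_mul` gives `∑_{F ∈ Tri (n+1)} D3 f = (n-2) ∑_{F ∈ Tri n} ∑_{t ∈ cf F} f (ins F n t)`, and
`|f (ins F n t) - f F| ≤ ε`, `|cf F| = 2n - 5`, so `|(∑ D3 f) / S - E_n f| ≤ ε`. `|E_{n+1} f - (∑ D3 f) / S| ≤ (1 / cc (n+1)) ∑ |f| |D3 cc (n+1) / S - 1| ≤ M * (D3_conc term) → 0`.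
-/

namespace Pool.Agent.CPL

open Finset Filter Topology MeasureTheory

theorem step_mean (D : Family) {G : ModSO3 → ℝ} (hG : Continuous G) :
    Tendsto (fun n => ∫ x, G x ∂(law D (n + 1) : Measure ModSO3) -
      ∫ x, G x ∂(law D n : Measure ModSO3)) atTop (𝓝 0) := by
  have hP : ∀ n, 4 ≤ n → ∀ F ∈ Tri n, ∃ z r, IsPacking (range n) F z r :=
    fun n hn F hF => ⟨_, _, D.packing n hn F hF⟩
  obtain ⟨M, hM⟩ := bounded_of_continuous hG
  have hM0 : 0 ≤ M := (abs_nonneg _).trans (hM (Classical.arbitrary _))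
  set f : Finset Tr → ℝ := obs D G with hf
  have hfM : ∀ F, |f F| ≤ M := fun F => hM _
  have hint : ∀ n, 3 ≤ n → ∫ x, G x ∂(law D n : Measure ModSO3) = (∑ F ∈ Tri n, f F) / cc n := by
    intro n hn
    have hne : (Tri n).Nonempty := card_pos.1 (cc_pos hn)
    exact integral_emp hne _ hG
  have hconc := D3_conc hP
  rw [Metric.tendsto_atTop] at hconc ⊢
  intro ε hε
  obtain ⟨N1, hN1⟩ := obs_stable D hG (show (0 : ℝ) < ε / 3 by positivity)
  obtain ⟨N2, hN2⟩ := hconc (ε / (3 * (M + 1))) (by positivity)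
  refine ⟨N1 + N2 + 4, ?_⟩
  intro n hn
  have h1 := hN1 n (by omega)
  have h2 := hN2 n (by omega)
  rw [hint n (by omega), hint (n + 1) (by omega), Real.dist_eq, sub_zero]
  rw [Real.dist_eq, sub_zero] at h2
  have hc : (0 : ℝ) < cc n := by exact_mod_cast cc_pos (show 3 ≤ n by omega)
  have hc1 : (0 : ℝ) < cc (n + 1) := by exact_mod_cast cc_pos (show 3 ≤ n + 1 by omega)
  have hn4 : (4 : ℝ) ≤ n := by exact_mod_cast (show 4 ≤ n by omega)
  have hn2 : (0 : ℝ) < (n : ℝ) - 2 := by linarith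
  have hn5 : (0 : ℝ) < 2 * (n : ℝ) - 5 := by linarith
  set S : ℝ := ((n : ℝ) - 2) * ((2 * n - 5) * cc n) with hS
  have hSpos : 0 < S := by positivity
  have hsum := sum_D_mul (n := n) (by omega) f (obs_relInv D G (by omega))
  set A : ℝ := (∑ F ∈ Tri (n + 1), (D3 (n + 1) F : ℝ) * f F) / S with hA
  -- first difference
  have hd1 : |A - (∑ F ∈ Tri n, f F) / cc n| ≤ ε / 3 := by
    have e1 : (∑ F ∈ Tri n, ∑ _t ∈ cf F, f F) = (2 * n - 5) * ∑ F ∈ Tri n, f F := by
      rw [Finset.mul_sum]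
      refine Finset.sum_congr rfl fun F hF => ?_
      have h3 := card_cf hF
      have h4 : ((cf F).card : ℝ) + 5 = 2 * n := by exact_mod_cast h3
      rw [Finset.sum_const, nsmul_eq_mul]
      congr 1
      linarith
    have e2 : A - (∑ F ∈ Tri n, f F) / cc n
        = (∑ F ∈ Tri n, ∑ t ∈ cf F, (f (ins F n t.1 t.2.1 t.2.2) - f F)) / ((2 * n - 5) * cc n) := by
      have e3 : (∑ F ∈ Tri n, ∑ t ∈ cf F, (f (ins F n t.1 t.2.1 t.2.2) - f F))
          = (∑ F ∈ Tri n, ∑ t ∈ cf F, f (ins F n t.1 t.2.1 t.2.2))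
            - ∑ F ∈ Tri n, ∑ _t ∈ cf F, f F := by
        rw [← Finset.sum_sub_distrib]
        refine Finset.sum_congr rfl fun F _ => ?_
        rw [← Finset.sum_sub_distrib]
      rw [e3, e1, hA, hsum, hS]
      generalize (∑ F ∈ Tri n, ∑ t ∈ cf F, f (ins F n t.1 t.2.1 t.2.2)) = X
      generalize (∑ F ∈ Tri n, f F) = Y
      have h3 : (2 * (n : ℝ) - 5) ≠ 0 := hn5.ne'
      have h4 : ((n : ℝ) - 2) ≠ 0 := hn2.ne'
      have h5 : (cc n : ℝ) ≠ 0 := hc.ne'
      rw [mul_div_mul_left _ _ h4, sub_div, mul_div_mul_left _ _ h3]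
    rw [e2, abs_div, abs_of_pos (show (0 : ℝ) < (2 * n - 5) * cc n by positivity),
      div_le_iff₀ (by positivity)]
    calc |∑ F ∈ Tri n, ∑ t ∈ cf F, (f (ins F n t.1 t.2.1 t.2.2) - f F)|
        ≤ ∑ F ∈ Tri n, |∑ t ∈ cf F, (f (ins F n t.1 t.2.1 t.2.2) - f F)| :=
          Finset.abs_sum_le_sum_abs _ _
      _ ≤ ∑ F ∈ Tri n, (2 * n - 5) * (ε / 3) := by
          refine Finset.sum_le_sum fun F hF => ?_
          refine (Finset.abs_sum_le_sum_abs _ _).trans ?_
          have h3 := card_cf hF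
          have h4 : ((cf F).card : ℝ) + 5 = 2 * n := by exact_mod_cast h3
          have h5 : ((cf F).card : ℝ) = 2 * n - 5 := by linarith
          rw [← h5]
          refine (Finset.sum_le_card_nsmul _ _ _ (fun t ht => h1 F hF t ht)).trans ?_
          rw [nsmul_eq_mul]
      _ = ε / 3 * ((2 * n - 5) * cc n) := by
          rw [Finset.sum_const, nsmul_eq_mul]
          have : ((Tri n).card : ℝ) = cc n := rfl
          rw [this]; ring
  -- second difference
  have hd2 : |(∑ F ∈ Tri (n + 1), f F) / cc (n + 1) - A| ≤ ε / 3 := by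
    have e4 : (∑ F ∈ Tri (n + 1), f F) / cc (n + 1) - A
        = -((∑ F ∈ Tri (n + 1), f F * ((D3 (n + 1) F : ℝ) * cc (n + 1) / S - 1)) / cc (n + 1)) := by
      have e5 : (∑ F ∈ Tri (n + 1), f F * ((D3 (n + 1) F : ℝ) * cc (n + 1) / S - 1))
          = (cc (n + 1) / S) * (∑ F ∈ Tri (n + 1), (D3 (n + 1) F : ℝ) * f F)
            - ∑ F ∈ Tri (n + 1), f F := by
        rw [Finset.mul_sum, ← Finset.sum_sub_distrib]
        refine Finset.sum_congr rfl fun F _ => ?_
        field_simp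
      rw [e5, hA]
      field_simp
      ring
    rw [e4, abs_neg, abs_div, abs_of_pos hc1, div_le_iff₀ hc1]
    have h6 : (∑ F ∈ Tri (n + 1), |(D3 (n + 1) F : ℝ) * cc (n + 1) / S - 1|) / cc (n + 1)
        ≤ ε / (3 * (M + 1)) := (le_abs_self _).trans h2.le
    rw [div_le_iff₀ hc1] at h6
    calc |∑ F ∈ Tri (n + 1), f F * ((D3 (n + 1) F : ℝ) * cc (n + 1) / S - 1)|
        ≤ ∑ F ∈ Tri (n + 1), |f F * ((D3 (n + 1) F : ℝ) * cc (n + 1) / S - 1)| :=
          Finset.abs_sum_le_sum_abs _ _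
      _ ≤ ∑ F ∈ Tri (n + 1), M * |(D3 (n + 1) F : ℝ) * cc (n + 1) / S - 1| := by
          refine Finset.sum_le_sum fun F _ => ?_
          rw [abs_mul]
          exact mul_le_mul_of_nonneg_right (hfM F) (abs_nonneg _)
      _ = M * ∑ F ∈ Tri (n + 1), |(D3 (n + 1) F : ℝ) * cc (n + 1) / S - 1| := by
          rw [Finset.mul_sum]
      _ ≤ M * (ε / (3 * (M + 1)) * cc (n + 1)) := by gcongr
      _ ≤ ε / 3 * cc (n + 1) := by
          rw [← mul_assoc]
          apply mul_le_mul_of_nonneg_right _ hc1.le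
          have h7 : M * (ε / (3 * (M + 1))) = (ε / 3) * (M / (M + 1)) := by field_simp
          rw [h7]
          have h8 : M / (M + 1) ≤ 1 := by
            rw [div_le_one (by linarith)]; linarith
          nlinarith
  calc |(∑ F ∈ Tri (n + 1), f F) / cc (n + 1) - (∑ F ∈ Tri n, f F) / cc n|
      = |((∑ F ∈ Tri (n + 1), f F) / cc (n + 1) - A) + (A - (∑ F ∈ Tri n, f F) / cc n)| := by
        congr 1; ring
    _ ≤ ε / 3 + ε / 3 := (abs_add_le _ _).trans (add_le_add hd2 hd1)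
    _ < ε := by linarith

end Pool.Agent.CPL
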