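import Pool.Agent.CPL.POL

set_option autoImplicit false

/-!
# Stability of the normalisation

`exists_polar` for `C = B * A⁻¹`: for `x ∈ ℂ` put `(p, q) = A (x, 1) ≠ 0`, then `C (p, q) = B (x, 1)`, so with `y_i = sph A (x i)`, `y'_i = R (sph B (x i))`:
`‖y'_i - y_i‖² ≤ 2 (⟨y'_i, e⟩ - ⟨y_i, e⟩)`. Sum over `i ∈ s`: `∑ y'_i = R 0 = 0` and `∑_{i ∈ s} y_i = - ∑_{i ∈ t \ s} y_i`, of norm at most `|t \ s| ≤ m`.
-/

namespace Pool.Agent.CPL

open Finset

variable {ι : Type*} [DecidableEq ι]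

private theorem nrm_ne {A : Matrix (Fin 2) (Fin 2) ℂ} (hA : A.det ≠ 0) (x : ℂ) :
    A 0 0 * x + A 0 1 ≠ 0 ∨ A 1 0 * x + A 1 1 ≠ 0 := by
  by_contra hcon
  push Not at hcon
  obtain ⟨c1, c2⟩ := hcon
  rw [Matrix.det_fin_two] at hA
  have e1 : A 0 0 * A 1 1 - A 0 1 * A 1 0 = 0 := by
    have k1 : A 0 1 = -(A 0 0 * x) := by linear_combination c1
    have k2 : A 1 1 = -(A 1 0 * x) := by linear_combination c2
    rw [k1, k2]; ring
  exact hA e1

theorem sph_val {A : Matrix (Fin 2) (Fin 2) ℂ} (hA : A.det ≠ 0) (x : ℂ) :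
    (sph A x : E3) = hopf (A 0 0 * x + A 0 1) (A 1 0 * x + A 1 1) := by
  unfold sph
  rw [dif_pos (hopf_mem (nrm_ne hA x))]

theorem exists_rot_close {s t : Finset ι} (hst : s ⊆ t) {m : ℕ} (hm : (t \ s).card ≤ m)
    (x : ι → ℂ) {A B : Matrix (Fin 2) (Fin 2) ℂ} (hA : A.det ≠ 0) (hB : B.det ≠ 0)
    (hAx : ∑ i ∈ t, (sph A (x i) : E3) = 0) (hBx : ∑ i ∈ s, (sph B (x i) : E3) = 0) :
    ∃ R : SO3, ∑ i ∈ s, ‖(rotS R (sph B (x i)) : E3) - sph A (x i)‖ ^ 2 ≤ 2 * m := by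
  have hAu : IsUnit A.det := isUnit_iff_ne_zero.mpr hA
  set C := B * A⁻¹ with hC
  have hCA : C * A = B := by rw [hC, Matrix.mul_assoc, Matrix.nonsing_inv_mul _ hAu, Matrix.mul_one]
  have hCdet : C.det ≠ 0 := by
    intro h
    apply hB
    rw [← hCA, Matrix.det_mul, h, zero_mul]
  obtain ⟨R, e, he, hpol⟩ := exists_polar C hCdet
  refine ⟨R, ?_⟩
  have hent : ∀ i j, B i j = C i 0 * A 0 j + C i 1 * A 1 j := by
    intro i j
    rw [← hCA, Matrix.mul_apply, Fin.sum_univ_two]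
  have key : ∀ y : ℂ, ‖(rotS R (sph B y) : E3) - sph A y‖ ^ 2 ≤
      2 * (inner ℝ (rotS R (sph B y) : E3) e - inner ℝ (sph A y : E3) e) := by
    intro y
    have h1 : (rotS R (sph B y) : E3) = mv R.1 (hopf (B 0 0 * y + B 0 1) (B 1 0 * y + B 1 1)) := by
      change mv R.1 (sph B y : E3) = _
      rw [sph_val hB]
    have h2 := hpol _ _ (nrm_ne hA y)
    have e1 : C 0 0 * (A 0 0 * y + A 0 1) + C 0 1 * (A 1 0 * y + A 1 1) = B 0 0 * y + B 0 1 := by
      rw [hent 0 0, hent 0 1]; ring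
    have e2 : C 1 0 * (A 0 0 * y + A 0 1) + C 1 1 * (A 1 0 * y + A 1 1) = B 1 0 * y + B 1 1 := by
      rw [hent 1 0, hent 1 1]; ring
    rw [e1, e2] at h2
    rw [h1, sph_val hA]
    exact h2
  have hrot : ∑ i ∈ s, (rotS R (sph B (x i)) : E3) = 0 := by
    have hlin : ∀ u : Finset ι, ∑ i ∈ u, (rotS R (sph B (x i)) : E3) =
        mv R.1 (∑ i ∈ u, (sph B (x i) : E3)) := by
      intro u
      induction u using Finset.induction_on with
      | empty => simp [mv]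
      | insert a u ha ih =>
        rw [Finset.sum_insert ha, Finset.sum_insert ha, ih]
        change mv R.1 (sph B (x a) : E3) + _ = _
        simp [mv, Matrix.mulVec_add]
    rw [hlin, hBx]
    simp [mv]
  have hneg : ∑ i ∈ s, (sph A (x i) : E3) = - ∑ i ∈ t \ s, (sph A (x i) : E3) := by
    have := Finset.sum_sdiff (f := fun i => (sph A (x i) : E3)) hst
    rw [hAx] at this
    exact eq_neg_of_add_eq_zero_right this
  have hnorm : ‖∑ i ∈ t \ s, (sph A (x i) : E3)‖ ≤ m := by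
    calc ‖∑ i ∈ t \ s, (sph A (x i) : E3)‖ ≤ ∑ i ∈ t \ s, ‖(sph A (x i) : E3)‖ :=
          norm_sum_le _ _
      _ = ((t \ s).card : ℝ) := by simp
      _ ≤ m := by exact_mod_cast hm
  calc ∑ i ∈ s, ‖(rotS R (sph B (x i)) : E3) - sph A (x i)‖ ^ 2 ≤
      ∑ i ∈ s, 2 * (inner ℝ (rotS R (sph B (x i)) : E3) e - inner ℝ (sph A (x i) : E3) e) :=
        Finset.sum_le_sum fun i _ => key (x i)
    _ = 2 * (inner ℝ (∑ i ∈ s, (rotS R (sph B (x i)) : E3)) e -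
        inner ℝ (∑ i ∈ s, (sph A (x i) : E3)) e) := by
        rw [← Finset.mul_sum, Finset.sum_sub_distrib, sum_inner, sum_inner]
    _ = 2 * inner ℝ (∑ i ∈ t \ s, (sph A (x i) : E3)) e := by
        rw [hrot, hneg, inner_zero_left, inner_neg_left]; ring
    _ ≤ 2 * (‖∑ i ∈ t \ s, (sph A (x i) : E3)‖ * ‖e‖) := by
        have := real_inner_le_norm (∑ i ∈ t \ s, (sph A (x i) : E3)) e
        linarith
    _ ≤ 2 * m := by rw [he, mul_one]; linarith

end Pool.Agent.CPL
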