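import Pool.Agent.CPL.HOP

set_option autoImplicit false

/-!
# Polar decomposition of a Möbius transformation

For `C` with `det C ≠ 0` (scale such that `det C = 1`, `hopf_smul`; every complex number is a square): `H = Cᴴ C` is positive definite with determinant `1`, `H² = (tr H) H - 1`, so
`P = (H + 1) / √(tr H + 2)` satisfies `P² = H`, `U = C P⁻¹` is in `SU(2)`, `C = U P`. `R₀` the rotation of `U` (`exists_rot_of_unitary`), `R = R₀⁻¹`: `R hopf (C ξ) = hopf (P ξ)`.
Write `P = τ 1 + δ (e · σ)` with a unit vector `e` (Pauli matrices; `P = ((τ + δ e₃, δ (e₁ + i e₂)), (δ (e₁ - i e₂), τ - δ e₃))` up to the sign convention of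
`e₂` matching `hopf`), `0 ≤ δ < τ`. With `x = hopf ξ`, `x' = hopf (P ξ)`, `s = ⟨e, x⟩`: `N x' = (τ² - δ²) x + (2 τ δ + 2 δ² s) e`, `N = τ² + δ² + 2 τ δ s > 0`. So
`N (1 - ⟨x', x⟩) = 2 δ² (1 - s²)`, `N (⟨x', e⟩ - s) = 2 τ δ (1 - s²)`, and `|x' - x|² = 2 - 2⟨x', x⟩ ≤ 2 (⟨x', e⟩ - ⟨x, e⟩)`.
-/

namespace Pool.Agent.CPL

/-- the inequality in coordinates -/
private theorem pol_ineq {x1 x2 x3 y1 y2 y3 v1 v2 v3 τ δ N : ℝ}
    (hx : x1 ^ 2 + x2 ^ 2 + x3 ^ 2 = 1) (hy : y1 ^ 2 + y2 ^ 2 + y3 ^ 2 = 1)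
    (hv : v1 ^ 2 + v2 ^ 2 + v3 ^ 2 = δ ^ 2) (hδ : 0 < δ) (hτ : δ ≤ τ) (hN : 0 < N)
    (hNe : N = τ ^ 2 + δ ^ 2 + 2 * τ * (v1 * x1 + v2 * x2 + v3 * x3))
    (h1 : N * y1 = (τ ^ 2 - δ ^ 2) * x1 + (2 * τ + 2 * (v1 * x1 + v2 * x2 + v3 * x3)) * v1)
    (h2 : N * y2 = (τ ^ 2 - δ ^ 2) * x2 + (2 * τ + 2 * (v1 * x1 + v2 * x2 + v3 * x3)) * v2)
    (h3 : N * y3 = (τ ^ 2 - δ ^ 2) * x3 + (2 * τ + 2 * (v1 * x1 + v2 * x2 + v3 * x3)) * v3) :
    (y1 - x1) ^ 2 + (y2 - x2) ^ 2 + (y3 - x3) ^ 2 ≤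
      2 * ((y1 * (v1 / δ) + y2 * (v2 / δ) + y3 * (v3 / δ)) -
        (x1 * (v1 / δ) + x2 * (v2 / δ) + x3 * (v3 / δ))) := by
  set s := v1 * x1 + v2 * x2 + v3 * x3 with hs
  have hD : 0 ≤ δ ^ 2 - s ^ 2 := by
    rw [← hv, hs]
    have hcs : (v1 * x1 + v2 * x2 + v3 * x3) ^ 2 ≤
        (v1 ^ 2 + v2 ^ 2 + v3 ^ 2) * (x1 ^ 2 + x2 ^ 2 + x3 ^ 2) := by
      nlinarith [sq_nonneg (v1 * x2 - v2 * x1), sq_nonneg (v1 * x3 - v3 * x1),
        sq_nonneg (v2 * x3 - v3 * x2)]
    rw [hx, mul_one] at hcs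
    linarith
  have e1 : N * (1 - (y1 * x1 + y2 * x2 + y3 * x3)) = 2 * (δ ^ 2 - s ^ 2) := by
    have : N * (y1 * x1 + y2 * x2 + y3 * x3) =
        (τ ^ 2 - δ ^ 2) * (x1 ^ 2 + x2 ^ 2 + x3 ^ 2) + (2 * τ + 2 * s) * s := by
      calc N * (y1 * x1 + y2 * x2 + y3 * x3) = (N * y1) * x1 + (N * y2) * x2 + (N * y3) * x3 := by
            ring
        _ = _ := by rw [h1, h2, h3, hs]; ring
    rw [mul_sub, this, hx, hNe]
    ring
  have e2 : N * ((y1 * v1 + y2 * v2 + y3 * v3) - s) = 2 * τ * (δ ^ 2 - s ^ 2) := by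
    have : N * (y1 * v1 + y2 * v2 + y3 * v3) =
        (τ ^ 2 - δ ^ 2) * s + (2 * τ + 2 * s) * (v1 ^ 2 + v2 ^ 2 + v3 ^ 2) := by
      calc N * (y1 * v1 + y2 * v2 + y3 * v3) = (N * y1) * v1 + (N * y2) * v2 + (N * y3) * v3 := by
            ring
        _ = _ := by rw [h1, h2, h3, hs]; ring
    rw [mul_sub, this, hv, hNe]
    ring
  have e3 : 1 - (y1 * x1 + y2 * x2 + y3 * x3) = 2 * (δ ^ 2 - s ^ 2) / N := by
    rw [eq_div_iff hN.ne']; linarith
  have e4 : (y1 * v1 + y2 * v2 + y3 * v3) - s = 2 * τ * (δ ^ 2 - s ^ 2) / N := by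
    rw [eq_div_iff hN.ne']; linarith
  have e5 : (y1 * (v1 / δ) + y2 * (v2 / δ) + y3 * (v3 / δ)) -
        (x1 * (v1 / δ) + x2 * (v2 / δ) + x3 * (v3 / δ)) =
        ((y1 * v1 + y2 * v2 + y3 * v3) - s) / δ := by
    rw [hs]; field_simp
  have e6 : (y1 - x1) ^ 2 + (y2 - x2) ^ 2 + (y3 - x3) ^ 2 =
      2 * (1 - (y1 * x1 + y2 * x2 + y3 * x3)) := by
    have : (y1 - x1) ^ 2 + (y2 - x2) ^ 2 + (y3 - x3) ^ 2 = (y1 ^ 2 + y2 ^ 2 + y3 ^ 2) +
      (x1 ^ 2 + x2 ^ 2 + x3 ^ 2) - 2 * (y1 * x1 + y2 * x2 + y3 * x3) := by ring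
    rw [this, hx, hy]; ring
  rw [e5, e6, e3, e4]
  have : 2 * (δ ^ 2 - s ^ 2) / N ≤ 2 * τ * (δ ^ 2 - s ^ 2) / N / δ := by
    rw [div_div, div_le_div_iff₀ hN (by positivity)]
    have : 2 * (δ ^ 2 - s ^ 2) * (N * δ) ≤ 2 * (δ ^ 2 - s ^ 2) * (N * τ) := by
      have := mul_le_mul_of_nonneg_left hτ hN.le
      exact mul_le_mul_of_nonneg_left this (by linarith)
    nlinarith [this]
  linarith

private theorem pol_gen {n n' Y X X1 X2 X3 v v1 v2 v3 τ δ2 : ℝ} (hn : n ≠ 0) (hn' : n' ≠ 0)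
    (h : Y = (τ ^ 2 - δ2) * X + (2 * τ * n + 2 * (v1 * X1 + v2 * X2 + v3 * X3)) * v) :
    n' / n * (Y / n') = (τ ^ 2 - δ2) * (X / n) +
      (2 * τ + 2 * (v1 * (X1 / n) + v2 * (X2 / n) + v3 * (X3 / n))) * v := by
  rw [h]
  field_simp

/-- positive Hermitian matrices -/
private theorem pol_herm (A B : ℝ) (β : ℂ) (hdet : 0 < A * B - Complex.normSq β)
    (htr : 0 < A + B) :
    ∃ e : E3, ‖e‖ = 1 ∧ ∀ p q : ℂ, (p ≠ 0 ∨ q ≠ 0) →
      ‖hopf (A * p + β * q) ((starRingEnd ℂ) β * p + B * q) - hopf p q‖ ^ 2 ≤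
        2 * (inner ℝ (hopf (A * p + β * q) ((starRingEnd ℂ) β * p + B * q)) e -
          inner ℝ (hopf p q) e) := by
  set δ := Real.sqrt (β.re ^ 2 + β.im ^ 2 + ((A - B) / 2) ^ 2) with hδ
  have hδ2 : β.re ^ 2 + β.im ^ 2 + ((A - B) / 2) ^ 2 = δ ^ 2 := by
    rw [hδ, Real.sq_sqrt (by positivity)]
  have hδ0 : 0 ≤ δ := Real.sqrt_nonneg _
  rw [Complex.normSq_apply] at hdet
  have hτδ : δ ≤ (A + B) / 2 := by
    by_contra hcon
    push Not at hcon
    nlinarith [hδ2]
  rcases hδ0.eq_or_lt with h0 | hpos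
  · -- a scalar matrix
    rw [← h0] at hδ2
    have hb1 : β.re = 0 := by nlinarith [sq_nonneg β.re, sq_nonneg β.im, sq_nonneg ((A - B) / 2)]
    have hb2 : β.im = 0 := by nlinarith [sq_nonneg β.re, sq_nonneg β.im, sq_nonneg ((A - B) / 2)]
    have hAB : A = B := by nlinarith [sq_nonneg β.re, sq_nonneg β.im, sq_nonneg ((A - B) / 2)]
    have hb : β = 0 := Complex.ext hb1 hb2
    refine ⟨EuclideanSpace.single 2 1, by simp, fun p q _ => ?_⟩
    have hA : (A : ℂ) ≠ 0 := by
      have : A ≠ 0 := by intro h; rw [← hAB, h] at htr; simp at htr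
      exact_mod_cast this
    have : hopf (A * p + β * q) ((starRingEnd ℂ) β * p + B * q) = hopf p q := by
      rw [hb, ← hAB]
      simp only [zero_mul, add_zero, map_zero, zero_add]
      exact hopf_smul hA
    rw [this]; simp
  · refine ⟨!₂[β.re / δ, β.im / δ, ((A - B) / 2) / δ], ?_, fun p q hpq => ?_⟩
    · rw [EuclideanSpace.norm_eq, Fin.sum_univ_three]
      simp only [Real.norm_eq_abs, sq_abs]
      have : (β.re / δ) ^ 2 + (β.im / δ) ^ 2 + (((A - B) / 2) / δ) ^ 2 = 1 := by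
        have : (β.re / δ) ^ 2 + (β.im / δ) ^ 2 + (((A - B) / 2) / δ) ^ 2 =
          (β.re ^ 2 + β.im ^ 2 + ((A - B) / 2) ^ 2) / δ ^ 2 := by ring
        rw [this, hδ2, div_self (by positivity)]
      simpa using this
    · have hx1 := hopf_mem hpq
      have hpq' : ((A : ℂ) * p + β * q ≠ 0 ∨ (starRingEnd ℂ) β * p + (B : ℂ) * q ≠ 0) := by
        by_contra hcon
        push Not at hcon
        obtain ⟨c1, c2⟩ := hcon
        have hββ : β * (starRingEnd ℂ) β = ((β.re * β.re + β.im * β.im : ℝ) : ℂ) := by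
          rw [Complex.mul_conj, Complex.normSq_apply]
        have hD : ((A * B - (β.re * β.re + β.im * β.im) : ℝ) : ℂ) ≠ 0 := by
          exact_mod_cast hdet.ne'
        have k1 : ((A * B - (β.re * β.re + β.im * β.im) : ℝ) : ℂ) * p = 0 := by
          calc ((A * B - (β.re * β.re + β.im * β.im) : ℝ) : ℂ) * p =
              (A : ℂ) * B * p - ((β.re * β.re + β.im * β.im : ℝ) : ℂ) * p := by push_cast; ring
            _ = (B : ℂ) * ((A : ℂ) * p + β * q) - β * ((starRingEnd ℂ) β * p + (B : ℂ) * q) := by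
                rw [← hββ]; ring
            _ = 0 := by rw [c1, c2]; ring
        have k2 : ((A * B - (β.re * β.re + β.im * β.im) : ℝ) : ℂ) * q = 0 := by
          calc ((A * B - (β.re * β.re + β.im * β.im) : ℝ) : ℂ) * q =
              (A : ℂ) * B * q - ((β.re * β.re + β.im * β.im : ℝ) : ℂ) * q := by push_cast; ring
            _ = (A : ℂ) * ((starRingEnd ℂ) β * p + (B : ℂ) * q) -
                (starRingEnd ℂ) β * ((A : ℂ) * p + β * q) := by
                rw [← hββ]; ring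
            _ = 0 := by rw [c1, c2]; ring
        have k1' := (mul_eq_zero.mp k1).resolve_left hD
        have k2' := (mul_eq_zero.mp k2).resolve_left hD
        rcases hpq with h | h
        · exact h k1'
        · exact h k2'
      have hy1 := hopf_mem hpq'
      have hn : 0 < Complex.normSq p + Complex.normSq q := by
        rcases hpq with h | h
        · have := Complex.normSq_pos.mpr h
          have := Complex.normSq_nonneg q
          linarith
        · have := Complex.normSq_pos.mpr h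
          have := Complex.normSq_nonneg p
          linarith
      have hn' : 0 < Complex.normSq ((A : ℂ) * p + β * q) +
          Complex.normSq ((starRingEnd ℂ) β * p + (B : ℂ) * q) := by
        rcases hpq' with h | h
        · have := Complex.normSq_pos.mpr h
          have := Complex.normSq_nonneg ((starRingEnd ℂ) β * p + (B : ℂ) * q)
          linarith
        · have := Complex.normSq_pos.mpr h
          have := Complex.normSq_nonneg ((A : ℂ) * p + β * q)
          linarith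
      rw [mem_sphere_zero_iff_norm] at hx1 hy1
      have hx2 : (hopf p q) 0 ^ 2 + (hopf p q) 1 ^ 2 + (hopf p q) 2 ^ 2 = 1 := by
        have := EuclideanSpace.norm_sq_eq (hopf p q)
        rw [hx1, Fin.sum_univ_three] at this
        simp only [Real.norm_eq_abs, sq_abs] at this
        linarith
      have hy2 : (hopf (A * p + β * q) ((starRingEnd ℂ) β * p + B * q)) 0 ^ 2 +
          (hopf (A * p + β * q) ((starRingEnd ℂ) β * p + B * q)) 1 ^ 2 +
          (hopf (A * p + β * q) ((starRingEnd ℂ) β * p + B * q)) 2 ^ 2 = 1 := by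
        have := EuclideanSpace.norm_sq_eq (hopf (A * p + β * q) ((starRingEnd ℂ) β * p + B * q))
        rw [hy1, Fin.sum_univ_three] at this
        simp only [Real.norm_eq_abs, sq_abs] at this
        linarith
      rw [EuclideanSpace.norm_sq_eq, Fin.sum_univ_three]
      simp only [PiLp.inner_apply, Fin.sum_univ_three, PiLp.sub_apply, Real.norm_eq_abs, sq_abs]
      have hp0 : ∀ p q : ℂ, (hopf p q) 0 =
        2 * (p * (starRingEnd ℂ) q).re / (Complex.normSq p + Complex.normSq q) := fun _ _ => rfl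
      have hp1 : ∀ p q : ℂ, (hopf p q) 1 =
        2 * (p * (starRingEnd ℂ) q).im / (Complex.normSq p + Complex.normSq q) := fun _ _ => rfl
      have hp2 : ∀ p q : ℂ, (hopf p q) 2 =
        (Complex.normSq p - Complex.normSq q) / (Complex.normSq p + Complex.normSq q) :=
        fun _ _ => rfl
      have key := pol_ineq (N := (Complex.normSq ((A : ℂ) * p + β * q) +
          Complex.normSq ((starRingEnd ℂ) β * p + (B : ℂ) * q)) /
          (Complex.normSq p + Complex.normSq q)) (τ := (A + B) / 2) hx2 hy2 hδ2 hpos hτδ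
          (div_pos hn' hn) ?_ ?_ ?_ ?_
      · simpa [mul_comm] using key
      · rw [hp0, hp1, hp2, ← hδ2, div_eq_iff hn.ne']
        have : (((A + B) / 2) ^ 2 + (β.re ^ 2 + β.im ^ 2 + ((A - B) / 2) ^ 2) + 2 * ((A + B) / 2) *
            (β.re * (2 * (p * (starRingEnd ℂ) q).re / (Complex.normSq p + Complex.normSq q)) +
            β.im * (2 * (p * (starRingEnd ℂ) q).im / (Complex.normSq p + Complex.normSq q)) +
            (A - B) / 2 * ((Complex.normSq p - Complex.normSq q) /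
              (Complex.normSq p + Complex.normSq q)))) *
            (Complex.normSq p + Complex.normSq q) =
            (((A + B) / 2) ^ 2 + (β.re ^ 2 + β.im ^ 2 + ((A - B) / 2) ^ 2)) *
              (Complex.normSq p + Complex.normSq q) + 2 * ((A + B) / 2) *
            (β.re * (2 * (p * (starRingEnd ℂ) q).re) + β.im * (2 * (p * (starRingEnd ℂ) q).im) +
            (A - B) / 2 * (Complex.normSq p - Complex.normSq q)) := by
          field_simp
        rw [this]
        simp only [Complex.normSq_apply, Complex.mul_re, Complex.mul_im, Complex.add_re,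
          Complex.add_im, Complex.conj_re, Complex.conj_im, Complex.ofReal_re, Complex.ofReal_im]
        ring
      all_goals
        simp only [hp0, hp1, hp2]
        rw [← hδ2]
        refine pol_gen hn.ne' hn'.ne' ?_
        simp only [Complex.normSq_apply, Complex.mul_re, Complex.mul_im, Complex.add_re,
          Complex.add_im, Complex.conj_re, Complex.conj_im, Complex.ofReal_re, Complex.ofReal_im]
        ring

theorem exists_polar (C : Matrix (Fin 2) (Fin 2) ℂ) (hC : C.det ≠ 0) :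
    ∃ (R : SO3) (e : E3), ‖e‖ = 1 ∧ ∀ p q : ℂ, (p ≠ 0 ∨ q ≠ 0) →
      ‖mv R.1 (hopf (C 0 0 * p + C 0 1 * q) (C 1 0 * p + C 1 1 * q)) - hopf p q‖ ^ 2 ≤
        2 * (inner ℝ (mv R.1 (hopf (C 0 0 * p + C 0 1 * q) (C 1 0 * p + C 1 1 * q))) e -
          inner ℝ (hopf p q) e) := by
  obtain ⟨s, hs⟩ : ∃ s : ℂ, s ^ 2 = (C.det)⁻¹ := IsAlgClosed.exists_pow_nat_eq _ (by norm_num)
  have hs0 : s ≠ 0 := by
    rintro rfl
    have : (C.det)⁻¹ = 0 := by rw [← hs]; simp
    exact hC (inv_eq_zero.mp this)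
  set c00 := s * C 0 0 with h00
  set c01 := s * C 0 1 with h01
  set c10 := s * C 1 0 with h10
  set c11 := s * C 1 1 with h11
  have hdet : c00 * c11 - c01 * c10 = 1 := by
    rw [Matrix.det_fin_two] at hs hC
    rw [h00, h01, h10, h11]
    calc s * C 0 0 * (s * C 1 1) - s * C 0 1 * (s * C 1 0) =
        s ^ 2 * (C 0 0 * C 1 1 - C 0 1 * C 1 0) := by ring
      _ = 1 := by rw [hs]; exact inv_mul_cancel₀ hC
  set α := Complex.normSq c00 + Complex.normSq c10 with hα
  set γ := Complex.normSq c01 + Complex.normSq c11 with hγ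
  set β := (starRingEnd ℂ) c00 * c01 + (starRingEnd ℂ) c10 * c11 with hβ
  have hα0 : 0 ≤ α := add_nonneg (Complex.normSq_nonneg _) (Complex.normSq_nonneg _)
  have hγ0 : 0 ≤ γ := add_nonneg (Complex.normSq_nonneg _) (Complex.normSq_nonneg _)
  have hre : c00.re * c11.re - c00.im * c11.im - (c01.re * c10.re - c01.im * c10.im) = 1 := by
    have := congrArg Complex.re hdet
    simpa using this
  have him : c00.re * c11.im + c00.im * c11.re - (c01.re * c10.im + c01.im * c10.re) = 0 := by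
    have := congrArg Complex.im hdet
    simpa using this
  have hH : α * γ - Complex.normSq β = 1 := by
    have e : α * γ - Complex.normSq β =
        (c00.re * c11.re - c00.im * c11.im - (c01.re * c10.re - c01.im * c10.im)) ^ 2 +
        (c00.re * c11.im + c00.im * c11.re - (c01.re * c10.im + c01.im * c10.re)) ^ 2 := by
      rw [hα, hγ, hβ]
      simp only [Complex.normSq_apply, Complex.mul_re, Complex.mul_im, Complex.add_re,
          Complex.add_im, Complex.conj_re, Complex.conj_im]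
      ring
    rw [e, hre, him]; norm_num
  obtain ⟨e, he, hpol⟩ := pol_herm (α + 1) (γ + 1) β (by nlinarith) (by linarith)
  set t := Real.sqrt (α + γ + 2) with ht
  have ht0 : 0 < t := Real.sqrt_pos.mpr (by linarith)
  have ht2 : t ^ 2 = α + γ + 2 := by rw [ht, Real.sq_sqrt (by linarith)]
  have htc : (t : ℂ) ≠ 0 := by exact_mod_cast ht0.ne'
  set a : ℂ := (c00 + (starRingEnd ℂ) c11) / t with ha
  set b : ℂ := (c01 - (starRingEnd ℂ) c10) / t with hb
  have hab : Complex.normSq ((starRingEnd ℂ) a) + Complex.normSq (-b) = 1 := by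
    rw [Complex.normSq_conj, Complex.normSq_neg, ha, hb, map_div₀, map_div₀, ← add_div,
      Complex.normSq_ofReal, ← sq, ht2, div_eq_one_iff_eq (by linarith), hα, hγ]
    simp only [Complex.normSq_apply, Complex.add_re,
          Complex.add_im, Complex.conj_re, Complex.conj_im, Complex.sub_re, Complex.sub_im]
    linear_combination 2 * hre
  obtain ⟨R, hR⟩ := exists_rot_of_unitary ((starRingEnd ℂ) a) (-b) hab
  refine ⟨R, e, he, fun p q hpq => ?_⟩
  have hkey : mv R.1 (hopf (C 0 0 * p + C 0 1 * q) (C 1 0 * p + C 1 1 * q)) =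
      hopf (((α + 1 : ℝ) : ℂ) * p + β * q) ((starRingEnd ℂ) β * p + ((γ + 1 : ℝ) : ℂ) * q) := by
    rw [← hopf_smul (p := C 0 0 * p + C 0 1 * q) (q := C 1 0 * p + C 1 1 * q) hs0, ← hR,
      ← hopf_smul htc]
    have hαc : (α : ℂ) = c00 * (starRingEnd ℂ) c00 + c10 * (starRingEnd ℂ) c10 := by
      rw [Complex.mul_conj, Complex.mul_conj, hα]; push_cast; ring
    have hγc : (γ : ℂ) = c01 * (starRingEnd ℂ) c01 + c11 * (starRingEnd ℂ) c11 := by
      rw [Complex.mul_conj, Complex.mul_conj, hγ]; push_cast; ring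
    have ta : (t : ℂ) * a = c00 + (starRingEnd ℂ) c11 := by rw [ha]; field_simp
    have tb : (t : ℂ) * b = c01 - (starRingEnd ℂ) c10 := by rw [hb]; field_simp
    have tac : (t : ℂ) * (starRingEnd ℂ) a = (starRingEnd ℂ) c00 + c11 := by
      have := congrArg (starRingEnd ℂ) ta
      simpa using this
    have tbc : (t : ℂ) * (starRingEnd ℂ) b = (starRingEnd ℂ) c01 - c10 := by
      have := congrArg (starRingEnd ℂ) tb
      simpa using this
    have hdetc : (starRingEnd ℂ) c00 * (starRingEnd ℂ) c11 -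
        (starRingEnd ℂ) c01 * (starRingEnd ℂ) c10 = 1 := by
      have := congrArg (starRingEnd ℂ) hdet
      simpa using this
    congr 1
    · calc (t : ℂ) * ((starRingEnd ℂ) a * (s * (C 0 0 * p + C 0 1 * q)) +
            -b * (s * (C 1 0 * p + C 1 1 * q))) =
            (t * (starRingEnd ℂ) a) * (c00 * p + c01 * q) - (t * b) * (c10 * p + c11 * q) := by
            rw [h00, h01, h10, h11]; ring
        _ = _ := by
            rw [tac, tb]; push_cast; rw [hαc, hβ]
            linear_combination p * hdet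
    · calc (t : ℂ) * (-(starRingEnd ℂ) (-b) * (s * (C 0 0 * p + C 0 1 * q)) +
            (starRingEnd ℂ) ((starRingEnd ℂ) a) * (s * (C 1 0 * p + C 1 1 * q))) =
            (t * (starRingEnd ℂ) b) * (c00 * p + c01 * q) + (t * a) * (c10 * p + c11 * q) := by
            rw [h00, h01, h10, h11]; simp only [map_neg, Complex.conj_conj]; ring
        _ = _ := by
            rw [ta, tbc]; push_cast; rw [hγc, hβ]
            simp only [map_add, map_mul, Complex.conj_conj]
            linear_combination q * hdet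
  rw [hkey]
  exact hpol p q hpq

end Pool.Agent.CPL
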