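import Pool.Agent.CPL.SUM

set_option autoImplicit false

/-!
# Uniqueness of the radii

Let `v` maximise `r' v / r v` over `V`, and suppose the maximum `ρ` is `> 1`. The set of vertices with ratio `ρ` contains no root vertex (ratio `1`) and is closed under adjacency: for
an inner `v` with ratio `ρ`, `r' a / r' v ≤ r a / r v` for all neighbours `a`; with `x = r_a / r_v`, `r_a / (r_v + r_a) = x / (1 + x)` increasing in `x`, `cos_ang` gives
`ang' ≤ ang` for every face at `v` (`Real.cos` is antitone on `[0, π]`) with strict inequality unless `x, y` are unchanged (`> 0` factors); both sums are `2π` (`angle_sum`), so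
equality everywhere, so every neighbour has ratio `ρ`. `conn_closed` with the root vertex `0 ∈ V`: contradiction. So `r' ≤ r`, and by symmetry `r' = r`.
(No face at an inner vertex is a rotation of the root face.)
-/

namespace Pool.Agent.CPL

open Finset

private theorem rad_frac {ρ p a p' a' : ℝ} (hρ : 0 < ρ) (hp : 0 < p) (ha : 0 < a) (ha' : 0 < a')
    (h1 : p' = ρ * p) (h2 : a' ≤ ρ * a) : a' / (p' + a') ≤ a / (p + a) := by
  subst h1
  rw [div_le_div_iff₀ (by positivity) (by positivity)]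
  nlinarith [mul_pos hρ hp]

private theorem rad_frac_eq {ρ p a p' a' : ℝ} (hρ : 0 < ρ) (hp : 0 < p) (ha : 0 < a) (ha' : 0 < a')
    (h1 : p' = ρ * p) (h2 : a' / (p' + a') = a / (p + a)) : a' = ρ * a := by
  subst h1
  rw [div_eq_div_iff (by positivity) (by positivity)] at h2
  have h3 : p * (a' - ρ * a) = 0 := by linarith
  rcases mul_eq_zero.1 h3 with h | h
  · exact absurd h hp.ne'
  · linarith

private theorem rad_prod_eq {s t s' t' : ℝ} (hs : 0 < s) (ht' : 0 < t')
    (h1 : s' ≤ s) (h2 : t' ≤ t) (h : s' * t' = s * t) : s' = s := by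
  by_contra hne
  have hlt : s' < s := lt_of_le_of_ne h1 hne
  have h3 : s' * t' < s * t' := mul_lt_mul_of_pos_right hlt ht'
  have h4 : s * t' ≤ s * t := mul_le_mul_of_nonneg_left h2 hs.le
  linarith

private theorem rad_not_root {v a b : ℕ} (hv : 3 ≤ v) : (v, a, b) ∉ rots 0 1 2 := by
  rw [mem_rots]
  simp only [Prod.mk.injEq]
  omega

private theorem rad_cos {V : Finset ℕ} {F : Finset Tr} {z : ℕ → ℂ} {r : ℕ → ℝ} (h : IsTri V F)
    (hP : IsPacking V F z r) {v a b : ℕ} (ht : (v, a, b) ∈ F) :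
    Real.cos (ang z v a b) = 1 - 2 * (r a / (r v + r a)) * (r b / (r v + r b)) :=
  cos_ang (hP.pos _ (h.mem _ _ _ ht)) (hP.pos _ (h.mem2 ht)) (hP.pos _ (h.mem3 ht))
    (hP.tan _ _ _ ht) (hP.tan _ _ _ (h.rot _ _ _ ht)) (hP.tan _ _ _ (h.rot2 ht))

private theorem rad_le {V : Finset ℕ} {F : Finset Tr} {z z' : ℕ → ℂ} {r r' : ℕ → ℝ} (h : IsTri V F)
    (h0 : (0, 1, 2) ∈ F) (hP : IsPacking V F z r) (hP' : IsPacking V F z' r') {v : ℕ}
    (hv : v ∈ V) : r' v ≤ r v := by
  have h0V : (0 : ℕ) ∈ V := h.mem _ _ _ h0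
  obtain ⟨v₀, hv₀, hmax⟩ := Finset.exists_max_image V (fun v => r' v / r v) ⟨0, h0V⟩
  set ρ : ℝ := r' v₀ / r v₀ with hρ
  have hρ0 : 0 < ρ := div_pos (hP'.pos _ hv₀) (hP.pos _ hv₀)
  have hle : ∀ w ∈ V, r' w ≤ ρ * r w := by
    intro w hw
    have := hmax w hw
    rwa [div_le_iff₀ (hP.pos _ hw)] at this
  by_contra hcon
  push Not at hcon
  have hρ1 : 1 < ρ := by
    have h1 := hmax v hv
    have h2 : 1 < r' v / r v := by rwa [one_lt_div (hP.pos _ hv)]
    exact lt_of_lt_of_le h2 h1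
  have hclosed := h.conn_closed {w | r' w = ρ * r w} (a := v₀) (b := 0) (by
    show r' v₀ = ρ * r v₀
    rw [hρ, div_mul_cancel₀ _ (hP.pos _ hv₀).ne']) hv₀ (by
    intro x y c hx hxy
    have hx' : r' x = ρ * r x := hx
    have hxV : x ∈ V := h.mem _ _ _ hxy
    have hx3 : 3 ≤ x := by
      by_contra hlt
      push Not at hlt
      have hr := hP.root
      have hr' := hP'.root
      have : r x = 1 ∧ r' x = 1 := by
        interval_cases x
        · exact ⟨hr.2.2.2.1, hr'.2.2.2.1⟩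
        · exact ⟨hr.2.2.2.2.1, hr'.2.2.2.2.1⟩
        · exact ⟨hr.2.2.2.2.2, hr'.2.2.2.2.2⟩
      rw [this.1, this.2] at hx'
      linarith
    have hs := angle_sum h h0 hP hxV hx3
    have hs' := angle_sum h h0 hP' hxV hx3
    have hang : ∀ t ∈ F.filter (fun t => t.1 = x), ang z' x t.2.1 t.2.2 ≤ ang z x t.2.1 t.2.2 := by
      rintro ⟨v, a, b⟩ ht
      simp only [Finset.mem_filter] at ht
      obtain ⟨ht, rfl⟩ := ht
      have hpos : Pos z v a b := hP.orient _ _ _ ht (rad_not_root hx3)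
      have hpos' : Pos z' v a b := hP'.orient _ _ _ ht (rad_not_root hx3)
      have ha := h.mem2 ht
      have hb := h.mem3 ht
      have hc := rad_cos h hP ht
      have hc' := rad_cos h hP' ht
      have f1 := rad_frac hρ0 (hP.pos _ hxV) (hP.pos _ ha) (hP'.pos _ ha) hx' (hle _ ha)
      have f2 := rad_frac hρ0 (hP.pos _ hxV) (hP.pos _ hb) (hP'.pos _ hb) hx' (hle _ hb)
      have p1 : 0 < r' a / (r' v + r' a) :=
        div_pos (hP'.pos _ ha) (add_pos (hP'.pos _ hxV) (hP'.pos _ ha))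
      have p2 : 0 < r' b / (r' v + r' b) :=
        div_pos (hP'.pos _ hb) (add_pos (hP'.pos _ hxV) (hP'.pos _ hb))
      have hcc : Real.cos (ang z v a b) ≤ Real.cos (ang z' v a b) := by
        rw [hc, hc']
        have := mul_le_mul f1 f2 p2.le (p1.le.trans f1)
        linarith
      by_contra hlt
      push Not at hlt
      have := Real.cos_lt_cos_of_nonneg_of_le_pi hpos.ang_pos.le hpos'.ang_lt.le hlt
      linarith
    have heq := (Finset.sum_eq_sum_iff_of_le hang).1 (hs'.trans hs.symm) (x, y, c)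
      (Finset.mem_filter.2 ⟨hxy, rfl⟩)
    simp only at heq
    have hy := h.mem2 hxy
    have hcV := h.mem3 hxy
    have hc := rad_cos h hP hxy
    have hc' := rad_cos h hP' hxy
    rw [heq, hc] at hc'
    have f1 := rad_frac hρ0 (hP.pos _ hxV) (hP.pos _ hy) (hP'.pos _ hy) hx' (hle _ hy)
    have f2 := rad_frac hρ0 (hP.pos _ hxV) (hP.pos _ hcV) (hP'.pos _ hcV) hx' (hle _ hcV)
    have p2 : 0 < r' c / (r' x + r' c) :=
      div_pos (hP'.pos _ hcV) (add_pos (hP'.pos _ hxV) (hP'.pos _ hcV))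
    have p1 : 0 < r y / (r x + r y) :=
      div_pos (hP.pos _ hy) (add_pos (hP.pos _ hxV) (hP.pos _ hy))
    have hp := rad_prod_eq p1 p2 f1 f2 (by linarith)
    exact rad_frac_eq hρ0 (hP.pos _ hxV) (hP.pos _ hy) (hP'.pos _ hy) hx' hp) h0V
  have h1 : r' 0 = ρ * r 0 := hclosed
  rw [hP.root.2.2.2.1, hP'.root.2.2.2.1] at h1
  linarith

theorem radii_unique {V : Finset ℕ} {F : Finset Tr} {z z' : ℕ → ℂ} {r r' : ℕ → ℝ} (h : IsTri V F)
    (h0 : (0, 1, 2) ∈ F) (hP : IsPacking V F z r) (hP' : IsPacking V F z' r') {v : ℕ}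
    (hv : v ∈ V) : r v = r' v :=
  le_antisymm (rad_le h h0 hP' hP hv) (rad_le h h0 hP hP' hv)

end Pool.Agent.CPL
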