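import Pool.Agent.CPL.ANG
import Pool.Agent.CPL.REL
import Pool.Agent.CPL.INS

set_option autoImplicit false

/-!
# Packings of relabelled triangulations, restriction of packings

`IsPacking.relab`: immediate (`σ` fixes `0, 1, 2`, so rotations of the root face correspond). `IsPacking.of_ins`: the discs of the old vertices form a packing of `F`: the
only new face is `(a, b, c)`; orientation: `Im (conj (b-a) (c-a)) = Im (conj (a-v)(b-v)) + Im (conj (b-v)(c-v)) + Im (conj (c-v)(a-v))`, all three are positive because the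
faces `(v,a,b), (v,b,c), (v,c,a)` of `ins` are not rotations of the root face (`v ≥ 3`). Tangency of `a, b`: the face `(a, b, v)` of `ins`. `sep`: `a', b'` not adjacent in `F` are not
adjacent in `ins` (every dart between old vertices of `ins F v a b c` is a dart of `F`).
-/

namespace Pool.Agent.CPL

open Finset

variable {V : Finset ℕ} {F : Finset Tr} {z : ℕ → ℂ} {r : ℕ → ℝ}

theorem IsPacking.relab (h : IsTri V F) (hP : IsPacking V F z r) (σ : Equiv.Perm ℕ) (h0 : σ 0 = 0)
    (h1 : σ 1 = 1) (h2 : σ 2 = 2) :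
    IsPacking (V.image σ) (relab σ F) (fun i => z (σ.symm i)) (fun i => r (σ.symm i)) := by
  have g0 : σ.symm 0 = 0 := by rw [Equiv.symm_apply_eq, h0]
  have g1 : σ.symm 1 = 1 := by rw [Equiv.symm_apply_eq, h1]
  have g2 : σ.symm 2 = 2 := by rw [Equiv.symm_apply_eq, h2]
  refine ⟨?_, ?_, ?_, ?_, ?_⟩
  · intro a ha
    obtain ⟨a', ha', rfl⟩ := mem_image.1 ha
    simp only [Equiv.symm_apply_apply]
    exact hP.pos a' ha'
  · intro a b c ht
    obtain ⟨a', b', c', h', he⟩ := mem_relab.1 ht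
    simp only [Prod.mk.injEq] at he
    obtain ⟨rfl, rfl, rfl⟩ := he
    simp only [Equiv.symm_apply_apply]
    exact hP.tan a' b' c' h'
  · intro a ha b hb hab hn
    obtain ⟨a', ha', rfl⟩ := mem_image.1 ha
    obtain ⟨b', hb', rfl⟩ := mem_image.1 hb
    simp only [Equiv.symm_apply_apply]
    refine hP.sep a' ha' b' hb' (fun he => hab (by rw [he])) fun c hc => ?_
    exact hn (σ c) (mem_relab.2 ⟨a', b', c, hc, rfl⟩)
  · intro a b c ht hr
    obtain ⟨a', b', c', h', he⟩ := mem_relab.1 ht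
    simp only [Prod.mk.injEq] at he
    obtain ⟨rfl, rfl, rfl⟩ := he
    simp only [Equiv.symm_apply_apply]
    refine hP.orient a' b' c' h' fun hr' => hr ?_
    rw [mem_rots] at hr' ⊢
    simp only [Prod.mk.injEq] at hr' ⊢
    rcases hr' with ⟨rfl, rfl, rfl⟩ | ⟨rfl, rfl, rfl⟩ | ⟨rfl, rfl, rfl⟩
    · exact Or.inl ⟨h0, h1, h2⟩
    · exact Or.inr (Or.inl ⟨h1, h2, h0⟩)
    · exact Or.inr (Or.inr ⟨h2, h0, h1⟩)
  · simp only [g0, g1, g2]
    exact hP.root

theorem mem_ins {v a b c : ℕ} {t : Tr} : t ∈ ins F v a b c ↔ (t ∈ F ∧ t ∉ rots a b c) ∨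
    t ∈ rots v a b ∨ t ∈ rots v b c ∨ t ∈ rots v c a := by
  unfold ins
  simp only [mem_union, mem_sdiff]
  tauto

theorem IsPacking.of_ins {v a b c : ℕ} (h : IsTri V F) (hv : v ∉ V) (hv3 : 3 ≤ v)
    (ht : (a, b, c) ∈ F) (ht0 : (a, b, c) ∉ rots 0 1 2) (h0 : (0, 1, 2) ∈ F)
    (hP : IsPacking (insert v V) (ins F v a b c) z r) : IsPacking V F z r := by
  have hvr : ∀ x y : ℕ, (v, x, y) ∉ rots 0 1 2 := by
    intro x y hr
    rw [mem_rots] at hr
    simp only [Prod.mk.injEq] at hr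
    omega
  have m1 : (v, a, b) ∈ ins F v a b c := by
    rw [mem_ins]; right; left; rw [mem_rots]; left; rfl
  have m2 : (v, b, c) ∈ ins F v a b c := by
    rw [mem_ins]; right; right; left; rw [mem_rots]; left; rfl
  have m3 : (v, c, a) ∈ ins F v a b c := by
    rw [mem_ins]; right; right; right; rw [mem_rots]; left; rfl
  have n1 : (a, b, v) ∈ ins F v a b c := by
    rw [mem_ins]; right; left; rw [mem_rots]; right; left; rfl
  have n2 : (b, c, v) ∈ ins F v a b c := by
    rw [mem_ins]; right; right; left; rw [mem_rots]; right; left; rfl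
  have n3 : (c, a, v) ∈ ins F v a b c := by
    rw [mem_ins]; right; right; right; rw [mem_rots]; right; left; rfl
  have hpos : Pos z a b c := by
    have o1 := hP.orient v a b m1 (hvr a b)
    have o2 := hP.orient v b c m2 (hvr b c)
    have o3 := hP.orient v c a m3 (hvr c a)
    unfold Pos
    simp only [Complex.mul_im, Complex.conj_re, Complex.conj_im, Complex.sub_re, Complex.sub_im]
      at o1 o2 o3 ⊢
    nlinarith
  refine ⟨?_, ?_, ?_, ?_, ?_⟩
  · intro x hx
    exact hP.pos x (mem_insert_of_mem hx)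
  · intro x y w hf
    by_cases hr : (x, y, w) ∈ rots a b c
    · rw [mem_rots] at hr
      simp only [Prod.mk.injEq] at hr
      rcases hr with ⟨rfl, rfl, rfl⟩ | ⟨rfl, rfl, rfl⟩ | ⟨rfl, rfl, rfl⟩
      · exact hP.tan _ _ _ n1
      · exact hP.tan _ _ _ n2
      · exact hP.tan _ _ _ n3
    · exact hP.tan x y w (mem_ins.2 (Or.inl ⟨hf, hr⟩))
  · intro x hx y hy hxy hn
    refine hP.sep x (mem_insert_of_mem hx) y (mem_insert_of_mem hy) hxy fun w hw => ?_
    rw [mem_ins] at hw
    rcases hw with hw | hw | hw | hw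
    · exact hn w hw.1
    · rw [mem_rots] at hw
      simp only [Prod.mk.injEq] at hw
      rcases hw with ⟨rfl, rfl, rfl⟩ | ⟨rfl, rfl, rfl⟩ | ⟨rfl, rfl, rfl⟩
      · exact hv hx
      · exact hn c ht
      · exact hv hy
    · rw [mem_rots] at hw
      simp only [Prod.mk.injEq] at hw
      rcases hw with ⟨rfl, rfl, rfl⟩ | ⟨rfl, rfl, rfl⟩ | ⟨rfl, rfl, rfl⟩
      · exact hv hx
      · exact hn a (h.rot _ _ _ ht)
      · exact hv hy
    · rw [mem_rots] at hw
      simp only [Prod.mk.injEq] at hw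
      rcases hw with ⟨rfl, rfl, rfl⟩ | ⟨rfl, rfl, rfl⟩ | ⟨rfl, rfl, rfl⟩
      · exact hv hx
      · exact hn b (h.rot2 ht)
      · exact hv hy
  · intro x y w hf hr0
    by_cases hr : (x, y, w) ∈ rots a b c
    · rw [mem_rots] at hr
      simp only [Prod.mk.injEq] at hr
      rcases hr with ⟨rfl, rfl, rfl⟩ | ⟨rfl, rfl, rfl⟩ | ⟨rfl, rfl, rfl⟩
      · exact hpos
      · exact hpos.rot
      · exact hpos.rot.rot
    · exact hP.orient x y w (mem_ins.2 (Or.inl ⟨hf, hr⟩)) hr0
  · exact hP.root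

end Pool.Agent.CPL
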