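import Pool.Agent.CPL.LAY
import Pool.Agent.CPL.RES
import Pool.Agent.CPL.NRM
import Pool.Agent.CPL.CPT
import Pool.Agent.CPL.BIJ
import Pool.Agent.CPL.CNT

set_option autoImplicit false

/-!
# The measure `μ_T` is stable under the removal of a vertex of degree 3 and invariant under relabelling

`obs D G F = G (cls (mu D F))`. `G ∘ cls` is continuous on `ProbabilityMeasure S2` and invariant under rotations; `emp s (rotS R ∘ y) = R • emp s y`.
`obs_relInv`: the packing of `relab σ F` is `z ∘ σ⁻¹`, `r ∘ σ⁻¹` by uniqueness (`IsPacking.relab`, `radii_unique`, `centres_unique`); so with `x d` the tangency points of `F`, the measure of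
`relab σ F` is `emp (darts F) (sph A' ∘ x)` with `A' = D.A (relab σ F)`; `exists_rot_close` with `s = t = darts F`, `m = 0`: `rotS R (sph A' (x d)) = sph A (x d)` for all `d`.
`obs_stable`: for `F ∈ Tri n`, `F' = ins F n t`: the packing of `F'` restricts to the one of `F` (`IsPacking.of_ins`, uniqueness); `darts F ⊆ darts F'`, the difference has 6 elements;
`exists_rot_close` (`t = darts F'`, `s = darts F`, `m = 6`), `exists_close`.
-/

namespace Pool.Agent.CPL

open Finset Filter Topology MeasureTheory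

variable {D : Family} {G : ModSO3 → ℝ}

/-- the value of a continuous function of the random measure modulo rotations -/
noncomputable def obs (D : Family) (G : ModSO3 → ℝ) (F : Finset Tr) : ℝ := G (cls (mu D F))

theorem continuous_cls : Continuous cls := continuous_quotient_mk'

theorem cls_smul (R : SO3) (μ : ProbabilityMeasure S2) : cls (R • μ) = cls μ := by
  apply Quotient.sound
  change (MulAction.orbitRel SO3 (ProbabilityMeasure S2)) (R • μ) μ
  rw [MulAction.orbitRel_apply]
  exact MulAction.mem_orbit _ _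

theorem emp_rotS (s : Finset (ℕ × ℕ)) (hs : s.Nonempty) (y : ℕ × ℕ → S2) (R : SO3) :
    emp s (fun d => rotS R (y d)) = R • emp s y := by
  apply Subtype.ext
  change (emp s (fun d => rotS R (y d)) : Measure S2) =
    Measure.map (rotS R) (emp s y : Measure S2)
  rw [emp_toMeasure hs, emp_toMeasure hs]
  have hm : Measurable (rotS R) := (continuous_rotS R).measurable
  ext A hA
  rw [Measure.map_apply hm hA]
  simp only [Measure.smul_apply, Measure.finsetSum_apply]
  congr 1
  refine sum_congr rfl fun d _ => ?_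
  rw [Measure.dirac_apply' _ hA, Measure.dirac_apply' _ (hm hA)]
  rfl

open Classical in
private lemma sta_aux {X : Type*} [MeasurableSpace X] [Nonempty X] {M M' : Measure X}
    (h : M = M') :
    (if h : IsProbabilityMeasure M then (⟨M, h⟩ : ProbabilityMeasure X)
      else ⟨Measure.dirac (Classical.arbitrary X), inferInstance⟩) =
    (if h : IsProbabilityMeasure M' then (⟨M', h⟩ : ProbabilityMeasure X)
      else ⟨Measure.dirac (Classical.arbitrary X), inferInstance⟩) := by
  subst h
  rfl

private lemma sta_emp_congr {ι X : Type*} [MeasurableSpace X] [Nonempty X] {s : Finset ι}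
    {x y : ι → X} (h : ∀ i ∈ s, x i = y i) : emp s x = emp s y := by
  have : (∑ i ∈ s, Measure.dirac (x i)) = ∑ i ∈ s, Measure.dirac (y i) :=
    sum_congr rfl fun i hi => by rw [h i hi]
  exact sta_aux (by rw [this])

private lemma sta_emp_image {ι κ X : Type*} [DecidableEq κ] [MeasurableSpace X] [Nonempty X]
    {s : Finset ι} {e : ι → κ} (he : Set.InjOn e s) (x : κ → X) :
    emp (s.image e) x = emp s (fun i => x (e i)) := by
  have h1 : (∑ i ∈ s.image e, Measure.dirac (x i)) = ∑ i ∈ s, Measure.dirac (x (e i)) :=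
    sum_image he
  have h2 : (s.image e).card = s.card := card_image_of_injOn he
  exact sta_aux (by rw [h1, h2])

private lemma sta_tang_congr {z z' : ℕ → ℂ} {r r' : ℕ → ℝ} {a b a' b' : ℕ} (h1 : z a = z' a')
    (h2 : z b = z' b') (h3 : r a = r' a') (h4 : r b = r' b') :
    tang z r (a, b) = tang z' r' (a', b') := by
  unfold tang
  simp only [h1, h2, h3, h4]

private lemma sta_darts_nonempty {n : ℕ} {F : Finset Tr} (hF : F ∈ Tri n) : (darts F).Nonempty :=
  ⟨(0, 1), mem_darts.mpr ⟨2, (mem_Tri.mp hF).2⟩⟩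

theorem obs_relInv (D : Family) (G : ModSO3 → ℝ) {n : ℕ} (hn : 4 ≤ n) : RelInv n (obs D G) := by
  intro σ h0 h1 h2 hσ F hF
  obtain ⟨hT, hr⟩ := mem_Tri.mp hF
  have hF' := relab_mem_Tri σ h0 h1 h2 hσ hF
  obtain ⟨hT', hr'⟩ := mem_Tri.mp hF'
  have hP := D.packing n hn F hF
  have hP' := D.packing n hn _ hF'
  have hPr := IsPacking.relab hT hP σ h0 h1 h2
  have himg : (range n).image σ = range n := by
    ext i
    rw [mem_image, mem_range]
    constructor
    · rintro ⟨j, hj, rfl⟩
      exact (hσ j).mp (mem_range.mp hj)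
    · intro hi
      refine ⟨σ.symm i, mem_range.mpr ((hσ _).mpr ?_), by simp⟩
      simpa using hi
  rw [himg] at hPr
  have hz : ∀ v ∈ range n, D.z (relab σ F) (σ v) = D.z F v := by
    intro v hv
    have := centres_unique hT' hr' hP' hPr (v := σ v)
      (mem_range.mpr ((hσ v).mp (mem_range.mp hv)))
    simpa using this
  have hrr : ∀ v ∈ range n, D.r (relab σ F) (σ v) = D.r F v := by
    intro v hv
    have := radii_unique hT' hr' hP' hPr (v := σ v)
      (mem_range.mpr ((hσ v).mp (mem_range.mp hv)))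
    simpa using this
  set e : ℕ × ℕ → ℕ × ℕ := fun d => (σ d.1, σ d.2) with he
  have heinj : Function.Injective e := by
    rintro ⟨a, b⟩ ⟨c, d⟩ hh
    simp only [he, Prod.mk.injEq, EmbeddingLike.apply_eq_iff_eq] at hh
    rw [hh.1, hh.2]
  have hdarts : darts (relab σ F) = (darts F).image e := by
    ext ⟨a, b⟩
    rw [mem_darts, mem_image]
    constructor
    · rintro ⟨c, hc⟩
      obtain ⟨a', b', c', h3, h4⟩ := mem_relab.mp hc
      simp only [Prod.mk.injEq] at h4
      exact ⟨(a', b'), mem_darts.mpr ⟨c', h3⟩, by rw [he, h4.1, h4.2.1]⟩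
    · rintro ⟨⟨a', b'⟩, h3, h4⟩
      obtain ⟨c', h5⟩ := mem_darts.mp h3
      simp only [he, Prod.mk.injEq] at h4
      exact ⟨σ c', mem_relab.mpr ⟨a', b', c', h5, by rw [← h4.1, ← h4.2]⟩⟩
  have htang : ∀ d ∈ darts F, tang (D.z (relab σ F)) (D.r (relab σ F)) (e d) =
      tang (D.z F) (D.r F) d := by
    rintro ⟨a, b⟩ hd
    obtain ⟨c, hc⟩ := mem_darts.mp hd
    have ha := hT.mem _ _ _ hc
    have hb := hT.mem2 hc
    exact sta_tang_congr (hz a ha) (hz b hb) (hrr a ha) (hrr b hb)
  have hmu : mu D (relab σ F) = emp (darts F) fun d => sph (D.A (relab σ F))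
      (tang (D.z F) (D.r F) d) := by
    unfold mu
    rw [hdarts, sta_emp_image heinj.injOn]
    exact sta_emp_congr fun d hd => by rw [htang d hd]
  have hb1 := D.bary n hn F hF
  have hb2 := D.bary n hn _ hF'
  rw [hdarts, sum_image heinj.injOn] at hb2
  have hb3 : ∑ d ∈ darts F, (sph (D.A (relab σ F)) (tang (D.z F) (D.r F) d) : E3) = 0 := by
    rw [← hb2]
    exact sum_congr rfl fun d hd => by rw [htang d hd]
  obtain ⟨R, hR⟩ := exists_rot_close (s := darts F) (t := darts F) (Subset.refl _) (m := 0)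
    (by simp) (fun d => tang (D.z F) (D.r F) d) (D.det_ne n hn F hF) (D.det_ne n hn _ hF') hb1 hb3
  have hR2 : ∀ d ∈ darts F, rotS R (sph (D.A (relab σ F)) (tang (D.z F) (D.r F) d)) =
      sph (D.A F) (tang (D.z F) (D.r F) d) := by
    intro d hd
    have h3 := single_le_sum (f := fun d => ‖(rotS R (sph (D.A (relab σ F))
      (tang (D.z F) (D.r F) d)) : E3) - sph (D.A F) (tang (D.z F) (D.r F) d)‖ ^ 2)
      (fun i _ => sq_nonneg _) hd
    have h4 := h3.trans hR
    simp only [Nat.cast_zero, mul_zero] at h4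
    have h5 := pow_eq_zero_iff (two_ne_zero) |>.mp (le_antisymm h4 (sq_nonneg _))
    exact Subtype.ext (sub_eq_zero.mp (norm_eq_zero.mp h5))
  unfold obs
  rw [hmu]
  have hmu2 : mu D F = R • emp (darts F) fun d => sph (D.A (relab σ F))
      (tang (D.z F) (D.r F) d) := by
    rw [← emp_rotS _ (sta_darts_nonempty hF)]
    unfold mu
    exact sta_emp_congr fun d hd => (hR2 d hd).symm
  rw [hmu2, cls_smul]

private lemma sta_dart_ins {F : Finset Tr} {v a b c : ℕ} :
    darts F ⊆ darts (ins F v a b c) := by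
  rintro ⟨x, y⟩ hd
  obtain ⟨w, hw⟩ := mem_darts.mp hd
  rw [mem_darts]
  by_cases h1 : (x, y, w) ∈ rots a b c
  · refine ⟨v, ?_⟩
    unfold ins
    rcases mem_rots.mp h1 with h2 | h2 | h2 <;> simp only [Prod.mk.injEq] at h2 <;>
      obtain ⟨rfl, rfl, rfl⟩ := h2 <;> simp [mem_rots]
  · exact ⟨w, mem_union_left _ (mem_sdiff.mpr ⟨hw, h1⟩)⟩

theorem obs_stable (D : Family) (hG : Continuous G) {ε : ℝ} (hε : 0 < ε) :
    ∃ N : ℕ, ∀ n, N ≤ n → ∀ F ∈ Tri n, ∀ t ∈ cf F,
      |obs D G (ins F n t.1 t.2.1 t.2.2) - obs D G F| ≤ ε := by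
  obtain ⟨N, hN⟩ := exists_close (G := fun μ => G (cls μ)) (hG.comp continuous_cls) hε
  refine ⟨N + 4, ?_⟩
  rintro n hn F hF ⟨a, b, c⟩ ht
  obtain ⟨hT, h0⟩ := mem_Tri.mp hF
  have hF' := ins_mem_Tri hF ht
  simp only at hF' ⊢
  obtain ⟨hT', h0'⟩ := mem_Tri.mp hF'
  obtain ⟨h1, h2, h3, h4⟩ := mem_cf.mp ht
  have hn4 : 4 ≤ n := by omega
  have hP := D.packing n hn4 F hF
  have hP' := D.packing (n + 1) (by omega) _ hF'
  have hnr : (a, b, c) ∉ rots 0 1 2 := by
    intro h5
    rcases mem_rots.mp h5 with h6 | h6 | h6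
    · exact h4 h6
    · simp only [Prod.mk.injEq] at h6
      omega
    · simp only [Prod.mk.injEq] at h6
      omega
  have hPr := IsPacking.of_ins hT (v := n) (by simp) (by omega) h1 hnr h0
    (by rw [← range_add_one]; exact hP')
  set F' := ins F n a b c with hF'def
  have htang : ∀ d ∈ darts F, tang (D.z F') (D.r F') d = tang (D.z F) (D.r F) d := by
    rintro ⟨x, y⟩ hd
    obtain ⟨w, hw⟩ := mem_darts.mp hd
    have hx := hT.mem _ _ _ hw
    have hy := hT.mem2 hw
    exact sta_tang_congr (centres_unique hT h0 hPr hP hx) (centres_unique hT h0 hPr hP hy)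
      (radii_unique hT h0 hPr hP hx) (radii_unique hT h0 hPr hP hy)
  have hsub : darts F ⊆ darts F' := sta_dart_ins
  have hc1 : (darts F).card = F.card := hT.card_darts
  have hc2 : (darts F').card = F'.card := hT'.card_darts
  have he1 := hT.euler
  have he2 := hT'.euler
  rw [card_range] at he1 he2
  have hc3 : (darts F' \ darts F).card ≤ 6 := by
    rw [card_sdiff_of_subset hsub]
    omega
  have hb1 := D.bary (n + 1) (by omega) F' hF'
  have hb2 : ∑ d ∈ darts F, (sph (D.A F) (tang (D.z F') (D.r F') d) : E3) = 0 := by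
    rw [← D.bary n hn4 F hF]
    exact sum_congr rfl fun d hd => by rw [htang d hd]
  obtain ⟨R, hR⟩ := exists_rot_close hsub hc3
    (fun d => tang (D.z F') (D.r F') d) (D.det_ne (n + 1) (by omega) F' hF')
    (D.det_ne n hn4 F hF) hb1 hb2
  have key := hN (darts F) (darts F') (fun d => sph (D.A F') (tang (D.z F') (D.r F') d))
    (fun d => rotS R (sph (D.A F) (tang (D.z F') (D.r F') d))) hsub hc3 (by omega) (by
      refine le_trans (le_of_eq (sum_congr rfl fun d _ => ?_)) (hR.trans (by norm_num))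
      rw [Subtype.dist_eq, dist_comm, dist_eq_norm])
  have hmu : emp (darts F) (fun d => sph (D.A F) (tang (D.z F') (D.r F') d)) = mu D F := by
    unfold mu
    exact sta_emp_congr fun d hd => by rw [htang d hd]
  rw [emp_rotS _ (sta_darts_nonempty hF), hmu] at key
  simp only [cls_smul] at key
  exact key

end Pool.Agent.CPL
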