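import Pool.Agent.CPL.ANG

set_option autoImplicit false

/-!
# The angle sums at inner vertices are `2π`

Let `A v = ∑_{t ∈ F, t.1 = v, t ∉ rots 0 1 2} ang z v t.2.1 t.2.2`. `∑_{v ∈ V} A v = π (|F| - 3) / 3 = π (2 |V| - 5)` by `Pos.ang_sum` (sum over all non root triples of the
sum over the three rotations). The product of `exp (i ang)` over all faces at `v` is `1`: it is `∏ g b / g a` over the faces `(v, a, b)`, `g a = (z a - z v)/‖z a - z v‖`,
and `(v,a,b) ↦ a`, `(v,a,b) ↦ b` are both bijections of the faces at `v` onto the neighbours of `v` (`uniq`, `next`, `prev`). So for `v ≥ 3`: `A v ∈ 2π ℤ`, `A v > 0`, so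
`A v ≥ 2π`; for `v = 0, 1, 2`: the factor of the root face is `exp (- i π/3)` (explicit centres), so `A v ∈ π/3 + 2π ℤ` and `A v ≥ 0`, so `A v ≥ π/3`.
The sum of the lower bounds is `2π (|V| - 3) + π = π (2 |V| - 5)`, so all are equalities.
-/

namespace Pool.Agent.CPL

open Finset

private theorem sum_prod_one {V : Finset ℕ} {F : Finset Tr} (h : IsTri V F) (v : ℕ) (g : ℕ → ℂ)
    (hg : ∀ t ∈ F.filter (fun t => t.1 = v), g t.2.1 ≠ 0) :
    ∏ t ∈ F.filter (fun t => t.1 = v), (g t.2.2 / g t.2.1) = 1 := by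
  rw [Finset.prod_div_distrib]
  have hinj1 : Set.InjOn (fun t : Tr => t.2.1) (F.filter (fun t => t.1 = v) : Finset Tr) := by
    rintro ⟨a, b, c⟩ h1 ⟨a', b', c'⟩ h2 he
    simp only [Finset.coe_filter, Set.mem_ofPred_eq] at h1 h2
    simp only at he
    obtain ⟨h1, rfl⟩ := h1
    obtain ⟨h2, rfl⟩ := h2
    subst he
    rw [h.uniq3 h1 h2]
  have hinj2 : Set.InjOn (fun t : Tr => t.2.2) (F.filter (fun t => t.1 = v) : Finset Tr) := by
    rintro ⟨a, b, c⟩ h1 ⟨a', b', c'⟩ h2 he
    simp only [Finset.coe_filter, Set.mem_ofPred_eq] at h1 h2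
    simp only at he
    obtain ⟨h1, rfl⟩ := h1
    obtain ⟨h2, rfl⟩ := h2
    subst he
    rw [h.uniq2 h1 h2]
  have himg : (F.filter (fun t => t.1 = v)).image (fun t : Tr => t.2.1)
      = (F.filter (fun t => t.1 = v)).image (fun t : Tr => t.2.2) := by
    ext a
    simp only [Finset.mem_image, Finset.mem_filter]
    constructor
    · rintro ⟨⟨x, y, w⟩, ⟨h1, rfl⟩, rfl⟩
      obtain ⟨c, hc⟩ := h.prev h1
      exact ⟨(x, c, y), ⟨hc, rfl⟩, rfl⟩
    · rintro ⟨⟨x, y, w⟩, ⟨h1, rfl⟩, rfl⟩
      obtain ⟨c, hc⟩ := h.next h1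
      exact ⟨(x, w, c), ⟨hc, rfl⟩, rfl⟩
  have e1 : ∏ t ∈ F.filter (fun t => t.1 = v), g t.2.1
      = ∏ a ∈ (F.filter (fun t => t.1 = v)).image (fun t : Tr => t.2.1), g a :=
    (Finset.prod_image hinj1).symm
  have e2 : ∏ t ∈ F.filter (fun t => t.1 = v), g t.2.2
      = ∏ a ∈ (F.filter (fun t => t.1 = v)).image (fun t : Tr => t.2.2), g a :=
    (Finset.prod_image hinj2).symm
  have hne : ∏ t ∈ F.filter (fun t => t.1 = v), g t.2.1 ≠ 0 := Finset.prod_ne_zero_iff.2 hg
  have e3 : ∏ t ∈ F.filter (fun t => t.1 = v), g t.2.2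
      = ∏ t ∈ F.filter (fun t => t.1 = v), g t.2.1 := by
    rw [e1, e2, himg]
  rw [e3, div_self hne]

private theorem sum_z_ne {V : Finset ℕ} {F : Finset Tr} {z : ℕ → ℂ} {r : ℕ → ℝ} (h : IsTri V F)
    (hP : IsPacking V F z r) {a b c : ℕ} (ht : (a, b, c) ∈ F) : z b ≠ z a := by
  intro he
  have h1 := hP.tan a b c ht
  rw [he, dist_self] at h1
  have h2 := hP.pos a (h.mem _ _ _ ht)
  have h3 := hP.pos b (h.mem2 ht)
  linarith

private theorem sum_exp_one {V : Finset ℕ} {F : Finset Tr} {z : ℕ → ℂ} {r : ℕ → ℝ}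
    (h : IsTri V F) (hP : IsPacking V F z r) (v : ℕ) :
    ∃ k : ℤ, ∑ t ∈ F.filter (fun t => t.1 = v), ang z v t.2.1 t.2.2 = k * (2 * Real.pi) := by
  have h1 := sum_prod_one h v (fun a => (z a - z v) / (‖z a - z v‖ : ℂ)) (by
    rintro ⟨x, y, w⟩ ht
    simp only [Finset.mem_filter] at ht
    obtain ⟨ht, rfl⟩ := ht
    have hne := sum_z_ne h hP ht
    have h2 : z y - z x ≠ 0 := sub_ne_zero.2 hne
    simp only
    refine div_ne_zero h2 ?_
    exact_mod_cast norm_ne_zero_iff.2 h2)
  have h2 : ∏ t ∈ F.filter (fun t => t.1 = v), Complex.exp (ang z v t.2.1 t.2.2 * Complex.I) = 1 := by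
    rw [← h1]
    refine Finset.prod_congr rfl ?_
    rintro ⟨x, y, w⟩ ht
    simp only [Finset.mem_filter] at ht
    obtain ⟨ht, rfl⟩ := ht
    simp only
    exact exp_ang (sum_z_ne h hP ht) (by
      obtain ⟨c, hc⟩ := h.opp _ _ _ (h.rot2 ht)
      exact sum_z_ne h hP hc)
  rw [← Complex.exp_sum, ← Finset.sum_mul, Complex.exp_eq_one_iff] at h2
  obtain ⟨k, hk⟩ := h2
  refine ⟨k, ?_⟩
  have h3 : ((∑ t ∈ F.filter (fun t => t.1 = v), ang z v t.2.1 t.2.2 : ℝ) : ℂ)
      = ((k * (2 * Real.pi) : ℝ) : ℂ) := by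
    push_cast
    have h4 : (∑ t ∈ F.filter (fun t => t.1 = v), (ang z v t.2.1 t.2.2 : ℂ)) * Complex.I
        = (k * (2 * Real.pi)) * Complex.I := by rw [hk]; ring
    exact mul_right_cancel₀ Complex.I_ne_zero h4
  exact_mod_cast h3

private theorem sum_arg : Complex.arg ((1 - (Real.sqrt 3 : ℝ) * Complex.I) / 2) = -(Real.pi / 3) := by
  have h1 : ((1 - (Real.sqrt 3 : ℝ) * Complex.I) / 2 : ℂ)
      = Complex.cos ((-(Real.pi / 3) : ℝ) : ℂ) + Complex.sin ((-(Real.pi / 3) : ℝ) : ℂ) * Complex.I := by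
    rw [← Complex.ofReal_cos, ← Complex.ofReal_sin, Real.cos_neg, Real.sin_neg,
      Real.cos_pi_div_three, Real.sin_pi_div_three]
    push_cast
    ring
  rw [h1]
  refine Complex.arg_cos_add_sin_mul_I ⟨?_, ?_⟩
  · linarith [Real.pi_pos]
  · linarith [Real.pi_pos]

private theorem sum_root {V : Finset ℕ} {F : Finset Tr} {z : ℕ → ℂ} {r : ℕ → ℝ}
    (hP : IsPacking V F z r) :
    ang z 0 1 2 = -(Real.pi / 3) ∧ ang z 1 2 0 = -(Real.pi / 3) ∧ ang z 2 0 1 = -(Real.pi / 3) := by
  obtain ⟨h0, h1, h2, _⟩ := hP.root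
  have hs : ((Real.sqrt 3 : ℝ) : ℂ) * ((Real.sqrt 3 : ℝ) : ℂ) = 3 := by
    rw [← Complex.ofReal_mul, Real.mul_self_sqrt (by norm_num)]
    norm_num
  have hI := Complex.I_mul_I
  have hre1 : (-((Real.sqrt 3 : ℝ) : ℂ) * Complex.I - 1) ≠ 0 := by
    intro he
    have := congrArg Complex.re he
    simp at this
  have hre2 : (-1 - -((Real.sqrt 3 : ℝ) : ℂ) * Complex.I) ≠ 0 := by
    intro he
    have := congrArg Complex.re he
    simp at this
  refine ⟨?_, ?_, ?_⟩
  · rw [← sum_arg]
    unfold ang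
    rw [h0, h1, h2]
    congr 1
    rw [div_eq_div_iff (by norm_num) (by norm_num)]
    ring
  · rw [← sum_arg]
    unfold ang
    rw [h0, h1, h2]
    congr 1
    rw [div_eq_div_iff hre1 (by norm_num)]
    linear_combination (-(Complex.I * Complex.I)) * hs - 3 * hI
  · rw [← sum_arg]
    unfold ang
    rw [h0, h1, h2]
    congr 1
    rw [div_eq_div_iff hre2 (by norm_num)]
    linear_combination (Complex.I * Complex.I) * hs + 3 * hI

theorem angle_sum {V : Finset ℕ} {F : Finset Tr} {z : ℕ → ℂ} {r : ℕ → ℝ} (h : IsTri V F)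
    (h0 : (0, 1, 2) ∈ F) (hP : IsPacking V F z r) {v : ℕ} (hv : v ∈ V) (hv3 : 3 ≤ v) :
    ∑ t ∈ F.filter (fun t => t.1 = v), ang z v t.2.1 t.2.2 = 2 * Real.pi := by
  have hpi := Real.pi_pos
  set F' : Finset Tr := F.filter (fun t => t ∉ rots 0 1 2) with hF'
  have hpos : ∀ t ∈ F', Pos z t.1 t.2.1 t.2.2 := by
    rintro ⟨a, b, c⟩ ht
    rw [hF', Finset.mem_filter] at ht
    exact hP.orient a b c ht.1 ht.2
  set A : ℕ → ℝ := fun v => ∑ t ∈ F'.filter (fun t => t.1 = v), ang z t.1 t.2.1 t.2.2 with hA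
  -- the total
  have hV012 : (0 : ℕ) ∈ V ∧ (1 : ℕ) ∈ V ∧ (2 : ℕ) ∈ V := ⟨h.mem _ _ _ h0, h.mem2 h0, h.mem3 h0⟩
  have hcardF' : (F'.card : ℝ) = F.card - 3 := by
    have h1 : F'.card + (rots 0 1 2).card = F.card := by
      have h2 := Finset.card_filter_add_card_filter_not (s := F) (fun t => t ∈ rots 0 1 2)
      have h3 : F.filter (fun t => t ∈ rots 0 1 2) = rots 0 1 2 := by
        ext t
        simp only [Finset.mem_filter]
        exact ⟨fun h => h.2, fun h' => ⟨h.rots_subset h0 h', h'⟩⟩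
      rw [h3] at h2
      rw [hF']
      omega
    rw [card_rots (by norm_num) (by norm_num) (by norm_num)] at h1
    have : (F.card : ℝ) = F'.card + 3 := by exact_mod_cast h1.symm
    linarith
  have htot1 : ∑ v ∈ V, A v = ∑ t ∈ F', ang z t.1 t.2.1 t.2.2 := by
    rw [hA]
    exact Finset.sum_fiberwise_of_maps_to (fun t ht => by
      obtain ⟨a, b, c⟩ := t
      exact h.mem _ _ _ (Finset.mem_filter.1 ht).1) _
  have hrotF' : ∀ a b c, (a, b, c) ∈ F' → (b, c, a) ∈ F' := by
    intro a b c ht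
    rw [hF', Finset.mem_filter] at ht ⊢
    refine ⟨h.rot _ _ _ ht.1, fun h1 => ht.2 ?_⟩
    rw [mem_rots] at h1 ⊢
    simp only [Prod.mk.injEq] at h1 ⊢
    tauto
  have hrot1 : ∑ t ∈ F', ang z t.2.1 t.2.2 t.1 = ∑ t ∈ F', ang z t.1 t.2.1 t.2.2 := by
    refine Finset.sum_nbij' (fun t => (t.2.1, t.2.2, t.1)) (fun t => (t.2.2, t.1, t.2.1)) ?_ ?_ ?_ ?_ ?_
    · rintro ⟨a, b, c⟩ ht; exact hrotF' _ _ _ ht
    · rintro ⟨a, b, c⟩ ht; exact hrotF' _ _ _ (hrotF' _ _ _ ht)
    · rintro ⟨a, b, c⟩ _; rfl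
    · rintro ⟨a, b, c⟩ _; rfl
    · rintro ⟨a, b, c⟩ _; rfl
  have hrot2 : ∑ t ∈ F', ang z t.2.2 t.1 t.2.1 = ∑ t ∈ F', ang z t.1 t.2.1 t.2.2 := by
    refine Finset.sum_nbij' (fun t => (t.2.2, t.1, t.2.1)) (fun t => (t.2.1, t.2.2, t.1)) ?_ ?_ ?_ ?_ ?_
    · rintro ⟨a, b, c⟩ ht; exact hrotF' _ _ _ (hrotF' _ _ _ ht)
    · rintro ⟨a, b, c⟩ ht; exact hrotF' _ _ _ ht
    · rintro ⟨a, b, c⟩ _; rfl
    · rintro ⟨a, b, c⟩ _; rfl
    · rintro ⟨a, b, c⟩ _; rfl
  have htot : ∑ v ∈ V, A v = Real.pi * (2 * V.card - 5) := by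
    have h1 : ∑ t ∈ F', (ang z t.1 t.2.1 t.2.2 + ang z t.2.1 t.2.2 t.1 + ang z t.2.2 t.1 t.2.1)
        = F'.card * Real.pi := by
      rw [Finset.sum_congr rfl (fun t ht => (hpos t ht).ang_sum), Finset.sum_const, nsmul_eq_mul]
    rw [Finset.sum_add_distrib, Finset.sum_add_distrib, hrot1, hrot2, hcardF'] at h1
    have h2 : (F.card : ℝ) + 12 = 6 * V.card := by exact_mod_cast h.euler
    rw [htot1]
    have h3 : (F.card : ℝ) = 6 * V.card - 12 := by linarith
    rw [h3] at h1
    linarith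
  -- the lower bounds
  set B : ℕ → ℝ := fun v => if v < 3 then Real.pi / 3 else 2 * Real.pi with hB
  have hAF : ∀ v, A v = ∑ t ∈ (F.filter (fun t => t.1 = v)).filter (fun t => t ∉ rots 0 1 2),
      ang z v t.2.1 t.2.2 := by
    intro v
    rw [hA]
    simp only
    rw [hF', Finset.filter_filter, Finset.filter_filter]
    refine Finset.sum_congr ?_ ?_
    · ext t; simp only [Finset.mem_filter]; tauto
    · intro t ht
      simp only [Finset.mem_filter] at ht
      rw [ht.2.1]
  have hsplit : ∀ v, ∑ t ∈ F.filter (fun t => t.1 = v), ang z v t.2.1 t.2.2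
      = ∑ t ∈ (F.filter (fun t => t.1 = v)).filter (fun t => t ∈ rots 0 1 2),
        ang z v t.2.1 t.2.2 + A v := by
    intro v
    rw [hAF]
    exact (Finset.sum_filter_add_sum_filter_not _ _ _).symm
  have hbig : ∀ v, 3 ≤ v → A v = ∑ t ∈ F.filter (fun t => t.1 = v), ang z v t.2.1 t.2.2 := by
    intro v hv
    rw [hsplit]
    have : (F.filter (fun t => t.1 = v)).filter (fun t => t ∈ rots 0 1 2) = ∅ := by
      apply Finset.eq_empty_of_forall_notMem
      intro t ht
      simp only [Finset.mem_filter, mem_rots] at ht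
      rcases ht.2 with rfl | rfl | rfl
      · have := ht.1.2; simp only at this; omega
      · have := ht.1.2; simp only at this; omega
      · have := ht.1.2; simp only at this; omega
    rw [this, Finset.sum_empty, zero_add]
  have hAnn : ∀ v, 0 ≤ A v := by
    intro v
    rw [hA]
    refine Finset.sum_nonneg fun t ht => ?_
    exact (hpos t (Finset.mem_filter.1 ht).1).ang_pos.le
  have hsmall : ∀ v, v < 3 → ∃ k : ℤ, A v = Real.pi / 3 + k * (2 * Real.pi) := by
    intro v hv
    obtain ⟨k, hk⟩ := sum_exp_one h hP v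
    refine ⟨k, ?_⟩
    rw [hsplit] at hk
    obtain ⟨r0, r1, r2⟩ := sum_root hP
    have hval : ∑ t ∈ (F.filter (fun t => t.1 = v)).filter (fun t => t ∈ rots 0 1 2),
        ang z v t.2.1 t.2.2 = -(Real.pi / 3) := by
      interval_cases v
      · have e : (F.filter (fun t => t.1 = 0)).filter (fun t => t ∈ rots 0 1 2) = {(0, 1, 2)} := by
          ext t
          simp only [Finset.mem_filter, mem_rots, Finset.mem_singleton]
          constructor
          · rintro ⟨⟨_, h2⟩, rfl | rfl | rfl⟩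
            · rfl
            · simp at h2
            · simp at h2
          · rintro rfl
            exact ⟨⟨h0, rfl⟩, Or.inl rfl⟩
        rw [e, Finset.sum_singleton]
        exact r0
      · have e : (F.filter (fun t => t.1 = 1)).filter (fun t => t ∈ rots 0 1 2) = {(1, 2, 0)} := by
          ext t
          simp only [Finset.mem_filter, mem_rots, Finset.mem_singleton]
          constructor
          · rintro ⟨⟨_, h2⟩, rfl | rfl | rfl⟩
            · simp at h2
            · rfl
            · simp at h2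
          · rintro rfl
            exact ⟨⟨h.rot _ _ _ h0, rfl⟩, Or.inr (Or.inl rfl)⟩
        rw [e, Finset.sum_singleton]
        exact r1
      · have e : (F.filter (fun t => t.1 = 2)).filter (fun t => t ∈ rots 0 1 2) = {(2, 0, 1)} := by
          ext t
          simp only [Finset.mem_filter, mem_rots, Finset.mem_singleton]
          constructor
          · rintro ⟨⟨_, h2⟩, rfl | rfl | rfl⟩
            · simp at h2
            · simp at h2
            · rfl
          · rintro rfl
            exact ⟨⟨h.rot2 h0, rfl⟩, Or.inr (Or.inr rfl)⟩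
        rw [e, Finset.sum_singleton]
        exact r2
    rw [hval] at hk
    linarith
  have hVcard : 4 ≤ V.card := by
    have h1 : ({0, 1, 2, v} : Finset ℕ) ⊆ V := by
      intro x hx
      simp only [Finset.mem_insert, Finset.mem_singleton] at hx
      rcases hx with rfl | rfl | rfl | rfl
      · exact hV012.1
      · exact hV012.2.1
      · exact hV012.2.2
      · exact hv
    have h2 : ({0, 1, 2, v} : Finset ℕ).card = 4 := by
      rw [Finset.card_insert_of_notMem, Finset.card_insert_of_notMem,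
        Finset.card_insert_of_notMem, Finset.card_singleton]
      · simp only [Finset.mem_singleton]; omega
      · simp only [Finset.mem_insert, Finset.mem_singleton]; omega
      · simp only [Finset.mem_insert, Finset.mem_singleton]; omega
    rw [← h2]
    exact Finset.card_le_card h1
  have hle : ∀ w ∈ V, B w ≤ A w := by
    intro w hw
    rcases lt_or_ge w 3 with hw3 | hw3
    · obtain ⟨k, hk⟩ := hsmall w hw3
      have hB' : B w = Real.pi / 3 := by rw [hB]; simp only [if_pos hw3]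
      rw [hB', hk]
      have h1 := hAnn w
      rw [hk] at h1
      have hk0 : 0 ≤ k := by
        by_contra hneg
        push Not at hneg
        have h2 : (k : ℝ) ≤ -1 := by exact_mod_cast Int.le_sub_one_of_lt hneg
        nlinarith
      have h3 : (0 : ℝ) ≤ k := by exact_mod_cast hk0
      nlinarith
    · obtain ⟨k, hk⟩ := sum_exp_one h hP w
      have hB' : B w = 2 * Real.pi := by rw [hB]; simp only [if_neg (not_lt.2 hw3)]
      have hAw := hbig w hw3
      rw [hB', hAw, hk]
      have hpos' : 0 < A w := by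
        rw [hA]
        refine Finset.sum_pos (fun t ht => (hpos t (Finset.mem_filter.1 ht).1).ang_pos) ?_
        have h3 := h.three_le_deg hVcard hw
        have h4 : 0 < (F.filter fun t => t.1 = w).card := by
          unfold deg at h3
          omega
        obtain ⟨t, ht⟩ := Finset.card_pos.1 h4
        refine ⟨t, ?_⟩
        rw [hF', Finset.mem_filter, Finset.mem_filter]
        rw [Finset.mem_filter] at ht
        refine ⟨⟨ht.1, ?_⟩, ht.2⟩
        intro h5
        rw [mem_rots] at h5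
        rcases h5 with rfl | rfl | rfl
        · have := ht.2; simp only at this; omega
        · have := ht.2; simp only at this; omega
        · have := ht.2; simp only at this; omega
      rw [hAw, hk] at hpos'
      have hk0 : 1 ≤ k := by
        by_contra hneg
        push Not at hneg
        have h2 : (k : ℝ) ≤ 0 := by exact_mod_cast Int.lt_add_one_iff.1 hneg
        nlinarith
      have h3 : (1 : ℝ) ≤ k := by exact_mod_cast hk0
      nlinarith
  have hBsum : ∑ w ∈ V, B w = Real.pi * (2 * V.card - 5) := by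
    rw [hB]
    simp only
    rw [Finset.sum_ite, Finset.sum_const, Finset.sum_const, nsmul_eq_mul, nsmul_eq_mul]
    have e1 : V.filter (fun w => w < 3) = {0, 1, 2} := by
      ext w
      simp only [Finset.mem_filter, Finset.mem_insert, Finset.mem_singleton]
      constructor
      · rintro ⟨_, h1⟩; omega
      · rintro (rfl | rfl | rfl)
        · exact ⟨hV012.1, by norm_num⟩
        · exact ⟨hV012.2.1, by norm_num⟩
        · exact ⟨hV012.2.2, by norm_num⟩
    have e2 := Finset.card_filter_add_card_filter_not (s := V) (fun w => w < 3)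
    have e3 : (V.filter (fun w => w < 3)).card = 3 := by rw [e1]; rfl
    rw [e3] at e2 ⊢
    have e4 : ((V.filter (fun w => ¬ w < 3)).card : ℝ) = V.card - 3 := by
      have : (V.card : ℝ) = 3 + (V.filter (fun w => ¬ w < 3)).card := by exact_mod_cast e2.symm
      linarith
    rw [e4]
    push_cast
    ring
  have heq := (Finset.sum_eq_sum_iff_of_le hle).1 (hBsum.trans htot.symm) v hv
  have hB' : B v = 2 * Real.pi := by rw [hB]; simp only [if_neg (not_lt.2 hv3)]
  rw [← hbig v hv3, ← heq, hB']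

end Pool.Agent.CPL
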