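import Pool.Agent.CPL.FXE
import Pool.Agent.CPL.FLP
import Pool.Agent.CPL.CNT

set_option autoImplicit false

/-!
# The ratio of consecutive numbers of triangulations is bounded

`card_deg_le`: for `F` with `deg F n = k + 1 ≥ 4` choose a flip (`exists_flip`), the map `F ↦ (flp F n u a b, (a, b))` is injective
(`flp_inv`: `u` is determined by the face `(b, a, u)` of the flipped triangulation) with values in the pairs (triangulation in which `n`
has degree `k`, face `(n, a, b)`), `k` values of `(a, b)` for each.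
Then `N_4 ≤ 3 N_3`, `N_5 ≤ 12 N_3`, `N_6 ≤ 60 N_3`, so `#{deg F n ≤ 6} ≤ 76 N_3 = 76 (2n-5) cc n`.
`sum_deg`: the sum of `deg - 3` over all vertices is `3 (n+1) - 12`, all terms are `≥ 0` (`three_le_deg`), so at most `(3 n - 9)/4` vertices have
degree `≥ 7` and at least `(n + 1) / 4` inner vertices have degree `≤ 6`. `sum_exch` with `P d = (d ≤ 6)` and `Φ = 1`.
-/

namespace Pool.Agent.CPL

open Finset

variable {n k : ℕ}

theorem card_deg_le (hn : 3 ≤ n) (hk : 3 ≤ k)
    (hP : ∀ F ∈ Tri (n + 1), ∃ z r, IsPacking (range (n + 1)) F z r) :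
    ((Tri (n + 1)).filter fun F => deg F n = k + 1).card ≤
      k * ((Tri (n + 1)).filter fun F => deg F n = k).card := by
  classical
  have hV : 4 ≤ (range (n + 1)).card := by rw [card_range]; omega
  have hnV : n ∈ range (n + 1) := mem_range.mpr (Nat.lt_succ_self n)
  have hex : ∀ F : Finset Tr, ∃ q : ℕ × ℕ × ℕ, F ∈ Tri (n + 1) → deg F n = k + 1 →
      (n, q.1, q.2.1) ∈ F ∧ (n, q.2.1, q.2.2) ∈ F ∧ q.1 ≠ q.2.2 ∧ ∀ c, (q.1, q.2.2, c) ∉ F := by
    intro F
    by_cases hF : F ∈ Tri (n + 1) ∧ deg F n = k + 1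
    · obtain ⟨z, r, hPack⟩ := hP F hF.1
      obtain ⟨a, u, b, h1, h2, h3, h4⟩ :=
        exists_flip (mem_Tri.mp hF.1).1 hPack hV hnV (by rw [hF.2]; omega)
      exact ⟨(a, u, b), fun _ _ => ⟨h1, h2, h3, h4⟩⟩
    · exact ⟨(0, 0, 0), fun h1 h2 => absurd ⟨h1, h2⟩ hF⟩
  choose q hq using hex
  set S := (Tri (n + 1)).filter fun F => deg F n = k + 1 with hS
  set T := (Tri (n + 1)).filter fun F => deg F n = k with hT
  let f : Finset Tr → (Σ _ : Finset Tr, Tr) := fun F =>
    ⟨flp F n (q F).2.1 (q F).1 (q F).2.2, (n, (q F).1, (q F).2.2)⟩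
  have hmaps : ∀ F ∈ S, f F ∈ T.sigma fun G => G.filter fun t => t.1 = n := by
    intro F hF
    rw [hS, mem_filter] at hF
    obtain ⟨h1, h2, h3, h4⟩ := hq F hF.1 hF.2
    have hF1 := mem_Tri.mp hF.1
    have h5 := hF1.1.flp h1 h2 h3 h4
    have h6 := hF1.1.deg_flp h1 h2 h3 h4
    have h7 := (hF1.1.flp_inv h1 h2 h3 h4).2.2
    rw [mem_sigma]
    refine ⟨?_, ?_⟩
    · rw [hT, mem_filter]
      refine ⟨mem_Tri.mpr ⟨h5, root_mem_flp hn hF1.2⟩, ?_⟩
      change deg (flp F n (q F).2.1 (q F).1 (q F).2.2) n = k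
      have := hF.2
      omega
    · rw [mem_filter]
      exact ⟨h7, rfl⟩
  have hinj : Set.InjOn f S := by
    intro F hF F' hF' heq
    have hF : F ∈ Tri (n + 1) ∧ deg F n = k + 1 := by
      have : F ∈ S := by exact_mod_cast hF
      rwa [hS, mem_filter] at this
    have hF' : F' ∈ Tri (n + 1) ∧ deg F' n = k + 1 := by
      have : F' ∈ S := by exact_mod_cast hF'
      rwa [hS, mem_filter] at this
    obtain ⟨h1, h2, h3, h4⟩ := hq F hF.1 hF.2
    obtain ⟨h1', h2', h3', h4'⟩ := hq F' hF'.1 hF'.2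
    have hF1 := mem_Tri.mp hF.1
    have hF1' := mem_Tri.mp hF'.1
    obtain ⟨i1, i2, -⟩ := hF1.1.flp_inv h1 h2 h3 h4
    obtain ⟨i1', i2', -⟩ := hF1'.1.flp_inv h1' h2' h3' h4'
    have h5 := hF1.1.flp h1 h2 h3 h4
    simp only [f, Sigma.mk.injEq, heq_eq_eq, Prod.mk.injEq, true_and] at heq
    obtain ⟨e1, e2, e3⟩ := heq
    rw [← e1, ← e2, ← e3] at i1' i2'
    have e4 : (q F).2.1 = (q F').2.1 := h5.uniq3 i2 i2'
    rw [← e4] at i1'
    rw [i1, i1']
  calc S.card ≤ (T.sigma fun G => G.filter fun t => t.1 = n).card :=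
        card_le_card_of_injOn f hmaps hinj
    _ = ∑ G ∈ T, (G.filter fun t => t.1 = n).card := card_sigma _ _
    _ = ∑ G ∈ T, k := by
        refine sum_congr rfl fun G hG => ?_
        rw [hT, mem_filter] at hG
        exact hG.2
    _ = k * T.card := by rw [sum_const, smul_eq_mul, mul_comm]

private theorem upb_low (hn : 3 ≤ n) {F : Finset Tr} (hF : F ∈ Tri (n + 1)) :
    ((n : ℝ) + 1) / 4 ≤ (((Ico 3 (n + 1)).filter fun v => deg F v ≤ 6).card : ℝ) := by
  have hF1 := (mem_Tri.mp hF).1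
  have hV : 4 ≤ (range (n + 1)).card := by rw [card_range]; omega
  have h1 : ∑ v ∈ range (n + 1), deg F v + 12 = 6 * (n + 1) := by
    rw [hF1.sum_deg, hF1.euler, card_range]
  have h2 : ∀ v ∈ range (n + 1), 3 ≤ deg F v := fun v hv => hF1.three_le_deg hV hv
  have hsplit : ∑ v ∈ range (n + 1), deg F v = ∑ v ∈ range 3, deg F v + ∑ v ∈ Ico 3 (n + 1), deg F v := by
    rw [sum_range_add_sum_Ico _ (by omega)]
  have h3 : 9 ≤ ∑ v ∈ range 3, deg F v := by
    rw [sum_range_succ, sum_range_succ, sum_range_succ, sum_range_zero]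
    have a0 := h2 0 (mem_range.mpr (by omega))
    have a1 := h2 1 (mem_range.mpr (by omega))
    have a2 := h2 2 (mem_range.mpr (by omega))
    omega
  have h4 : ∑ v ∈ Ico 3 (n + 1), (if deg F v ≤ 6 then 3 else 7) ≤ ∑ v ∈ Ico 3 (n + 1), deg F v := by
    refine sum_le_sum fun v hv => ?_
    have h5 := h2 v (mem_range.mpr (mem_Ico.mp hv).2)
    split_ifs with h6 <;> omega
  have h5 : ∑ v ∈ Ico 3 (n + 1), (if deg F v ≤ 6 then 3 else 7) =
      3 * ((Ico 3 (n + 1)).filter fun v => deg F v ≤ 6).card +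
        7 * ((Ico 3 (n + 1)).filter fun v => ¬ deg F v ≤ 6).card := by
    rw [sum_ite, sum_const, sum_const, smul_eq_mul, smul_eq_mul, mul_comm, mul_comm _ 7]
  have h6 : ((Ico 3 (n + 1)).filter fun v => deg F v ≤ 6).card +
      ((Ico 3 (n + 1)).filter fun v => ¬ deg F v ≤ 6).card = n - 2 := by
    rw [card_filter_add_card_filter_not, Nat.card_Ico]
    omega
  have h7 : n + 1 ≤ 4 * ((Ico 3 (n + 1)).filter fun v => deg F v ≤ 6).card := by omega
  have h8 : ((n : ℝ) + 1) ≤ 4 * (((Ico 3 (n + 1)).filter fun v => deg F v ≤ 6).card : ℝ) := by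
    exact_mod_cast h7
  linarith

theorem cc_succ_le (hn : 3 ≤ n)
    (hP : ∀ F ∈ Tri (n + 1), ∃ z r, IsPacking (range (n + 1)) F z r) :
    (cc (n + 1) : ℝ) ≤ 608 * ((n - 2 : ℝ) * cc n) := by
  classical
  have hV : 4 ≤ (range (n + 1)).card := by rw [card_range]; omega
  have hnV : n ∈ range (n + 1) := mem_range.mpr (Nat.lt_succ_self n)
  have a4 := card_deg_le hn (k := 3) le_rfl hP
  have a5 := card_deg_le hn (k := 4) (by norm_num) hP
  have a6 := card_deg_le hn (k := 5) (by norm_num) hP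
  simp only [Nat.reduceAdd] at a4 a5 a6
  have hsub : ((Tri (n + 1)).filter fun F => deg F n ≤ 6) ⊆
      ((Tri (n + 1)).filter fun F => deg F n = 3) ∪ ((Tri (n + 1)).filter fun F => deg F n = 4) ∪
        ((Tri (n + 1)).filter fun F => deg F n = 5) ∪ ((Tri (n + 1)).filter fun F => deg F n = 6) := by
    intro F hF
    rw [mem_filter] at hF
    have h3 := (mem_Tri.mp hF.1).1.three_le_deg hV hnV
    simp only [mem_union, mem_filter]
    have h6 := hF.2
    have : deg F n = 3 ∨ deg F n = 4 ∨ deg F n = 5 ∨ deg F n = 6 := by omega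
    tauto
  have hle : ((Tri (n + 1)).filter fun F => deg F n ≤ 6).card ≤
      76 * ((Tri (n + 1)).filter fun F => deg F n = 3).card := by
    refine (card_le_card hsub).trans ?_
    refine (card_union_le _ _).trans ?_
    refine (Nat.add_le_add_right ((card_union_le _ _).trans
      (Nat.add_le_add_right (card_union_le _ _) _)) _).trans ?_
    omega
  have h3 := card_N3 hn
  have hex := sum_exch hn (fun _ => (1 : ℝ)) (fun _ _ _ _ _ _ _ => rfl) (fun d => d ≤ 6)
  simp only [mul_one, sum_const, nsmul_eq_mul] at hex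
  have hlow : ((n : ℝ) + 1) / 4 * (cc (n + 1) : ℝ) ≤
      ∑ F ∈ Tri (n + 1), (((Ico 3 (n + 1)).filter fun v => deg F v ≤ 6).card : ℝ) := by
    unfold cc
    rw [mul_comm, ← nsmul_eq_mul]
    exact card_nsmul_le_sum _ _ _ fun F hF => upb_low hn hF
  have hle' : (((Tri (n + 1)).filter fun F => deg F n ≤ 6).card : ℝ) ≤
      76 * ((2 * n - 5) * cc n) := by
    rw [← h3]
    exact_mod_cast hle
  have hn' : (3 : ℝ) ≤ n := by exact_mod_cast hn
  have hcc : (0 : ℝ) ≤ cc n := Nat.cast_nonneg _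
  have hfin : ((n : ℝ) + 1) / 4 * (cc (n + 1) : ℝ) ≤ (n - 2) * (76 * ((2 * n - 5) * cc n)) := by
    refine hlow.trans ?_
    rw [hex]
    exact mul_le_mul_of_nonneg_left hle' (by linarith)
  have h9 : ((n : ℝ) + 1) * (cc (n + 1) : ℝ) ≤ ((n : ℝ) + 1) * (608 * ((n - 2 : ℝ) * cc n)) := by
    have h10 : 0 ≤ ((n : ℝ) - 2) * cc n := mul_nonneg (by linarith) hcc
    nlinarith
  exact le_of_mul_le_mul_left h9 (by linarith)

end Pool.Agent.CPL
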